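import Pool.Agent.H63.SW.Main

/-!
# PrimU: many primes `1 mod M` between `x` and `2x`, uniformly for `M² ≤ log x`

Proof. `Pool.Agent.SW.theta_char (1/2) _ 2` (`H63/SW/Main.lean`): `‖Σ_(p ≤ x) χ(p) log p‖ ≤ C x/(log x)²` for all
`χ ≠ 1` modulo `M ≤ (log x)^(1/2)`; `Pool.Agent.SW.theta_pnt 2`: `|θ(x) - x| ≤ C x/(log x)²`.  Apply both at `x`
and `2x`.  Orthogonality of the characters modulo `M`
(`Σ_χ χ(p) = φ(M)` if `p = 1 mod M`, `0` otherwise; in Mathlib `DirichletCharacter.sum_char_inv_mul_char_eq` or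
`sum_characters_eq`; see also `Pool/Agent/H17/RP/CntChar.lean`):
`φ(M) Σ_(x < p ≤ 2x, p = 1 mod M) log p = Σ_(x < p ≤ 2x, p ∤ M) log p + Σ_(χ ≠ 1) Σ_(x<p≤2x) χ(p) log p`.
Primes `p > x` do not divide `M` (`M ≤ x`).  So the sum over `p = 1 mod M` is at least
`(x - C' x/(log x)²)/φ(M) - C' x/(log x)² ≥ x/(4 M)` for large `x` (`M ≤ (log x)^(1/2)`), and every term is
`≤ log (2x) ≤ 2 log x`.
-/

set_option autoImplicit false

namespace Pool.Agent.H62.RV

open Finset

private theorem PrimU_split {E : Type*} [AddCommGroup E] (g : ℕ → E) (x : ℕ) :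
    ∑ p ∈ (Ioc x (2 * x)).filter Nat.Prime, g p =
      ∑ p ∈ (Ioc 0 (2 * x)).filter Nat.Prime, g p - ∑ p ∈ (Ioc 0 x).filter Nat.Prime, g p := by
  rw [Finset.sum_filter, Finset.sum_filter, Finset.sum_filter, eq_sub_iff_add_eq, add_comm]
  exact Finset.sum_Ioc_consecutive _ (Nat.zero_le x) (by omega)

private theorem PrimU_orth {M : ℕ} (hM : 0 < M) (x : ℕ) :
    ∑ χ : DirichletCharacter ℂ M, ∑ p ∈ (Ioc x (2 * x)).filter Nat.Prime,
        χ (p : ZMod M) * ((Real.log p : ℝ) : ℂ) =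
      (M.totient : ℂ) * ((∑ p ∈ (Ioc x (2 * x)).filter (fun p : ℕ => p.Prime ∧ p % M = 1 % M),
        Real.log p : ℝ) : ℂ) := by
  have : NeZero M := ⟨hM.ne'⟩
  rw [Finset.sum_comm]
  have h1 : ∀ p : ℕ, ∑ χ : DirichletCharacter ℂ M, χ (p : ZMod M) * ((Real.log p : ℝ) : ℂ) =
      if p % M = 1 % M then (M.totient : ℂ) * ((Real.log p : ℝ) : ℂ) else 0 := by
    intro p
    have h2 := DirichletCharacter.sum_char_inv_mul_char_eq ℂ
      (isUnit_one : IsUnit (1 : ZMod M)) ((p : ℕ) : ZMod M)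
    have h3 : ∀ χ : DirichletCharacter ℂ M, χ ((1 : ZMod M)⁻¹) = 1 := by
      intro χ
      have h4 : (1 : ZMod M)⁻¹ = 1 := by
        have := ZMod.inv_mul_of_unit (1 : ZMod M) isUnit_one
        rwa [mul_one] at this
      rw [h4, map_one]
    simp only [h3, one_mul] at h2
    rw [← Finset.sum_mul, h2]
    have h5 : (1 : ZMod M) = (p : ZMod M) ↔ p % M = 1 % M := by
      have h6 := ZMod.natCast_eq_natCast_iff' p 1 M
      rw [Nat.cast_one] at h6
      exact ⟨fun h => h6.1 h.symm, fun h => (h6.2 h).symm⟩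
    by_cases h7 : p % M = 1 % M
    · rw [if_pos (h5.2 h7), if_pos h7]
    · rw [if_neg (fun h => h7 (h5.1 h)), if_neg h7, zero_mul]
  rw [Finset.sum_congr rfl fun p _ => h1 p, ← Finset.sum_filter, Finset.filter_filter,
    ← Finset.mul_sum]
  push_cast
  rfl

theorem primes_one : ∃ c : ℝ, 0 < c ∧ ∃ x0 : ℕ, ∀ x ≥ x0, ∀ M : ℕ, 0 < M →
    (M : ℝ) ^ 2 ≤ Real.log x →
    c * x / (M * Real.log x) ≤
      (((Ioc x (2 * x)).filter (fun p : ℕ => p.Prime ∧ p % M = 1 % M)).card : ℝ) := by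
  obtain ⟨C1, hC1⟩ := Pool.Agent.SW.theta_char (1 / 2) (by norm_num) 2
  obtain ⟨C2, hC2⟩ := Pool.Agent.SW.theta_pnt 2
  set L0 : ℝ := 12 * (|C1| + |C2| + 1) with hL0
  have hL0p : 12 ≤ L0 := by
    have := abs_nonneg C1
    have := abs_nonneg C2
    rw [hL0]
    linarith
  refine ⟨1 / 4, by norm_num, ⌈Real.exp L0⌉₊ + 2, ?_⟩
  intro x hx M hM hMx
  have : NeZero M := ⟨hM.ne'⟩
  have hxe : Real.exp L0 ≤ (x : ℝ) := by
    have h1 : ⌈Real.exp L0⌉₊ ≤ x := by omega
    exact (Nat.le_ceil _).trans (by exact_mod_cast h1)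
  have hx2 : (2 : ℝ) ≤ (x : ℝ) := by exact_mod_cast (by omega : 2 ≤ x)
  have hx0 : (0 : ℝ) < (x : ℝ) := by linarith
  have hlog : L0 ≤ Real.log x := (Real.le_log_iff_exp_le hx0).2 hxe
  have hlp : 0 < Real.log x := by linarith
  have hM1 : (1 : ℝ) ≤ (M : ℝ) := by exact_mod_cast hM
  have hMlog : (M : ℝ) ≤ Real.log x := by nlinarith
  have hlx : Real.log x ≤ (x : ℝ) := (Real.log_le_sub_one_of_pos hx0).trans (by linarith)
  have hMxn : M ≤ x := by exact_mod_cast hMlog.trans hlx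
  have hlog2 : Real.log x ≤ Real.log (2 * x) := Real.log_le_log hx0 (by linarith)
  have hlog2' : Real.log (2 * x) ≤ 2 * Real.log x := by
    rw [Real.log_mul (by norm_num) hx0.ne']
    have := Real.log_le_log (by norm_num : (0 : ℝ) < 2) hx2
    linarith
  -- the condition on the modulus
  have hroot : ∀ y : ℝ, Real.log x ≤ y → (M : ℝ) ≤ y ^ (1 - 1 / 2 : ℝ) := by
    intro y hy
    have hy0 : 0 ≤ y := hlp.le.trans hy
    have e : (1 - 1 / 2 : ℝ) = 1 / 2 := by norm_num
    rw [e, ← Real.sqrt_eq_rpow]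
    exact Real.le_sqrt_of_sq_le (hMx.trans hy)
  have hx2x : (2 : ℝ) ≤ 2 * (x : ℝ) := by linarith
  have hfx : ⌊(x : ℝ)⌋₊ = x := Nat.floor_natCast x
  have hf2x : ⌊2 * (x : ℝ)⌋₊ = 2 * x := by
    have : (2 * (x : ℝ)) = ((2 * x : ℕ) : ℝ) := by push_cast; ring
    rw [this, Nat.floor_natCast]
  -- bounds `C y / (log y)^2`
  have hb : ∀ C : ℝ, C * x / Real.log x ^ 2 ≤ |C| * x / Real.log x ^ 2 := by
    intro C
    gcongr
    exact le_abs_self C
  have hb2 : ∀ C : ℝ, C * (2 * x) / Real.log (2 * x) ^ 2 ≤ |C| * (2 * x) / Real.log x ^ 2 := by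
    intro C
    have h1 : C * (2 * x) ≤ |C| * (2 * x) := by
      gcongr
      exact le_abs_self C
    have h2 : 0 ≤ |C| * (2 * x) := by positivity
    calc C * (2 * x) / Real.log (2 * x) ^ 2 ≤ |C| * (2 * x) / Real.log (2 * x) ^ 2 := by gcongr
      _ ≤ |C| * (2 * x) / Real.log x ^ 2 := by gcongr
  -- characters
  have hchar : ∀ χ : DirichletCharacter ℂ M, χ ≠ 1 →
      ‖∑ p ∈ (Ioc x (2 * x)).filter Nat.Prime, χ (p : ZMod M) * ((Real.log p : ℝ) : ℂ)‖ ≤
        3 * |C1| * x / Real.log x ^ 2 := by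
    intro χ hχ
    have h1 := hC1 x hx2 M hM (hroot _ le_rfl) χ hχ
    have h2 := hC1 (2 * x) hx2x M hM (hroot _ hlog2) χ hχ
    rw [hfx] at h1
    rw [hf2x] at h2
    rw [PrimU_split]
    refine (norm_sub_le _ _).trans ?_
    refine (add_le_add (h2.trans (hb2 C1)) (h1.trans (hb C1))).trans (le_of_eq ?_)
    ring
  -- the trivial character
  have htriv : (x : ℝ) - 3 * |C2| * x / Real.log x ^ 2 ≤
      (∑ p ∈ (Ioc x (2 * x)).filter Nat.Prime,
        (1 : DirichletCharacter ℂ M) (p : ZMod M) * ((Real.log p : ℝ) : ℂ)).re := by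
    have h1 := hC2 x hx2
    have h2 := hC2 (2 * x) hx2x
    have e1 : ∑ p ∈ (Ioc x (2 * x)).filter Nat.Prime,
        (1 : DirichletCharacter ℂ M) (p : ZMod M) * ((Real.log p : ℝ) : ℂ) =
        ((∑ p ∈ (Ioc x (2 * x)).filter Nat.Prime, Real.log p : ℝ) : ℂ) := by
      rw [Complex.ofReal_sum]
      refine Finset.sum_congr rfl fun p hp => ?_
      rw [Finset.mem_filter, Finset.mem_Ioc] at hp
      have hcop : p.Coprime M := by
        rw [Nat.Prime.coprime_iff_not_dvd hp.2]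
        intro hd
        have := Nat.le_of_dvd hM hd
        omega
      have h3 := MulChar.one_apply_coe (R' := ℂ) (ZMod.unitOfCoprime p hcop)
      rw [ZMod.coe_unitOfCoprime] at h3
      rw [h3, one_mul]
    rw [e1, Complex.ofReal_re, PrimU_split]
    have e2 : ∑ p ∈ (Ioc 0 (2 * x)).filter Nat.Prime, Real.log p = Chebyshev.theta (2 * x) := by
      rw [Chebyshev.theta, hf2x]
    have e3 : ∑ p ∈ (Ioc 0 x).filter Nat.Prime, Real.log p = Chebyshev.theta x := by
      rw [Chebyshev.theta, hfx]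
    rw [e2, e3]
    have h4 := (abs_le.1 (h1.trans (hb C2))).2
    have h5 := (abs_le.1 (h2.trans (hb2 C2))).1
    have h6 : 3 * |C2| * x / Real.log x ^ 2 =
        |C2| * (2 * x) / Real.log x ^ 2 + |C2| * x / Real.log x ^ 2 := by ring
    rw [h6]
    linarith
  -- orthogonality
  set T : ℝ := ∑ p ∈ (Ioc x (2 * x)).filter (fun p : ℕ => p.Prime ∧ p % M = 1 % M),
    Real.log p with hT
  have horth := PrimU_orth hM x
  rw [← hT] at horth
  have hφ : 0 < M.totient := Nat.totient_pos.2 hM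
  have hφ' : (0 : ℝ) < M.totient := by exact_mod_cast hφ
  have hφM : (M.totient : ℝ) ≤ M := by exact_mod_cast Nat.totient_le M
  have hre := congrArg Complex.re horth
  have e4 : ((M.totient : ℂ) * (T : ℂ)).re = M.totient * T := by
    have : ((M.totient : ℂ) * (T : ℂ)) = (((M.totient : ℝ) * T : ℝ) : ℂ) := by push_cast; ring
    rw [this, Complex.ofReal_re]
  rw [e4, Complex.re_sum] at hre
  have hcard : Fintype.card (DirichletCharacter ℂ M) = M.totient := by
    rw [← Nat.card_eq_fintype_card]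
    exact DirichletCharacter.card_eq_totient_of_hasEnoughRootsOfUnity ℂ M
  have hlow : (x : ℝ) - 3 * |C2| * x / Real.log x ^ 2 -
      M.totient * (3 * |C1| * x / Real.log x ^ 2) ≤ M.totient * T := by
    classical
    rw [← hre, ← Finset.add_sum_erase _ _ (Finset.mem_univ (1 : DirichletCharacter ℂ M))]
    have h1 : -(M.totient * (3 * |C1| * x / Real.log x ^ 2)) ≤
        ∑ χ ∈ (Finset.univ : Finset (DirichletCharacter ℂ M)).erase 1,
          (∑ p ∈ (Ioc x (2 * x)).filter Nat.Prime,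
            χ (p : ZMod M) * ((Real.log p : ℝ) : ℂ)).re := by
      have h2 : ∀ χ ∈ (Finset.univ : Finset (DirichletCharacter ℂ M)).erase 1,
          -(3 * |C1| * x / Real.log x ^ 2) ≤ (∑ p ∈ (Ioc x (2 * x)).filter Nat.Prime,
            χ (p : ZMod M) * ((Real.log p : ℝ) : ℂ)).re := by
        intro χ hχ
        have h3 := hchar χ (Finset.ne_of_mem_erase hχ)
        have h4 := (abs_le.1 ((Complex.abs_re_le_norm _).trans h3)).1
        exact h4
      have h5 := Finset.card_nsmul_le_sum _ _ _ h2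
      have h6 : ((Finset.univ : Finset (DirichletCharacter ℂ M)).erase 1).card ≤ M.totient := by
        rw [← hcard]
        exact (Finset.card_erase_le).trans (le_of_eq Finset.card_univ)
      have h7 : (0 : ℝ) ≤ 3 * |C1| * x / Real.log x ^ 2 := by positivity
      have h8 : (((Finset.univ : Finset (DirichletCharacter ℂ M)).erase 1).card : ℝ) ≤
          M.totient := by exact_mod_cast h6
      rw [nsmul_eq_mul] at h5
      refine le_trans ?_ h5
      have := mul_le_mul_of_nonneg_right h8 h7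
      linarith
    linarith
  -- numbers
  have hs1 : 3 * |C2| * x / Real.log x ^ 2 ≤ x / 4 := by
    rw [div_le_iff₀ (by positivity)]
    have h1 : 12 * |C2| ≤ Real.log x := by
      have := abs_nonneg C1
      rw [hL0] at hlog
      linarith
    have h2 : 12 * |C2| ≤ Real.log x ^ 2 := by nlinarith
    nlinarith
  have hs2 : M * (3 * |C1| * x / Real.log x ^ 2) ≤ x / 4 := by
    rw [← mul_div_assoc, div_le_iff₀ (by positivity)]
    have h1 : 12 * |C1| ≤ Real.log x := by
      have := abs_nonneg C2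
      rw [hL0] at hlog
      linarith
    have h2 : M * (12 * |C1|) ≤ Real.log x ^ 2 := by
      rw [sq]
      exact mul_le_mul hMlog h1 (by positivity) hlp.le
    nlinarith
  have hs3 : M.totient * (3 * |C1| * x / Real.log x ^ 2) ≤ x / 4 :=
    (mul_le_mul_of_nonneg_right hφM (by positivity)).trans hs2
  have hT0 : 0 ≤ T := Finset.sum_nonneg fun p _ => Real.log_natCast_nonneg p
  have hMT : (x : ℝ) / 2 ≤ M * T := by
    have h1 : M.totient * T ≤ M * T := mul_le_mul_of_nonneg_right hφM hT0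
    linarith
  -- count
  have hTc : T ≤ (((Ioc x (2 * x)).filter (fun p : ℕ => p.Prime ∧ p % M = 1 % M)).card : ℝ) *
      (2 * Real.log x) := by
    rw [hT, ← nsmul_eq_mul]
    refine Finset.sum_le_card_nsmul _ _ _ fun p hp => ?_
    rw [Finset.mem_filter, Finset.mem_Ioc] at hp
    have hp0 : (0 : ℝ) < (p : ℝ) := by exact_mod_cast hp.2.1.pos
    have hp2 : (p : ℝ) ≤ 2 * x := by exact_mod_cast hp.1.2
    exact (Real.log_le_log hp0 hp2).trans hlog2'
  rw [div_le_iff₀ (by positivity)]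
  have h1 := mul_le_mul_of_nonneg_left hTc (by positivity : (0 : ℝ) ≤ (M : ℝ))
  have h2 := hMT.trans h1
  linarith

end Pool.Agent.H62.RV
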