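import Pool.Agent.H62.RV.Full
import Pool.Agent.H62.RV.PrimU
import Pool.Agent.H17.RP.Ann

/-!
# AnnC: many vectors of prime norm in one class

Variant of `ann` in `H17/RP/Ann.lean`.

Proof. Let `p = 1 mod M` be a prime, `A^4 < p ≤ 2 A^4` (`3 ∣ M`, so `p = 1 mod 3`).  `p = Nm w` (`exists_rep`); as in
`Ann_vec` some rotation `rot^[k] w`, `k < 6`, is in `RR A K` (copy the proof), so `w = rot^[6-k] (rot^[k] w)` is in
`RF A K` (`rot^[6] = id`).  `3 ∤ w.1` (`three_dvd`), so `w.1 = 1 mod 3` or `(-w).1 = 1 mod 3`; `-w = rot^[3] w`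
is in `RF A K` too (the same argument applied to `-w`).  So there is `w_p ∈ RF A K` with `Nm w_p = p`,
`w_p.1 % 3 = 1`.  There are `M²` classes `κ ∈ [0, M)²`; by the pigeonhole principle
(`Finset.exists_le_card_fiber_of_mul_le_card_of_maps_to`) one of them contains at least `1/M²` of the `w_p`.
`κ = w_p mod M` for one of these `p`, so `M ∣ Nm κ - p`, `M ∣ p - 1`, and `κ.1 % 3 = w_p.1 % 3 = 1` (`3 ∣ M`).  (If
there is no prime at all the bound of `primes_one` is violated; the class is not empty because the bound is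
positive.)  The `w_p` are different and `lam p = -1`.
The number is at least `c A^4/(M log (A^4) M²) ≥ c' A^4/(log A)^4` (`M ≤ log A`; `primes_one` for `x = A^4`,
`M² ≤ log A ≤ log (A^4)`).
-/

set_option autoImplicit false

namespace Pool.Agent.H62.RV

open Finset Pool.Agent.H17.RP

private theorem AnnC_mem_sel {ι : Type} {S : Finset ι} {Q : ι → Prop} {x : ι} :
    x ∈ sel S Q ↔ x ∈ S ∧ Q x := by
  classical
  unfold sel
  rw [mem_filter]

private theorem AnnC_rot_pow (k : ℕ) (w : ℤ × ℤ) : Nm (rot^[k] w) = Nm w := by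
  induction k with
  | zero => simp
  | succ k ih => rw [Function.iterate_succ_apply', Nm_rot, ih]

private theorem AnnC_rot_six (w : ℤ × ℤ) : rot^[6] w = w := by
  obtain ⟨x, y⟩ := w
  have r3 : ∀ x y : ℤ, rot^[3] (x, y) = (-x, -y) := by
    intro x y
    show rot (rot (rot (x, y))) = _
    unfold rot
    exact Prod.ext (by show _ = -x; ring) (by show _ = -y; ring)
  have r6 : rot^[6] (x, y) = rot^[3] (rot^[3] (x, y)) := rfl
  rw [r6, r3, r3, neg_neg, neg_neg]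

private theorem AnnC_vec (A K : ℕ) (hA : 1 ≤ A) (hK : 1 ≤ K) (p : ℕ) (hp : p.Prime)
    (h1 : A ^ 4 < p) (h2 : p ≤ 2 * A ^ 4) (w : ℤ × ℤ) (hw : Nm w = p) : w ∈ RF A K := by
  have hp0 : 0 < p := hp.pos
  have hw0 : w ≠ 0 := by
    intro h
    rw [h] at hw
    simp [Nm, F] at hw
    omega
  obtain ⟨k, hk, hy, harg⟩ := exists_rot hw0
  obtain ⟨v, hv⟩ : ∃ v, v = rot^[k] w := ⟨_, rfl⟩
  rw [← hv] at hy harg
  have hNv : Nm v = p := by rw [hv, AnnC_rot_pow, hw]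
  have hx := (arg_iff (x := v.1) (y := v.2) hy).1 harg
  obtain ⟨hx1, hx2⟩ := hx
  have hN : v.1 ^ 2 + 3 * v.1 * v.2 + 3 * v.2 ^ 2 = (p : ℤ) := by
    rw [← hNv]; unfold Nm F; ring
  have h1' : (A : ℤ) ^ 4 < p := by exact_mod_cast h1
  have h2' : (p : ℤ) ≤ 2 * (A : ℤ) ^ 4 := by exact_mod_cast h2
  have hA1 : (1 : ℤ) ≤ A := by exact_mod_cast hA
  have e1 : (p : ℤ) ≤ v.2 ^ 2 := by nlinarith
  have e2 : 3 * v.2 ^ 2 ≤ 4 * (p : ℤ) := by
    nlinarith [sq_nonneg (2 * v.1 + 3 * v.2)]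
  have hmem : v ∈ RR A K := by
    refine (mem_RR hA).2 ⟨⟨?_, ?_⟩, ⟨hx1, hx2⟩, ?_⟩
    · apply le_of_lt
      apply lt_of_pow_lt_pow_left₀ 2 hy.le
      calc ((A : ℤ) ^ 2) ^ 2 = (A : ℤ) ^ 4 := by ring
        _ < (p : ℤ) := h1'
        _ ≤ v.2 ^ 2 := e1
    · apply le_of_lt
      apply lt_of_pow_lt_pow_left₀ 2 (by positivity)
      have : (0 : ℤ) < (A : ℤ) ^ 4 := by positivity
      nlinarith
    · rw [hNv]
      intro q hq hqp
      have hqp' : q ∣ p := by exact_mod_cast hqp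
      have : q = p := (Nat.prime_dvd_prime_iff_eq hq hp).1 hqp'
      subst this
      calc A ≤ A ^ 4 := Nat.le_self_pow (by norm_num) A
        _ < q := h1
        _ ≤ q ^ K := Nat.le_self_pow (by omega) q
  rw [mem_RF]
  rcases Nat.eq_zero_or_pos k with h0 | h0
  · refine ⟨0, by norm_num, v, hmem, ?_⟩
    rw [hv, h0]
    rfl
  · refine ⟨6 - k, by omega, v, hmem, ?_⟩
    rw [hv, ← Function.iterate_add_apply, Nat.sub_add_cancel hk.le, AnnC_rot_six]

private theorem AnnC_norm {p : ℕ} (hp : p.Prime) (h3 : p % 3 = 1) :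
    ∃ w : ℤ × ℤ, Nm w = p ∧ w.1 % 3 = 1 := by
  obtain ⟨w, hw⟩ := exists_rep hp h3
  have h : ¬ (3 : ℤ) ∣ w.1 := by
    rw [← three_dvd, hw]
    intro h
    have : 3 ∣ p := by exact_mod_cast h
    omega
  rcases (by omega : w.1 % 3 = 1 ∨ w.1 % 3 = 2) with h1 | h1
  · exact ⟨w, hw, h1⟩
  · refine ⟨(-w.1, -w.2), ?_, ?_⟩
    · rw [← hw]
      unfold Nm F
      ring
    · show (-w.1) % 3 = 1
      omega

theorem annC (K : ℕ) (hK : 1 ≤ K) : ∃ c : ℝ, 0 < c ∧ ∃ A0 : ℕ, ∀ A ≥ A0,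
    ∀ M : ℕ, 0 < M → 3 ∣ M → (M : ℝ) ^ 2 ≤ Real.log A →
    ∃ κ : ℤ × ℤ, (M : ℤ) ∣ Nm κ - 1 ∧ κ.1 % 3 = 1 ∧
      c * (A : ℝ) ^ 4 / Real.log A ^ 4 ≤ (cs (SF A K M κ) (fun w => lam (Nm w) = -1) : ℝ) := by
  classical
  obtain ⟨c, hc, x0, hx0⟩ := primes_one
  refine ⟨c / 4, by positivity, x0 + 2, fun A hA M hM0 hM3 hML => ?_⟩
  have hA2 : 2 ≤ A := by omega
  have hA2' : (2 : ℝ) ≤ A := by exact_mod_cast hA2
  have hlog4 : Real.log ((A ^ 4 : ℕ) : ℝ) = 4 * Real.log A := by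
    push_cast
    rw [Real.log_pow]
    norm_num
  have hM1 : (1 : ℝ) ≤ M := by exact_mod_cast hM0
  have hl1 : 1 ≤ Real.log A := le_trans (by nlinarith) hML
  have hAA : A ≤ A ^ 4 := Nat.le_self_pow (by norm_num) A
  have hq := hx0 (A ^ 4) (by omega) M hM0 (by rw [hlog4]; linarith)
  rw [hlog4] at hq
  obtain ⟨S, hS⟩ : ∃ S : Finset ℕ,
      S = (Ioc (A ^ 4) (2 * A ^ 4)).filter (fun p : ℕ => p.Prime ∧ p % M = 1 % M) := ⟨_, rfl⟩
  rw [← hS] at hq
  have hSM : ∀ p ∈ S, (M : ℤ) ∣ (p : ℤ) - 1 := by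
    intro p hp
    rw [hS, mem_filter] at hp
    have h1 : p ≡ 1 [MOD M] := hp.2.2
    exact (Nat.modEq_iff_dvd.1 h1.symm)
  have hS3 : ∀ p ∈ S, p % 3 = 1 := by
    intro p hp
    have h1 := hSM p hp
    obtain ⟨k, rfl⟩ := hM3
    have h2 : (3 : ℤ) ∣ (p : ℤ) - 1 := dvd_trans ⟨(k : ℤ), by push_cast; ring⟩ h1
    omega
  have hSv : ∀ p ∈ S, ∃ w : ℤ × ℤ, Nm w = p ∧ w.1 % 3 = 1 := by
    intro p hp
    have h3 := hS3 p hp
    rw [hS, mem_filter] at hp
    exact AnnC_norm hp.2.1 h3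
  choose! f hf1 hf2 using hSv
  have hfR : ∀ p ∈ S, f p ∈ RF A K := by
    intro p hp
    have h3 := hf1 p hp
    rw [hS, mem_filter, mem_Ioc] at hp
    exact AnnC_vec A K (by omega) hK p hp.2.1 hp.1.1 hp.1.2 (f p) h3
  have hM0' : (0 : ℤ) < M := by exact_mod_cast hM0
  have hmaps : ∀ p ∈ S, (((f p).1 % (M : ℤ), (f p).2 % (M : ℤ)) : ℤ × ℤ) ∈
      Ico (0 : ℤ) M ×ˢ Ico (0 : ℤ) M := by
    intro p _
    rw [mem_product, mem_Ico, mem_Ico]
    exact ⟨⟨Int.emod_nonneg _ hM0'.ne', Int.emod_lt_of_pos _ hM0'⟩,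
      ⟨Int.emod_nonneg _ hM0'.ne', Int.emod_lt_of_pos _ hM0'⟩⟩
  have hcardT : ((Ico (0 : ℤ) M ×ˢ Ico (0 : ℤ) M).card : ℕ) = M * M := by
    rw [card_product, Int.card_Ico, sub_zero, Int.toNat_natCast]
  have hne : (Ico (0 : ℤ) M ×ˢ Ico (0 : ℤ) M).Nonempty := by
    rw [← card_pos, hcardT]
    positivity
  obtain ⟨κ, hκ, hκc⟩ := exists_le_card_fiber_of_nsmul_le_card_of_maps_to (b := (S.card : ℝ) / (M * M))
    hmaps hne (by
      rw [hcardT, nsmul_eq_mul]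
      push_cast
      rw [mul_div_cancel₀]
      positivity)
  obtain ⟨Sk, hSk⟩ : ∃ Sk : Finset ℕ,
      Sk = S.filter (fun p => (((f p).1 % (M : ℤ), (f p).2 % (M : ℤ)) : ℤ × ℤ) = κ) := ⟨_, rfl⟩
  have hκc' : (S.card : ℝ) / (M * M) ≤ (Sk.card : ℝ) := by rw [hSk]; exact hκc
  have hScard : 0 < (S.card : ℝ) := lt_of_lt_of_le (by positivity) hq
  have hSkcard : 0 < (Sk.card : ℝ) := lt_of_lt_of_le (by positivity) hκc'
  have hcl : ∀ p ∈ Sk, Cl M κ (f p) := by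
    intro p hp
    rw [hSk, mem_filter] at hp
    rw [← hp.2]
    exact ⟨by
      show (M : ℤ) ∣ (f p).1 - (f p).1 % (M : ℤ)
      exact Int.dvd_self_sub_emod, by
      show (M : ℤ) ∣ (f p).2 - (f p).2 % (M : ℤ)
      exact Int.dvd_self_sub_emod⟩
  have hSkS : ∀ p ∈ Sk, p ∈ S := by
    intro p hp
    rw [hSk, mem_filter] at hp
    exact hp.1
  obtain ⟨p0, hp0⟩ : Sk.Nonempty := card_pos.1 (by exact_mod_cast hSkcard)
  refine ⟨κ, ?_, ?_, ?_⟩
  · have h1 := cl_Nm (hcl p0 hp0)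
    rw [hf1 p0 (hSkS p0 hp0)] at h1
    have h2 := hSM p0 (hSkS p0 hp0)
    have h3 := dvd_sub h2 h1
    have e : (p0 : ℤ) - 1 - ((p0 : ℤ) - Nm κ) = Nm κ - 1 := by ring
    rwa [e] at h3
  · have h1 := (hcl p0 hp0).1
    have h2 := hf2 p0 (hSkS p0 hp0)
    obtain ⟨k, rfl⟩ := hM3
    have h3 : (3 : ℤ) ∣ (f p0).1 - κ.1 := dvd_trans ⟨(k : ℤ), by push_cast; ring⟩ h1
    omega
  · have hcard : Sk.card ≤ cs (SF A K M κ) (fun w => lam (Nm w) = -1) := by
      unfold cs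
      apply Finset.card_le_card_of_injOn f
      · intro q hq
        have hqS : q ∈ Sk := hq
        have hqS' := hSkS q hqS
        have hqp : q.Prime := by
          rw [hS, mem_filter] at hqS'
          exact hqS'.2.1
        change f q ∈ sel (sel (RF A K) (Cl M κ)) (fun w => lam (Nm w) = -1)
        rw [AnnC_mem_sel, AnnC_mem_sel]
        refine ⟨⟨hfR q (hSkS q hqS), hcl q hqS⟩, ?_⟩
        rw [hf1 q (hSkS q hqS)]
        unfold lam
        rw [Int.natAbs_natCast, ArithmeticFunction.cardFactors_apply_prime hqp]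
        norm_num
      · intro q hq q' hq' h
        have e1 := hf1 q (hSkS q hq)
        have e2 := hf1 q' (hSkS q' hq')
        have h' : f q = f q' := h
        rw [h', e2] at e1
        exact_mod_cast e1.symm
    have hcard' : (Sk.card : ℝ) ≤ (cs (SF A K M κ) (fun w => lam (Nm w) = -1) : ℝ) := by
      exact_mod_cast hcard
    refine le_trans ?_ (hκc'.trans hcard')
    have hl0 : 0 < Real.log A := by linarith
    have hM3' : (M : ℝ) ^ 3 ≤ Real.log A ^ 3 := by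
      have h1 : (M : ℝ) ≤ Real.log A := le_trans (by nlinarith) hML
      exact pow_le_pow_left₀ (by positivity) h1 3
    calc c / 4 * (A : ℝ) ^ 4 / Real.log A ^ 4
        = c * (A : ℝ) ^ 4 / (Real.log A ^ 3 * (4 * Real.log A)) := by
          field_simp
      _ ≤ c * (A : ℝ) ^ 4 / ((M : ℝ) ^ 3 * (4 * Real.log A)) := by
          apply div_le_div_of_nonneg_left (by positivity) (by positivity)
          exact mul_le_mul_of_nonneg_right hM3' (by positivity)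
      _ = c * ((A ^ 4 : ℕ) : ℝ) / (M * (4 * Real.log A)) / (M * M) := by
          push_cast
          field_simp
      _ ≤ (S.card : ℝ) / (M * M) := div_le_div_of_nonneg_right hq (by positivity)

end Pool.Agent.H62.RV
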