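import Pool.Agent.H62.RV.Defs

/-!
# AvgE: averages over the fibres of a map to `ℤ/N`

See the first half of the proof of `Odd_core` in `H17/RP/Odd.lean` (`hone`, `hsumT`, `hlowsum`), which is the
case `S1 = S2 = S3`, `φ y z = 12 + y - z`.

`av_triple`. For given `y, z` and `j = φ y z`, with the fibres `T1 = {w ∈ S1 : s w = j}`, `T2` (over `y`), `T3` (over
`z`): `Σ_(T1 × T2 × T3) (1 - l l l) = (1 - av av av) |T1| |T2| |T3| ≥ (1 - av av av) L³`.  Sum over `y, z`: the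
terms are `2` for the triples with `l l l = -1` and `s w1 = φ (s w2) (s w3)`, and `0` otherwise.
`av_low`. `1 - av j = (1/|T|) Σ_(w ∈ T) (1 - l w) ≥ (1/U) Σ_(w ∈ T) (1 - l w)` for a nonempty fibre `T`; for an
empty one `av j = 0` and the sum is empty.  The terms are `2` for `l w = -1` and `0` otherwise.
-/

set_option autoImplicit false

namespace Pool.Agent.H62.RV

open Finset Pool.Agent.H17.RP

private lemma AvgE_lr (l : ℤ × ℤ → ℤ) (hl : ∀ w, l w = 1 ∨ l w = -1) (w : ℤ × ℤ) :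
    |(l w : ℝ)| ≤ 1 := by
  rcases hl w with h | h <;> rw [h] <;> norm_num

private lemma AvgE_sel {N : ℕ} (S : Finset (ℤ × ℤ)) (s : ℤ × ℤ → ZMod N) (j : ZMod N)
    (F : ℤ × ℤ → ℝ) :
    ∑ w ∈ sel S (fun w => s w = j), F w = ∑ w ∈ S, if s w = j then F w else 0 := by
  simp only [sel]
  rw [Finset.sum_filter]
  refine Finset.sum_congr rfl fun w _ => ?_
  by_cases h : s w = j
  · rw [if_pos h, if_pos h]
  · rw [if_neg h, if_neg h]

private lemma AvgE_fib {N : ℕ} [NeZero N] (S : Finset (ℤ × ℤ)) (s : ℤ × ℤ → ZMod N)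
    (F : ZMod N → ℤ × ℤ → ℝ) :
    ∑ j : ZMod N, ∑ w ∈ sel S (fun w => s w = j), F j w = ∑ w ∈ S, F (s w) w := by
  simp_rw [AvgE_sel]
  rw [Finset.sum_comm]
  refine Finset.sum_congr rfl fun w _ => ?_
  rw [Finset.sum_ite_eq]
  simp

theorem av_abs {N : ℕ} (S : Finset (ℤ × ℤ)) (s : ℤ × ℤ → ZMod N) (l : ℤ × ℤ → ℤ)
    (hl : ∀ w, l w = 1 ∨ l w = -1) (j : ZMod N) : |av S s l j| ≤ 1 := by
  unfold av
  rw [abs_div]
  refine div_le_one_of_le₀ ?_ (abs_nonneg _)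
  calc |∑ w ∈ sel S (fun w => s w = j), (l w : ℝ)|
      ≤ ∑ w ∈ sel S (fun w => s w = j), |(l w : ℝ)| := Finset.abs_sum_le_sum_abs _ _
    _ ≤ ∑ _w ∈ sel S (fun w => s w = j), (1 : ℝ) :=
        Finset.sum_le_sum fun w _ => AvgE_lr l hl w
    _ = (cs S (fun w => s w = j) : ℝ) := by simp [cs]
    _ ≤ |(cs S (fun w => s w = j) : ℝ)| := le_abs_self _

theorem av_triple {N : ℕ} [NeZero N] (S1 S2 S3 : Finset (ℤ × ℤ)) (s : ℤ × ℤ → ZMod N)
    (l : ℤ × ℤ → ℤ) (hl : ∀ w, l w = 1 ∨ l w = -1) {L : ℝ} (hL : 0 < L)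
    (h1 : ∀ j, L ≤ (cs S1 (fun w => s w = j) : ℝ)) (h2 : ∀ j, L ≤ (cs S2 (fun w => s w = j) : ℝ))
    (h3 : ∀ j, L ≤ (cs S3 (fun w => s w = j) : ℝ)) (φ : ZMod N → ZMod N → ZMod N) {B : ℝ}
    (hB : (cs (S1 ×ˢ (S2 ×ˢ S3)) (fun x => s x.1 = φ (s x.2.1) (s x.2.2) ∧
      l x.1 * l x.2.1 * l x.2.2 = -1) : ℝ) ≤ B) :
    ∑ y : ZMod N, ∑ z : ZMod N, (1 - av S1 s l (φ y z) * av S2 s l y * av S3 s l z) ≤
      2 * B / L ^ 3 := by
  classical
  set T1 : ZMod N → Finset (ℤ × ℤ) := fun j => sel S1 (fun w => s w = j) with hT1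
  set T2 : ZMod N → Finset (ℤ × ℤ) := fun j => sel S2 (fun w => s w = j) with hT2
  set T3 : ZMod N → Finset (ℤ × ℤ) := fun j => sel S3 (fun w => s w = j) with hT3
  have c1 : ∀ j, L ≤ ((T1 j).card : ℝ) := fun j => h1 j
  have c2 : ∀ j, L ≤ ((T2 j).card : ℝ) := fun j => h2 j
  have c3 : ∀ j, L ≤ ((T3 j).card : ℝ) := fun j => h3 j
  have g1 : ∀ j, ∑ w ∈ T1 j, (l w : ℝ) = av S1 s l j * ((T1 j).card : ℝ) := by
    intro j
    have h0 : (0 : ℝ) < ((T1 j).card : ℝ) := lt_of_lt_of_le hL (c1 j)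
    exact (div_mul_cancel₀ _ h0.ne').symm
  have g2 : ∀ j, ∑ w ∈ T2 j, (l w : ℝ) = av S2 s l j * ((T2 j).card : ℝ) := by
    intro j
    have h0 : (0 : ℝ) < ((T2 j).card : ℝ) := lt_of_lt_of_le hL (c2 j)
    exact (div_mul_cancel₀ _ h0.ne').symm
  have g3 : ∀ j, ∑ w ∈ T3 j, (l w : ℝ) = av S3 s l j * ((T3 j).card : ℝ) := by
    intro j
    have h0 : (0 : ℝ) < ((T3 j).card : ℝ) := lt_of_lt_of_le hL (c3 j)
    exact (div_mul_cancel₀ _ h0.ne').symm
  have hgval : ∀ w1 w2 w3, 1 - (l w1 : ℝ) * l w2 * l w3 =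
      if l w1 * l w2 * l w3 = -1 then 2 else 0 := by
    intro w1 w2 w3
    rcases hl w1 with h1 | h1 <;> rcases hl w2 with h2 | h2 <;> rcases hl w3 with h3 | h3 <;>
      rw [h1, h2, h3] <;> norm_num
  have hone : ∀ y z : ZMod N, 1 - av S1 s l (φ y z) * av S2 s l y * av S3 s l z ≤
      (∑ w2 ∈ T2 y, ∑ w3 ∈ T3 z, ∑ w1 ∈ T1 (φ y z), (1 - (l w1 : ℝ) * l w2 * l w3)) / L ^ 3 := by
    intro y z
    have e3 : (∑ w2 ∈ T2 y, ∑ w3 ∈ T3 z, ∑ w1 ∈ T1 (φ y z), (l w1 : ℝ) * l w2 * l w3) =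
        (∑ w ∈ T1 (φ y z), (l w : ℝ)) * (∑ w ∈ T2 y, (l w : ℝ)) * (∑ w ∈ T3 z, (l w : ℝ)) := by
      have e4 : ∀ w2 w3 : ℤ × ℤ, ∑ w1 ∈ T1 (φ y z), (l w1 : ℝ) * l w2 * l w3 =
          (∑ w ∈ T1 (φ y z), (l w : ℝ)) * (l w2 * l w3) := by
        intro w2 w3
        rw [Finset.sum_mul]
        exact Finset.sum_congr rfl fun w1 _ => by ring
      simp_rw [e4]
      simp_rw [← Finset.mul_sum]
      rw [← Finset.sum_mul, mul_assoc]
    have e1 : (∑ w2 ∈ T2 y, ∑ w3 ∈ T3 z, ∑ w1 ∈ T1 (φ y z), (1 - (l w1 : ℝ) * l w2 * l w3)) =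
        (1 - av S1 s l (φ y z) * av S2 s l y * av S3 s l z) *
          (((T1 (φ y z)).card : ℝ) * ((T2 y).card : ℝ) * ((T3 z).card : ℝ)) := by
      simp only [Finset.sum_sub_distrib]
      rw [e3, g1, g2, g3]
      simp only [Finset.sum_const, nsmul_eq_mul, mul_one]
      ring
    have e4 : 0 ≤ 1 - av S1 s l (φ y z) * av S2 s l y * av S3 s l z := by
      have h1 : |av S1 s l (φ y z) * av S2 s l y * av S3 s l z| ≤ 1 := by
        rw [abs_mul, abs_mul]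
        have a1 := av_abs S1 s l hl (φ y z)
        have a2 := av_abs S2 s l hl y
        have a3 := av_abs S3 s l hl z
        have b1 : |av S1 s l (φ y z)| * |av S2 s l y| ≤ 1 := mul_le_one₀ a1 (abs_nonneg _) a2
        exact mul_le_one₀ b1 (abs_nonneg _) a3
      linarith [(abs_le.1 h1).2]
    rw [e1, le_div_iff₀ (by positivity)]
    apply mul_le_mul_of_nonneg_left _ e4
    have a1 := c1 (φ y z)
    have a2 := c2 y
    have a3 := c3 z
    calc L ^ 3 = L * L * L := by ring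
      _ ≤ ((T1 (φ y z)).card : ℝ) * ((T2 y).card : ℝ) * ((T3 z).card : ℝ) := by gcongr
  have hsumT : ∑ y : ZMod N, ∑ z : ZMod N,
      (∑ w2 ∈ T2 y, ∑ w3 ∈ T3 z, ∑ w1 ∈ T1 (φ y z), (1 - (l w1 : ℝ) * l w2 * l w3)) =
      2 * (cs (S1 ×ˢ (S2 ×ˢ S3)) (fun x => s x.1 = φ (s x.2.1) (s x.2.2) ∧
      l x.1 * l x.2.1 * l x.2.2 = -1) : ℝ) := by
    calc ∑ y : ZMod N, ∑ z : ZMod N,
          (∑ w2 ∈ T2 y, ∑ w3 ∈ T3 z, ∑ w1 ∈ T1 (φ y z), (1 - (l w1 : ℝ) * l w2 * l w3))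
        = ∑ y : ZMod N, ∑ w2 ∈ T2 y, ∑ z : ZMod N, ∑ w3 ∈ T3 z,
            ∑ w1 ∈ T1 (φ y z), (1 - (l w1 : ℝ) * l w2 * l w3) := by
          refine Finset.sum_congr rfl fun y _ => ?_
          rw [Finset.sum_comm]
      _ = ∑ w2 ∈ S2, ∑ z : ZMod N, ∑ w3 ∈ T3 z,
            ∑ w1 ∈ T1 (φ (s w2) z), (1 - (l w1 : ℝ) * l w2 * l w3) :=
          AvgE_fib S2 s (fun y w2 => ∑ z : ZMod N, ∑ w3 ∈ T3 z,
            ∑ w1 ∈ T1 (φ y z), (1 - (l w1 : ℝ) * l w2 * l w3))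
      _ = ∑ w2 ∈ S2, ∑ w3 ∈ S3, ∑ w1 ∈ T1 (φ (s w2) (s w3)),
            (1 - (l w1 : ℝ) * l w2 * l w3) := by
          refine Finset.sum_congr rfl fun w2 _ => ?_
          exact AvgE_fib S3 s (fun z w3 => ∑ w1 ∈ T1 (φ (s w2) z),
            (1 - (l w1 : ℝ) * l w2 * l w3))
      _ = ∑ w2 ∈ S2, ∑ w3 ∈ S3, ∑ w1 ∈ S1, (if s w1 = φ (s w2) (s w3) then
            (1 - (l w1 : ℝ) * l w2 * l w3) else 0) := by
          refine Finset.sum_congr rfl fun w2 _ => ?_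
          refine Finset.sum_congr rfl fun w3 _ => ?_
          exact AvgE_sel S1 s (φ (s w2) (s w3)) (fun w1 => 1 - (l w1 : ℝ) * l w2 * l w3)
      _ = ∑ w1 ∈ S1, ∑ w2 ∈ S2, ∑ w3 ∈ S3, (if s w1 = φ (s w2) (s w3) then
            (1 - (l w1 : ℝ) * l w2 * l w3) else 0) := by
          rw [Finset.sum_comm' (s := S1) (t := fun _ => S2) (s' := fun _ => S1) (t' := S2)
            (by intro x y; simp [and_comm])]
          refine Finset.sum_congr rfl fun w2 _ => ?_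
          rw [Finset.sum_comm]
      _ = _ := by
          rw [cs_eq_sum]
          push_cast
          rw [Finset.mul_sum, Finset.sum_product]
          refine Finset.sum_congr rfl fun w1 _ => ?_
          rw [Finset.sum_product]
          refine Finset.sum_congr rfl fun w2 _ => ?_
          refine Finset.sum_congr rfl fun w3 _ => ?_
          simp only
          rw [hgval]
          by_cases h1 : s w1 = φ (s w2) (s w3)
          · by_cases h2 : l w1 * l w2 * l w3 = -1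
            · rw [if_pos h1, if_pos h2, if_pos ⟨h1, h2⟩]; norm_num
            · rw [if_pos h1, if_neg h2, if_neg (fun h => h2 h.2)]; norm_num
          · rw [if_neg h1, if_neg (fun h => h1 h.1)]; norm_num
  calc ∑ y : ZMod N, ∑ z : ZMod N, (1 - av S1 s l (φ y z) * av S2 s l y * av S3 s l z)
      ≤ ∑ y : ZMod N, ∑ z : ZMod N,
          (∑ w2 ∈ T2 y, ∑ w3 ∈ T3 z, ∑ w1 ∈ T1 (φ y z), (1 - (l w1 : ℝ) * l w2 * l w3)) /
            L ^ 3 :=
        Finset.sum_le_sum fun y _ => Finset.sum_le_sum fun z _ => hone y z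
    _ = (2 * (cs (S1 ×ˢ (S2 ×ˢ S3)) (fun x => s x.1 = φ (s x.2.1) (s x.2.2) ∧
          l x.1 * l x.2.1 * l x.2.2 = -1) : ℝ)) / L ^ 3 := by
        rw [← hsumT, Finset.sum_div]
        refine Finset.sum_congr rfl fun x _ => ?_
        rw [Finset.sum_div]
    _ ≤ 2 * B / L ^ 3 := by gcongr

theorem av_low {N : ℕ} [NeZero N] (S : Finset (ℤ × ℤ)) (s : ℤ × ℤ → ZMod N)
    (l : ℤ × ℤ → ℤ) (hl : ∀ w, l w = 1 ∨ l w = -1) {U : ℝ} (hU : 0 < U)
    (hup : ∀ j, (cs S (fun w => s w = j) : ℝ) ≤ U) :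
    2 * (cs S (fun w => l w = -1) : ℝ) / U ≤ ∑ j : ZMod N, (1 - av S s l j) := by
  classical
  have e1 : ∀ j, (∑ w ∈ sel S (fun w => s w = j), (1 - (l w : ℝ))) / U ≤ 1 - av S s l j := by
    intro j
    rcases Nat.eq_zero_or_pos (cs S (fun w => s w = j)) with h0 | h0
    · have hs : sel S (fun w => s w = j) = ∅ := Finset.card_eq_zero.1 h0
      have ha : av S s l j = 0 := by
        unfold av
        rw [hs, Finset.sum_empty, zero_div]
      rw [hs, Finset.sum_empty, zero_div, ha]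
      norm_num
    · have hc : (0 : ℝ) < (cs S (fun w => s w = j) : ℝ) := by exact_mod_cast h0
      have e2 : 1 - av S s l j = (∑ w ∈ sel S (fun w => s w = j), (1 - (l w : ℝ))) /
          (cs S (fun w => s w = j) : ℝ) := by
        unfold av
        rw [Finset.sum_sub_distrib, sub_div]
        simp only [Finset.sum_const, nsmul_eq_mul, mul_one]
        have : ((sel S (fun w => s w = j)).card : ℝ) / (cs S (fun w => s w = j) : ℝ) = 1 :=
          div_self hc.ne'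
        rw [this]
      rw [e2]
      apply div_le_div_of_nonneg_left _ hc (hup j)
      apply Finset.sum_nonneg
      intro w _
      linarith [(abs_le.1 (AvgE_lr l hl w)).2]
  have e3 : ∑ j : ZMod N, (∑ w ∈ sel S (fun w => s w = j), (1 - (l w : ℝ))) =
      ∑ w ∈ S, (1 - (l w : ℝ)) := AvgE_fib S s (fun _ w => 1 - (l w : ℝ))
  have e5 : ∑ w ∈ S, (1 - (l w : ℝ)) = 2 * (cs S (fun w => l w = -1) : ℝ) := by
    rw [cs_eq_sum]
    push_cast
    rw [Finset.mul_sum]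
    refine Finset.sum_congr rfl fun w _ => ?_
    rcases hl w with h | h <;> rw [h] <;> norm_num
  calc 2 * (cs S (fun w => l w = -1) : ℝ) / U
      = ∑ j : ZMod N, (∑ w ∈ sel S (fun w => s w = j), (1 - (l w : ℝ))) / U := by
        rw [← Finset.sum_div, e3, e5]
    _ ≤ ∑ x : ZMod N, (1 - av S s l x) := Finset.sum_le_sum fun j _ => e1 j

end Pool.Agent.H62.RV
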