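import Pool.Agent.H62.RV.ClAlg
import Pool.Agent.H17.RP.Exc

/-!
# Cert3: certificates with a residue class and an exceptional set

Variant of `H17/RP/Cert2.lean` (`cert_eq2`, read it first: copy `cert_core2`, it is private) with `σ = 1`,
`cc w w' > 0` (from `hs`) and the class of `R` modulo `m`.

Proof. `a = cc w w'`, `b = dt w w'`, `F a b = Nm w * Nm w'` (`F_cc_dt`), `a = d + 3 b R` with
`R = (a - d)/(3b)`; by `h3` this division is exact (`3b ∣ 3bm`) and `R = ρ + m R'`.  As in `cert_core2`: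
`d ∣ fk R`, `a R + b + 3 b R = d R + b fk R = d R₂`, `Nm w Nm w' fk R = d² fk R₂`, `fk R₂` is rough,
`|R|, |R₂| ∈ [K1 + 1, K2]`.
New: `d (R₂ - R) = b fk R` is divisible by `m` (`hmb`) and `d` is prime to `m` (`d ∣ Nm w'`, `hmN`), so
`m ∣ R₂ - R` and `R = R₂ = ρ mod m`.
Signs: `a > d > 0` (`hs`), so `R` has the sign of `b`; `d R₂ = R (a + 3b) + b`, `a + 3b > 0` (`hs`), so `R₂` has
the sign of `b` too.  If `b > 0`: `R, R₂ ≥ K1`, `ρ = r`: use `hyp` for `R` and for `R₂`.  If `b < 0`: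
`ρ = -1 - r`; use `hyp` for `-1 - R` and `-1 - R₂` (`≥ K1`, `= r mod m`), `fk (-1 - R) = fk R` (`fk_neg`).
The conclusion `lam N = lam N'` from the identity is as in `cert_core2`.
-/

set_option autoImplicit false

namespace Pool.Agent.H62.RV

open Finset Pool.Agent.H17.RP

private theorem cert3_prime {d m : ℤ} (h : ∀ p : ℕ, p.Prime → (p : ℤ) ∣ d → ¬ (p : ℤ) ∣ m) :
    IsCoprime d m := by
  rw [Int.isCoprime_iff_gcd_eq_one]
  by_contra hne
  obtain ⟨p, hp, hpd⟩ := Nat.exists_prime_and_dvd hne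
  have h1 : (p : ℤ) ∣ (Int.gcd d m : ℤ) := Int.natCast_dvd_natCast.mpr hpd
  exact h p hp (h1.trans (Int.gcd_dvd_left ..)) (h1.trans (Int.gcd_dvd_right ..))

private theorem cert3_R2 {Y : ℕ} (hY : 3 ≤ Y) {N N' a b d R : ℤ} (hN' : Rough Y N')
    (hF : F a b = N * N') (h1 : |b| ≤ Y) (h0 : b ≠ 0) (hdiv : d ∣ N')
    (hR0 : 3 * b * R = a - d) : ∃ R2 : ℤ, a * R + b + 3 * b * R = d * R2 := by
  have hb1 : 1 ≤ |b| := Int.one_le_abs h0
  have ha : a = d + 3 * b * R := by omega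
  have hcop : IsCoprime d (3 * b ^ 2) := by
    refine cert3_prime (fun p hp hpd hpm => ?_)
    have hYp : Y < p := hN' p hp (hpd.trans hdiv)
    have hpp : Prime (p : ℤ) := Nat.prime_iff_prime_int.mp hp
    rcases hpp.dvd_or_dvd hpm with h3 | h3
    · have := Int.le_of_dvd (by norm_num) h3
      omega
    · have h4 := hpp.dvd_of_dvd_pow h3
      have h5 : (p : ℤ) ≤ |b| := Int.le_of_dvd (by omega) ((dvd_abs _ _).mpr h4)
      have h6 : ((Y : ℕ) : ℤ) < (p : ℤ) := by exact_mod_cast hYp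
      omega
  have hdF : d ∣ F a b := hF ▸ (hdiv.mul_left N)
  have hdR : d ∣ fk R := by
    have h2 : d ∣ 3 * b ^ 2 * fk R := by
      have h3 : 3 * b ^ 2 * fk R = F a b - d * (d + 6 * b * R + 3 * b) := by
        rw [ha]; unfold F fk; ring
      rw [h3]
      exact dvd_sub hdF (dvd_mul_right _ _)
    exact hcop.dvd_of_dvd_mul_left h2
  have hdy : d ∣ a * R + b + 3 * b * R := by
    have h3 : a * R + b + 3 * b * R = d * R + b * fk R := by
      rw [ha]; unfold fk; ring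
    rw [h3]
    exact dvd_add (dvd_mul_right _ _) (hdR.mul_left b)
  exact hdy

private theorem cert3_core {Y : ℕ} (hY : 3 ≤ Y) {K1 K2 ε : ℤ} (hK1 : 1 ≤ K1)
    {N N' a b d R : ℤ} (hN : Rough Y N) (hN' : Rough Y N') (hN0 : N ≠ 0) (hN0' : N' ≠ 0)
    (hF : F a b = N * N') (h0 : b ≠ 0) (h1 : |b| ≤ Y) (hd : 0 < d) (hdiv : d ∣ N')
    (hR0 : 3 * b * R = a - d) (hR : Rough Y (fk R))
    (HR : K1 + 1 ≤ |R| → |R| ≤ K2 → lam (fk R) = ε)
    (HR2 : ∀ R2 : ℤ, a * R + b + 3 * b * R = d * R2 → K1 + 1 ≤ |R2| → |R2| ≤ K2 →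
      Rough Y (fk R2) → lam (fk R2) = ε)
    (hs : 3 * |b| * (K1 + 1) + 2 * d ≤ |a|) (hs2 : 8 * a ^ 4 ≤ K2) : lam N = lam N' := by
  have hb1 : 1 ≤ |b| := Int.one_le_abs h0
  have ha : a = d + 3 * b * R := by omega
  -- coprimality
  have hcop : IsCoprime d (3 * b ^ 2) := by
    refine cert3_prime (fun p hp hpd hpm => ?_)
    have hYp : Y < p := hN' p hp (hpd.trans hdiv)
    have hpp : Prime (p : ℤ) := Nat.prime_iff_prime_int.mp hp
    rcases hpp.dvd_or_dvd hpm with h3 | h3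
    · have := Int.le_of_dvd (by norm_num) h3
      omega
    · have h4 := hpp.dvd_of_dvd_pow h3
      have h5 : (p : ℤ) ≤ |b| := Int.le_of_dvd (by omega) ((dvd_abs _ _).mpr h4)
      have h6 : ((Y : ℕ) : ℤ) < (p : ℤ) := by exact_mod_cast hYp
      omega
  have hdF : d ∣ F a b := hF ▸ (hdiv.mul_left N)
  have hdR : d ∣ fk R := by
    have h2 : d ∣ 3 * b ^ 2 * fk R := by
      have h3 : 3 * b ^ 2 * fk R = F a b - d * (d + 6 * b * R + 3 * b) := by
        rw [ha]; unfold F fk; ring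
      rw [h3]
      exact dvd_sub hdF (dvd_mul_right _ _)
    exact hcop.dvd_of_dvd_mul_left h2
  have hdy : d ∣ a * R + b + 3 * b * R := by
    have h3 : a * R + b + 3 * b * R = d * R + b * fk R := by
      rw [ha]; unfold fk; ring
    rw [h3]
    exact dvd_add (dvd_mul_right _ _) (hdR.mul_left b)
  obtain ⟨R2, hR2⟩ := hdy
  have hnorm : N * N' * fk R = d * d * fk R2 := by
    have h3 : F a b * fk R = F (a - 3 * b * R) (a * R + b + 3 * b * R) := by
      unfold F fk; ring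
    have h4 : a - 3 * b * R = d := by omega
    rw [← hF, h3, h4, hR2]
    unfold F fk; ring
  have hRr : Rough Y (fk R2) := by
    intro p hp hpd
    have hpp : Prime (p : ℤ) := Nat.prime_iff_prime_int.mp hp
    have h3 : (p : ℤ) ∣ N * N' * fk R := by
      rw [hnorm]; exact hpd.mul_left _
    rcases hpp.dvd_or_dvd h3 with h4 | h4
    · rcases hpp.dvd_or_dvd h4 with h5 | h5
      · exact hN p hp h5
      · exact hN' p hp h5
    · exact hR p hp h4
  -- sizes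
  have hA : |a| ^ 2 = a ^ 2 := sq_abs a
  have hapos : 1 ≤ |a| := by nlinarith
  have h3bR : 3 * |b| * |R| = |a - d| := by
    rw [← hR0, abs_mul, abs_mul]; norm_num
  have hlow : |a| - d ≤ 3 * |b| * |R| := by
    rw [h3bR]
    have := abs_sub_abs_le_abs_sub a d
    rw [abs_of_pos hd] at this
    exact this
  have hup : 3 * |b| * |R| ≤ |a| + d := by
    rw [h3bR]
    have := abs_sub a d
    rw [abs_of_pos hd] at this
    exact this
  have hR1 : K1 + 1 ≤ |R| := by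
    by_contra hcon
    push Not at hcon
    have : 3 * |b| * |R| ≤ 3 * |b| * (K1 + 1) := by nlinarith
    omega
  have hRle : |R| ≤ |a| := by
    have h4 : |R| ≤ |b| * |R| := by nlinarith
    have h5 : 0 ≤ 3 * |b| * (K1 + 1) := by positivity
    nlinarith
  have hble : |b| ≤ |a| := by nlinarith
  have hylow : d * (2 * |R|) ≤ |a * R + b + 3 * b * R| := by
    have h4 : |R| * |a + 3 * b| - |b| ≤ |a * R + b + 3 * b * R| := by
      have h5 : a * R + b + 3 * b * R = R * (a + 3 * b) - (-b) := by ring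
      rw [h5]
      have := abs_sub_abs_le_abs_sub (R * (a + 3 * b)) (-b)
      rw [abs_mul, abs_neg] at this
      exact this
    have h6 : |a| - 3 * |b| ≤ |a + 3 * b| := by
      have h5 : a + 3 * b = a - (-(3 * b)) := by ring
      rw [h5]
      have := abs_sub_abs_le_abs_sub a (-(3 * b))
      rw [abs_neg, abs_mul] at this
      norm_num at this ⊢
      linarith
    have h7 : 3 * |b| * K1 + 2 * d ≤ |a + 3 * b| := by nlinarith
    have h8 : |R| * (3 * |b| * K1 + 2 * d) ≤ |R| * |a + 3 * b| :=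
      mul_le_mul_of_nonneg_left h7 (abs_nonneg R)
    have h9 : |b| ≤ |R| * (3 * |b| * K1) := by
      have h10 : 1 ≤ |R| := by omega
      have h11 : 1 ≤ |R| * K1 := by nlinarith
      nlinarith
    nlinarith
  have hR2low : K1 + 1 ≤ |R2| := by
    rw [hR2, abs_mul, abs_of_pos hd] at hylow
    have h4 : 2 * |R| ≤ |R2| := le_of_mul_le_mul_left hylow hd
    omega
  have hR2up : |R2| ≤ 8 * a ^ 4 := by
    have h4 : |R2| ≤ |a * R + b + 3 * b * R| := by
      rw [hR2, abs_mul, abs_of_pos hd]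
      nlinarith [abs_nonneg R2]
    have h5 : |a * R + b + 3 * b * R| ≤ |a| * |R| + |b| + 3 * |b| * |R| := by
      have h6 := abs_add_le (a * R + b) (3 * b * R)
      have h7 := abs_add_le (a * R) b
      have h8 : |a * R| = |a| * |R| := abs_mul _ _
      have h9 : |3 * b * R| = 3 * |b| * |R| := by
        rw [abs_mul, abs_mul]; norm_num
      omega
    have h6 : |a| * |R| ≤ |a| * |a| := mul_le_mul_of_nonneg_left hRle (abs_nonneg a)
    have h7 : |b| * |R| ≤ |a| * |a| := mul_le_mul hble hRle (abs_nonneg R) (abs_nonneg a)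
    have h8 : |a| ≤ |a| * |a| := by nlinarith
    have h9 : |a| * |a| = a ^ 2 := by rw [← hA]; ring
    have h10 : 1 ≤ a ^ 2 := by nlinarith
    have h11 : a ^ 2 ≤ a ^ 4 := by nlinarith
    nlinarith
  have hRup : |R| ≤ 8 * a ^ 4 := by
    have h8 : |a| ≤ |a| * |a| := by nlinarith
    have h9 : |a| * |a| = a ^ 2 := by rw [← hA]; ring
    have h10 : 1 ≤ a ^ 2 := by nlinarith
    have h11 : a ^ 2 ≤ a ^ 4 := by nlinarith
    nlinarith
  have e1 : lam (fk R) = ε := HR hR1 (hRup.trans hs2)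
  have e2 : lam (fk R2) = ε := HR2 R2 hR2 hR2low (hR2up.trans hs2) hRr
  have e3 : lam (N * N' * fk R) = lam (d * d * fk R2) := by rw [hnorm]
  rw [lam_mul (mul_ne_zero hN0 hN0') (fk_pos R).ne', lam_mul hN0 hN0',
    lam_mul (mul_ne_zero hd.ne' hd.ne') (fk_pos R2).ne', lam_mul hd.ne' hd.ne', lam_sq, e1, e2] at e3
  have e4 := lam_cases (fk R)
  rw [e1] at e4
  rcases e4 with h4 | h4 <;> rw [h4] at e3 <;> rcases lam_cases N with h | h <;>
    rcases lam_cases N' with h' | h' <;> rw [h, h'] at e3 <;> rw [h, h'] <;> norm_num at e3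

private theorem cert3_use {Y m : ℕ} {K1 K2 ε r : ℤ} (hK1 : 1 ≤ K1) {E : Finset ℤ}
    (hyp : ∀ R : ℤ, K1 ≤ R → R ≤ K2 → (m : ℤ) ∣ R - r → R ∉ E → Rough Y (fk R) → lam (fk R) = ε)
    {x : ℤ} (hx : (0 < x ∧ (m : ℤ) ∣ x - r) ∨ (x < 0 ∧ (m : ℤ) ∣ x - (-1 - r)))
    (h1 : K1 + 1 ≤ |x|) (h2 : |x| ≤ K2) (hE : ¬ Exc E x) (hR : Rough Y (fk x)) :
    lam (fk x) = ε := by
  rcases hx with ⟨h, hm⟩ | ⟨h, hm⟩
  · rw [abs_of_pos h] at h1 h2
    exact hyp x (by omega) h2 hm (fun h3 => hE (Or.inl h3)) hR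
  · rw [abs_of_neg h] at h1 h2
    rw [← fk_neg x] at hR ⊢
    refine hyp (-1 - x) (by omega) (by omega) ?_ (fun h3 => hE (Or.inr h3)) hR
    have h4 : (-1 - x) - r = -(x - (-1 - r)) := by ring
    rw [h4]
    exact (dvd_neg).2 hm

theorem cert3 {Y m : ℕ} (hY : 3 ≤ Y) {K1 K2 ε r : ℤ} (hK1 : 1 ≤ K1) {E : Finset ℤ}
    (hyp : ∀ R : ℤ, K1 ≤ R → R ≤ K2 → (m : ℤ) ∣ R - r → R ∉ E → Rough Y (fk R) → lam (fk R) = ε)
    {w w' : ℤ × ℤ} (hw : Rough Y (Nm w)) (hw' : Rough Y (Nm w'))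
    (h0 : dt w w' ≠ 0) (h1 : |dt w w'| ≤ Y) (hmb : (m : ℤ) ∣ dt w w')
    (hmN : IsCoprime (Nm w') (m : ℤ))
    {d ρ : ℤ} (hd : 0 < d) (hdiv : d ∣ Nm w') (hρ : ρ = if 0 < dt w w' then r else -1 - r)
    (h3 : 3 * dt w w' * m ∣ cc w w' - 3 * dt w w' * ρ - d)
    (hR : Rough Y (fk ((cc w w' - d) / (3 * dt w w'))))
    (hE : ∀ R R2 : ℤ, 3 * dt w w' * R = cc w w' - d →
      cc w w' * R + dt w w' + 3 * dt w w' * R = d * R2 → ¬ Exc E R ∧ ¬ Exc E R2)
    (hs : 3 * |dt w w'| * (K1 + 1) + 2 * d ≤ cc w w')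
    (hs2 : 8 * cc w w' ^ 4 ≤ K2) : lam (Nm w) = lam (Nm w') := by
  have hw0 : w.1 ≠ 0 ∨ w.2 ≠ 0 := by
    by_contra hcon
    push Not at hcon
    exact h0 (by unfold dt; rw [hcon.1, hcon.2]; ring)
  have hw0' : w'.1 ≠ 0 ∨ w'.2 ≠ 0 := by
    by_contra hcon
    push Not at hcon
    exact h0 (by unfold dt; rw [hcon.1, hcon.2]; ring)
  have hN0 : Nm w ≠ 0 := (F_pos hw0).ne'
  have hN0' : Nm w' ≠ 0 := (F_pos hw0').ne'
  have hF : F (cc w w') (dt w w') = Nm w * Nm w' := F_cc_dt w w'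
  have hdm : IsCoprime d (m : ℤ) := hmN.of_isCoprime_of_dvd_left hdiv
  have hab : 3 * dt w w' ∣ cc w w' - d := by
    obtain ⟨c, hc⟩ := h3
    exact ⟨ρ + m * c, by linear_combination hc⟩
  have hR0 : 3 * dt w w' * ((cc w w' - d) / (3 * dt w w')) = cc w w' - d :=
    Int.mul_ediv_cancel' hab
  generalize hRdef : (cc w w' - d) / (3 * dt w w') = R at hR hR0
  generalize hadef : cc w w' = a at *
  generalize hbdef : dt w w' = b at *
  have hb1 : 1 ≤ |b| := Int.one_le_abs h0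
  have hRρ : (m : ℤ) ∣ R - ρ := by
    obtain ⟨c, hc⟩ := h3
    refine ⟨c, ?_⟩
    have h4 : 3 * b * (R - ρ) = 3 * b * (m * c) := by linear_combination hR0 + hc
    exact mul_left_cancel₀ (mul_ne_zero three_ne_zero h0) h4
  have hK0 : 0 ≤ 3 * |b| * (K1 + 1) := by positivity
  have hsgn : ∀ R2 : ℤ, a * R + b + 3 * b * R = d * R2 →
      ((0 < b ∧ 0 < R ∧ 0 < R2) ∨ (b < 0 ∧ R < 0 ∧ R2 < 0)) := by
    intro R2 h2
    rcases lt_or_gt_of_ne h0 with hb | hb
    · right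
      have hab' : |b| = -b := abs_of_neg hb
      have hRn : R < 0 := by
        by_contra hcon
        push Not at hcon
        have : b * R ≤ 0 := mul_nonpos_of_nonpos_of_nonneg hb.le hcon
        nlinarith
      refine ⟨hb, hRn, ?_⟩
      have h5 : 0 < a + 3 * b := by
        rw [hab'] at hs
        nlinarith
      have h6 : R * (a + 3 * b) < 0 := mul_neg_of_neg_of_pos hRn h5
      have h7 : d * R2 < 0 := by rw [← h2]; nlinarith
      by_contra hcon
      push Not at hcon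
      have := mul_nonneg hd.le hcon
      omega
    · left
      have hab' : |b| = b := abs_of_pos hb
      have hRp : 0 < R := by
        by_contra hcon
        push Not at hcon
        have : b * R ≤ 0 := mul_nonpos_of_nonneg_of_nonpos hb.le hcon
        nlinarith
      refine ⟨hb, hRp, ?_⟩
      have h5 : 0 < a := by nlinarith
      have h6 : 0 < a * R := mul_pos h5 hRp
      have h7 : 0 < b * R := mul_pos hb hRp
      have h8 : 0 < d * R2 := by rw [← h2]; nlinarith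
      exact (mul_pos_iff_of_pos_left hd).1 h8
  have hmR2 : ∀ R2 : ℤ, a * R + b + 3 * b * R = d * R2 → (m : ℤ) ∣ R2 - ρ := by
    intro R2 h2
    have h4 : d * (R2 - R) = b * fk R := by
      unfold fk
      linear_combination -h2 - R * hR0
    have h5 : (m : ℤ) ∣ d * (R2 - R) := by rw [h4]; exact hmb.mul_right _
    have h6 : (m : ℤ) ∣ R2 - R := hdm.symm.dvd_of_dvd_mul_left h5
    have h7 := dvd_add h6 hRρ
    rwa [sub_add_sub_cancel] at h7
  obtain ⟨R2, hR2⟩ : ∃ R2 : ℤ, a * R + b + 3 * b * R = d * R2 :=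
    cert3_R2 hY hw' hF h1 h0 hdiv hR0
  have hcase : ∀ x : ℤ, ((0 < b ∧ 0 < x) ∨ (b < 0 ∧ x < 0)) → (m : ℤ) ∣ x - ρ →
      ((0 < x ∧ (m : ℤ) ∣ x - r) ∨ (x < 0 ∧ (m : ℤ) ∣ x - (-1 - r))) := by
    intro x hx hm
    rcases hx with ⟨hb, hx⟩ | ⟨hb, hx⟩
    · left
      rw [if_pos hb] at hρ
      exact ⟨hx, hρ ▸ hm⟩
    · right
      rw [if_neg (not_lt.2 hb.le)] at hρ
      exact ⟨hx, hρ ▸ hm⟩
  refine cert3_core (ε := ε) hY hK1 hw hw' hN0 hN0' hF h0 h1 hd hdiv hR0 hR ?_ ?_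
    (hs.trans (le_abs_self _)) hs2
  · intro g1 g2
    refine cert3_use hK1 hyp (hcase R ?_ hRρ) g1 g2 (hE R R2 hR0 hR2).1 hR
    rcases hsgn R2 hR2 with h | h
    · exact Or.inl ⟨h.1, h.2.1⟩
    · exact Or.inr ⟨h.1, h.2.1⟩
  · intro R2' h2 g1 g2 g3
    refine cert3_use hK1 hyp (hcase R2' ?_ (hmR2 R2' h2)) g1 g2 (hE R R2' hR0 h2).2 g3
    rcases hsgn R2' h2 with h | h
    · exact Or.inl ⟨h.1, h.2.2⟩
    · exact Or.inr ⟨h.1, h.2.2⟩

end Pool.Agent.H62.RV
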