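import Pool.Agent.H62.RV.Defs

/-!
# ClAlg: congruences of vectors

Everything is direct from the definitions (`mu`, `cj`, `rot`, `sh`, `dt`, `cc`, `Nm` are polynomials with
integer coefficients).  `cl_inv`: `u (Nm κ) = 1 mod M`, `μ = u · cj κ`; `mu κ (cj κ) = (Nm κ, 0)`;
`Nm μ = u² Nm κ`.
-/

set_option autoImplicit false

namespace Pool.Agent.H62.RV

open Finset Pool.Agent.H17.RP

theorem cl_refl (M : ℕ) (w : ℤ × ℤ) : Cl M w w := ⟨by simp, by simp⟩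

theorem cl_symm {M : ℕ} {κ w : ℤ × ℤ} (h : Cl M κ w) : Cl M w κ :=
  ⟨by have := h.1; rwa [← dvd_neg, neg_sub], by have := h.2; rwa [← dvd_neg, neg_sub]⟩

theorem cl_trans {M : ℕ} {κ w v : ℤ × ℤ} (h : Cl M κ w) (h' : Cl M w v) : Cl M κ v :=
  ⟨by have := dvd_add h'.1 h.1; rwa [sub_add_sub_cancel] at this,
    by have := dvd_add h'.2 h.2; rwa [sub_add_sub_cancel] at this⟩

theorem cl_mu {M : ℕ} {κ w κ' w' : ℤ × ℤ} (h : Cl M κ w) (h' : Cl M κ' w') :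
    Cl M (mu κ κ') (mu w w') := by
  obtain ⟨⟨a, ha⟩, b, hb⟩ := h
  obtain ⟨⟨c, hc⟩, d, hd⟩ := h'
  have ea : w.1 = κ.1 + M * a := by linarith
  have eb : w.2 = κ.2 + M * b := by linarith
  have ec : w'.1 = κ'.1 + M * c := by linarith
  have ed : w'.2 = κ'.2 + M * d := by linarith
  constructor
  · refine ⟨κ.1 * c + a * κ'.1 + M * a * c - 3 * (κ.2 * d + b * κ'.2 + M * b * d), ?_⟩
    unfold mu
    simp only
    rw [ea, eb, ec, ed]; ring
  · refine ⟨κ.1 * d + a * κ'.2 + M * a * d + κ.2 * c + b * κ'.1 + M * b * c +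
      3 * (κ.2 * d + b * κ'.2 + M * b * d), ?_⟩
    unfold mu
    simp only
    rw [ea, eb, ec, ed]; ring

theorem cl_cj {M : ℕ} {κ w : ℤ × ℤ} (h : Cl M κ w) : Cl M (cj κ) (cj w) := by
  obtain ⟨⟨a, ha⟩, b, hb⟩ := h
  constructor
  · refine ⟨a + 3 * b, ?_⟩
    unfold cj
    simp only
    linarith
  · refine ⟨-b, ?_⟩
    unfold cj
    simp only
    linarith

theorem cl_rot {M : ℕ} {κ w : ℤ × ℤ} (h : Cl M κ w) : Cl M (rot κ) (rot w) := by
  obtain ⟨⟨a, ha⟩, b, hb⟩ := h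
  constructor
  · refine ⟨-a - 3 * b, ?_⟩
    unfold rot
    simp only
    linarith
  · refine ⟨a + 2 * b, ?_⟩
    unfold rot
    simp only
    linarith

theorem cl_rot_pow {M : ℕ} {κ w : ℤ × ℤ} (k : ℕ) (h : Cl M κ w) :
    Cl M (rot^[k] κ) (rot^[k] w) := by
  induction k with
  | zero => simpa using h
  | succ k ih =>
    rw [Function.iterate_succ_apply', Function.iterate_succ_apply']
    exact cl_rot ih

/-- the class of `sh n w` depends on `n` modulo `M` only -/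
theorem cl_sh {M : ℕ} {n n' : ℤ} (h : (M : ℤ) ∣ n - n') (κ w : ℤ × ℤ) :
    Cl M κ (sh n w) ↔ Cl M κ (sh n' w) := by
  obtain ⟨c, hc⟩ := h
  have e : (sh n w).1 - κ.1 = ((sh n' w).1 - κ.1) + M * (c * w.2) := by
    unfold sh
    simp only
    linear_combination w.2 * hc
  have e2 : (sh n w).2 - κ.2 = (sh n' w).2 - κ.2 := rfl
  unfold Cl
  rw [e, e2, Int.dvd_add_left (Dvd.intro _ rfl)]

theorem cl_Nm {M : ℕ} {κ w : ℤ × ℤ} (h : Cl M κ w) : (M : ℤ) ∣ Nm w - Nm κ := by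
  obtain ⟨⟨a, ha⟩, b, hb⟩ := h
  have ea : w.1 = κ.1 + M * a := by linarith
  have eb : w.2 = κ.2 + M * b := by linarith
  refine ⟨2 * κ.1 * a + M * a ^ 2 + 3 * (κ.1 * b + a * κ.2 + M * a * b) +
    3 * (2 * κ.2 * b + M * b ^ 2), ?_⟩
  unfold Nm F
  rw [ea, eb]; ring

/-- the determinant of two vectors of the class `(1, 0)` -/
theorem cl_dt {M : ℕ} {w w' : ℤ × ℤ} (h : Cl M (1, 0) w) (h' : Cl M (1, 0) w') :
    (M : ℤ) ∣ dt w w' := by
  have h1 : (M : ℤ) ∣ w.2 := by have := h.2; simpa using this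
  have h2 : (M : ℤ) ∣ w'.2 := by have := h'.2; simpa using this
  unfold dt
  exact dvd_sub (h1.mul_right _) (h2.mul_left _)

/-- `cc w w' = 1 mod M` for two vectors of the class `(1, 0)` -/
theorem cl_cc {M : ℕ} {w w' : ℤ × ℤ} (h : Cl M (1, 0) w) (h' : Cl M (1, 0) w') :
    (M : ℤ) ∣ cc w w' - 1 := by
  obtain ⟨⟨a, ha⟩, b, hb⟩ := h
  obtain ⟨⟨c, hc⟩, d, hd⟩ := h'
  simp only at ha hb hc hd
  have ea : w.1 = 1 + M * a := by linarith
  have eb : w.2 = M * b := by linarith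
  have ec : w'.1 = 1 + M * c := by linarith
  have ed : w'.2 = M * d := by linarith
  refine ⟨a + c + M * a * c + 3 * (1 + M * a) * d + 3 * M * b * d, ?_⟩
  unfold cc
  rw [ea, eb, ec, ed]; ring

/-- inverses -/
theorem cl_inv {M : ℕ} {κ : ℤ × ℤ} (h : IsCoprime (Nm κ) (M : ℤ)) :
    ∃ μ : ℤ × ℤ, IsCoprime (Nm μ) (M : ℤ) ∧ Cl M (1, 0) (mu κ μ) := by
  obtain ⟨u, v, huv⟩ := h
  refine ⟨(u * (cj κ).1, u * (cj κ).2), ?_, ?_, ?_⟩
  · have e : Nm (u * (cj κ).1, u * (cj κ).2) = u * (u * Nm κ) := by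
      rw [← Nm_cj κ]; unfold Nm F; ring
    rw [e]
    have h1 : IsCoprime u (M : ℤ) := ⟨Nm κ, v, by linarith⟩
    have h2 : IsCoprime (Nm κ) (M : ℤ) := ⟨u, v, huv⟩
    exact h1.mul_left (h1.mul_left h2)
  · have e : (mu κ (u * (cj κ).1, u * (cj κ).2)).1 - ((1 : ℤ), (0 : ℤ)).1 = u * Nm κ - 1 := by
      unfold mu cj Nm F
      simp only
      ring
    rw [e]
    exact ⟨-v, by linarith⟩
  · have e : (mu κ (u * (cj κ).1, u * (cj κ).2)).2 - ((1 : ℤ), (0 : ℤ)).2 = 0 := by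
      unfold mu cj
      simp only
      ring
    rw [e]
    exact dvd_zero _

end Pool.Agent.H62.RV
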