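import Mathlib

/-!
# CombE: almost multiplicative functions on `ℤ/N`

All functions have values in `[-1, 1]`.  As in `H17/RP/Comb.lean`:
(a) `1 - P Q ≤ (1 - P) + (1 - Q)` for `P, Q ∈ [-1, 1]`; (b) `1 - S ≤ 2 (1 - s² S)` for `s, S ∈ [-1, 1]`.
(c) (doubling) for `G ≥ 0` on `ZMod N`: `Σ_u G (2 u) ≤ 2 Σ_v G v` (for given `v` at most two `u` with `2u = v`:
`2 u.val = v.val` or `2 u.val = v.val + N`), and `Σ_x G x ≤ Σ_u G (2u) + Σ_u G (2u + 1)` (`x = 2u` or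
`2u + 1` with `u = x.val / 2`).

(1) `P1 = f(12+y-z) f(y) f(z)`, `P2 = f(11-y-z) f(y) f(z)`: `P1 P2 = (f(y) f(z))² f(12+y-z) f(11-y-z)`, so
`Σ_y Σ_z (1 - f(11-y-z) f(12+y-z)) ≤ 4 η N²`; substitute `z = 11 - y - x`:
`D = Σ_x Σ_y (1 - f(x) f(x+1+2y)) ≤ 4 η N²`.
(2) The same with `E3`, `E4` (`(p(y) q(z))²`): `D' = Σ_x Σ_y (1 - f'(x) f(x+1+2y)) ≤ 4 η N²`.
(3) `z = y + 1 + 2u` in `E1`: `12 + y - z = 11 - 2u`, `P = f(11-2u) Q`, `Q = f(y) f(y+1+2u)`, `P Q = Q² f(11-2u)`: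
`Σ_y Σ_u (1 - f(11-2u)) ≤ 2 (Σ (1-P) + Σ (1-Q)) ≤ 2 (2 η N² + D) ≤ 12 η N²` (`Σ_y Σ_u (1 - P) ≤ 2 η N²` by (c) for
every `y`), i.e. `Σ_u (1 - f(11-2u)) ≤ 12 η N`, and `u ↦ 5 - u`: `Σ_u (1 - f(2u+1)) ≤ 12 η N`.
(4) `z = y + 1 + 2u` in `E2`: `11 - y - z = 10 - 2(y+u)`: in the same way
`Σ_y Σ_u (1 - f(10-2(y+u))) ≤ 12 η N²`, i.e. `Σ_v (1 - f(2v)) ≤ 12 η N` (`v = 5 - y - u`).
(5) By (c) `Σ_x (1 - f x) ≤ 24 η N`.
(6) `1 - f'(x) ≤ 2 ((1 - f'(x) f(x')) + (1 - f(x')))` for `x' = x + 1 + 2y` ((b) with `s = f(x')`, (a):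
`f(x')² f'(x) = (f'(x) f(x')) f(x')`); sum over `x, y`:
`N Σ_x (1 - f'(x)) ≤ 2 (D' + N · 24 η N) ≤ 56 η N²` (for fixed `y` the sum of `1 - f(x+1+2y)` over `x` is
`Σ_x (1 - f x)`).
-/

set_option autoImplicit false

namespace Pool.Agent.H62.RV

open Finset

/-- `1 - P Q ≤ (1 - P) + (1 - Q)` -/
private lemma combE_mul {P Q : ℝ} (hP : |P| ≤ 1) (hQ : |Q| ≤ 1) :
    1 - P * Q ≤ (1 - P) + (1 - Q) := by
  have h1 := abs_le.mp hP
  have h2 := abs_le.mp hQ
  nlinarith [mul_nonneg (sub_nonneg.mpr h1.2) (sub_nonneg.mpr h2.2)]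

/-- `1 - S ≤ 2 (1 - s² S)` -/
private lemma combE_sq {s S : ℝ} (hs : |s| ≤ 1) (hS : |S| ≤ 1) :
    1 - S ≤ 2 * (1 - s ^ 2 * S) := by
  have h1 := abs_le.mp hS
  have h2 : s ^ 2 ≤ 1 := by
    have := abs_le.mp hs
    nlinarith
  have h3 : 0 ≤ s ^ 2 := sq_nonneg s
  rcases le_total 0 S with h | h
  · nlinarith [mul_nonneg (sub_nonneg.mpr h2) h]
  · nlinarith [mul_nonneg h3 (neg_nonneg.mpr h)]

private lemma combE_abs_mul {a b : ℝ} (ha : |a| ≤ 1) (hb : |b| ≤ 1) : |a * b| ≤ 1 := by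
  rw [abs_mul]
  exact mul_le_one₀ ha (abs_nonneg _) hb

/-- `1 - S ≤ 2 ((1 - S Q) + (1 - Q))` -/
private lemma combE_pt {S Q : ℝ} (hS : |S| ≤ 1) (hQ : |Q| ≤ 1) :
    1 - S ≤ 2 * ((1 - S * Q) + (1 - Q)) := by
  have h1 := combE_sq hQ hS
  have h2 := combE_mul (combE_abs_mul hS hQ) hQ
  have e : S * Q * Q = Q ^ 2 * S := by ring
  rw [e] at h2
  linarith

private lemma combE_sum_shift {N : ℕ} [NeZero N] (G : ZMod N → ℝ) (t : ZMod N) :
    ∑ x : ZMod N, G (x + t) = ∑ x : ZMod N, G x :=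
  Fintype.sum_equiv (Equiv.addRight t) _ _ (fun _ => rfl)

private lemma combE_sum_sub {N : ℕ} [NeZero N] (G : ZMod N → ℝ) (t : ZMod N) :
    ∑ x : ZMod N, G (t - x) = ∑ x : ZMod N, G x :=
  Fintype.sum_equiv (Equiv.subLeft t) _ _ (fun _ => rfl)

/-- doubling, upper bound -/
private lemma combE_two {N : ℕ} [NeZero N] (G : ZMod N → ℝ) (hG : ∀ x, 0 ≤ G x) :
    ∑ u : ZMod N, G (2 * u) ≤ 2 * ∑ v : ZMod N, G v := by
  classical
  have h1 : ∑ u : ZMod N, G (2 * u) =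
      ∑ v : ZMod N, ∑ u ∈ univ.filter (fun u : ZMod N => 2 * u = v), G (2 * u) :=
    (Finset.sum_fiberwise univ (fun u : ZMod N => 2 * u) (fun u => G (2 * u))).symm
  rw [h1, Finset.mul_sum]
  refine Finset.sum_le_sum fun v _ => ?_
  have h2 : ∑ u ∈ univ.filter (fun u : ZMod N => 2 * u = v), G (2 * u) =
      ((univ.filter (fun u : ZMod N => 2 * u = v)).card : ℝ) * G v := by
    rw [← nsmul_eq_mul, ← Finset.sum_const]
    refine Finset.sum_congr rfl fun u hu => ?_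
    rw [(Finset.mem_filter.1 hu).2]
  rw [h2]
  refine mul_le_mul_of_nonneg_right ?_ (hG v)
  have h3 : (univ.filter (fun u : ZMod N => 2 * u = v)) ⊆
      {((v.val / 2 : ℕ) : ZMod N), (((v.val + N) / 2 : ℕ) : ZMod N)} := by
    intro u hu
    have hu2 := (Finset.mem_filter.1 hu).2
    have hul := ZMod.val_lt u
    have hvl := ZMod.val_lt v
    have h4 : v.val = (2 * u.val) % N := by
      rw [← hu2, ZMod.val_mul]
      have h5 : ((2 : ZMod N)).val = 2 % N := by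
        have := ZMod.val_natCast N 2
        simpa using this
      rw [h5, Nat.mod_mul_mod]
    have h6 : u = ((u.val : ℕ) : ZMod N) := (ZMod.natCast_zmod_val u).symm
    rcases lt_or_ge (2 * u.val) N with h | h
    · rw [Nat.mod_eq_of_lt h] at h4
      have h7 : v.val / 2 = u.val := by omega
      rw [Finset.mem_insert]
      left
      rw [h7]
      exact h6
    · have h8 : (2 * u.val) % N = 2 * u.val - N := by
        rw [Nat.mod_eq_sub_mod h, Nat.mod_eq_of_lt (by omega)]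
      rw [h8] at h4
      have h7 : (v.val + N) / 2 = u.val := by omega
      rw [Finset.mem_insert, Finset.mem_singleton]
      right
      rw [h7]
      exact h6
  have h9 : (univ.filter (fun u : ZMod N => 2 * u = v)).card ≤ 2 :=
    (Finset.card_le_card h3).trans Finset.card_le_two
  exact_mod_cast h9

/-- doubling, lower bound -/
private lemma combE_half {N : ℕ} [NeZero N] (G : ZMod N → ℝ) (hG : ∀ x, 0 ≤ G x) :
    ∑ x : ZMod N, G x ≤ (∑ u : ZMod N, G (2 * u)) + ∑ u : ZMod N, G (2 * u + 1) := by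
  classical
  set φ : ZMod N → ZMod N × Fin 2 := fun x =>
    (((x.val / 2 : ℕ) : ZMod N), ⟨x.val % 2, Nat.mod_lt _ (by norm_num)⟩) with hφ
  set F : ZMod N × Fin 2 → ℝ := fun w => G (2 * w.1 + ((w.2.val : ℕ) : ZMod N)) with hF
  have h1 : ∀ x : ZMod N, F (φ x) = G x := by
    intro x
    simp only [hF, hφ]
    congr 1
    have h2 : ((2 * (x.val / 2) + x.val % 2 : ℕ) : ZMod N) = x := by
      rw [Nat.div_add_mod, ZMod.natCast_zmod_val]
    rw [Nat.cast_add, Nat.cast_mul] at h2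
    exact_mod_cast h2
  have h3 : Function.Injective φ := by
    intro x y hxy
    have e : ∀ x : ZMod N, 2 * (φ x).1 + (((φ x).2.val : ℕ) : ZMod N) = x := by
      intro x
      simp only [hφ]
      have h2 : ((2 * (x.val / 2) + x.val % 2 : ℕ) : ZMod N) = x := by
        rw [Nat.div_add_mod, ZMod.natCast_zmod_val]
      rw [Nat.cast_add, Nat.cast_mul] at h2
      exact_mod_cast h2
    rw [← e x, ← e y, hxy]
  calc ∑ x : ZMod N, G x = ∑ x : ZMod N, F (φ x) := Finset.sum_congr rfl fun x _ => (h1 x).symm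
    _ = ∑ w ∈ univ.image φ, F w := (Finset.sum_image fun x _ y _ h => h3 h).symm
    _ ≤ ∑ w : ZMod N × Fin 2, F w :=
        Finset.sum_le_sum_of_subset_of_nonneg (Finset.subset_univ _) fun w _ _ => hG _
    _ = ∑ u : ZMod N, ∑ i : Fin 2, F (u, i) := Fintype.sum_prod_type _
    _ = _ := by
        rw [← Finset.sum_add_distrib]
        refine Finset.sum_congr rfl fun u _ => ?_
        rw [Fin.sum_univ_two]
        simp [hF]

/-- (1), (2): correlation -/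
private lemma combE_cor {N : ℕ} [NeZero N] (A B u w : ZMod N → ℝ) (hA : ∀ x, |A x| ≤ 1)
    (hB : ∀ x, |B x| ≤ 1) (hu : ∀ x, |u x| ≤ 1) (hw : ∀ x, |w x| ≤ 1) {η : ℝ}
    (EA : ∑ y : ZMod N, ∑ z : ZMod N, (1 - A (11 - y - z) * u y * w z) ≤ η * (N : ℝ) ^ 2)
    (EB : ∑ y : ZMod N, ∑ z : ZMod N, (1 - B (12 + y - z) * u y * w z) ≤ η * (N : ℝ) ^ 2) :
    ∑ y : ZMod N, ∑ x : ZMod N, (1 - A x * B (x + 1 + 2 * y)) ≤ 4 * η * (N : ℝ) ^ 2 := by
  have h1 : ∀ y : ZMod N, ∑ x : ZMod N, (1 - A x * B (x + 1 + 2 * y)) =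
      ∑ z : ZMod N, (1 - A (11 - y - z) * B (12 + y - z)) := by
    intro y
    rw [← combE_sum_sub (fun x => 1 - A x * B (x + 1 + 2 * y)) (11 - y)]
    refine Finset.sum_congr rfl fun z _ => ?_
    have : (11 : ZMod N) - y - z + 1 + 2 * y = 12 + y - z := by ring
    rw [this]
  have h2 : ∀ y z : ZMod N, 1 - A (11 - y - z) * B (12 + y - z) ≤
      2 * (1 - A (11 - y - z) * u y * w z) + 2 * (1 - B (12 + y - z) * u y * w z) := by
    intro y z
    have a1 := combE_sq (combE_abs_mul (hu y) (hw z))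
      (combE_abs_mul (hA (11 - y - z)) (hB (12 + y - z)))
    have a2 := combE_mul (combE_abs_mul (combE_abs_mul (hA (11 - y - z)) (hu y)) (hw z))
      (combE_abs_mul (combE_abs_mul (hB (12 + y - z)) (hu y)) (hw z))
    have e : A (11 - y - z) * u y * w z * (B (12 + y - z) * u y * w z) =
      (u y * w z) ^ 2 * (A (11 - y - z) * B (12 + y - z)) := by ring
    rw [e] at a2
    linarith
  calc ∑ y : ZMod N, ∑ x : ZMod N, (1 - A x * B (x + 1 + 2 * y))
      = ∑ y : ZMod N, ∑ z : ZMod N, (1 - A (11 - y - z) * B (12 + y - z)) :=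
        Finset.sum_congr rfl fun y _ => h1 y
    _ ≤ ∑ y : ZMod N, ∑ z : ZMod N, (2 * (1 - A (11 - y - z) * u y * w z) +
        2 * (1 - B (12 + y - z) * u y * w z)) :=
        Finset.sum_le_sum fun y _ => Finset.sum_le_sum fun z _ => h2 y z
    _ = 2 * (∑ y : ZMod N, ∑ z : ZMod N, (1 - A (11 - y - z) * u y * w z)) +
        2 * ∑ y : ZMod N, ∑ z : ZMod N, (1 - B (12 + y - z) * u y * w z) := by
        simp only [Finset.sum_add_distrib, Finset.mul_sum]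
    _ ≤ _ := by linarith

/-- (3), (4): one step -/
private lemma combE_step {N : ℕ} [NeZero N] (f : ZMod N → ℝ) (hf : ∀ x, |f x| ≤ 1)
    (H : ZMod N → ZMod N → ℝ) (hH : ∀ y z, |H y z| ≤ 1) {η : ℝ}
    (E : ∑ y : ZMod N, ∑ z : ZMod N, (1 - H y z * f y * f z) ≤ η * (N : ℝ) ^ 2)
    (D : ∑ y : ZMod N, ∑ x : ZMod N, (1 - f x * f (x + 1 + 2 * y)) ≤ 4 * η * (N : ℝ) ^ 2) :
    ∑ y : ZMod N, ∑ u : ZMod N, (1 - H y (y + 1 + 2 * u)) ≤ 12 * η * (N : ℝ) ^ 2 := by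
  have h0 : ∀ y z, 0 ≤ 1 - H y z * f y * f z := fun y z => by
    have := abs_le.1 (combE_abs_mul (combE_abs_mul (hH y z) (hf y)) (hf z))
    linarith [this.2]
  have h1 : ∀ y : ZMod N, ∑ u : ZMod N, (1 - H y (y + 1 + 2 * u) * f y * f (y + 1 + 2 * u)) ≤
      2 * ∑ z : ZMod N, (1 - H y z * f y * f z) := by
    intro y
    have a1 := combE_two (fun v => 1 - H y (v + (y + 1)) * f y * f (v + (y + 1)))
      (fun v => h0 y _)
    rw [combE_sum_shift (fun v => 1 - H y v * f y * f v) (y + 1)] at a1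
    refine le_trans (le_of_eq ?_) a1
    refine Finset.sum_congr rfl fun u _ => ?_
    have : y + 1 + 2 * u = 2 * u + (y + 1) := by ring
    rw [this]
  have h2 : ∑ y : ZMod N, ∑ u : ZMod N, (1 - H y (y + 1 + 2 * u) * f y * f (y + 1 + 2 * u)) ≤
      2 * (η * (N : ℝ) ^ 2) := by
    refine (Finset.sum_le_sum fun y _ => h1 y).trans ?_
    rw [← Finset.mul_sum]
    linarith
  have h3 : ∑ y : ZMod N, ∑ u : ZMod N, (1 - f y * f (y + 1 + 2 * u)) ≤
      4 * η * (N : ℝ) ^ 2 := by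
    rw [Finset.sum_comm]
    exact D
  calc ∑ y : ZMod N, ∑ u : ZMod N, (1 - H y (y + 1 + 2 * u))
      ≤ ∑ y : ZMod N, ∑ u : ZMod N, (2 * (1 - H y (y + 1 + 2 * u) * f y * f (y + 1 + 2 * u)) +
        2 * (1 - f y * f (y + 1 + 2 * u))) := by
        refine Finset.sum_le_sum fun y _ => Finset.sum_le_sum fun u _ => ?_
        have a := combE_pt (hH y (y + 1 + 2 * u)) (combE_abs_mul (hf y) (hf (y + 1 + 2 * u)))
        rw [← mul_assoc] at a
        linarith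
    _ = 2 * (∑ y : ZMod N, ∑ u : ZMod N, (1 - H y (y + 1 + 2 * u) * f y * f (y + 1 + 2 * u))) +
        2 * ∑ y : ZMod N, ∑ u : ZMod N, (1 - f y * f (y + 1 + 2 * u)) := by
        simp only [Finset.sum_add_distrib, Finset.mul_sum]
    _ ≤ _ := by linarith

theorem combE {N : ℕ} [NeZero N] (f f' p q : ZMod N → ℝ) (hf : ∀ x, |f x| ≤ 1)
    (hf' : ∀ x, |f' x| ≤ 1) (hp : ∀ x, |p x| ≤ 1) (hq : ∀ x, |q x| ≤ 1) {η : ℝ}
    (E1 : ∑ y : ZMod N, ∑ z : ZMod N, (1 - f (12 + y - z) * f y * f z) ≤ η * (N : ℝ) ^ 2)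
    (E2 : ∑ y : ZMod N, ∑ z : ZMod N, (1 - f (11 - y - z) * f y * f z) ≤ η * (N : ℝ) ^ 2)
    (E3 : ∑ y : ZMod N, ∑ z : ZMod N, (1 - f' (11 - y - z) * p y * q z) ≤ η * (N : ℝ) ^ 2)
    (E4 : ∑ y : ZMod N, ∑ z : ZMod N, (1 - f (12 + y - z) * p y * q z) ≤ η * (N : ℝ) ^ 2) :
    ∑ x : ZMod N, (1 - f' x) ≤ 56 * η * N := by
  have hN0 : (0 : ℝ) < N := by
    have := NeZero.pos N
    exact_mod_cast this
  have hcard : ∀ a : ℝ, ∑ _x : ZMod N, a = N * a := by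
    intro a
    rw [Finset.sum_const, Finset.card_univ, ZMod.card, nsmul_eq_mul]
  have hf0 : ∀ x, 0 ≤ 1 - f x := fun x => by linarith [(abs_le.1 (hf x)).2]
  have D := combE_cor f f f f hf hf hf hf E2 E1
  have D' := combE_cor f' f p q hf' hf hp hq E3 E4
  -- (3)
  have h3 : ∑ u : ZMod N, (1 - f (2 * u + 1)) ≤ 12 * η * N := by
    have a := combE_step f hf (fun y z => f (12 + y - z)) (fun y z => hf _) E1 D
    have b : ∀ y : ZMod N, ∑ u : ZMod N, (1 - f (12 + y - (y + 1 + 2 * u))) =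
        ∑ u : ZMod N, (1 - f (2 * u + 1)) := by
      intro y
      rw [← combE_sum_sub (fun u => 1 - f (2 * u + 1)) 5]
      refine Finset.sum_congr rfl fun u _ => ?_
      have : (12 : ZMod N) + y - (y + 1 + 2 * u) = 2 * (5 - u) + 1 := by ring
      rw [this]
    simp only [b, hcard] at a
    refine le_of_mul_le_mul_left ?_ hN0
    calc (N : ℝ) * ∑ u : ZMod N, (1 - f (2 * u + 1)) ≤ 12 * η * (N : ℝ) ^ 2 := a
      _ = _ := by ring
  -- (4)
  have h4 : ∑ u : ZMod N, (1 - f (2 * u)) ≤ 12 * η * N := by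
    have a := combE_step f hf (fun y z => f (11 - y - z)) (fun y z => hf _) E2 D
    have b : ∀ y : ZMod N, ∑ u : ZMod N, (1 - f (11 - y - (y + 1 + 2 * u))) =
        ∑ u : ZMod N, (1 - f (2 * u)) := by
      intro y
      rw [← combE_sum_sub (fun u => 1 - f (2 * u)) (5 - y)]
      refine Finset.sum_congr rfl fun u _ => ?_
      have : (11 : ZMod N) - y - (y + 1 + 2 * u) = 2 * (5 - y - u) := by ring
      rw [this]
    simp only [b, hcard] at a
    refine le_of_mul_le_mul_left ?_ hN0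
    calc (N : ℝ) * ∑ u : ZMod N, (1 - f (2 * u)) ≤ 12 * η * (N : ℝ) ^ 2 := a
      _ = _ := by ring
  -- (5)
  have h5 : ∑ x : ZMod N, (1 - f x) ≤ 24 * η * N := by
    have := combE_half (fun x => 1 - f x) hf0
    linarith
  -- (6)
  have h6 : ∀ x y : ZMod N, 1 - f' x ≤
      2 * (1 - f' x * f (x + 1 + 2 * y)) + 2 * (1 - f (x + 1 + 2 * y)) := by
    intro x y
    have := combE_pt (hf' x) (hf (x + 1 + 2 * y))
    linarith
  have h7 : ∑ y : ZMod N, ∑ x : ZMod N, (1 - f' x) ≤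
      2 * (4 * η * (N : ℝ) ^ 2) + 2 * (N * (24 * η * N)) := by
    calc ∑ y : ZMod N, ∑ x : ZMod N, (1 - f' x)
        ≤ ∑ y : ZMod N, ∑ x : ZMod N, (2 * (1 - f' x * f (x + 1 + 2 * y)) +
          2 * (1 - f (x + 1 + 2 * y))) :=
          Finset.sum_le_sum fun y _ => Finset.sum_le_sum fun x _ => h6 x y
      _ = 2 * (∑ y : ZMod N, ∑ x : ZMod N, (1 - f' x * f (x + 1 + 2 * y))) +
          2 * ∑ y : ZMod N, ∑ x : ZMod N, (1 - f (x + 1 + 2 * y)) := by
          simp only [Finset.sum_add_distrib, Finset.mul_sum]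
      _ ≤ _ := by
          have b : ∀ y : ZMod N, ∑ x : ZMod N, (1 - f (x + 1 + 2 * y)) =
              ∑ x : ZMod N, (1 - f x) := by
            intro y
            rw [← combE_sum_shift (fun x => 1 - f x) (1 + 2 * y)]
            refine Finset.sum_congr rfl fun x _ => ?_
            rw [add_assoc]
          simp only [b, hcard]
          have := mul_le_mul_of_nonneg_left h5 hN0.le
          linarith
  rw [hcard] at h7
  refine le_of_mul_le_mul_left ?_ hN0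
  calc (N : ℝ) * ∑ x : ZMod N, (1 - f' x) ≤ _ := h7
    _ = _ := by ring

end Pool.Agent.H62.RV
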