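import Pool.Agent.H17.RP.Pair
import Pool.Agent.H17.RP.FewP
import Pool.Agent.H17.RP.EmB

/-!
# Rough values of `3k² + 3k + 1` of both parities in every residue class: definitions

Extension of `Pool/Agent/H17/RP` (whose lemmas are used) to the `k` in a residue class `r` modulo `m`,
`gcd (3r² + 3r + 1, m) = 1`, uniformly for `m ≤ t`.  The paper is in `RV/Outline.md`
(`/team-store/rv62.md`).

Vectors are restricted to the class `(1, 0)` modulo `3m`; the determinants `b` of such vectors are divisible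
by `3m`, and in the certificate `(a + bθ)(1 + Rθ) = d (1 + R₂θ)` we ask in addition for `R = ρ mod m`, i.e.
`d = a - 3bρ mod 3bm`; then `R₂ = R + b fk(R)/d = ρ mod m` as well.
-/

set_option autoImplicit false

namespace Pool.Agent.H62.RV

open Finset Pool.Agent.H17.RP

/-- `w` is congruent to `κ` modulo `M` -/
def Cl (M : ℕ) (κ w : ℤ × ℤ) : Prop := (M : ℤ) ∣ w.1 - κ.1 ∧ (M : ℤ) ∣ w.2 - κ.2

/-- The hypothesis (to be refuted for all large `t`, all `m ≤ t` and all classes `r`): all values `fk R`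
without prime factors `≤ 2^t`, for `2^t ≤ R ≤ A^100`, `R = r mod m`, have Liouville function `ε`, with at
most `A^(1/2)` exceptions `R`. -/
def HypC (g t m : ℕ) (r ε : ℤ) : Prop :=
  ∃ E : Finset ℤ, E.card ^ 2 ≤ AA g t ∧
    ∀ R : ℤ, 2 ^ t ≤ R → R ≤ (AA g t : ℤ) ^ 100 → (m : ℤ) ∣ R - r → R ∉ E →
      Rough (2 ^ t) (fk R) → lam (fk R) = ε

/-- The good subset products: `d = a - 3bρ mod 3bm` (so `R = (a - d)/(3b)` is `ρ` modulo `m`), and
`3R² + 3R + 1` is prime to `W`. -/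
noncomputable def SdC (D : Finset ℕ) (a b ρ : ℤ) (m W : ℕ) : Finset (Finset ℕ) :=
  sel D.powerset (fun T => 3 * b * m ∣ a - 3 * b * ρ - (prd T : ℤ) ∧
    ∀ q : ℕ, q.Prime → q ∣ W → ¬ (q : ℤ) ∣ fk ((a - (prd T : ℤ)) / (3 * b)))

/-- `D` is good for `(a, b, ρ, m, W)`. -/
def GoodC (t : ℕ) (a b ρ : ℤ) (m W : ℕ) (D : Finset ℕ) : Prop :=
  (SdC D a b ρ m W).Nonempty ∧ ∀ q : ℕ, q.Prime → q ≤ 2 ^ t → ¬ q ∣ W → ∀ x : ℤ,
    cs (SdC D a b ρ m W) (fun T => (q : ℤ) ∣ (prd T : ℤ) - x) * t ^ 21 ≤ (SdC D a b ρ m W).card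

/-- The step property of the basis `(e, f)` at `n` (window size `L`) for the class `(1, 0)` modulo `M`: the
window contains a rough vector of the class, and all rough vectors of the class in the big window have
the same Liouville value. -/
def StepC (M L t : ℕ) (n : ℤ) (e f : ℤ × ℤ) : Prop :=
  (∃ p ∈ win L, Cl M (1, 0) (sh n (lin e f p)) ∧ Rough (2 ^ t) (Nm (sh n (lin e f p)))) ∧
  ∀ p ∈ bwin L, ∀ p' ∈ bwin L, Cl M (1, 0) (sh n (lin e f p)) → Cl M (1, 0) (sh n (lin e f p')) →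
    Rough (2 ^ t) (Nm (sh n (lin e f p))) → Rough (2 ^ t) (Nm (sh n (lin e f p'))) →
    lam (Nm (sh n (lin e f p))) = lam (Nm (sh n (lin e f p')))

/-- The event that all the vectors `sh n w`, `sh n (w' j)` are rough and in the class `(1, 0)` modulo
`M`, and none of the `w' j` has the same Liouville value as `w`. -/
def EvC (M t : ℕ) {s : ℕ} (w : ℤ × ℤ) (w' : Fin s → ℤ × ℤ) (n : ℤ) : Prop :=
  (Cl M (1, 0) (sh n w) ∧ Rough (2 ^ t) (Nm (sh n w))) ∧
  ∀ j, Cl M (1, 0) (sh n (w' j)) ∧ Rough (2 ^ t) (Nm (sh n (w' j))) ∧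
    lam (Nm (sh n (w' j))) ≠ lam (Nm (sh n w))

/-- density of the root classes of `fk` in the progression modulo `3bm` -/
noncomputable def dlC (b : ℤ) (m q : ℕ) : ℝ :=
  if q % 3 = 1 ∧ ¬ q ∣ m then (if (q : ℤ) ∣ b then 2 / (q : ℝ) else 2 / ((q : ℝ) - 1)) else 0

/-- All rotations of the vectors of `RR A K` (rough vectors of norm about `A^4`, all arguments). -/
noncomputable def RF (A K : ℕ) : Finset (ℤ × ℤ) :=
  (range 6).biUnion (fun k => (RR A K).image (rot^[k]))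

/-- The sector (of angle `2π/N`, `N = 6 (20 A + 1)`) of a vector. -/
noncomputable def secF (A : ℕ) (w : ℤ × ℤ) : ZMod (6 * (20 * A + 1)) :=
  ((⌊(em w).arg * (3 * (20 * (A : ℝ) + 1) / Real.pi)⌋ : ℤ) : ZMod (6 * (20 * A + 1)))

/-- The vectors of the class `κ` modulo `M` in `RF A K`. -/
noncomputable def SF (A K M : ℕ) (κ : ℤ × ℤ) : Finset (ℤ × ℤ) := sel (RF A K) (Cl M κ)

/-- The almost prime vectors of the class `(1, 0)` modulo `M` in the cusp region with an odd number of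
prime factors. -/
noncomputable def OO (A K M : ℕ) : ℕ :=
  cs (cusp A (8 * A ^ 5)) (fun w => Cl M (1, 0) w ∧ RK A K (Nm w) ∧ lam (Nm w) = -1)

/-- the average of `l` over the `w ∈ S` with `s w = j` -/
noncomputable def av {N : ℕ} (S : Finset (ℤ × ℤ)) (s : ℤ × ℤ → ZMod N) (l : ℤ × ℤ → ℤ)
    (j : ZMod N) : ℝ :=
  (∑ w ∈ sel S (fun w => s w = j), (l w : ℝ)) / (cs S (fun w => s w = j) : ℝ)

end Pool.Agent.H62.RV
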