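import Pool.Agent.H62.RV.ClAlg
import Pool.Agent.H17.RP.Sect

/-!
# Full: the full circle

`N = 20 A + 1`.  `secF_rot`: `em (rot w) = om * em w` (`em_rot`), the argument increases by `π/3` modulo `2π`
(`Complex.arg_mul_coe_angle`, `om_eq`; so `arg (em (rot w)) = arg (em w) + π/3 + 2πj`), and
`(π/3) 3N/π = N`, `2π · 3N/π = 6N = 0` in `ZMod (6N)`; `⌊x + n⌋ = ⌊x⌋ + n`.  Induction on `k`.
`secF_RR`: for `v ∈ RR A K` the argument is in `[π/3, 2π/3)`: `secF A v = N + i`, where `i ∈ [0, N)` is the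
integer `⌊(arg - π/3) 3N/π⌋` with `sec A v = i`.
-/

set_option autoImplicit false

namespace Pool.Agent.H62.RV

open Finset Pool.Agent.H17.RP

theorem mem_RF {A K : ℕ} {w : ℤ × ℤ} :
    w ∈ RF A K ↔ ∃ k : ℕ, k < 6 ∧ ∃ v ∈ RR A K, rot^[k] v = w := by
  unfold RF
  simp only [mem_biUnion, mem_range, mem_image]

private theorem Full_em_ne {w : ℤ × ℤ} (hw : w ≠ 0) : em w ≠ 0 := by
  intro h
  apply hw
  apply em_inj
  rw [h]
  apply Complex.ext <;> simp [Pool.Agent.H17.RP.em]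

private theorem Full_rot_ne {w : ℤ × ℤ} (hw : w ≠ 0) : rot w ≠ 0 := by
  intro h
  apply hw
  have h1 := congrArg Prod.fst h
  have h2 := congrArg Prod.snd h
  simp only [rot, Prod.fst_zero, Prod.snd_zero] at h1 h2
  apply Prod.ext
  · simp only [Prod.fst_zero]; linarith
  · simp only [Prod.snd_zero]; linarith

private theorem Full_arg_rot {w : ℤ × ℤ} (hw : w ≠ 0) :
    ∃ k : ℤ, (em (rot w)).arg = (em w).arg + Real.pi / 3 + 2 * Real.pi * k := by
  have hpi := Real.pi_pos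
  have hom : om ≠ 0 := by
    rw [om_eq]; exact Complex.exp_ne_zero _
  have harg : om.arg = Real.pi / 3 := by
    rw [om_eq]
    have h1 : ((Real.pi : ℂ) / 3 * Complex.I) = ((Real.pi / 3 : ℝ) : ℂ) * Complex.I := by
      push_cast; ring
    rw [h1, Complex.exp_mul_I, Complex.arg_cos_add_sin_mul_I]
    constructor <;> linarith
  have h := Complex.arg_mul_coe_angle hom (Full_em_ne hw)
  rw [harg, ← em_rot, ← Real.Angle.coe_add, Real.Angle.angle_eq_iff_two_pi_dvd_sub] at h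
  obtain ⟨k, hk⟩ := h
  exact ⟨k, by linarith⟩

private theorem Full_rot_one {A : ℕ} {w : ℤ × ℤ} (hw : w ≠ 0) :
    secF A (rot w) = secF A w + ((20 * A + 1 : ℕ) : ZMod (6 * (20 * A + 1))) := by
  obtain ⟨k, hk⟩ := Full_arg_rot hw
  have hpi := Real.pi_pos
  unfold secF
  have e : (em (rot w)).arg * (3 * (20 * (A : ℝ) + 1) / Real.pi) =
      (em w).arg * (3 * (20 * (A : ℝ) + 1) / Real.pi) +
        (((20 * A + 1 : ℕ) : ℤ) + ((6 * (20 * A + 1) : ℕ) : ℤ) * k : ℤ) := by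
    rw [hk]
    push_cast
    field_simp
    ring
  rw [e, Int.floor_add_intCast]
  have h0 : (((6 * (20 * A + 1) : ℕ) : ℤ) : ZMod (6 * (20 * A + 1))) = 0 := by
    rw [Int.cast_natCast]
    exact ZMod.natCast_self _
  rw [Int.cast_add, Int.cast_add, Int.cast_mul, h0, zero_mul, add_zero, Int.cast_natCast]

theorem secF_rot {A : ℕ} {w : ℤ × ℤ} (hw : w ≠ 0) (k : ℕ) :
    secF A (rot^[k] w) = secF A w + ((k * (20 * A + 1) : ℕ) : ZMod (6 * (20 * A + 1))) := by
  induction k generalizing w with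
  | zero => simp
  | succ k ih =>
    rw [Function.iterate_succ_apply, ih (Full_rot_ne hw), Full_rot_one hw, add_assoc,
      ← Nat.cast_add]
    congr 2
    ring

theorem secF_RR {A K : ℕ} (hA : 1 ≤ A) {v : ℤ × ℤ} (hv : v ∈ RR A K) :
    ∃ i : ℕ, i < 20 * A + 1 ∧ sec A v = (i : ZMod (20 * A + 1)) ∧
      secF A v = ((20 * A + 1 + i : ℕ) : ZMod (6 * (20 * A + 1))) := by
  have hpi := Real.pi_pos
  unfold RR at hv
  rw [mem_sel] at hv
  obtain ⟨-, h1, h2, -⟩ := hv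
  have hN : (0 : ℝ) < 20 * (A : ℝ) + 1 := by positivity
  have hc : (0 : ℝ) < 3 * (20 * (A : ℝ) + 1) / Real.pi := by positivity
  set x : ℝ := ((em v).arg - Real.pi / 3) * (3 * (20 * (A : ℝ) + 1) / Real.pi) with hx
  have hx0 : 0 ≤ x := mul_nonneg (by linarith) hc.le
  have hx1 : x < 20 * (A : ℝ) + 1 := by
    have h3 : x < (Real.pi / 3) * (3 * (20 * (A : ℝ) + 1) / Real.pi) :=
      mul_lt_mul_of_pos_right (by linarith) hc
    have h4 : (Real.pi / 3) * (3 * (20 * (A : ℝ) + 1) / Real.pi) = 20 * (A : ℝ) + 1 := by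
      field_simp
    rwa [h4] at h3
  have hf0 : 0 ≤ ⌊x⌋ := Int.floor_nonneg.2 hx0
  have hf : ((⌊x⌋.toNat : ℕ) : ℤ) = ⌊x⌋ := Int.toNat_of_nonneg hf0
  refine ⟨⌊x⌋.toNat, ?_, ?_, ?_⟩
  · have h5 : ⌊x⌋ < ((20 * A + 1 : ℕ) : ℤ) := by
      rw [Int.floor_lt]
      push_cast
      exact hx1
    rw [← hf] at h5
    exact_mod_cast h5
  · unfold sec
    rw [← hx, ← hf, Int.cast_natCast, Int.toNat_natCast]
  · unfold secF
    have e : (em v).arg * (3 * (20 * (A : ℝ) + 1) / Real.pi) =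
        x + (((20 * A + 1 : ℕ) : ℤ) : ℝ) := by
      rw [hx]
      push_cast
      field_simp
      ring
    rw [e, Int.floor_add_intCast, ← hf, ← Nat.cast_add, Int.cast_natCast, Int.toNat_natCast,
      Nat.add_comm ⌊x⌋.toNat (20 * A + 1)]

end Pool.Agent.H62.RV
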