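import Pool.Agent.H62.RV.ClAlg
import Pool.Agent.H17.RP.Sect

/-!
# SectC: every sector contains many rough vectors of every class

Variant of `sect_low` in `H17/RP/Sect.lean` (copy the private lemmas) for the vectors `w = κ mod M`, where
`Nm κ` is prime to `M` and `M² ≤ log A`.

Proof. `K = 4 C + 4`, `C` of `LB`, `z` the largest integer with `z^K ≤ A`.  There are at least
`A²/M - 1 ≥ A²/(2M)` integers `y ∈ [A², 2A²]` with `y = κ.2 mod M`.  For each of them the `x` with `(x, y)` in the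
sector `j` are the integers of `(a, b]`, `b - a ≥ A/50` (`sec_interval`), and those with `x = κ.1 mod M` are
`x = x0 + M s`, `s = 0, ..., S - 1`, `S ≥ A/(50 M) - 1 ≥ A/(100 M)`.  `LB` on `range S` with
`Ps` = primes `≤ z` not dividing `M`, `bad p s : p ∣ Nm (x0 + M s, y)`: at most two classes modulo `p`, at most
one for `p = 2, 3` (as in `Sect_rho_two`, `Sect_rho2`, `Sect_rho3`: `s ↦ x0 + M s` is a bijection modulo `p`);
`crt_count`: `E = z^C`.  So at least `A/(100 M C (log z)²) - z^(2C) ≥ A/(200 M C (log A)²)` values `s` are good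
(`z^(2C) ≤ A^(1/2)`, `M ≤ log A`).  A prime `p ∣ M` does not divide `Nm (x, y) = Nm κ mod M` (`cl_Nm`).  So all
prime factors are `> z`, i.e. `RK A K`.  Total `≥ A²/(2M) · A/(200 M C (log A)²) ≥ c A³/(log A)^3`.
-/

set_option autoImplicit false

namespace Pool.Agent.H62.RV

open Finset Pool.Agent.H17.RP

private theorem SectC_Ioc_mem {a b : ℝ} {x : ℤ} : x ∈ Ioc ⌊a⌋ ⌊b⌋ ↔ a < x ∧ (x : ℝ) ≤ b := by
  rw [mem_Ioc, Int.floor_lt, Int.le_floor]

private theorem SectC_card_Ioc_ge {a b : ℝ} : b - a - 1 ≤ ((Ioc ⌊a⌋ ⌊b⌋).card : ℝ) := by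
  rw [Int.card_Ioc]
  have h1 : b - 1 < ⌊b⌋ := Int.sub_one_lt_floor b
  have h2 : (⌊a⌋ : ℝ) ≤ a := Int.floor_le a
  have h3 : (⌊b⌋ - ⌊a⌋ : ℤ) ≤ ((⌊b⌋ - ⌊a⌋).toNat : ℤ) := Int.self_le_toNat _
  have h4 : ((⌊b⌋ - ⌊a⌋ : ℤ) : ℝ) ≤ (((⌊b⌋ - ⌊a⌋).toNat : ℕ) : ℝ) := by exact_mod_cast h3
  push_cast at h4
  linarith

private theorem SectC_dvd_small {p : ℕ} (a b : ℕ) (ha : a < p) (hb : b < p)
    (h : (p : ℤ) ∣ (a : ℤ) - b) : a = b := by
  obtain ⟨c, hc⟩ := h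
  have hp : (0 : ℤ) < p := by exact_mod_cast (Nat.zero_lt_of_lt ha)
  have h1 : (a : ℤ) < p := by exact_mod_cast ha
  have h2 : (b : ℤ) < p := by exact_mod_cast hb
  have h3 : (0 : ℤ) ≤ a := Int.natCast_nonneg a
  have h4 : (0 : ℤ) ≤ b := Int.natCast_nonneg b
  have h5 : c < 1 := by
    by_contra hcon
    push Not at hcon
    nlinarith
  have h6 : -1 < c := by
    by_contra hcon
    push Not at hcon
    nlinarith
  have h7 : c = 0 := by omega
  subst h7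
  have : (a : ℤ) = b := by linarith
  exact_mod_cast this

private theorem SectC_rho_two {p : ℕ} (hp : p.Prime) (x0 y : ℤ) :
    cs (range p) (fun m => (p : ℤ) ∣ Nm (x0 + (m : ℤ), y)) ≤ 2 := by
  by_contra hcon
  push Not at hcon
  unfold cs at hcon
  obtain ⟨a, ha, b, hb, c, hc, hab, hac, hbc⟩ := Finset.two_lt_card.1 hcon
  rw [mem_sel, mem_range] at ha hb hc
  have hpi : Prime (p : ℤ) := Nat.prime_iff_prime_int.1 hp
  have key : ∀ a b : ℕ, a < p → b < p → a ≠ b → (p : ℤ) ∣ Nm (x0 + (a : ℤ), y) →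
      (p : ℤ) ∣ Nm (x0 + (b : ℤ), y) → (p : ℤ) ∣ 2 * x0 + a + b + 3 * y := by
    intro a b ha hb hab h1 h2
    have h3 := dvd_sub h1 h2
    have h4 : Nm (x0 + (a : ℤ), y) - Nm (x0 + (b : ℤ), y) =
        ((a : ℤ) - b) * (2 * x0 + a + b + 3 * y) := by
      unfold Nm F; ring
    rw [h4] at h3
    rcases hpi.dvd_or_dvd h3 with h5 | h5
    · exact absurd (SectC_dvd_small a b ha hb h5) hab
    · exact h5
  have h1 := key a b ha.1 hb.1 hab ha.2 hb.2
  have h2 := key a c ha.1 hc.1 hac ha.2 hc.2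
  have h3 : (p : ℤ) ∣ (b : ℤ) - c := by
    have := dvd_sub h1 h2
    have h4 : (2 * x0 + a + b + 3 * y) - (2 * x0 + a + c + 3 * y) = (b : ℤ) - c := by ring
    rwa [h4] at this
  exact hbc (SectC_dvd_small b c hb.1 hc.1 h3)

private theorem SectC_rho2 (x0 y : ℤ) :
    cs (range 2) (fun m => ((2 : ℕ) : ℤ) ∣ Nm (x0 + (m : ℤ), y)) ≤ 1 := by
  by_contra hcon
  push Not at hcon
  unfold cs at hcon
  obtain ⟨a, ha, b, hb, hab⟩ := Finset.one_lt_card.1 hcon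
  rw [mem_sel, mem_range] at ha hb
  obtain ⟨ha1, ha2⟩ := ha
  obtain ⟨hb1, hb2⟩ := hb
  have h01 : (((2 : ℕ) : ℤ) ∣ Nm (x0 + ((0 : ℕ) : ℤ), y)) ∧
      (((2 : ℕ) : ℤ) ∣ Nm (x0 + ((1 : ℕ) : ℤ), y)) := by
    interval_cases a <;> interval_cases b
    · exact absurd rfl hab
    · exact ⟨ha2, hb2⟩
    · exact ⟨hb2, ha2⟩
    · exact absurd rfl hab
  obtain ⟨h0, h1⟩ := h01
  unfold Nm F at h0 h1
  push_cast at h0 h1
  rcases Int.even_or_odd' x0 with ⟨r, hr | hr⟩ <;> rcases Int.even_or_odd' y with ⟨s, hs | hs⟩ <;>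
    subst hr <;> subst hs <;> ring_nf at h0 h1 <;> omega

private theorem SectC_rho3 (x0 y : ℤ) :
    cs (range 3) (fun m => ((3 : ℕ) : ℤ) ∣ Nm (x0 + (m : ℤ), y)) ≤ 1 := by
  by_contra hcon
  push Not at hcon
  unfold cs at hcon
  obtain ⟨a, ha, b, hb, hab⟩ := Finset.one_lt_card.1 hcon
  rw [mem_sel, mem_range] at ha hb
  have h3p : Prime (3 : ℤ) := Int.prime_three
  have key : ∀ x : ℤ, ((3 : ℕ) : ℤ) ∣ Nm (x, y) → (3 : ℤ) ∣ x := by
    intro x hx
    have h1 : (3 : ℤ) ∣ x ^ 2 := by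
      have h2 : x ^ 2 = Nm (x, y) - 3 * (x * y + y ^ 2) := by unfold Nm F; ring
      rw [h2]
      exact dvd_sub (by exact_mod_cast hx) (Dvd.intro _ rfl)
    exact h3p.dvd_of_dvd_pow h1
  have h1 := key _ ha.2
  have h2 := key _ hb.2
  have h3 : ((3 : ℕ) : ℤ) ∣ (a : ℤ) - b := by
    have := dvd_sub h1 h2
    have h4 : x0 + (a : ℤ) - (x0 + (b : ℤ)) = (a : ℤ) - b := by ring
    rw [h4] at this
    exact_mod_cast this
  exact hab (SectC_dvd_small a b ha.1 hb.1 h3)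

private theorem SectC_delta {p : ℕ} (hp : p.Prime) (x0 y : ℤ) :
    let ρ : ℝ := (cs (range p) (fun m => (p : ℤ) ∣ Nm (x0 + (m : ℤ), y)) : ℝ)
    0 ≤ ρ / p ∧ ρ / p ≤ 1 / 2 ∧ ρ / p * ((p : ℝ) - 1) ≤ 2 := by
  intro ρ
  have hp0 : (0 : ℝ) < p := by exact_mod_cast hp.pos
  have hp2 : (2 : ℝ) ≤ p := by exact_mod_cast hp.two_le
  have hρ0 : 0 ≤ ρ := Nat.cast_nonneg _
  have hρ2 : ρ ≤ 2 := by
    have := SectC_rho_two hp x0 y
    have h2 : ρ ≤ ((2 : ℕ) : ℝ) := Nat.cast_le.2 this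
    simpa using h2
  refine ⟨div_nonneg hρ0 hp0.le, ?_, ?_⟩
  · rw [div_le_iff₀ hp0]
    rcases lt_or_ge p 4 with h4 | h4
    · have h5 : p = 2 ∨ p = 3 := by
        have := hp.two_le
        omega
      rcases h5 with h5 | h5
      · subst h5
        have h6 : ρ ≤ ((1 : ℕ) : ℝ) := Nat.cast_le.2 (SectC_rho2 x0 y)
        push_cast at h6 ⊢
        linarith
      · subst h5
        have h6 : ρ ≤ ((1 : ℕ) : ℝ) := Nat.cast_le.2 (SectC_rho3 x0 y)
        push_cast at h6 ⊢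
        linarith
    · have h5 : (4 : ℝ) ≤ p := by exact_mod_cast h4
      linarith
  · rw [div_mul_eq_mul_div, div_le_iff₀ hp0]
    nlinarith

/-- an affine substitution does not increase the number of classes -/
private theorem SectC_inj {p M : ℕ} (hp : p.Prime) (hM : ¬ p ∣ M) (x0 y : ℤ) :
    cs (range p) (fun s => (p : ℤ) ∣ Nm (x0 + (M : ℤ) * (s : ℤ), y)) ≤
      cs (range p) (fun m => (p : ℤ) ∣ Nm (x0 + (m : ℤ), y)) := by
  unfold cs
  refine Finset.card_le_card_of_injOn (fun s : ℕ => (M * s) % p) ?_ ?_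
  · intro s hs
    have hs' := mem_sel.1 (Finset.mem_coe.1 hs)
    rw [Finset.mem_coe, mem_sel, mem_range]
    refine ⟨Nat.mod_lt _ hp.pos, ?_⟩
    have h1 : ((M * s : ℕ) : ℤ) = ((M * s % p : ℕ) : ℤ) + p * ((M * s / p : ℕ) : ℤ) := by
      have := Nat.mod_add_div (M * s) p
      exact_mod_cast this.symm
    have h2 := hs'.2
    have e : Nm (x0 + (M : ℤ) * (s : ℤ), y) = Nm (x0 + ((M * s % p : ℕ) : ℤ), y) +
        p * ((M * s / p : ℕ) : ℤ) * (2 * (x0 + ((M * s % p : ℕ) : ℤ)) +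
          p * ((M * s / p : ℕ) : ℤ) + 3 * y) := by
      have h3 : (M : ℤ) * (s : ℤ) = ((M * s % p : ℕ) : ℤ) + p * ((M * s / p : ℕ) : ℤ) := by
        rw [← h1]; push_cast; ring
      rw [h3]
      unfold Nm F; ring
    rw [e] at h2
    exact (Int.dvd_add_left (Dvd.dvd.mul_right (Dvd.intro _ rfl) _)).1 h2
  · intro s hs s' hs' h
    have h1 := (mem_sel.1 (Finset.mem_coe.1 hs)).1
    have h2 := (mem_sel.1 (Finset.mem_coe.1 hs')).1
    rw [mem_range] at h1 h2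
    have h3 : M * s ≡ M * s' [MOD p] := h
    have h4 : s ≡ s' [MOD p] := Nat.ModEq.cancel_left_of_coprime
      ((Nat.Prime.coprime_iff_not_dvd hp).2 hM) h3
    exact Nat.ModEq.eq_of_lt_of_lt h4 h1 h2

private theorem SectC_deltaM {p M : ℕ} (hp : p.Prime) (hM : ¬ p ∣ M) (x0 y : ℤ) :
    let ρ : ℝ := (cs (range p) (fun s => (p : ℤ) ∣ Nm (x0 + (M : ℤ) * (s : ℤ), y)) : ℝ)
    0 ≤ ρ / p ∧ ρ / p ≤ 1 / 2 ∧ ρ / p * ((p : ℝ) - 1) ≤ 2 := by
  intro ρ
  have hp0 : (0 : ℝ) < p := by exact_mod_cast hp.pos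
  have hp1 : (1 : ℝ) ≤ p := by exact_mod_cast hp.one_le
  have h1 := SectC_delta hp x0 y
  have h2 : ρ ≤ (cs (range p) (fun m => (p : ℤ) ∣ Nm (x0 + (m : ℤ), y)) : ℝ) :=
    Nat.cast_le.2 (SectC_inj hp hM x0 y)
  have h3 : ρ / p ≤ (cs (range p) (fun m => (p : ℤ) ∣ Nm (x0 + (m : ℤ), y)) : ℝ) / p :=
    div_le_div_of_nonneg_right h2 hp0.le
  refine ⟨div_nonneg (Nat.cast_nonneg _) hp0.le, h3.trans h1.2.1, ?_⟩
  exact (mul_le_mul_of_nonneg_right h3 (by linarith)).trans h1.2.2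

/-- for fixed `y`: many `x` in the interval with no small prime factor of the norm -/
private theorem SectC_line {C : ℕ}
    (hLB : ∀ z : ℕ, 2 ≤ z → ∀ (Ps : Finset ℕ), (∀ p ∈ Ps, p.Prime ∧ p ≤ z) →
    ∀ δ : ℕ → ℝ, (∀ p ∈ Ps, 0 ≤ δ p ∧ δ p ≤ 1 / 2 ∧ δ p * ((p : ℝ) - 1) ≤ 2) →
    ∀ (ι : Type) (As : Finset ι) (bad : ℕ → ι → Prop) (X E : ℝ), 0 ≤ X → 0 ≤ E →
    (∀ I ⊆ Ps, ∏ p ∈ I, p ≤ z ^ C →
      |(cs As (fun a => ∀ p ∈ I, bad p a) : ℝ) - X * ∏ p ∈ I, δ p| ≤ E) →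
    X / (C * Real.log z ^ 2) - E * (z : ℝ) ^ C ≤ (cs As (fun a => ∀ p ∈ Ps, ¬ bad p a) : ℝ))
    (z : ℕ) (hz : 2 ≤ z) (y : ℤ) (x0 : ℤ) (M S : ℕ) :
    (S : ℝ) / (C * Real.log z ^ 2) - (z : ℝ) ^ C * (z : ℝ) ^ C ≤
      (cs (range S) (fun m => ∀ p ∈ (Finset.range (z + 1)).filter (fun p => p.Prime ∧ ¬ p ∣ M),
        ¬ (p : ℤ) ∣ Nm (x0 + (M : ℤ) * (m : ℤ), y)) : ℝ) := by
  refine hLB z hz ((Finset.range (z + 1)).filter (fun p => p.Prime ∧ ¬ p ∣ M)) ?_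
    (fun p => (cs (range p) (fun m => (p : ℤ) ∣ Nm (x0 + (M : ℤ) * (m : ℤ), y)) : ℝ) / p) ?_ ℕ (range S)
    (fun p m => (p : ℤ) ∣ Nm (x0 + (M : ℤ) * (m : ℤ), y)) S ((z : ℝ) ^ C) (Nat.cast_nonneg _) (by positivity)
    ?_
  · intro p hp
    rw [mem_filter, mem_range] at hp
    exact ⟨hp.2.1, by omega⟩
  · intro p hp
    rw [mem_filter] at hp
    exact SectC_deltaM hp.2.1 hp.2.2 x0 y
  · intro I hI hle
    have hIp : ∀ p ∈ I, p.Prime := fun p hp => (mem_filter.1 (hI hp)).2.1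
    have hIM : ∀ p ∈ I, ¬ p ∣ M := fun p hp => (mem_filter.1 (hI hp)).2.2
    have h1 := crt_count I hIp (fun p m => (p : ℤ) ∣ Nm (x0 + (M : ℤ) * (m : ℤ), y)) (by
      intro p _ m
      have e : Nm (x0 + (M : ℤ) * ((m + p : ℕ) : ℤ), y) = Nm (x0 + (M : ℤ) * (m : ℤ), y) +
          p * (M * (2 * (x0 + M * m) + M * p + 3 * y)) := by
        unfold Nm F; push_cast; ring
      simp only [e]
      exact (Int.dvd_add_left (Dvd.intro _ rfl))) S
    refine h1.trans ?_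
    have h2 : ∏ p ∈ I, (cs (range p) (fun m => (p : ℤ) ∣ Nm (x0 + (M : ℤ) * (m : ℤ), y)) : ℝ) ≤
        ∏ p ∈ I, (p : ℝ) := by
      refine Finset.prod_le_prod (fun p _ => Nat.cast_nonneg _) (fun p hp => ?_)
      have h3 := (SectC_inj (hIp p hp) (hIM p hp) x0 y).trans (SectC_rho_two (hIp p hp) x0 y)
      exact_mod_cast h3.trans (hIp p hp).two_le
    refine h2.trans ?_
    have h3 : ((∏ p ∈ I, p : ℕ) : ℝ) ≤ ((z ^ C : ℕ) : ℝ) := by exact_mod_cast hle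
    push_cast at h3
    exact h3

private theorem SectC_z {A K : ℕ} (hK : 1 ≤ K) (hA : 2 ^ K ≤ A) :
    ∃ z : ℕ, 2 ≤ z ∧ z ≤ A ∧ z ^ K ≤ A ∧ A < (z + 1) ^ K := by
  have h2A : 2 ≤ A := le_trans (by
    calc 2 = 2 ^ 1 := by norm_num
      _ ≤ 2 ^ K := Nat.pow_le_pow_right (by norm_num) hK) hA
  refine ⟨Nat.findGreatest (fun z => z ^ K ≤ A) A, ?_, Nat.findGreatest_le A, ?_, ?_⟩
  · exact Nat.le_findGreatest h2A hA
  · exact Nat.findGreatest_spec (P := fun z => z ^ K ≤ A) h2A hA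
  · by_contra hcon
    push Not at hcon
    rcases le_or_gt (Nat.findGreatest (fun z => z ^ K ≤ A) A + 1) A with h | h
    · exact Nat.findGreatest_is_greatest (P := fun z => z ^ K ≤ A) (Nat.lt_succ_self _) h hcon
    · have h3 : Nat.findGreatest (fun z => z ^ K ≤ A) A + 1 ≤
          (Nat.findGreatest (fun z => z ^ K ≤ A) A + 1) ^ K := Nat.le_self_pow (by omega) _
      omega

private theorem SectC_large (C : ℕ) : ∃ A0 : ℕ, ∀ A : ℕ, A0 ≤ A →
    (400 * (C : ℝ)) ^ 2 * Real.log A ^ 5 ≤ A ∧ 200 * Real.log A ≤ A ∧ 1 ≤ Real.log A := by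
  have hlim : ∀ n : ℕ, ∀ D : ℝ, 0 ≤ D → ∃ A0 : ℕ, ∀ A : ℕ, A0 ≤ A → D * Real.log A ^ n ≤ A := by
    intro n D hD
    have h1 := Real.isLittleO_pow_log_id_atTop (n := n)
    have hc : (0 : ℝ) < 1 / (D + 1) := by positivity
    have h2 := (h1.def hc)
    have h3 := (tendsto_natCast_atTop_atTop (R := ℝ)).eventually h2
    obtain ⟨A0, hA0⟩ := Filter.eventually_atTop.1 h3
    refine ⟨A0, fun A hA => ?_⟩
    have h4 := hA0 A hA
    simp only [id, Real.norm_eq_abs, Nat.abs_cast] at h4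
    have h5 := (le_abs_self _).trans h4
    rw [div_mul_eq_mul_div, one_mul, le_div_iff₀ (by positivity)] at h5
    have h6 : 0 ≤ Real.log (A : ℝ) ^ n := pow_nonneg (Real.log_natCast_nonneg A) n
    nlinarith
  obtain ⟨A1, h1⟩ := hlim 5 ((400 * (C : ℝ)) ^ 2) (by positivity)
  obtain ⟨A2, h2⟩ := hlim 1 200 (by norm_num)
  refine ⟨max (max A1 A2) 3, fun A hA => ⟨h1 A ?_, ?_, ?_⟩⟩
  · exact ((le_max_left _ _).trans (le_max_left _ _)).trans hA
  · have := h2 A (((le_max_right _ _).trans (le_max_left _ _)).trans hA)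
    rwa [pow_one] at this
  · have h3 : (3 : ℝ) ≤ A := by exact_mod_cast (le_max_right _ _).trans hA
    rw [Real.le_log_iff_exp_le (by linarith)]
    linarith [Real.exp_one_lt_d9]

theorem sectC_low : ∃ K : ℕ, 1 ≤ K ∧ ∃ c : ℝ, 0 < c ∧ ∃ A0 : ℕ, ∀ A ≥ A0,
    ∀ M : ℕ, 0 < M → (M : ℝ) ^ 2 ≤ Real.log A → ∀ κ : ℤ × ℤ, IsCoprime (Nm κ) (M : ℤ) →
    ∀ j : ZMod (20 * A + 1),
    c * (A : ℝ) ^ 3 / Real.log A ^ 4 ≤ (cs (RR A K) (fun w => Cl M κ w ∧ sec A w = j) : ℝ) := by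
  obtain ⟨C, hC, hLB⟩ := LB
  have hCr : (1 : ℝ) ≤ C := by exact_mod_cast hC
  obtain ⟨A1, hA1⟩ := SectC_large C
  refine ⟨4 * C + 4, by omega, 1 / (800 * C), by positivity, max A1 (max 100 (2 ^ (4 * C + 4))),
    fun A hA M hM0 hML κ hκ j => ?_⟩
  have hAa : A1 ≤ A := le_trans (le_max_left _ _) hA
  have hAb : 100 ≤ A := le_trans (le_trans (le_max_left _ _) (le_max_right _ _)) hA
  have hAc : 2 ^ (4 * C + 4) ≤ A := le_trans (le_trans (le_max_right _ _) (le_max_right _ _)) hA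
  have hA1' : 1 ≤ A := by omega
  have hAr : (100 : ℝ) ≤ A := by exact_mod_cast hAb
  obtain ⟨z, hz2, hzA, hzK, hzK'⟩ := SectC_z (by omega) hAc
  obtain ⟨hbig, hbig2, hlog1⟩ := hA1 A hAa
  have hlogA : 0 < Real.log (A : ℝ) := by linarith
  have hzr : (2 : ℝ) ≤ z := by exact_mod_cast hz2
  have hlogz : 0 < Real.log (z : ℝ) := Real.log_pos (by linarith)
  have hlogle : Real.log (z : ℝ) ≤ Real.log (A : ℝ) :=
    Real.log_le_log (by linarith) (by exact_mod_cast hzA)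
  have hM1 : (1 : ℝ) ≤ M := by exact_mod_cast hM0
  have hzC : ((z : ℝ) ^ C * (z : ℝ) ^ C) ^ 2 ≤ A := by
    have h1 : z ^ (4 * C) ≤ A := (Nat.pow_le_pow_right (by omega) (by omega)).trans hzK
    have h2 : ((z ^ (4 * C) : ℕ) : ℝ) ≤ A := by exact_mod_cast h1
    push_cast at h2
    calc ((z : ℝ) ^ C * (z : ℝ) ^ C) ^ 2 = (z : ℝ) ^ (4 * C) := by ring
      _ ≤ A := h2
  set L : ℝ := Real.log (A : ℝ) with hL
  have hML1 : (M : ℝ) ≤ L := by nlinarith
  have hMA : 200 * (M : ℝ) ≤ A := by linarith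
  have hE : (z : ℝ) ^ C * (z : ℝ) ^ C ≤ (A : ℝ) / (400 * M * C * L ^ 2) := by
    rw [le_div_iff₀ (by positivity)]
    have h1 : (400 * M * C * L ^ 2) ^ 2 ≤ (A : ℝ) := by
      calc (400 * M * C * L ^ 2) ^ 2 = (400 * (C : ℝ)) ^ 2 * L ^ 4 * (M : ℝ) ^ 2 := by ring
        _ ≤ (400 * (C : ℝ)) ^ 2 * L ^ 4 * L := mul_le_mul_of_nonneg_left hML (by positivity)
        _ = (400 * (C : ℝ)) ^ 2 * L ^ 5 := by ring
        _ ≤ A := hbig
    nlinarith [sq_nonneg ((z : ℝ) ^ C * (z : ℝ) ^ C - 400 * M * C * L ^ 2)]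
  -- the lines
  have hMz : (0 : ℤ) < M := by exact_mod_cast hM0
  set y0 : ℤ := (A : ℤ) ^ 2 + (κ.2 - (A : ℤ) ^ 2) % M with hy0
  have hr0 : 0 ≤ (κ.2 - (A : ℤ) ^ 2) % M := Int.emod_nonneg _ hMz.ne'
  have hr1 : (κ.2 - (A : ℤ) ^ 2) % M < M := Int.emod_lt_of_pos _ hMz
  have hy0c : (M : ℤ) ∣ y0 - κ.2 := by
    have h1 : y0 - κ.2 = -((κ.2 - (A : ℤ) ^ 2) - (κ.2 - (A : ℤ) ^ 2) % M) := by rw [hy0]; ring
    rw [h1, dvd_neg]
    exact Int.dvd_self_sub_emod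
  set U : ℕ := (A ^ 2 + 1) / M with hU
  have hyU : ∀ u ∈ range U, (A : ℤ) ^ 2 ≤ y0 + M * (u : ℤ) ∧ y0 + M * (u : ℤ) ≤ 2 * (A : ℤ) ^ 2 := by
    intro u hu
    rw [mem_range] at hu
    have h1 : M * (u + 1) ≤ A ^ 2 + 1 := by
      calc M * (u + 1) ≤ M * U := Nat.mul_le_mul_left _ hu
        _ ≤ A ^ 2 + 1 := Nat.mul_div_le _ _
    have h2 : (M : ℤ) * ((u : ℤ) + 1) ≤ (A : ℤ) ^ 2 + 1 := by exact_mod_cast h1
    have h3 : (0 : ℤ) ≤ M * (u : ℤ) := by positivity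
    constructor
    · linarith
    · nlinarith
  set G := sel (RR A (4 * C + 4)) (fun w => Cl M κ w ∧ sec A w = j) with hG
  -- the count on each line
  have hline : ∀ u ∈ range U, (A : ℝ) / (400 * M * C * L ^ 2) ≤
        (((G.filter fun w => w.2 = y0 + M * (u : ℤ)).card : ℕ) : ℝ) := by
    intro u hu
    obtain ⟨hy1, hy2⟩ := hyU u hu
    set y : ℤ := y0 + M * (u : ℤ) with hy
    have hyc : (M : ℤ) ∣ y - κ.2 := by
      have h1 : y - κ.2 = (y0 - κ.2) + M * (u : ℤ) := by rw [hy]; ring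
      rw [h1]
      exact dvd_add hy0c (Dvd.intro _ rfl)
    obtain ⟨a, b, h1, h2, h3⟩ := sec_interval (by omega : 20 ≤ A) j hy1 hy2
    have hT := SectC_card_Ioc_ge (a := a) (b := b)
    rw [Int.card_Ioc] at hT
    set T : ℕ := (⌊b⌋ - ⌊a⌋).toNat with hTdef
    set x0 : ℤ := ⌊a⌋ + 1 + (κ.1 - (⌊a⌋ + 1)) % M with hx0
    have hq0 : 0 ≤ (κ.1 - (⌊a⌋ + 1)) % M := Int.emod_nonneg _ hMz.ne'
    have hq1 : (κ.1 - (⌊a⌋ + 1)) % M < M := Int.emod_lt_of_pos _ hMz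
    have hx0c : (M : ℤ) ∣ x0 - κ.1 := by
      have h1 : x0 - κ.1 = -((κ.1 - (⌊a⌋ + 1)) - (κ.1 - (⌊a⌋ + 1)) % M) := by rw [hx0]; ring
      rw [h1, dvd_neg]
      exact Int.dvd_self_sub_emod
    have hlow := SectC_line hLB z hz2 y x0 M (T / M)
    have hinj : cs (range (T / M))
        (fun m => ∀ p ∈ (Finset.range (z + 1)).filter (fun p => p.Prime ∧ ¬ p ∣ M),
        ¬ (p : ℤ) ∣ Nm (x0 + (M : ℤ) * (m : ℤ), y)) ≤
        (G.filter fun w => w.2 = y).card := by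
      unfold cs
      refine Finset.card_le_card_of_injOn (fun m : ℕ => ((x0 + (M : ℤ) * (m : ℤ), y) : ℤ × ℤ)) ?_ ?_
      · intro m hm
        have hm' := mem_sel.1 (Finset.mem_coe.1 hm)
        rw [mem_range] at hm'
        rw [Finset.mem_coe, Finset.mem_filter, hG, mem_sel]
        have hcl : Cl M κ (x0 + (M : ℤ) * (m : ℤ), y) := by
          constructor
          · have h1 : (x0 + (M : ℤ) * (m : ℤ)) - κ.1 = (x0 - κ.1) + M * (m : ℤ) := by ring
            show (M : ℤ) ∣ (x0 + (M : ℤ) * (m : ℤ)) - κ.1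
            rw [h1]
            exact dvd_add hx0c (Dvd.intro _ rfl)
          · exact hyc
        have hx : x0 + (M : ℤ) * (m : ℤ) ∈ Ioc ⌊a⌋ ⌊b⌋ := by
          rw [mem_Ioc]
          have h5 : M * (m + 1) ≤ T := by
            calc M * (m + 1) ≤ M * (T / M) := Nat.mul_le_mul_left _ hm'.1
              _ ≤ T := Nat.mul_div_le _ _
          have h6 : (M : ℤ) * ((m : ℤ) + 1) ≤ (T : ℤ) := by exact_mod_cast h5
          have h7 : (T : ℤ) = ⌊b⌋ - ⌊a⌋ := by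
            have h8 : 0 < T := by
              have h9 : 0 < M * (m + 1) := by positivity
              omega
            omega
          have h8 : (0 : ℤ) ≤ M * (m : ℤ) := by positivity
          constructor
          · linarith
          · nlinarith
        rw [SectC_Ioc_mem] at hx
        have h4 := (h3 _).2 hx
        refine ⟨⟨(mem_RR hA1').2 ⟨⟨hy1, hy2⟩, h4.1, ?_⟩, hcl, h4.2⟩, rfl⟩
        intro p hp hdvd
        by_contra hcon
        push Not at hcon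
        have hpz : p ≤ z := by
          by_contra hc
          push Not at hc
          have h5 : (z + 1) ^ (4 * C + 4) ≤ p ^ (4 * C + 4) := Nat.pow_le_pow_left (by omega) _
          omega
        by_cases hpM : p ∣ M
        · have h5 : (p : ℤ) ∣ (M : ℤ) := Int.natCast_dvd_natCast.2 hpM
          have h6 := h5.trans (cl_Nm hcl)
          have h7 : (p : ℤ) ∣ Nm κ := by
            have := dvd_sub hdvd h6
            simpa using this
          have h8 := hκ.isUnit_of_dvd' h7 h5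
          have h9 := Int.isUnit_iff_natAbs_eq.1 h8
          rw [Int.natAbs_natCast] at h9
          exact hp.one_lt.ne' h9
        · exact hm'.2 p (by rw [mem_filter, mem_range]; exact ⟨by omega, hp, hpM⟩) hdvd
      · intro m hm m' hm' h
        have := congrArg Prod.fst h
        simp only at this
        have h5 : (M : ℤ) * (m : ℤ) = M * (m' : ℤ) := by linarith
        have h6 := mul_left_cancel₀ hMz.ne' h5
        exact_mod_cast h6
    have hinj' : ((cs (range (T / M))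
        (fun m => ∀ p ∈ (Finset.range (z + 1)).filter (fun p => p.Prime ∧ ¬ p ∣ M),
        ¬ (p : ℤ) ∣ Nm (x0 + (M : ℤ) * (m : ℤ), y)) : ℕ) : ℝ) ≤
        (((G.filter fun w => w.2 = y).card : ℕ) : ℝ) := by
      exact_mod_cast hinj
    refine le_trans ?_ (hlow.trans hinj')
    have hT2 : (A : ℝ) / 100 ≤ (T : ℝ) := by linarith
    have hS : (A : ℝ) / (200 * M) ≤ ((T / M : ℕ) : ℝ) := by
      have h5 : (T : ℝ) / M < ((T / M : ℕ) : ℝ) + 1 := by
        rw [div_lt_iff₀ (by linarith)]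
        have h6 : T < (T / M + 1) * M := by
          have := Nat.lt_mul_div_succ T hM0
          rw [mul_comm]
          exact this
        exact_mod_cast h6
      have h6 : (A : ℝ) / 100 / M ≤ (T : ℝ) / M := div_le_div_of_nonneg_right hT2 (by linarith)
      have h7 : (A : ℝ) / 100 / M = 2 * ((A : ℝ) / (200 * M)) := by field_simp; norm_num
      have h8 : 1 ≤ (A : ℝ) / (200 * M) := by
        rw [le_div_iff₀ (by positivity)]
        linarith
      linarith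
    have h5 : (A : ℝ) / (200 * M * C * L ^ 2) ≤
        (((T / M : ℕ) : ℕ) : ℝ) / (C * Real.log z ^ 2) := by
      have h6 : (A : ℝ) / (200 * M * C * L ^ 2) = ((A : ℝ) / (200 * M)) / (C * L ^ 2) := by
        rw [div_div]; ring_nf
      rw [h6]
      refine div_le_div₀ (Nat.cast_nonneg _) hS (by positivity) ?_
      gcongr
    have h7 : (A : ℝ) / (200 * M * C * L ^ 2) = 2 * ((A : ℝ) / (400 * M * C * L ^ 2)) := by
      field_simp; norm_num
    linarith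
  have hsum : ∑ u ∈ range U, (G.filter fun w => w.2 = y0 + M * (u : ℤ)).card ≤ G.card := by
    rw [← Finset.card_biUnion]
    · refine Finset.card_le_card fun w hw => ?_
      rw [Finset.mem_biUnion] at hw
      obtain ⟨u, -, hw⟩ := hw
      exact (Finset.mem_filter.1 hw).1
    · intro u _ u' _ huu
      refine Finset.disjoint_left.2 fun w hw hw' => huu ?_
      have h1 := (Finset.mem_filter.1 hw).2
      have h2 := (Finset.mem_filter.1 hw').2
      have h5 : (M : ℤ) * (u : ℤ) = M * (u' : ℤ) := by linarith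
      have h6 := mul_left_cancel₀ hMz.ne' h5
      exact_mod_cast h6
  have h8 := Finset.sum_le_sum hline
  rw [Finset.sum_const, nsmul_eq_mul, Finset.card_range] at h8
  have h9 : ((∑ u ∈ range U, (G.filter fun w => w.2 = y0 + M * (u : ℤ)).card : ℕ) : ℝ) ≤
      ((G.card : ℕ) : ℝ) := by exact_mod_cast hsum
  push_cast at h9
  have hGc : (cs (RR A (4 * C + 4)) (fun w => Cl M κ w ∧ sec A w = j) : ℝ) = ((G.card : ℕ) : ℝ) := rfl
  rw [hGc]
  refine le_trans ?_ (h8.trans h9)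
  have hUr : (A : ℝ) ^ 2 / (2 * M) ≤ (U : ℝ) := by
    have h5 : ((A : ℝ) ^ 2 + 1) / M < (U : ℝ) + 1 := by
      rw [div_lt_iff₀ (by linarith)]
      have h6 : A ^ 2 + 1 < (U + 1) * M := by
        have := Nat.lt_mul_div_succ (A ^ 2 + 1) hM0
        rw [mul_comm]
        exact this
      exact_mod_cast h6
    have h6 : (A : ℝ) ^ 2 / M ≤ ((A : ℝ) ^ 2 + 1) / M :=
      div_le_div_of_nonneg_right (by linarith) (by linarith)
    have h7 : (A : ℝ) ^ 2 / M = 2 * ((A : ℝ) ^ 2 / (2 * M)) := by field_simp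
    have h10 : 1 ≤ (A : ℝ) ^ 2 / (2 * M) := by
      rw [le_div_iff₀ (by positivity)]
      nlinarith
    linarith
  have h10 : 0 ≤ (A : ℝ) / (400 * M * C * L ^ 2) := by positivity
  have h11 : (A : ℝ) ^ 2 / (2 * M) * ((A : ℝ) / (400 * M * C * L ^ 2)) ≤
      (U : ℝ) * ((A : ℝ) / (400 * M * C * L ^ 2)) := mul_le_mul_of_nonneg_right hUr h10
  refine le_trans ?_ h11
  have h12 : (A : ℝ) ^ 2 / (2 * M) * ((A : ℝ) / (400 * M * C * L ^ 2)) =
      1 / (800 * C) * (A : ℝ) ^ 3 / ((M : ℝ) ^ 2 * L ^ 2) := by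
    field_simp; norm_num
  rw [h12]
  refine div_le_div_of_nonneg_left (by positivity) (by positivity) ?_
  calc (M : ℝ) ^ 2 * L ^ 2 ≤ L * L ^ 2 := mul_le_mul_of_nonneg_right hML (by positivity)
    _ = L ^ 3 * 1 := by ring
    _ ≤ L ^ 3 * L := mul_le_mul_of_nonneg_left hlog1 (by positivity)
    _ = L ^ 4 := by ring

end Pool.Agent.H62.RV
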