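import Pool.Agent.H62.RV.Full
import Pool.Agent.H62.RV.SectC

/-!
# FullB: every sector of the full circle contains many rough vectors of every class

`N = 20 A + 1`.
`rf_low`. `j = N q + i` with `q < 6`, `i < N` (`j.val`).  `k = (q + 5) % 6`, so `k + 1 = q mod 6`.  For `v ∈ RR A K`
with `sec A v = i` and `Cl M κ' v`, `κ' = rot^[6 - k] κ`: `w = rot^[k] v` is in `RF`, `secF A w = N + i + k N = j`, and
`Cl M (rot^[k] κ') w`, `rot^[k] (rot^[6-k] κ) = κ` (`rot^[6] = id`, by `em_inj` or directly by `ring`);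
`Nm κ' = Nm κ` (`Nm_rot`).  `v ↦ rot^[k] v` is injective.  `sectC_low` for `κ'`.
`rf_up`. Every `w ∈ RF` with `secF A w = j` is `rot^[k] v`, `k < 6`, `v ∈ RR A K`, and `sec A v` is the image of `j`
in `ZMod N` (`ZMod.castHom`, or through the integers); so there are at most `6 A³` (`sect_up`).
-/

set_option autoImplicit false

namespace Pool.Agent.H62.RV

open Finset Pool.Agent.H17.RP

private theorem FullB_rot6 (w : ℤ × ℤ) : rot^[6] w = w := by
  obtain ⟨x, y⟩ := w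
  simp only [Function.iterate_succ_apply', Function.iterate_zero_apply, rot]
  ext
  · ring
  · ring

private theorem FullB_rot_sub {k : ℕ} (hk : k < 6) (w : ℤ × ℤ) : rot^[k] (rot^[6 - k] w) = w := by
  rw [← Function.iterate_add_apply, show k + (6 - k) = 6 by omega, FullB_rot6]

private theorem FullB_rot_sub' {k : ℕ} (hk : k < 6) (w : ℤ × ℤ) : rot^[6 - k] (rot^[k] w) = w := by
  rw [← Function.iterate_add_apply, show 6 - k + k = 6 by omega, FullB_rot6]

private theorem FullB_Nm (n : ℕ) (w : ℤ × ℤ) : Nm (rot^[n] w) = Nm w := by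
  induction n with
  | zero => rfl
  | succ n ih => rw [Function.iterate_succ_apply', Nm_rot, ih]

private theorem FullB_ne {A K : ℕ} (hA : 1 ≤ A) {v : ℤ × ℤ} (hv : v ∈ RR A K) : v ≠ 0 := by
  rintro rfl
  have h := ((mem_RR hA).1 hv).1.1
  have h1 : (1 : ℤ) ≤ (A : ℤ) ^ 2 := by
    have : (1 : ℤ) ≤ A := by exact_mod_cast hA
    nlinarith
  have h2 : ((0 : ℤ × ℤ)).2 = 0 := rfl
  rw [h2] at h
  omega

theorem rf_low : ∃ K : ℕ, 1 ≤ K ∧ ∃ c : ℝ, 0 < c ∧ ∃ A0 : ℕ, ∀ A ≥ A0,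
    ∀ M : ℕ, 0 < M → (M : ℝ) ^ 2 ≤ Real.log A → ∀ κ : ℤ × ℤ, IsCoprime (Nm κ) (M : ℤ) →
    ∀ j : ZMod (6 * (20 * A + 1)),
    c * (A : ℝ) ^ 3 / Real.log A ^ 4 ≤ (cs (SF A K M κ) (fun w => secF A w = j) : ℝ) := by
  obtain ⟨K, hK, c, hc, A0, h⟩ := sectC_low
  refine ⟨K, hK, c, hc, max A0 1, fun A hA M hM hM2 κ hκ j => ?_⟩
  have hA0 : A0 ≤ A := le_trans (le_max_left _ _) hA
  have hA1 : 1 ≤ A := le_trans (le_max_right _ _) hA
  have hN : 0 < 20 * A + 1 := by omega
  haveI : NeZero (6 * (20 * A + 1)) := ⟨by omega⟩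
  have hj : j.val < 6 * (20 * A + 1) := ZMod.val_lt j
  set q : ℕ := j.val / (20 * A + 1) with hq
  set i : ℕ := j.val % (20 * A + 1) with hi
  have hq6 : q < 6 := Nat.div_lt_of_lt_mul (by omega)
  have hiN : i < 20 * A + 1 := Nat.mod_lt _ hN
  have hji : (20 * A + 1) * q + i = j.val := Nat.div_add_mod _ _
  set k : ℕ := (q + 5) % 6 with hk
  have hk6 : k < 6 := Nat.mod_lt _ (by norm_num)
  have h1 := h A hA0 M hM hM2 (rot^[6 - k] κ) (by rw [FullB_Nm]; exact hκ)
    (i : ZMod (20 * A + 1))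
  refine h1.trans ?_
  have h2 : cs (RR A K) (fun w => Cl M (rot^[6 - k] κ) w ∧ sec A w = (i : ZMod (20 * A + 1))) ≤
      cs (SF A K M κ) (fun w => secF A w = j) := by
    unfold cs
    refine card_le_card_of_injOn (fun v => rot^[k] v) ?_ ?_
    · intro v hv
      rw [mem_coe, mem_sel] at hv
      obtain ⟨hv, hcl, hs⟩ := hv
      rw [mem_coe, mem_sel]
      refine ⟨?_, ?_⟩
      · unfold SF
        rw [mem_sel]
        refine ⟨mem_RF.2 ⟨k, hk6, v, hv, rfl⟩, ?_⟩
        have h3 := cl_rot_pow k hcl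
        rwa [FullB_rot_sub hk6] at h3
      · obtain ⟨i', hi', hs', hF⟩ := secF_RR hA1 hv
        have hii : i = i' := by
          have h4 : ((i : ℕ) : ZMod (20 * A + 1)) = (i' : ℕ) := by rw [← hs, hs']
          rw [ZMod.natCast_eq_natCast_iff'] at h4
          rwa [Nat.mod_eq_of_lt hiN, Nat.mod_eq_of_lt hi'] at h4
        show secF A (rot^[k] v) = j
        rw [secF_rot (FullB_ne hA1 hv) k, hF, ← Nat.cast_add, ← ZMod.natCast_zmod_val j, ← hji,
          ZMod.natCast_eq_natCast_iff, ← hii]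
        have h5 : k + 1 ≡ q [MOD 6] := by
          unfold Nat.ModEq
          omega
        have h6 := (Nat.ModEq.mul_right' (20 * A + 1) h5).add_right i
        have h7 : 20 * A + 1 + i + k * (20 * A + 1) = (k + 1) * (20 * A + 1) + i := by ring
        have h8 : (20 * A + 1) * q + i = q * (20 * A + 1) + i := by ring
        rw [h7, h8]
        exact h6
    · intro v _ v' _ hvv
      have h3 : rot^[k] v = rot^[k] v' := hvv
      rw [← FullB_rot_sub' hk6 v, ← FullB_rot_sub' hk6 v', h3]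
  exact_mod_cast h2

theorem rf_up (K : ℕ) : ∃ A0 : ℕ, ∀ A ≥ A0, ∀ (M : ℕ) (κ : ℤ × ℤ) (j : ZMod (6 * (20 * A + 1))),
    cs (SF A K M κ) (fun w => secF A w = j) ≤ 6 * A ^ 3 := by
  classical
  obtain ⟨A0, h⟩ := sect_up K
  refine ⟨max A0 1, fun A hA M κ j => ?_⟩
  have hA0 : A0 ≤ A := le_trans (le_max_left _ _) hA
  have hA1 : 1 ≤ A := le_trans (le_max_right _ _) hA
  set jj : ZMod (20 * A + 1) :=
    ZMod.castHom (Dvd.intro_left 6 rfl : (20 * A + 1) ∣ 6 * (20 * A + 1)) (ZMod (20 * A + 1)) j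
    with hjj
  have hsub : sel (SF A K M κ) (fun w => secF A w = j) ⊆
      (range 6).biUnion (fun k => (sel (RR A K) (fun w => sec A w = jj)).image (rot^[k])) := by
    intro w hw
    rw [mem_sel] at hw
    obtain ⟨hw, hs⟩ := hw
    unfold SF at hw
    rw [mem_sel] at hw
    obtain ⟨k, hk, v, hv, rfl⟩ := mem_RF.1 hw.1
    rw [mem_biUnion]
    refine ⟨k, mem_range.2 hk, mem_image.2 ⟨v, mem_sel.2 ⟨hv, ?_⟩, rfl⟩⟩
    obtain ⟨i, hi, hs', hF⟩ := secF_RR hA1 hv
    show sec A v = jj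
    rw [hjj, ← hs, secF_rot (FullB_ne hA1 hv) k, hF, ← Nat.cast_add, map_natCast, hs']
    have h1 : 20 * A + 1 + i + k * (20 * A + 1) = i + (20 * A + 1) * (k + 1) := by ring
    rw [h1]
    rw [Nat.cast_add, Nat.cast_mul, ZMod.natCast_self, zero_mul, add_zero]
  unfold cs
  refine (card_le_card hsub).trans ((card_biUnion_le).trans ?_)
  have h2 : ∀ k ∈ range 6,
      ((sel (RR A K) (fun w => sec A w = jj)).image (rot^[k])).card ≤ A ^ 3 :=
    fun k _ => card_image_le.trans (h A hA0 jj)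
  refine (sum_le_sum h2).trans ?_
  rw [sum_const, card_range, smul_eq_mul]

end Pool.Agent.H62.RV
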