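import Pool.Agent.H62.RV.ClAlg
import Pool.Agent.H17.RP.Kill

/-!
# H90: a finite form of Hilbert 90

`Nm π = 1 mod M`, `3 ∣ M`, `π.1 = 1 mod 3`: there is `η` with `Nm η` prime to `M` and `π η = conj η` modulo `M`.

Proof. For `c = (1, k)`, `k : ℕ`, put `η_k = c + conj (π c)` (coordinatewise sum).  Then
`π η_k = π c + (Nm π) conj c` and `conj η_k = conj c + π c`, so `π η_k - conj η_k = (Nm π - 1) conj c` is
divisible by `M`, for every `k`.  Write `π = (a, b)`, `p = Nm π`.  In coordinates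
`η_k = (c1 (1 + a + 3b) + c2 (3a + 6b), - b c1 + (1 - a - 3b) c2)` with `c1 = 1`, `c2 = k`, and
`Nm η_k = (1 + p) (1 + 3k + 3k²) + (2a + 3b) + k (6a + 6b) + 3 a k²` (`ring` after unfolding `p`), so modulo `M`
`Nm η_k = α2 k² + α1 k + α0`, `α2 = 6 + 3a`, `α1 = 6 + 6a + 6b`, `α0 = 2 + 2a + 3b`.
For every prime `l ∣ M` there is `k < l` with `l ∤ Nm η_k`:
`l = 3`: `Nm η_0 = 2 + 2a = 1 mod 3`.
`l = 2`: `Nm η_k = b + a k² mod 2`; `k = 0` if `b` is odd; if `b` is even then `a² + 3ab + 3b² = 1 mod 2` gives `a`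
odd and `k = 1` works.
`l ≥ 5`: if `l` divides `α2`, `α1`, `α0` then (`l ∤ 6`) `a = -2`, `b = 1` modulo `l` and `α0 = 1`, contradiction;
so if `l ∣ α2`, `l ∣ α1` every `k` works, and otherwise `quad_two` (`H17/RP/Kill.lean`) gives at most two bad
`k < l`, `2 < l`.
By `crt_card` (`H17/RP/Basic.lean`) with `U = M.primeFactors` and `K l k : ¬ (l : ℤ) ∣ Nm η_k` (periodic modulo
`l`) the number of `k < ∏ U` which work for all `l ∈ U` is a product of positive numbers, so there is one.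
`Nm η_k` is then prime to `M`.
-/

set_option autoImplicit false

namespace Pool.Agent.H62.RV

open Finset Pool.Agent.H17.RP

/-- the vectors `η_k` -/
private def H90_e (π : ℤ × ℤ) (k : ℕ) : ℤ × ℤ :=
  (1 + π.1 + 3 * π.2 + (k : ℤ) * (3 * π.1 + 6 * π.2), -π.2 + (k : ℤ) * (1 - π.1 - 3 * π.2))

private lemma H90_norm (π : ℤ × ℤ) (k : ℕ) :
    Nm (H90_e π k) = (3 * (Nm π - 1) + 6 + 3 * π.1) * (k : ℤ) ^ 2 +
      (3 * (Nm π - 1) + 6 + 6 * π.1 + 6 * π.2) * (k : ℤ) +
      ((Nm π - 1) + 2 + 2 * π.1 + 3 * π.2) := by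
  unfold H90_e Nm F
  simp only
  ring

private lemma H90_per (π : ℤ × ℤ) (l k : ℕ) :
    (¬ (l : ℤ) ∣ Nm (H90_e π (k + l))) ↔ ¬ (l : ℤ) ∣ Nm (H90_e π k) := by
  have h : Nm (H90_e π (k + l)) = Nm (H90_e π k) + (l : ℤ) *
      ((3 * (Nm π - 1) + 6 + 3 * π.1) * (2 * (k : ℤ) + (l : ℤ)) +
        (3 * (Nm π - 1) + 6 + 6 * π.1 + 6 * π.2)) := by
    rw [H90_norm, H90_norm]
    push_cast
    ring
  rw [h, dvd_add_left (Dvd.intro _ rfl)]

private lemma H90_prime {M : ℕ} {π : ℤ × ℤ} (h3 : 3 ∣ M) (hN : (M : ℤ) ∣ Nm π - 1)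
    (h1 : π.1 % 3 = 1) {l : ℕ} (hl : l.Prime) (hlM : l ∣ M) :
    ∃ k ∈ range l, ¬ (l : ℤ) ∣ Nm (H90_e π k) := by
  have hlN : (l : ℤ) ∣ Nm π - 1 := (Int.natCast_dvd_natCast.2 hlM).trans hN
  have hli : Prime (l : ℤ) := Nat.prime_iff_prime_int.1 hl
  have hl2 := hl.two_le
  rcases Nat.lt_or_ge l 5 with hlt | hge
  · have hcases : l = 2 ∨ l = 3 := by
      interval_cases l
      · left; rfl
      · right; rfl
      · exact absurd hl (by norm_num)
    rcases hcases with rfl | rfl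
    · -- `l = 2`
      have hNm : Nm π = π.1 ^ 2 + 3 * π.1 * π.2 + 3 * π.2 ^ 2 := by
        unfold Nm F
        ring
      rcases Int.even_or_odd π.2 with hb | hb
      · refine ⟨1, by simp, ?_⟩
        have ha : Odd π.1 := by
          by_contra hcon
          rw [Int.not_odd_iff_even] at hcon
          obtain ⟨x, hx⟩ := hcon
          obtain ⟨y, hy⟩ := hb
          obtain ⟨z, hz⟩ := hlN
          rw [hNm, hx, hy] at hz
          have : (2 : ℤ) * (2 * x ^ 2 + 6 * x * y + 6 * y ^ 2 - z) = 1 := by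
            push_cast at hz
            linarith [hz]
          omega
        obtain ⟨x, hx⟩ := ha
        obtain ⟨y, hy⟩ := hb
        obtain ⟨z, hz⟩ := hlN
        rw [H90_norm]
        generalize Nm π = p at hz
        rintro ⟨w, hw⟩
        push_cast at hw hz
        omega
      · refine ⟨0, by simp, ?_⟩
        obtain ⟨y, hy⟩ := hb
        obtain ⟨z, hz⟩ := hlN
        rw [H90_norm]
        generalize Nm π = p at hz
        rintro ⟨w, hw⟩
        push_cast at hw hz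
        omega
    · -- `l = 3`
      refine ⟨0, by simp, ?_⟩
      obtain ⟨z, hz⟩ := hlN
      rw [H90_norm]
      generalize Nm π = p at hz
      rintro ⟨w, hw⟩
      push_cast at hw hz
      omega
  · -- `l ≥ 5`
    have hl3 : ¬ (l : ℤ) ∣ 3 := by
      intro h
      have := Int.le_of_dvd (by norm_num) h
      omega
    have hl6 : ¬ (l : ℤ) ∣ 6 := by
      intro h
      have e : (6 : ℤ) = 2 * 3 := by norm_num
      rw [e] at h
      rcases hli.dvd_or_dvd h with h' | h'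
      · have := Int.le_of_dvd (by norm_num) h'
        omega
      · exact hl3 h'
    by_cases hab : (l : ℤ) ∣ (3 * (Nm π - 1) + 6 + 3 * π.1) ∧
        (l : ℤ) ∣ (3 * (Nm π - 1) + 6 + 6 * π.1 + 6 * π.2)
    · refine ⟨0, by rw [mem_range]; omega, ?_⟩
      rw [H90_norm]
      intro hd
      obtain ⟨hA, hB⟩ := hab
      have hA' : (l : ℤ) ∣ π.1 + 2 := by
        have h : (l : ℤ) ∣ 3 * (π.1 + 2) := by
          have e : 3 * (π.1 + 2) = (3 * (Nm π - 1) + 6 + 3 * π.1) - 3 * (Nm π - 1) := by ring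
          rw [e]
          exact dvd_sub hA (hlN.mul_left 3)
        exact (hli.dvd_or_dvd h).resolve_left hl3
      have hB' : (l : ℤ) ∣ 1 + π.1 + π.2 := by
        have h : (l : ℤ) ∣ 6 * (1 + π.1 + π.2) := by
          have e : 6 * (1 + π.1 + π.2) =
              (3 * (Nm π - 1) + 6 + 6 * π.1 + 6 * π.2) - 3 * (Nm π - 1) := by ring
          rw [e]
          exact dvd_sub hB (hlN.mul_left 3)
        exact (hli.dvd_or_dvd h).resolve_left hl6
      have h1' : (l : ℤ) ∣ 1 := by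
        have e : (1 : ℤ) = ((3 * (Nm π - 1) + 6 + 3 * π.1) * ((0 : ℕ) : ℤ) ^ 2 +
            (3 * (Nm π - 1) + 6 + 6 * π.1 + 6 * π.2) * ((0 : ℕ) : ℤ) +
            ((Nm π - 1) + 2 + 2 * π.1 + 3 * π.2)) - (Nm π - 1) - 3 * (1 + π.1 + π.2) +
            (π.1 + 2) := by
          push_cast
          ring
        rw [e]
        exact dvd_add (dvd_sub (dvd_sub hd hlN) (hB'.mul_left 3)) hA'
      exact hli.not_isUnit (isUnit_of_dvd_one h1')
    · have h2 := quad_two hl _ _ ((Nm π - 1) + 2 + 2 * π.1 + 3 * π.2) hab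
      by_contra hcon
      push Not at hcon
      have h4 : (range l).card ≤ cs (range l) (fun m => (l : ℤ) ∣
          (3 * (Nm π - 1) + 6 + 3 * π.1) * (m : ℤ) ^ 2 +
          (3 * (Nm π - 1) + 6 + 6 * π.1 + 6 * π.2) * (m : ℤ) +
          ((Nm π - 1) + 2 + 2 * π.1 + 3 * π.2)) := by
        unfold cs
        refine card_le_card fun k hk => ?_
        rw [mem_sel]
        refine ⟨hk, ?_⟩
        rw [← H90_norm]
        exact hcon k hk
      rw [card_range] at h4
      omega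

theorem h90 {M : ℕ} (hM : 0 < M) (h3 : 3 ∣ M) {π : ℤ × ℤ} (hN : (M : ℤ) ∣ Nm π - 1)
    (h1 : π.1 % 3 = 1) : ∃ η : ℤ × ℤ, IsCoprime (Nm η) (M : ℤ) ∧ Cl M (cj η) (mu π η) := by
  classical
  have hU : ∀ p ∈ M.primeFactors, p.Prime := fun p hp => Nat.prime_of_mem_primeFactors hp
  have hcard := crt_card M.primeFactors hU (fun l k => ¬ (l : ℤ) ∣ Nm (H90_e π k))
    (fun p _ m => H90_per π p m)
  have hpos : 0 < ∏ p ∈ M.primeFactors, cs (range p) (fun k => ¬ (p : ℤ) ∣ Nm (H90_e π k)) := by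
    refine Finset.prod_pos fun p hp => ?_
    obtain ⟨k, hk, hk'⟩ := H90_prime h3 hN h1 (hU p hp) (Nat.dvd_of_mem_primeFactors hp)
    unfold cs
    exact Finset.card_pos.2 ⟨k, mem_sel.2 ⟨hk, hk'⟩⟩
  rw [← hcard] at hpos
  unfold cs at hpos
  obtain ⟨k, hk⟩ := Finset.card_pos.1 hpos
  rw [mem_sel] at hk
  refine ⟨H90_e π k, ?_, ?_⟩
  · rw [Int.isCoprime_iff_gcd_eq_one]
    by_contra hne
    obtain ⟨l, hl, hld⟩ := Nat.exists_prime_and_dvd hne
    have hl1 : (l : ℤ) ∣ Nm (H90_e π k) :=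
      (Int.natCast_dvd_natCast.2 hld).trans (Int.gcd_dvd_left _ _)
    have hl2 : (l : ℤ) ∣ (M : ℤ) :=
      (Int.natCast_dvd_natCast.2 hld).trans (Int.gcd_dvd_right _ _)
    have hl3 : l ∈ M.primeFactors :=
      Nat.mem_primeFactors.2 ⟨hl, Int.natCast_dvd_natCast.1 hl2, hM.ne'⟩
    exact hk.2 l hl3 hl1
  · constructor
    · have e : (mu π (H90_e π k)).1 - (cj (H90_e π k)).1 = (Nm π - 1) * (1 + 3 * (k : ℤ)) := by
        unfold mu cj H90_e Nm F
        simp only
        ring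
      rw [e]
      exact hN.mul_right _
    · have e : (mu π (H90_e π k)).2 - (cj (H90_e π k)).2 = (Nm π - 1) * (-(k : ℤ)) := by
        unfold mu cj H90_e Nm F
        simp only
        ring
      rw [e]
      exact hN.mul_right _

end Pool.Agent.H62.RV
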