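import Pool.Agent.H62.RV.Full
import Pool.Agent.H17.RP.Land

/-!
# LandC: products of three vectors land in the cusp region (full circle)

Variant of `land` in `H17/RP/Land.lean` (copy the private `Land_norm`, `Land_sec`, `Land_trig`).

`ω = π/(3N)`, `N = 20 A + 1`, so `6 N ω = 2π`.  For `w ∈ RF A K` the norm `‖em w‖` is the one of a vector of `RR A K`
(`mem_RF`, `em_rot_pow`, `‖om‖ = 1`), so `0 < ‖em w‖ ≤ 2A²`, and
`em w = ‖em w‖ exp (i t ω)` with `j ≤ t < j + 1`, `secF A w = j` (`j : ℤ`, `t = arg · 3N/π`).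
(1) `j1 - j2 + j3 = 12 + 6N l` (in `ℤ`): the argument of `em w1 conj (em w2) em w3` is
`(t1 - t2 + t3) ω = φ + 2π l`, `φ = (t1 - t2 + t3 - 6N l) ω ∈ (11 ω, 14 ω)`.
(2) `j1 + j2 + j3 = 11 + 6N l`: the argument of `em w1 em w2 em w3` is `φ + 2π l`,
`φ = (t1 + t2 + t3 - 6N l) ω ∈ [11 ω, 14 ω)`.
In both cases the product vector `w` (`em_mu`, `em_cj`) has `em w = r exp (i φ)`, `0 < r ≤ 8 A^6`, and `Land_trig`
(with `11 ω ≤ φ`; the proof has room: `0.57/A ≤ 11 ω`) gives `w ∈ cusp A (8A^5)` as at the end of `land`; no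
rotation is needed.
-/

set_option autoImplicit false

namespace Pool.Agent.H62.RV

open Finset Pool.Agent.H17.RP

private theorem LandC_norm0 {A K : ℕ} (hA : 1 ≤ A) {w : ℤ × ℤ} (hw : w ∈ RR A K) :
    0 < ‖em w‖ ∧ ‖em w‖ ≤ 2 * (A : ℝ) ^ 2 := by
  obtain ⟨⟨h1, h2⟩, ⟨h3, h4⟩, _⟩ := (mem_RR hA).1 hw
  have hAz : (1 : ℤ) ≤ A := by exact_mod_cast hA
  have hy : (1 : ℤ) ≤ w.2 := by nlinarith
  have hyr : (1 : ℝ) ≤ (w.2 : ℝ) := by exact_mod_cast hy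
  have hs3 : (0 : ℝ) < Real.sqrt 3 := Real.sqrt_pos.2 (by norm_num)
  constructor
  · rw [norm_pos_iff]
    intro h0
    have h5 : Real.sqrt 3 / 2 * (w.2 : ℝ) = 0 := congrArg Complex.im h0
    have h6 : 0 < Real.sqrt 3 / 2 * (w.2 : ℝ) := by positivity
    exact absurd h5 h6.ne'
  · have h5 : Nm w ≤ w.2 ^ 2 := by
      unfold Nm F
      nlinarith [mul_nonneg (by linarith : (0 : ℤ) ≤ w.1 + 2 * w.2)
        (by linarith : (0 : ℤ) ≤ -(w.1 + w.2))]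
    have h6 : ‖em w‖ ^ 2 ≤ (w.2 : ℝ) ^ 2 := by
      rw [← Complex.normSq_eq_norm_sq, normSq_em]
      exact_mod_cast h5
    have h7 : ‖em w‖ ≤ (w.2 : ℝ) :=
      (pow_le_pow_iff_left₀ (norm_nonneg _) (by linarith) two_ne_zero).1 h6
    have h8 : (w.2 : ℝ) ≤ 2 * (A : ℝ) ^ 2 := by exact_mod_cast h2
    linarith

private theorem LandC_norm {A K : ℕ} (hA : 1 ≤ A) {w : ℤ × ℤ} (hw : w ∈ RF A K) :
    0 < ‖em w‖ ∧ ‖em w‖ ≤ 2 * (A : ℝ) ^ 2 := by
  obtain ⟨k, _, v, hv, rfl⟩ := mem_RF.1 hw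
  have h1 : ‖em (rot^[k] v)‖ = ‖em v‖ := by
    rw [em_rot_pow, norm_mul, norm_pow, om_eq]
    have h2 : ‖Complex.exp ((Real.pi : ℂ) / 3 * Complex.I)‖ = 1 := by
      have h3 : (Real.pi : ℂ) / 3 * Complex.I = ((Real.pi / 3 : ℝ) : ℂ) * Complex.I := by
        push_cast
        ring
      rw [h3, Complex.norm_exp_ofReal_mul_I]
    rw [h2, one_pow, one_mul]
  rw [h1]
  exact LandC_norm0 hA hv

private theorem LandC_sec (A : ℕ) (w : ℤ × ℤ) :
    ∃ (j : ℤ) (t : ℝ), secF A w = (j : ZMod (6 * (20 * A + 1))) ∧ (j : ℝ) ≤ t ∧ t < j + 1 ∧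
      em w = (‖em w‖ : ℂ) *
        Complex.exp (((t * (Real.pi / (3 * (20 * (A : ℝ) + 1))) : ℝ) : ℂ) * Complex.I) := by
  refine ⟨⌊(em w).arg * (3 * (20 * (A : ℝ) + 1) / Real.pi)⌋,
    (em w).arg * (3 * (20 * (A : ℝ) + 1) / Real.pi), rfl, Int.floor_le _,
    Int.lt_floor_add_one _, ?_⟩
  have h1 : (0 : ℝ) < 20 * (A : ℝ) + 1 := by positivity
  have hpi := Real.pi_pos
  have : (em w).arg * (3 * (20 * (A : ℝ) + 1) / Real.pi) *
      (Real.pi / (3 * (20 * (A : ℝ) + 1))) = (em w).arg := by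
    field_simp
  rw [this, Complex.norm_mul_exp_arg_mul_I]

private theorem LandC_trig {A : ℕ} (hA : 100 ≤ A) {r φ u v : ℝ} (hr : 0 < r)
    (hr' : r ≤ 8 * (A : ℝ) ^ 6) (h1 : 11 * (Real.pi / (3 * (20 * (A : ℝ) + 1))) ≤ φ)
    (h2 : φ < 14 * (Real.pi / (3 * (20 * (A : ℝ) + 1)))) (hu : u + 3 / 2 * v = r * Real.cos φ)
    (hv : Real.sqrt 3 / 2 * v = r * Real.sin φ) :
    0 < v ∧ v ≤ 8 * (A : ℝ) ^ 5 ∧ A * v ≤ u ∧ u < 2 * A * v := by
  have hAr : (100 : ℝ) ≤ A := by exact_mod_cast hA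
  have hA0 : (0 : ℝ) < A := by linarith
  have hpi1 := Real.pi_gt_d2
  have hpi2 := Real.pi_lt_d2
  have hs0 : (0 : ℝ) ≤ Real.sqrt 3 := Real.sqrt_nonneg 3
  have hs3 : Real.sqrt 3 * Real.sqrt 3 = 3 := Real.mul_self_sqrt (by norm_num)
  have hs1 : (1.73 : ℝ) ≤ Real.sqrt 3 := by nlinarith
  have hs2 : Real.sqrt 3 ≤ 1.74 := by nlinarith
  set s := Real.sqrt 3 with hsdef
  -- bounds for A * φ
  have hN : (0 : ℝ) < 3 * (20 * (A : ℝ) + 1) := by positivity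
  have hlow : 0.57 < A * φ := by
    have h3 : 0.57 / (A : ℝ) < 11 * (Real.pi / (3 * (20 * (A : ℝ) + 1))) := by
      rw [← mul_div_assoc, div_lt_div_iff₀ hA0 hN]
      nlinarith
    have h4 : 0.57 / (A : ℝ) < φ := lt_of_lt_of_le h3 h1
    rw [div_lt_iff₀ hA0] at h4
    linarith
  have hup : A * φ < 0.7351 := by
    have h3 : 14 * (Real.pi / (3 * (20 * (A : ℝ) + 1))) ≤ 0.7351 / (A : ℝ) := by
      rw [← mul_div_assoc, div_le_div_iff₀ hN hA0]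
      nlinarith
    have h4 : φ < 0.7351 / (A : ℝ) := lt_of_lt_of_le h2 h3
    rw [lt_div_iff₀ hA0] at h4
    linarith
  have hφ0 : 0 < φ := by
    by_contra hcon
    push Not at hcon
    nlinarith
  have hφ1 : φ < 0.01 := by
    by_contra hcon
    push Not at hcon
    nlinarith
  have hsinu : Real.sin φ < φ := Real.sin_lt hφ0
  have hsinl : φ - φ ^ 3 / 6 < Real.sin φ := Real.sin_gt_sub_cube hφ0
  have hsin0 : 0.99 * φ ≤ Real.sin φ := by nlinarith [mul_pos hφ0 hφ0]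
  have hcosu : Real.cos φ ≤ 1 := Real.cos_le_one φ
  have hcosl : 1 - φ ^ 2 / 2 ≤ Real.cos φ := Real.one_sub_sq_div_two_le_cos
  have hcos0 : 0.99 ≤ Real.cos φ := by nlinarith
  have hsinp : 0 < Real.sin φ := by nlinarith
  have hAsu : A * Real.sin φ < 0.7351 := by nlinarith
  have hAsl : 0.56 < A * Real.sin φ := by nlinarith
  have hv0 : 0 < v := by
    by_contra hcon
    push Not at hcon
    have h5 : 0 < r * Real.sin φ := mul_pos hr hsinp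
    have h6 : s / 2 * v ≤ 0 := mul_nonpos_of_nonneg_of_nonpos (by positivity) hcon
    linarith
  refine ⟨hv0, ?_, ?_, ?_⟩
  · -- v ≤ 8 A^5
    have h5 : r * Real.sin φ ≤ 8 * (A : ℝ) ^ 6 * Real.sin φ :=
      mul_le_mul_of_nonneg_right hr' hsinp.le
    have h6 : 8 * (A : ℝ) ^ 6 * Real.sin φ = 8 * (A : ℝ) ^ 5 * (A * Real.sin φ) := by ring
    have hA5 : (0 : ℝ) < 8 * (A : ℝ) ^ 5 := by positivity
    have h7 : 8 * (A : ℝ) ^ 5 * (A * Real.sin φ) ≤ 8 * (A : ℝ) ^ 5 * 0.7351 :=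
      mul_le_mul_of_nonneg_left hAsu.le hA5.le
    have h8 : s / 2 * v ≤ 8 * (A : ℝ) ^ 5 * 0.7351 := by rw [hv]; linarith
    have h9 : 0.865 * v ≤ s / 2 * v := mul_le_mul_of_nonneg_right (by linarith) hv0.le
    nlinarith
  · -- A v ≤ u
    have h5 : s / 2 * (A * v) ≤ s / 2 * u := by
      have e1 : s / 2 * (A * v) = r * (A * Real.sin φ) := by
        calc s / 2 * (A * v) = A * (s / 2 * v) := by ring
          _ = _ := by rw [hv]; ring
      have e2 : s / 2 * u = r * (s / 2 * Real.cos φ - 3 / 2 * Real.sin φ) := by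
        calc s / 2 * u = s / 2 * (u + 3 / 2 * v) - 3 / 2 * (s / 2 * v) := by ring
          _ = _ := by rw [hu, hv]; ring
      rw [e1, e2]
      refine mul_le_mul_of_nonneg_left ?_ hr.le
      nlinarith
    exact le_of_mul_le_mul_left h5 (by linarith)
  · -- u < 2 A v
    have h5 : s / 2 * u < s / 2 * (2 * A * v) := by
      have e1 : s / 2 * (2 * A * v) = r * (2 * (A * Real.sin φ)) := by
        calc s / 2 * (2 * A * v) = 2 * A * (s / 2 * v) := by ring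
          _ = _ := by rw [hv]; ring
      have e2 : s / 2 * u = r * (s / 2 * Real.cos φ - 3 / 2 * Real.sin φ) := by
        calc s / 2 * u = s / 2 * (u + 3 / 2 * v) - 3 / 2 * (s / 2 * v) := by ring
          _ = _ := by rw [hu, hv]; ring
      rw [e1, e2]
      refine mul_lt_mul_of_pos_left ?_ hr
      nlinarith
    exact lt_of_mul_lt_mul_left h5 (by linarith)

private theorem LandC_core {A : ℕ} (hA : 100 ≤ A) {W : ℤ × ℤ} {r φ : ℝ} (hr0 : 0 < r)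
    (hr8 : r ≤ 8 * (A : ℝ) ^ 6) (hφ1 : 11 * (Real.pi / (3 * (20 * (A : ℝ) + 1))) ≤ φ)
    (hφ2 : φ < 14 * (Real.pi / (3 * (20 * (A : ℝ) + 1))))
    (hrot : em W = (r : ℂ) * Complex.exp ((φ : ℂ) * Complex.I)) : W ∈ cusp A (8 * A ^ 5) := by
  have hre : (W.1 : ℝ) + 3 / 2 * (W.2 : ℝ) = r * Real.cos φ := by
    have := congrArg Complex.re hrot
    rw [Complex.re_ofReal_mul, Complex.exp_ofReal_mul_I_re] at this
    exact this
  have him : Real.sqrt 3 / 2 * (W.2 : ℝ) = r * Real.sin φ := by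
    have := congrArg Complex.im hrot
    rw [Complex.im_ofReal_mul, Complex.exp_ofReal_mul_I_im] at this
    exact this
  obtain ⟨g1, g2, g3, g4⟩ := LandC_trig hA hr0 hr8 hφ1 hφ2 hre him
  have f1 : (0 : ℤ) < W.2 := by exact_mod_cast g1
  have f2 : W.2 ≤ 8 * (A : ℤ) ^ 5 := by exact_mod_cast g2
  have f3 : (A : ℤ) * W.2 ≤ W.1 := by exact_mod_cast g3
  have f4 : W.1 < 2 * (A : ℤ) * W.2 := by exact_mod_cast g4
  have hAz : (1 : ℤ) ≤ A := by exact_mod_cast (le_trans (by norm_num) hA : 1 ≤ A)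
  unfold cusp
  rw [mem_sel, mem_product, mem_Icc, mem_Icc]
  push_cast
  refine ⟨⟨⟨?_, ?_⟩, ⟨by omega, f2⟩⟩, f3, f4⟩
  · nlinarith
  · have : 2 * (A : ℤ) * W.2 ≤ 2 * (A : ℤ) * (8 * (A : ℤ) ^ 5) :=
      mul_le_mul_of_nonneg_left f2 (by positivity)
    linarith

theorem landC : ∃ A0 : ℕ, ∀ A ≥ A0, ∀ K : ℕ, ∀ w1 ∈ RF A K, ∀ w2 ∈ RF A K, ∀ w3 ∈ RF A K,
    (secF A w1 - secF A w2 + secF A w3 = 12 → mu (mu w1 (cj w2)) w3 ∈ cusp A (8 * A ^ 5)) ∧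
    (secF A w1 + secF A w2 + secF A w3 = 11 → mu (mu w1 w2) w3 ∈ cusp A (8 * A ^ 5)) := by
  refine ⟨100, fun A hA K w1 h1 w2 h2 w3 h3 => ?_⟩
  have hA1 : 1 ≤ A := le_trans (by norm_num) hA
  obtain ⟨j1, t1, e1, a1, b1, c1⟩ := LandC_sec A w1
  obtain ⟨j2, t2, e2, a2, b2, c2⟩ := LandC_sec A w2
  obtain ⟨j3, t3, e3, a3, b3, c3⟩ := LandC_sec A w3
  obtain ⟨n1, m1⟩ := LandC_norm hA1 h1
  obtain ⟨n2, m2⟩ := LandC_norm hA1 h2
  obtain ⟨n3, m3⟩ := LandC_norm hA1 h3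
  set om3 : ℝ := Real.pi / (3 * (20 * (A : ℝ) + 1)) with hom3
  have hN : (0 : ℝ) < 20 * (A : ℝ) + 1 := by positivity
  have hom0 : 0 < om3 := by
    have := Real.pi_pos
    positivity
  have hNom : (6 * (20 * (A : ℝ) + 1)) * om3 = 2 * Real.pi := by
    rw [hom3]; field_simp; ring
  have hr0 : 0 < ‖em w1‖ * ‖em w2‖ * ‖em w3‖ := by positivity
  have hr8 : ‖em w1‖ * ‖em w2‖ * ‖em w3‖ ≤ 8 * (A : ℝ) ^ 6 := by
    have h10 : ‖em w1‖ * ‖em w2‖ * ‖em w3‖ ≤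
        (2 * (A : ℝ) ^ 2) * (2 * (A : ℝ) ^ 2) * (2 * (A : ℝ) ^ 2) := by
      gcongr
    calc _ ≤ _ := h10
      _ = _ := by ring
  constructor
  · intro hs
    have hdiv : (((6 * (20 * A + 1) : ℕ)) : ℤ) ∣ (j1 - j2 + j3 - 12) := by
      rw [← ZMod.intCast_zmod_eq_zero_iff_dvd]
      push_cast
      rw [← e1, ← e2, ← e3, hs]
      ring
    obtain ⟨l, hl⟩ := hdiv
    have hlr : (j1 : ℝ) - j2 + j3 - 12 = (6 * (20 * (A : ℝ) + 1)) * l := by
      have := congrArg (Int.cast : ℤ → ℝ) hl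
      push_cast at this
      linarith
    obtain ⟨φ, hφ⟩ : ∃ φ : ℝ, φ = (t1 - t2 + t3 - (6 * (20 * (A : ℝ) + 1)) * l) * om3 := ⟨_, rfl⟩
    have hφ1 : 11 * om3 ≤ φ := by
      rw [hφ]
      refine mul_le_mul_of_nonneg_right ?_ hom0.le
      linarith
    have hφ2 : φ < 14 * om3 := by
      rw [hφ]
      refine mul_lt_mul_of_pos_right ?_ hom0
      linarith
    refine LandC_core hA hr0 hr8 hφ1 hφ2 ?_
    have h4 : ((φ : ℝ) : ℂ) * Complex.I + (l : ℂ) * (2 * (Real.pi : ℂ) * Complex.I) =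
        ((t1 * om3 : ℝ) : ℂ) * Complex.I + -(((t2 * om3 : ℝ) : ℂ) * Complex.I) +
          ((t3 * om3 : ℝ) : ℂ) * Complex.I := by
      have h5 : (φ : ℝ) + l * (2 * Real.pi) = t1 * om3 - t2 * om3 + t3 * om3 := by
        rw [hφ, ← hNom]; ring
      have h6 : ((φ : ℝ) : ℂ) + (l : ℂ) * (2 * (Real.pi : ℂ)) =
          ((t1 * om3 : ℝ) : ℂ) - ((t2 * om3 : ℝ) : ℂ) + ((t3 * om3 : ℝ) : ℂ) := by
        exact_mod_cast h5
      linear_combination Complex.I * h6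
    have h5 : (starRingEnd ℂ) (em w2) = (‖em w2‖ : ℂ) *
        Complex.exp (-(((t2 * om3 : ℝ) : ℂ) * Complex.I)) := by
      conv_lhs => rw [c2]
      rw [map_mul, Complex.conj_ofReal, ← Complex.exp_conj, map_mul, Complex.conj_ofReal,
        Complex.conj_I, mul_neg]
    have h7 : Complex.exp ((φ : ℂ) * Complex.I) = Complex.exp (((t1 * om3 : ℝ) : ℂ) * Complex.I) *
        Complex.exp (-(((t2 * om3 : ℝ) : ℂ) * Complex.I)) *
        Complex.exp (((t3 * om3 : ℝ) : ℂ) * Complex.I) := by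
      rw [← Complex.exp_add, ← Complex.exp_add, ← h4, Complex.exp_add, Complex.exp_int_mul_two_pi_mul_I,
        mul_one]
    rw [em_mu, em_mu, em_cj, h5, h7]
    conv_lhs => rw [c1, c3]
    push_cast
    ring
  · intro hs
    have hdiv : (((6 * (20 * A + 1) : ℕ)) : ℤ) ∣ (j1 + j2 + j3 - 11) := by
      rw [← ZMod.intCast_zmod_eq_zero_iff_dvd]
      push_cast
      rw [← e1, ← e2, ← e3, hs]
      ring
    obtain ⟨l, hl⟩ := hdiv
    have hlr : (j1 : ℝ) + j2 + j3 - 11 = (6 * (20 * (A : ℝ) + 1)) * l := by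
      have := congrArg (Int.cast : ℤ → ℝ) hl
      push_cast at this
      linarith
    obtain ⟨φ, hφ⟩ : ∃ φ : ℝ, φ = (t1 + t2 + t3 - (6 * (20 * (A : ℝ) + 1)) * l) * om3 := ⟨_, rfl⟩
    have hφ1 : 11 * om3 ≤ φ := by
      rw [hφ]
      refine mul_le_mul_of_nonneg_right ?_ hom0.le
      linarith
    have hφ2 : φ < 14 * om3 := by
      rw [hφ]
      refine mul_lt_mul_of_pos_right ?_ hom0
      linarith
    refine LandC_core hA hr0 hr8 hφ1 hφ2 ?_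
    have h4 : ((φ : ℝ) : ℂ) * Complex.I + (l : ℂ) * (2 * (Real.pi : ℂ) * Complex.I) =
        ((t1 * om3 : ℝ) : ℂ) * Complex.I + ((t2 * om3 : ℝ) : ℂ) * Complex.I +
          ((t3 * om3 : ℝ) : ℂ) * Complex.I := by
      have h5 : (φ : ℝ) + l * (2 * Real.pi) = t1 * om3 + t2 * om3 + t3 * om3 := by
        rw [hφ, ← hNom]; ring
      have h6 : ((φ : ℝ) : ℂ) + (l : ℂ) * (2 * (Real.pi : ℂ)) =
          ((t1 * om3 : ℝ) : ℂ) + ((t2 * om3 : ℝ) : ℂ) + ((t3 * om3 : ℝ) : ℂ) := by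
        exact_mod_cast h5
      linear_combination Complex.I * h6
    have h7 : Complex.exp ((φ : ℂ) * Complex.I) = Complex.exp (((t1 * om3 : ℝ) : ℂ) * Complex.I) *
        Complex.exp (((t2 * om3 : ℝ) : ℂ) * Complex.I) *
        Complex.exp (((t3 * om3 : ℝ) : ℂ) * Complex.I) := by
      rw [← Complex.exp_add, ← Complex.exp_add, ← h4, Complex.exp_add, Complex.exp_int_mul_two_pi_mul_I,
        mul_one]
    rw [em_mu, em_mu, h7]
    conv_lhs => rw [c1, c2, c3]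
    push_cast
    ring

end Pool.Agent.H62.RV
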