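import Pool.Agent.H62.RV.Defs
import Pool.Agent.H17.RP.LemFa

/-!
# LemGb: subset products in a class modulo `3bm` and a class modulo `q`

Variant of `lemF_class` and `dl_bounds` in `H17/RP/LemFa.lean` (copy them and the private lemmas they need).
`m0 = 3 |b| m`, `m ∣ b`.

`lemG_class`.  `q ∤ 3b` (so `q ∤ m`): `d = a - 3bρ mod 3bm` and `d = x mod q` is one class modulo `m0 q`; as in
`lemF_class` with `a` replaced by `a - 3bρ` and `3b` by `3bm` (the class is `a - 3bρ = a` modulo the prime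
factors of `3bm`, which divide `3b`; it is `1` modulo `3`).  If `q ∣ x` the count is `0` (`q ≤ 2^t` is smaller than
the elements of `D`), as there.
-/

set_option autoImplicit false

namespace Pool.Agent.H62.RV

open Finset Pool.Agent.H17.RP

theorem dlC_bounds (b : ℤ) (m : ℕ) {q : ℕ} (hq : q.Prime) :
    0 ≤ dlC b m q ∧ dlC b m q ≤ 1 / 2 ∧ dlC b m q * ((q : ℝ) - 1) ≤ 2 := by
  unfold dlC
  by_cases h3 : q % 3 = 1 ∧ ¬ q ∣ m
  · have h := dl_bounds b hq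
    unfold dl at h
    rw [if_pos h3.1] at h
    rw [if_pos h3]
    exact h
  · rw [if_neg h3]; norm_num

theorem lemG_class {t e1 e3 : ℕ} {D : Finset ℕ} (hD : ∀ p ∈ D, p.Prime ∧ p % 3 = 1 ∧ 2 ^ t < p)
    (hU : Unif e1 e3 t D) {a b ρ : ℤ} {m : ℕ} (hm : 0 < m) (hmb : (m : ℤ) ∣ b)
    (ha : a % 3 = 1) (hb : b ≠ 0) (hab : IsCoprime a (3 * b))
    {q : ℕ} (hq : q.Prime) (hqb : ¬ (q : ℤ) ∣ 3 * b) (hq2 : q ≤ 2 ^ t)
    (hM : 3 * b.natAbs * m * q ≤ t ^ e1) (x : ℤ) :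
    (cs (sel D.powerset (fun T => 3 * b * m ∣ a - 3 * b * ρ - (prd T : ℤ)))
        (fun T => (q : ℤ) ∣ (prd T : ℤ) - x) : ℝ)
      ≤ 2 ^ D.card * (2 / ((3 * b.natAbs * m * q).totient : ℝ)) + 2 ^ D.card / (t : ℝ) ^ e3 := by
  have hq' : Prime (q : ℤ) := Nat.prime_iff_prime_int.1 hq
  have hm0 : (m : ℤ) ≠ 0 := by exact_mod_cast hm.ne'
  have e1' : 3 * (b * (m : ℤ)) = 3 * b * m := by ring
  have e2 : 3 * (b * (m : ℤ)).natAbs = 3 * b.natAbs * m := by
    rw [Int.natAbs_mul, Int.natAbs_natCast, mul_assoc]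
  have ha' : (a - 3 * b * ρ) % 3 = 1 := by
    have : a - 3 * b * ρ = a - 3 * (b * ρ) := by ring
    rw [this]; omega
  have h1 : IsCoprime (a - 3 * b * ρ) (3 * b) := by
    obtain ⟨u, v, huv⟩ := hab
    refine ⟨u, v + u * ρ, ?_⟩
    have : u * (a - 3 * b * ρ) + (v + u * ρ) * (3 * b) = u * a + v * (3 * b) := by ring
    rw [this, huv]
  have hm3 : (m : ℤ) ∣ 3 * b := Dvd.dvd.mul_left hmb 3
  have h2 : IsCoprime (a - 3 * b * ρ) (3 * (b * (m : ℤ))) := by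
    rw [e1']
    exact IsCoprime.mul_right h1 (h1.of_isCoprime_of_dvd_right hm3)
  have h3 : ¬ (q : ℤ) ∣ 3 * (b * (m : ℤ)) := by
    rw [e1']
    intro h
    rcases hq'.dvd_or_dvd h with h | h
    · exact hqb h
    · exact hqb (h.trans hm3)
  have h4 : 3 * (b * (m : ℤ)).natAbs * q ≤ t ^ e1 := by rw [e2]; exact hM
  have key := lemF_class hD hU ha' (mul_ne_zero hb hm0) h2 hq h3 hq2 h4 x
  rw [e1', e2] at key
  exact key

end Pool.Agent.H62.RV
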