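import Pool.Agent.H62.RV.Defs

/-!
# LemGa: counting subset products in residue classes, with a class of `R` modulo `m`

Variant of `lemF_count` in `H17/RP/LemFa.lean` (copy it and the private lemmas) with
`3b ∣ a - d` replaced by `3bm ∣ a - 3bρ - d`, `d = prd T`, i.e. `R = (a - d)/(3b) = ρ + m R'`,
`R' = (a - 3bρ - d)/(3bm)`.  `m0 = 3 |b| m`.  Remember `m ∣ b`.

`lemG_count`.  If some `q ∈ I` divides `m`: `fk R = fk ρ mod q` is not divisible by `q` (`hρ`), so the count is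
`0`, and `∏ dlC = 0` (the factor of `q`).  Otherwise: `fk R = 0 mod q` for all `q ∈ I` means that `R'` is in one
of the classes `x` modulo `∏ I` with `q ∣ fk (ρ + m x)` for all `q ∈ I`; there are `∏ (2 or 0)` such classes
(`crt_card`; for `q ∤ m` the map `x ↦ ρ + m x` is a bijection modulo `q`, so the number modulo `q` is the one of
`fk_two_roots` (`q = 1 mod 3`) resp. `0` (`fk_no_root`)).  `d = a - 3bρ - 3bm x = a - 3b(ρ + m x) mod m0 ∏ I`.
This class is prime to `m0 ∏ I`: a prime factor `p` of `3bm` divides `3b` (`m ∣ b`) and the class is `a` modulo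
`p`, `hab`; a prime `q ∈ I`, `q ∤ 3b`, with `q ∣ a - 3bX`, `X = ρ + m x`, divides
`F a b = (a - 3bX)(a + 3bX + 3b) + 3b² fk X`, contradiction to `hI`.  It is `1` modulo `3`.  `Unif` with
`M = m0 ∏ I`; `φ(m0 ∏ I) = φ(m0) ∏ (q or q - 1)`, where `q ∣ m0` iff `q ∣ b` for `q = 1 mod 3`, `q ∤ m`.
-/

set_option autoImplicit false

namespace Pool.Agent.H62.RV

open Finset Pool.Agent.H17.RP

/-- the root classes modulo `∏ I` -/
private noncomputable def LemGa_XX (ρ : ℤ) (m : ℕ) (I : Finset ℕ) : Finset ℕ :=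
  sel (range (∏ q ∈ I, q)) (fun x => ∀ q ∈ I, (q : ℤ) ∣ fk (ρ + m * (x : ℤ)))

private theorem LemGa_fk_congr {q : ℤ} {x y : ℤ} (h : q ∣ x - y) : q ∣ fk x ↔ q ∣ fk y := by
  have h1 : q ∣ fk x - fk y := by
    have : fk x - fk y = (x - y) * (3 * (x + y) + 3) := by unfold fk; ring
    rw [this]; exact Dvd.dvd.mul_right h _
  constructor
  · intro h2
    have := Int.dvd_sub h2 h1
    simpa using this
  · intro h2
    have := Int.dvd_add h1 h2
    simpa using this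

private theorem LemGa_two {q : ℕ} (hq : q.Prime) (h : q % 3 = 1) {m : ℕ} (hqm : ¬ q ∣ m) (ρ : ℤ) :
    cs (range q) (fun x => (q : ℤ) ∣ fk (ρ + m * (x : ℤ))) = 2 := by
  classical
  rw [← fk_two_roots hq h]
  have hq0 : (0 : ℤ) < q := by exact_mod_cast hq.pos
  have hqp : Prime (q : ℤ) := Nat.prime_iff_prime_int.1 hq
  have hcop : IsCoprime (m : ℤ) (q : ℤ) := by
    refine ((Prime.coprime_iff_not_dvd hqp).2 ?_).symm
    intro h1
    exact hqm (Int.natCast_dvd_natCast.1 h1)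
  obtain ⟨u, v, huv⟩ := hcop
  have hmod : ∀ z : ℤ, (q : ℤ) ∣ z - z % q := fun z => by
    refine ⟨z / q, ?_⟩
    have := Int.emod_add_mul_ediv z q
    linarith
  have hnn : ∀ z : ℤ, (((z % (q : ℤ)).toNat : ℕ) : ℤ) = z % q := fun z =>
    Int.toNat_of_nonneg (Int.emod_nonneg _ hq0.ne')
  have hlt : ∀ z : ℤ, (z % (q : ℤ)).toNat < q := fun z => by
    have := Int.emod_lt_of_pos z hq0
    have := hnn z
    omega
  have huniq : ∀ x y : ℕ, x < q → y < q → (q : ℤ) ∣ (x : ℤ) - y → x = y := by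
    intro x y hx hy hxy
    have h4 : (x : ℤ) - y = 0 := by
      apply Int.eq_zero_of_abs_lt_dvd hxy
      rw [abs_lt]; constructor <;> omega
    omega
  unfold cs
  refine card_bij' (fun x _ => ((ρ + m * (x : ℤ)) % (q : ℤ)).toNat)
    (fun y _ => ((u * ((y : ℤ) - ρ)) % (q : ℤ)).toNat) ?_ ?_ ?_ ?_
  · intro x hx
    rw [mem_sel, mem_range] at hx ⊢
    refine ⟨hlt _, ?_⟩
    rw [hnn]
    exact (LemGa_fk_congr (hmod _)).1 hx.2
  · intro y hy
    rw [mem_sel, mem_range] at hy ⊢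
    refine ⟨hlt _, ?_⟩
    rw [hnn]
    refine (LemGa_fk_congr ?_).1 hy.2
    have h1 := hmod (u * ((y : ℤ) - ρ))
    have h2 := Dvd.dvd.mul_left h1 (m : ℤ)
    have e : (y : ℤ) - (ρ + m * ((u * ((y : ℤ) - ρ)) % (q : ℤ))) =
        m * (u * ((y : ℤ) - ρ) - (u * ((y : ℤ) - ρ)) % (q : ℤ)) + q * (v * ((y : ℤ) - ρ)) := by
      linear_combination (-((y : ℤ) - ρ)) * huv
    rw [e]
    exact Int.dvd_add h2 (dvd_mul_right _ _)
  · intro x hx
    rw [mem_sel, mem_range] at hx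
    refine huniq _ _ (hlt _) hx.1 ?_
    simp only [hnn]
    have h1 := hmod (u * ((ρ + m * (x : ℤ)) % (q : ℤ) - ρ))
    have h2 := Dvd.dvd.mul_left (hmod (ρ + m * (x : ℤ))) u
    have e : (u * ((ρ + m * (x : ℤ)) % (q : ℤ) - ρ)) % (q : ℤ) - (x : ℤ) =
        -((u * ((ρ + m * (x : ℤ)) % (q : ℤ) - ρ)) - (u * ((ρ + m * (x : ℤ)) % (q : ℤ) - ρ)) % (q : ℤ))
          - u * (ρ + m * (x : ℤ) - (ρ + m * (x : ℤ)) % (q : ℤ)) - q * (v * (x : ℤ)) := by
      linear_combination (x : ℤ) * huv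
    rw [e]
    exact Int.dvd_sub (Int.dvd_sub (by rw [dvd_neg]; exact h1) h2) (dvd_mul_right _ _)
  · intro y hy
    rw [mem_sel, mem_range] at hy
    refine huniq _ _ (hlt _) hy.1 ?_
    simp only [hnn]
    have h1 := hmod (ρ + m * ((u * ((y : ℤ) - ρ)) % (q : ℤ)))
    have h2 := Dvd.dvd.mul_left (hmod (u * ((y : ℤ) - ρ))) (m : ℤ)
    have e : (ρ + m * ((u * ((y : ℤ) - ρ)) % (q : ℤ))) % (q : ℤ) - (y : ℤ) =
        -((ρ + m * ((u * ((y : ℤ) - ρ)) % (q : ℤ))) - (ρ + m * ((u * ((y : ℤ) - ρ)) % (q : ℤ))) % (q : ℤ))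
          - m * (u * ((y : ℤ) - ρ) - (u * ((y : ℤ) - ρ)) % (q : ℤ)) - q * (v * ((y : ℤ) - ρ)) := by
      linear_combination ((y : ℤ) - ρ) * huv
    rw [e]
    exact Int.dvd_sub (Int.dvd_sub (by rw [dvd_neg]; exact h1) h2) (dvd_mul_right _ _)

private theorem LemGa_card_XX {ρ : ℤ} {m : ℕ} (hρ : IsCoprime (fk ρ) (m : ℤ)) (I : Finset ℕ)
    (hI : ∀ q ∈ I, q.Prime) :
    (LemGa_XX ρ m I).card = ∏ q ∈ I, (if q % 3 = 1 ∧ ¬ q ∣ m then 2 else 0) := by
  have h := crt_card I hI (fun q x => (q : ℤ) ∣ fk (ρ + m * (x : ℤ))) (fun p _ n => by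
    apply LemGa_fk_congr
    refine ⟨m, ?_⟩
    push_cast
    ring)
  unfold LemGa_XX
  change cs _ _ = _
  rw [h]
  refine prod_congr rfl fun q hq => ?_
  split_ifs with h3
  · exact LemGa_two (hI q hq) h3.1 h3.2 ρ
  · unfold cs
    rw [card_eq_zero, eq_empty_iff_forall_notMem]
    intro x hx
    have hx2 := (mem_sel.1 hx).2
    by_cases h4 : q % 3 = 1
    · have hqm : q ∣ m := by
        by_contra h5
        exact h3 ⟨h4, h5⟩
      have h5 : (q : ℤ) ∣ (m : ℤ) := Int.natCast_dvd_natCast.2 hqm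
      have h6 : (q : ℤ) ∣ fk ρ := by
        refine (LemGa_fk_congr ?_).1 hx2
        have e : ρ + m * (x : ℤ) - ρ = m * (x : ℤ) := by ring
        rw [e]
        exact Dvd.dvd.mul_right h5 _
      exact (Nat.prime_iff_prime_int.1 (hI q hq)).not_unit (hρ.isUnit_of_dvd' h6 h5)
    · exact fk_no_root (hI q hq) h4 _ hx2

private theorem LemGa_prime_dvd_prod {p : ℕ} (hp : p.Prime) {I : Finset ℕ} (hI : ∀ q ∈ I, q.Prime)
    (h : p ∣ ∏ q ∈ I, q) : p ∈ I := by
  obtain ⟨q, hq, h1⟩ := (Prime.dvd_finset_prod_iff hp.prime _).1 h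
  rwa [(Nat.prime_dvd_prime_iff_eq hp (hI q hq)).1 h1]

private theorem LemGa_totient_prod (m0 : ℕ) (hm0 : 0 < m0) (I : Finset ℕ) (hI : ∀ q ∈ I, q.Prime) :
    ((m0 * ∏ q ∈ I, q).totient : ℝ) =
      (m0.totient : ℝ) * ∏ q ∈ I, (if q ∣ m0 then (q : ℝ) else (q : ℝ) - 1) := by
  classical
  induction I using Finset.induction_on with
  | empty => simp
  | insert p s hp ih =>
    have hp' : p.Prime := hI p (mem_insert_self _ _)
    have hs : ∀ q ∈ s, q.Prime := fun q hq => hI q (mem_insert_of_mem hq)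
    rw [prod_insert hp, prod_insert hp]
    have e : m0 * (p * ∏ q ∈ s, q) = p * (m0 * ∏ q ∈ s, q) := by ring
    rw [e]
    have hdvd : p ∣ m0 * ∏ q ∈ s, q ↔ p ∣ m0 := by
      rw [hp'.dvd_mul]
      constructor
      · rintro (h | h)
        · exact h
        · exact absurd (LemGa_prime_dvd_prod hp' hs h) hp
      · exact Or.inl
    by_cases h : p ∣ m0
    · rw [Nat.totient_mul_of_prime_of_dvd hp' (hdvd.2 h), if_pos h, Nat.cast_mul, ih hs]
      ring
    · rw [Nat.totient_mul_of_prime_of_not_dvd hp' (fun h' => h (hdvd.1 h')), if_neg h, Nat.cast_mul,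
        ih hs, Nat.cast_sub hp'.one_le]
      push_cast
      ring

private theorem LemGa_coprime_of_primes {c : ℤ} {M : ℕ} (hM : 0 < M)
    (h : ∀ p : ℕ, p.Prime → p ∣ M → ¬ (p : ℤ) ∣ c) : IsCoprime c (M : ℤ) := by
  rw [Int.isCoprime_iff_gcd_eq_one]
  by_contra hne
  obtain ⟨p, hp, hd⟩ := Nat.exists_prime_and_dvd hne
  have h1 : (p : ℤ) ∣ c := (Int.natCast_dvd_natCast.2 hd).trans (Int.gcd_dvd_left _ _)
  have h2 : (p : ℤ) ∣ (M : ℤ) := (Int.natCast_dvd_natCast.2 hd).trans (Int.gcd_dvd_right _ _)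
  exact h p hp (Int.natCast_dvd_natCast.1 h2) h1

private theorem LemGa_mod_aux {a : ℤ} (ha : a % 3 = 1) (b x : ℤ) : (a - 3 * b * x) % 3 = 1 := by
  have : a - 3 * b * x = a - 3 * (b * x) := by ring
  rw [this]; omega

theorem lemG_count {t e1 e3 : ℕ} {D : Finset ℕ} (hD : ∀ p ∈ D, p.Prime ∧ p % 3 = 1 ∧ 2 ^ t < p)
    (hU : Unif e1 e3 t D) {a b ρ : ℤ} {m : ℕ} (hm : 0 < m) (hρ : IsCoprime (fk ρ) (m : ℤ))
    (hmb : (m : ℤ) ∣ b) (ha : a % 3 = 1) (hb : b ≠ 0) (hab : IsCoprime a (3 * b))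
    (I : Finset ℕ) (hI : ∀ q ∈ I, q.Prime ∧ ¬ (q : ℤ) ∣ F a b)
    (hM : 3 * b.natAbs * m * ∏ q ∈ I, q ≤ t ^ e1) :
    |(cs (sel D.powerset (fun T => 3 * b * m ∣ a - 3 * b * ρ - (prd T : ℤ)))
        (fun T => ∀ q ∈ I, (q : ℤ) ∣ fk ((a - (prd T : ℤ)) / (3 * b))) : ℝ) -
      2 ^ D.card * (2 / ((3 * b.natAbs * m).totient : ℝ)) * ∏ q ∈ I, dlC b m q| ≤
      2 ^ I.card * (2 ^ D.card / (t : ℝ) ^ e3) := by
  classical
  have hIp : ∀ q ∈ I, q.Prime := fun q hq => (hI q hq).1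
  set P : ℕ := ∏ q ∈ I, q with hP
  set n0 : ℕ := 3 * b.natAbs * m with hn0
  have hbn : 0 < b.natAbs := Int.natAbs_pos.2 hb
  have hn0pos : 0 < n0 := Nat.mul_pos (by omega) hm
  have hPpos : 0 < P := prod_pos fun q hq => (hIp q hq).pos
  have hMpos : 0 < n0 * P := Nat.mul_pos hn0pos hPpos
  have h3b : (3 * b : ℤ) ≠ 0 := by omega
  have hmz : (m : ℤ) ≠ 0 := by exact_mod_cast hm.ne'
  have h3bm : (3 * b * m : ℤ) ≠ 0 := mul_ne_zero h3b hmz
  -- `3b` and `n0` are associated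
  have hass : ∀ z : ℤ, (n0 : ℤ) ∣ z ↔ 3 * b * m ∣ z := by
    intro z
    have : (n0 : ℤ) = |3 * b * m| := by
      rw [hn0]; push_cast; rw [abs_mul, abs_mul]; simp
    rw [this, abs_dvd]
  have hMz : ∀ z : ℤ, ((n0 * P : ℕ) : ℤ) ∣ 3 * b * m * z ↔ (P : ℤ) ∣ z := by
    intro z
    have : ((n0 * P : ℕ) : ℤ) = |3 * b * m * (P : ℤ)| := by
      rw [hn0]; push_cast; rw [abs_mul, abs_mul, abs_mul]; simp
    rw [this, abs_dvd]
    exact mul_dvd_mul_iff_left h3bm
  -- the classes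
  have key : sel (sel D.powerset (fun T => 3 * b * m ∣ a - 3 * b * ρ - (prd T : ℤ)))
        (fun T => ∀ q ∈ I, (q : ℤ) ∣ fk ((a - (prd T : ℤ)) / (3 * b))) =
      (LemGa_XX ρ m I).biUnion (fun x => sel D.powerset
        (fun T => ((n0 * P : ℕ) : ℤ) ∣ (prd T : ℤ) - (a - 3 * b * ρ - 3 * b * m * (x : ℤ)))) := by
    ext T
    rw [mem_sel, mem_sel, mem_biUnion]
    constructor
    · rintro ⟨⟨hT, R, hR⟩, h2⟩
      have hR' : (a - (prd T : ℤ)) / (3 * b) = ρ + m * R := by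
        have e : a - (prd T : ℤ) = 3 * b * (ρ + m * R) := by linear_combination hR
        rw [e]; exact Int.mul_ediv_cancel_left _ h3b
      rw [hR'] at h2
      have hx0 : 0 ≤ R % (P : ℤ) := Int.emod_nonneg _ (by exact_mod_cast hPpos.ne')
      have hx1 : R % (P : ℤ) < P := Int.emod_lt_of_pos _ (by exact_mod_cast hPpos)
      have hxn : (((R % (P : ℤ)).toNat : ℕ) : ℤ) = R % (P : ℤ) := Int.toNat_of_nonneg hx0
      have hRx : (P : ℤ) ∣ R - R % (P : ℤ) := by
        refine ⟨R / P, ?_⟩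
        have := Int.emod_add_mul_ediv R P
        linarith
      refine ⟨(R % (P : ℤ)).toNat, ?_, ?_⟩
      · unfold LemGa_XX
        rw [mem_sel, mem_range]
        refine ⟨by rw [← hP]; omega, fun q hq => ?_⟩
        rw [hxn]
        have hqm : (q : ℤ) ∣ (P : ℤ) := Int.natCast_dvd_natCast.2 (dvd_prod_of_mem _ hq)
        refine (LemGa_fk_congr ?_).1 (h2 q hq)
        have e : ρ + m * R - (ρ + m * (R % (P : ℤ))) = m * (R - R % (P : ℤ)) := by ring
        rw [e]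
        exact Dvd.dvd.mul_left (hqm.trans hRx) _
      · rw [mem_sel]
        refine ⟨hT, ?_⟩
        rw [hxn]
        have e : (prd T : ℤ) - (a - 3 * b * ρ - 3 * b * m * (R % (P : ℤ))) =
            -(3 * b * m * (R - R % (P : ℤ))) := by
          linear_combination -hR
        rw [e, dvd_neg, hMz]
        exact hRx
    · rintro ⟨x, hx, h1⟩
      rw [mem_sel] at h1
      unfold LemGa_XX at hx
      rw [mem_sel, mem_range] at hx
      have hd3 : 3 * b * m ∣ a - 3 * b * ρ - (prd T : ℤ) := by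
        have h2 : (n0 : ℤ) ∣ (prd T : ℤ) - (a - 3 * b * ρ - 3 * b * m * (x : ℤ)) :=
          (Int.natCast_dvd_natCast.2 (dvd_mul_right n0 P)).trans h1.2
        rw [hass] at h2
        have h3 : 3 * b * m ∣ 3 * b * m * (x : ℤ) := dvd_mul_right _ _
        have h4 := Int.dvd_sub h3 h2
        have e : 3 * b * m * (x : ℤ) - ((prd T : ℤ) - (a - 3 * b * ρ - 3 * b * m * (x : ℤ))) =
            a - 3 * b * ρ - (prd T : ℤ) := by ring
        rwa [e] at h4
      refine ⟨⟨h1.1, hd3⟩, ?_⟩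
      obtain ⟨R, hR⟩ := hd3
      have hR' : (a - (prd T : ℤ)) / (3 * b) = ρ + m * R := by
        have e : a - (prd T : ℤ) = 3 * b * (ρ + m * R) := by linear_combination hR
        rw [e]; exact Int.mul_ediv_cancel_left _ h3b
      rw [hR']
      intro q hq
      have hqm : (q : ℤ) ∣ (P : ℤ) := Int.natCast_dvd_natCast.2 (dvd_prod_of_mem _ hq)
      have hRx : (P : ℤ) ∣ R - x := by
        rw [← hMz]
        have e : 3 * b * m * (R - (x : ℤ)) =
            -((prd T : ℤ) - (a - 3 * b * ρ - 3 * b * m * (x : ℤ))) := by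
          linear_combination -hR
        rw [e, dvd_neg]
        exact h1.2
      refine (LemGa_fk_congr ?_).2 (hx.2 q hq)
      have e : ρ + m * R - (ρ + m * (x : ℤ)) = m * (R - x) := by ring
      rw [e]
      exact Dvd.dvd.mul_left (hqm.trans hRx) _
  have hdisj : ∀ x ∈ LemGa_XX ρ m I, ∀ y ∈ LemGa_XX ρ m I, x ≠ y →
      Disjoint (sel D.powerset
        (fun T => ((n0 * P : ℕ) : ℤ) ∣ (prd T : ℤ) - (a - 3 * b * ρ - 3 * b * m * (x : ℤ))))
        (sel D.powerset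
        (fun T => ((n0 * P : ℕ) : ℤ) ∣ (prd T : ℤ) - (a - 3 * b * ρ - 3 * b * m * (y : ℤ)))) := by
    intro x hx y hy hxy
    rw [disjoint_left]
    intro T h1 h2
    rw [mem_sel] at h1 h2
    unfold LemGa_XX at hx hy
    rw [mem_sel, mem_range] at hx hy
    apply hxy
    have h3 := Int.dvd_sub h1.2 h2.2
    have e : ((prd T : ℤ) - (a - 3 * b * ρ - 3 * b * m * (x : ℤ))) - ((prd T : ℤ) - (a - 3 * b * ρ - 3 * b * m * (y : ℤ))) =
        3 * b * m * ((x : ℤ) - y) := by ring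
    rw [e, hMz] at h3
    have hxm : (x : ℤ) < P := by exact_mod_cast hx.1
    have hym : (y : ℤ) < P := by exact_mod_cast hy.1
    have h4 : (x : ℤ) - y = 0 := by
      apply Int.eq_zero_of_abs_lt_dvd h3
      rw [abs_lt]; constructor <;> omega
    omega
  have hcs : (cs (sel D.powerset (fun T => 3 * b * m ∣ a - 3 * b * ρ - (prd T : ℤ)))
        (fun T => ∀ q ∈ I, (q : ℤ) ∣ fk ((a - (prd T : ℤ)) / (3 * b)))) =
      ∑ x ∈ LemGa_XX ρ m I, cnt D (n0 * P) (a - 3 * b * ρ - 3 * b * m * (x : ℤ)) := by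
    unfold cs
    rw [key, card_biUnion hdisj]
    rfl
  -- uniformity
  have hunif : ∀ x ∈ LemGa_XX ρ m I, |(cnt D (n0 * P) (a - 3 * b * ρ - 3 * b * m * (x : ℤ)) : ℝ) -
      2 ^ D.card * (2 / ((n0 * P).totient : ℝ))| ≤ 2 ^ D.card / (t : ℝ) ^ e3 := by
    intro x hx
    refine hU (n0 * P) hMpos hM ?_ _ ?_ ?_
    · refine Dvd.dvd.mul_right ?_ _
      rw [hn0, mul_assoc]; exact dvd_mul_right _ _
    · refine LemGa_coprime_of_primes hMpos fun p hp hpM hpc => ?_
      have hp' : Prime (p : ℤ) := Nat.prime_iff_prime_int.1 hp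
      by_cases h3 : (p : ℤ) ∣ 3 * b
      · have h4 : (p : ℤ) ∣ a := by
          have h5 : (p : ℤ) ∣ 3 * b * (ρ + m * (x : ℤ)) := Dvd.dvd.mul_right h3 _
          have h6 := Int.dvd_add hpc h5
          have e : a - 3 * b * ρ - 3 * b * m * (x : ℤ) + 3 * b * (ρ + m * (x : ℤ)) = a := by ring
          rwa [e] at h6
        exact hp'.not_unit (hab.isUnit_of_dvd' h4 h3)
      · have hpI : p ∈ I := by
          rcases (hp.dvd_mul).1 hpM with h4 | h4
          · exfalso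
            have h5 : (p : ℤ) ∣ (n0 : ℤ) := Int.natCast_dvd_natCast.2 h4
            have h6 : (n0 : ℤ) ∣ 3 * b * m := (hass _).2 (dvd_refl _)
            rcases hp'.dvd_or_dvd (h5.trans h6) with h7 | h7
            · exact h3 h7
            · exact h3 ((h7.trans hmb).trans (dvd_mul_left _ _))
          · exact LemGa_prime_dvd_prod hp hIp h4
        apply (hI p hpI).2
        unfold LemGa_XX at hx
        rw [mem_sel] at hx
        have h5 := hx.2 p hpI
        have e : F a b = (a - 3 * b * ρ - 3 * b * m * (x : ℤ)) *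
            (a + 3 * b * (ρ + m * x) + 3 * b) + 3 * b ^ 2 * fk (ρ + m * (x : ℤ)) := by
          unfold F fk; ring
        rw [e]
        exact Int.dvd_add (Dvd.dvd.mul_right hpc _) (Dvd.dvd.mul_left h5 _)
    · have e : a - 3 * b * ρ - 3 * b * m * (x : ℤ) = a - 3 * b * (ρ + m * x) := by ring
      rw [e]
      exact LemGa_mod_aux ha b _
  have hcardle : ((LemGa_XX ρ m I).card : ℝ) ≤ 2 ^ I.card := by
    rw [LemGa_card_XX hρ I hIp]
    push_cast
    calc ∏ q ∈ I, (if q % 3 = 1 ∧ ¬ q ∣ m then (2 : ℝ) else 0) ≤ ∏ _q ∈ I, (2 : ℝ) := by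
          apply prod_le_prod
          · intro q _; split_ifs <;> norm_num
          · intro q _; split_ifs <;> norm_num
      _ = 2 ^ I.card := by rw [prod_const]
  have hmain : ((LemGa_XX ρ m I).card : ℝ) * (2 ^ D.card * (2 / ((n0 * P).totient : ℝ))) =
      2 ^ D.card * (2 / (n0.totient : ℝ)) * ∏ q ∈ I, dlC b m q := by
    rw [LemGa_card_XX hρ I hIp, LemGa_totient_prod n0 hn0pos I hIp]
    push_cast
    by_cases hall : ∀ q ∈ I, q % 3 = 1 ∧ ¬ q ∣ m
    · have e1 : ∏ q ∈ I, dlC b m q = (∏ q ∈ I, (if q % 3 = 1 ∧ ¬ q ∣ m then (2 : ℝ) else 0)) /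
          ∏ q ∈ I, (if q ∣ n0 then (q : ℝ) else (q : ℝ) - 1) := by
        rw [← prod_div_distrib]
        refine prod_congr rfl fun q hq => ?_
        unfold dlC
        rw [if_pos (hall q hq), if_pos (hall q hq)]
        have hqp := hIp q hq
        have hiff : (q : ℤ) ∣ b ↔ q ∣ n0 := by
          rw [hn0, hqp.dvd_mul, hqp.dvd_mul]
          constructor
          · intro h
            left; right
            exact Int.natCast_dvd.1 h
          · rintro ((h | h) | h)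
            · exfalso
              have := (Nat.prime_dvd_prime_iff_eq hqp Nat.prime_three).1 h
              have h5 := (hall q hq).1
              rw [this] at h5
              norm_num at h5
            · exact Int.natCast_dvd.2 h
            · exact absurd h (hall q hq).2
        by_cases h : (q : ℤ) ∣ b
        · rw [if_pos h, if_pos (hiff.1 h)]
        · rw [if_neg h, if_neg (fun h' => h (hiff.2 h'))]
      rw [e1]
      have h1 : (n0.totient : ℝ) ≠ 0 := by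
        exact_mod_cast (Nat.totient_pos.2 hn0pos).ne'
      have h2 : (∏ q ∈ I, (if q ∣ n0 then (q : ℝ) else (q : ℝ) - 1)) ≠ 0 := by
        rw [prod_ne_zero_iff]
        intro q hq
        have := (hIp q hq).one_lt
        have h' : (1 : ℝ) < q := by exact_mod_cast this
        split_ifs
        · linarith
        · linarith
      field_simp
    · rw [not_forall] at hall
      obtain ⟨q, hall⟩ := hall
      rw [_root_.not_imp] at hall
      obtain ⟨hq, hq3⟩ := hall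
      rw [prod_eq_zero hq (if_neg hq3)]
      have : dlC b m q = 0 := by unfold dlC; rw [if_neg hq3]
      rw [prod_eq_zero hq this]
      simp
  rw [hcs, ← hmain]
  push_cast
  have hrw : (∑ x ∈ LemGa_XX ρ m I, (cnt D (n0 * P) (a - 3 * b * ρ - 3 * b * m * (x : ℤ)) : ℝ)) -
      ((LemGa_XX ρ m I).card : ℝ) * (2 ^ D.card * (2 / ((n0 * P).totient : ℝ))) =
      ∑ x ∈ LemGa_XX ρ m I, ((cnt D (n0 * P) (a - 3 * b * ρ - 3 * b * m * (x : ℤ)) : ℝ) -
        2 ^ D.card * (2 / ((n0 * P).totient : ℝ))) := by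
    rw [sum_sub_distrib, sum_const, nsmul_eq_mul]
  rw [hrw]
  have hnn : (0 : ℝ) ≤ 2 ^ D.card / (t : ℝ) ^ e3 := by positivity
  calc |∑ x ∈ LemGa_XX ρ m I, ((cnt D (n0 * P) (a - 3 * b * ρ - 3 * b * m * (x : ℤ)) : ℝ) -
        2 ^ D.card * (2 / ((n0 * P).totient : ℝ)))|
      ≤ ∑ x ∈ LemGa_XX ρ m I, |(cnt D (n0 * P) (a - 3 * b * ρ - 3 * b * m * (x : ℤ)) : ℝ) -
        2 ^ D.card * (2 / ((n0 * P).totient : ℝ))| := abs_sum_le_sum_abs _ _
    _ ≤ ∑ _x ∈ LemGa_XX ρ m I, 2 ^ D.card / (t : ℝ) ^ e3 := sum_le_sum hunif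
    _ = ((LemGa_XX ρ m I).card : ℝ) * (2 ^ D.card / (t : ℝ) ^ e3) := by rw [sum_const, nsmul_eq_mul]
    _ ≤ 2 ^ I.card * (2 ^ D.card / (t : ℝ) ^ e3) := mul_le_mul_of_nonneg_right hcardle hnn


end Pool.Agent.H62.RV
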