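import Pool.Agent.H62.RV.LandC
import Pool.Agent.H62.RV.MultC
import Pool.Agent.H17.RP.OddT

/-!
# OddTC: odd triples (full circle, classes)

Variant of `odd_triples` in `H17/RP/OddT.lean` (copy the private lemmas `OddT_...`).

First part: `x = (w1, w2, w3)`, `w_i ∈ SF A K M κi` (so `w_i ∈ RF A K`, `Cl M κi w_i`), `secF w1 - secF w2 + secF w3
= 12`.  By `landC` the vector `w = w1 conj(w2) w3` is in `cusp A (8A^5)`, `Nm w` is the product of the norms, so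
`RK A K (Nm w)`, `lam (Nm w) = -1` (the norms are not `0`: vectors of `RF` are rotations of vectors of `RR`), and
`Cl M (mu (mu κ1 (cj κ2)) κ3) w` (`cl_mu`, `cl_cj`), so `Cl M (1, 0) w` (`cl_trans`).  So `w` is one of the
`OO A K M` vectors, and by `multC` each of them comes from at most `C` triples.
Second part: the same with `w1 w2 w3`, `secF w1 + secF w2 + secF w3 = 11`.
-/

set_option autoImplicit false

namespace Pool.Agent.H62.RV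

open Finset Pool.Agent.H17.RP

private theorem OddTC_lam_mul {a b : ℤ} (ha : a ≠ 0) (hb : b ≠ 0) : lam (a * b) = lam a * lam b := by
  unfold lam
  rw [Int.natAbs_mul, ArithmeticFunction.cardFactors_mul (Int.natAbs_ne_zero.2 ha)
    (Int.natAbs_ne_zero.2 hb), pow_add]

private theorem OddTC_Nm_rot_pow (k : ℕ) (w : ℤ × ℤ) : Nm (rot^[k] w) = Nm w := by
  induction k generalizing w with
  | zero => rfl
  | succ k ih => rw [Function.iterate_succ_apply, ih, Nm_rot]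

private theorem OddTC_RK_mul {A K : ℕ} {a b : ℤ} (ha : RK A K a) (hb : RK A K b) :
    RK A K (a * b) := by
  intro p hp hd
  rcases (Nat.prime_iff_prime_int.1 hp).dvd_or_dvd hd with h | h
  · exact ha p hp h
  · exact hb p hp h

private theorem OddTC_RR {A K : ℕ} (hA : 1 ≤ A) {w : ℤ × ℤ} (hw : w ∈ RR A K) :
    Nm w ≠ 0 ∧ RK A K (Nm w) := by
  unfold RR at hw
  obtain ⟨h1, -, -, h4⟩ := mem_sel.1 hw
  refine ⟨?_, h4⟩
  obtain ⟨-, h5⟩ := Finset.mem_product.1 h1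
  obtain ⟨h6, -⟩ := Finset.mem_Icc.1 h5
  have h7 : (1 : ℤ) ≤ (A : ℤ) ^ 2 := by
    have : (1 : ℤ) ≤ (A : ℤ) := by exact_mod_cast hA
    nlinarith
  have h8 : w.2 ≠ 0 := by
    intro h
    rw [h] at h6
    linarith
  exact (F_pos (Or.inr h8)).ne'

private theorem OddTC_RF {A K : ℕ} (hA : 1 ≤ A) {w : ℤ × ℤ} (hw : w ∈ RF A K) :
    Nm w ≠ 0 ∧ RK A K (Nm w) := by
  obtain ⟨k, -, v, hv, rfl⟩ := mem_RF.1 hw
  rw [OddTC_Nm_rot_pow]
  exact OddTC_RR hA hv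

private theorem OddTC_main {A K M C : ℕ} (hA : 1 ≤ A) {κ1 κ2 κ3 : ℤ × ℤ}
    (f : ℤ × ℤ → ℤ × ℤ → ℤ × ℤ → ℤ × ℤ) (P : ℤ × ℤ → ℤ × ℤ → ℤ × ℤ → Prop)
    (hN : ∀ w1 w2 w3, Nm (f w1 w2 w3) = Nm w1 * Nm w2 * Nm w3)
    (hcl : ∀ w1 w2 w3, Cl M κ1 w1 → Cl M κ2 w2 → Cl M κ3 w3 → Cl M (1, 0) (f w1 w2 w3))
    (hland : ∀ w1 ∈ RF A K, ∀ w2 ∈ RF A K, ∀ w3 ∈ RF A K, P w1 w2 w3 →
      f w1 w2 w3 ∈ cusp A (8 * A ^ 5))
    (hmult : ∀ w ∈ cusp A (8 * A ^ 5), RK A K (Nm w) →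
      cs (RF A K ×ˢ (RF A K ×ˢ RF A K)) (fun x => w = f x.1 x.2.1 x.2.2) ≤ C) :
    cs (SF A K M κ1 ×ˢ (SF A K M κ2 ×ˢ SF A K M κ3))
      (fun x => P x.1 x.2.1 x.2.2 ∧
        lam (Nm x.1) * lam (Nm x.2.1) * lam (Nm x.2.2) = -1) ≤ C * OO A K M := by
  classical
  have hsub : sel (SF A K M κ1 ×ˢ (SF A K M κ2 ×ˢ SF A K M κ3))
      (fun x => P x.1 x.2.1 x.2.2 ∧
        lam (Nm x.1) * lam (Nm x.2.1) * lam (Nm x.2.2) = -1) ⊆
      (sel (cusp A (8 * A ^ 5)) (fun w => Cl M (1, 0) w ∧ RK A K (Nm w) ∧ lam (Nm w) = -1)).biUnion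
        (fun w => sel (RF A K ×ˢ (RF A K ×ˢ RF A K)) (fun x => w = f x.1 x.2.1 x.2.2)) := by
    intro x hx
    obtain ⟨hx1, hx2, hx3⟩ := mem_sel.1 hx
    obtain ⟨h1, h23⟩ := Finset.mem_product.1 hx1
    obtain ⟨h2, h3⟩ := Finset.mem_product.1 h23
    obtain ⟨a1, c1⟩ := mem_sel.1 h1
    obtain ⟨a2, c2⟩ := mem_sel.1 h2
    obtain ⟨a3, c3⟩ := mem_sel.1 h3
    obtain ⟨n1, r1⟩ := OddTC_RF hA a1
    obtain ⟨n2, r2⟩ := OddTC_RF hA a2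
    obtain ⟨n3, r3⟩ := OddTC_RF hA a3
    rw [Finset.mem_biUnion]
    refine ⟨f x.1 x.2.1 x.2.2, mem_sel.2 ⟨hland _ a1 _ a2 _ a3 hx2, hcl _ _ _ c1 c2 c3, ?_, ?_⟩,
      mem_sel.2 ⟨Finset.mem_product.2 ⟨a1, Finset.mem_product.2 ⟨a2, a3⟩⟩, rfl⟩⟩
    · rw [hN]
      exact OddTC_RK_mul (OddTC_RK_mul r1 r2) r3
    · rw [hN, OddTC_lam_mul (mul_ne_zero n1 n2) n3, OddTC_lam_mul n1 n2]
      exact hx3
  unfold cs
  calc (sel (SF A K M κ1 ×ˢ (SF A K M κ2 ×ˢ SF A K M κ3))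
      (fun x => P x.1 x.2.1 x.2.2 ∧
        lam (Nm x.1) * lam (Nm x.2.1) * lam (Nm x.2.2) = -1)).card
      ≤ _ := Finset.card_le_card hsub
    _ ≤ (sel (cusp A (8 * A ^ 5))
        (fun w => Cl M (1, 0) w ∧ RK A K (Nm w) ∧ lam (Nm w) = -1)).card * C := by
        refine Finset.card_biUnion_le_card_mul _ _ _ ?_
        intro w hw
        obtain ⟨hw1, -, hw2, -⟩ := mem_sel.1 hw
        exact hmult w hw1 hw2
    _ = _ := Nat.mul_comm _ _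

theorem oddTC (K : ℕ) (hK : 1 ≤ K) : ∃ C A0 : ℕ, ∀ A ≥ A0, ∀ (M : ℕ) (κ1 κ2 κ3 : ℤ × ℤ),
    (Cl M (1, 0) (mu (mu κ1 (cj κ2)) κ3) →
      cs (SF A K M κ1 ×ˢ (SF A K M κ2 ×ˢ SF A K M κ3))
        (fun x => secF A x.1 = 12 + secF A x.2.1 - secF A x.2.2 ∧
          lam (Nm x.1) * lam (Nm x.2.1) * lam (Nm x.2.2) = -1) ≤ C * OO A K M) ∧
    (Cl M (1, 0) (mu (mu κ1 κ2) κ3) →
      cs (SF A K M κ1 ×ˢ (SF A K M κ2 ×ˢ SF A K M κ3))
        (fun x => secF A x.1 = 11 - secF A x.2.1 - secF A x.2.2 ∧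
          lam (Nm x.1) * lam (Nm x.2.1) * lam (Nm x.2.2) = -1) ≤ C * OO A K M) := by
  obtain ⟨A1, hland⟩ := landC
  obtain ⟨C, A2, hmult⟩ := multC K hK
  refine ⟨C, max 1 (max A1 A2), fun A hA M κ1 κ2 κ3 => ?_⟩
  have hA0 : 1 ≤ A := le_trans (le_max_left _ _) hA
  have hA1 : A1 ≤ A := le_trans (le_trans (le_max_left _ _) (le_max_right _ _)) hA
  have hA2 : A2 ≤ A := le_trans (le_trans (le_max_right _ _) (le_max_right _ _)) hA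
  constructor
  · intro hκ
    refine OddTC_main hA0 (fun w1 w2 w3 => mu (mu w1 (cj w2)) w3)
      (fun w1 w2 w3 => secF A w1 = 12 + secF A w2 - secF A w3) (fun w1 w2 w3 => ?_)
      (fun w1 w2 w3 c1 c2 c3 => cl_trans hκ (cl_mu (cl_mu c1 (cl_cj c2)) c3))
      (fun w1 a1 w2 a2 w3 a3 h => ?_) (fun w hw hr => (hmult A hA2 w hw hr).1)
    · simp only [Nm_mu, Nm_cj]
    · refine (hland A hA1 K w1 a1 w2 a2 w3 a3).1 ?_
      rw [h]
      ring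
  · intro hκ
    refine OddTC_main hA0 (fun w1 w2 w3 => mu (mu w1 w2) w3)
      (fun w1 w2 w3 => secF A w1 = 11 - secF A w2 - secF A w3) (fun w1 w2 w3 => ?_)
      (fun w1 w2 w3 c1 c2 c3 => cl_trans hκ (cl_mu (cl_mu c1 c2) c3))
      (fun w1 a1 w2 a2 w3 a3 h => ?_) (fun w hw hr => (hmult A hA2 w hw hr).2)
    · simp only [Nm_mu]
    · refine (hland A hA1 K w1 a1 w2 a2 w3 a3).2 ?_
      rw [h]
      ring

end Pool.Agent.H62.RV
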