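import Pool.Agent.H62.RV.CombE
import Pool.Agent.H62.RV.AvgE
import Pool.Agent.H62.RV.OddTC
import Pool.Agent.H62.RV.AnnC
import Pool.Agent.H62.RV.H90
import Pool.Agent.H62.RV.FullB

/-!
# OddC: many almost prime vectors of the class `(1, 0)` in the cusp region with an odd number of prime factors

Proof. `K`, `c1` from `rf_low`; `C` from `oddTC K`; `c2` from `annC K`; `N = 6 (20 A + 1)`, `O = OO A K M`.
`κ` from `annC`; `h90` (`π = κ`) gives `η` with `Nm η` prime to `M` and `κ η = conj η mod M`; `cl_inv` for `conj η`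
(`Nm (cj η) = Nm η`) gives `μ` with `conj η · μ = (1, 0) mod M`.  So
`(1, 0) · conj (1, 0) · (1, 0)`, `(1, 0) (1, 0) (1, 0)`, `κ η μ` and `(1, 0) conj(η) μ` are `(1, 0)` modulo `M`
(`cl_mu`, `cl_trans`).  `Nm κ`, `Nm η`, `Nm μ`, `Nm (1, 0) = 1` are prime to `M`.
`f, f', p, q` = the averages `av (SF A K M κ') (secF A) (fun w => lam (Nm w))` for `κ' = (1, 0), κ, η, μ`.
`L = c1 A³/(log A)^4` (`rf_low`).  By `av_triple` with `φ y z = 12 + y - z` or `11 - y - z` and `oddTC`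
(`B = C O`) the four hypotheses of `combE` hold with `η' = 2 C O/(L³ N²)`.  So
`Σ_x (1 - f' x) ≤ 56 η' N = 112 C O/(L³ N)`.  By `av_low` with `U = 6 A³` (`rf_up`) and `annC` it is at least
`2 c2 A^4/((log A)^4 6 A³) = c2 A/(3 (log A)^4)`.  So
`O ≥ c2 A L³ N/(336 C (log A)^4) ≥ c A^11/(log A)^16` (`N ≥ 120 A`, `L³ = c1³ A^9/(log A)^12`; use `C + 1` in
place of `C`).
-/

set_option autoImplicit false

namespace Pool.Agent.H62.RV

open Finset Pool.Agent.H17.RP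

private theorem OddC_lam (w : ℤ × ℤ) : lam (Nm w) = 1 ∨ lam (Nm w) = -1 := by
  unfold lam
  exact neg_one_pow_eq_or ℤ _

private theorem OddC_coprime {M : ℕ} {x : ℤ} (h : (M : ℤ) ∣ x - 1) : IsCoprime x (M : ℤ) := by
  obtain ⟨k, hk⟩ := h
  exact ⟨1, -k, by linear_combination hk⟩

/-- the final computation -/
private theorem OddC_arith {a l n c1 c2 O X : ℝ} {C : ℕ} (ha : 0 < a) (hl : 0 < l)
    (hn : 120 * a ≤ n) (hc1 : 0 < c1) (hc2 : 0 < c2) (hO : 0 ≤ O)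
    (hX : c2 * a ^ 4 / l ^ 4 ≤ X)
    (h : 2 * X / (6 * a ^ 3) ≤
      56 * (2 * (C * O) / (c1 * a ^ 3 / l ^ 4) ^ 3 / n ^ 2) * n) :
    c2 * c1 ^ 3 * 120 / (336 * (C + 1)) * a ^ 11 / l ^ 16 ≤ O := by
  have hn0 : 0 < n := by nlinarith
  have hC : (0 : ℝ) ≤ C := Nat.cast_nonneg C
  have h1 : 2 * (c2 * a ^ 4 / l ^ 4) / (6 * a ^ 3) ≤ 2 * X / (6 * a ^ 3) := by
    gcongr
  have e1 : 2 * (c2 * a ^ 4 / l ^ 4) / (6 * a ^ 3) = c2 * a / (3 * l ^ 4) := by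
    field_simp
    ring
  have e2 : 56 * (2 * (C * O) / (c1 * a ^ 3 / l ^ 4) ^ 3 / n ^ 2) * n =
      112 * C * O * l ^ 12 / (c1 ^ 3 * a ^ 9 * n) := by
    field_simp
    ring
  rw [e1] at h1
  rw [e2] at h
  have h2 : c2 * a / (3 * l ^ 4) ≤ 112 * C * O * l ^ 12 / (c1 ^ 3 * a ^ 9 * n) := le_trans h1 h
  rw [div_le_div_iff₀ (by positivity) (by positivity)] at h2
  have h3 : c2 * a * (c1 ^ 3 * a ^ 9 * (120 * a)) ≤ c2 * a * (c1 ^ 3 * a ^ 9 * n) := by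
    gcongr
  have h4 : 112 * C * O * l ^ 12 * (3 * l ^ 4) ≤ O * (336 * (C + 1)) * l ^ 16 := by
    have : 112 * C * O * l ^ 12 * (3 * l ^ 4) = (O * (336 * C)) * l ^ 16 := by ring
    rw [this]
    apply mul_le_mul_of_nonneg_right _ (by positivity)
    nlinarith
  have h5 : c2 * a * (c1 ^ 3 * a ^ 9 * (120 * a)) = c2 * c1 ^ 3 * 120 * a ^ 11 := by ring
  have h6 : c2 * c1 ^ 3 * 120 * a ^ 11 ≤ O * (336 * (C + 1)) * l ^ 16 := by linarith
  have e3 : c2 * c1 ^ 3 * 120 / (336 * (C + 1)) * a ^ 11 / l ^ 16 =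
      (c2 * c1 ^ 3 * 120 * a ^ 11) / ((336 * (C + 1)) * l ^ 16) := by
    field_simp
  rw [e3, div_le_iff₀ (by positivity)]
  linarith

theorem odd_manyC : ∃ K : ℕ, 1 ≤ K ∧ ∃ c : ℝ, 0 < c ∧ ∃ A0 : ℕ, ∀ A ≥ A0,
    ∀ M : ℕ, 0 < M → 3 ∣ M → (M : ℝ) ^ 2 ≤ Real.log A →
    c * (A : ℝ) ^ 11 / Real.log A ^ 16 ≤ (OO A K M : ℝ) := by
  obtain ⟨K, hK, c1, hc1, A1, h1⟩ := rf_low
  obtain ⟨A2, h2⟩ := rf_up K
  obtain ⟨C, A3, h3⟩ := oddTC K hK
  obtain ⟨c2, hc2, A4, h4⟩ := annC K hK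
  refine ⟨K, hK, c2 * c1 ^ 3 * 120 / (336 * (C + 1)), by positivity,
    max (max A1 A2) (max (max A3 A4) 3), fun A hA M hM h3M hMl => ?_⟩
  have hA1 : A1 ≤ A := le_trans (le_trans (le_max_left _ _) (le_max_left _ _)) hA
  have hA2 : A2 ≤ A := le_trans (le_trans (le_max_right _ _) (le_max_left _ _)) hA
  have hA3 : A3 ≤ A :=
    le_trans (le_trans (le_trans (le_max_left _ _) (le_max_left _ _)) (le_max_right _ _)) hA
  have hA4 : A4 ≤ A :=
    le_trans (le_trans (le_trans (le_max_right _ _) (le_max_left _ _)) (le_max_right _ _)) hA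
  have hA5 : 3 ≤ A := le_trans (le_trans (le_max_right _ _) (le_max_right _ _)) hA
  have : NeZero (6 * (20 * A + 1)) := ⟨by positivity⟩
  obtain ⟨κ, hκN, hκ1, hκc⟩ := h4 A hA4 M hM h3M hMl
  obtain ⟨η, hηc, hηm⟩ := h90 hM h3M hκN hκ1
  have hηj : IsCoprime (Nm (cj η)) (M : ℤ) := by rw [Nm_cj]; exact hηc
  obtain ⟨μ, hμc, hμm⟩ := cl_inv hηj
  have hκc' : IsCoprime (Nm κ) (M : ℤ) := OddC_coprime hκN
  have h1c : IsCoprime (Nm ((1 : ℤ), (0 : ℤ))) (M : ℤ) := by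
    have : Nm ((1 : ℤ), (0 : ℤ)) = 1 := by unfold Nm F; norm_num
    rw [this]
    exact isCoprime_one_left
  have q1 : Cl M (1, 0) (mu (mu (1, 0) (cj (1, 0))) (1, 0)) := by
    have : mu (mu (1, 0) (cj (1, 0))) (1, 0) = ((1 : ℤ), (0 : ℤ)) := by
      unfold mu cj
      norm_num
    rw [this]
    exact cl_refl M _
  have q2 : Cl M (1, 0) (mu (mu (1, 0) (1, 0)) (1, 0)) := by
    have : mu (mu (1, 0) (1, 0)) (1, 0) = ((1 : ℤ), (0 : ℤ)) := by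
      unfold mu
      norm_num
    rw [this]
    exact cl_refl M _
  have q3 : Cl M (1, 0) (mu (mu κ η) μ) := cl_trans hμm (cl_mu hηm (cl_refl M μ))
  have q4 : Cl M (1, 0) (mu (mu (1, 0) (cj η)) μ) := by
    have : mu (1, 0) (cj η) = cj η := by
      unfold mu cj
      simp
    rw [this]
    exact hμm
  -- sizes
  have ha : (0 : ℝ) < A := by
    have : (0 : ℕ) < A := by omega
    exact_mod_cast this
  have hl : 0 < Real.log A := by
    apply Real.log_pos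
    have : (1 : ℕ) < A := by omega
    exact_mod_cast this
  have hL : 0 < c1 * (A : ℝ) ^ 3 / Real.log A ^ 4 := by positivity
  have hn : 120 * (A : ℝ) ≤ ((6 * (20 * A + 1) : ℕ) : ℝ) := by push_cast; linarith
  have hn0 : (0 : ℝ) < ((6 * (20 * A + 1) : ℕ) : ℝ) := by linarith
  have hU : (0 : ℝ) < 6 * (A : ℝ) ^ 3 := by positivity
  have hO : (0 : ℝ) ≤ (OO A K M : ℝ) := Nat.cast_nonneg _
  -- triples
  have E1 := av_triple (SF A K M (1, 0)) (SF A K M (1, 0)) (SF A K M (1, 0)) (secF A)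
    (fun w => lam (Nm w)) OddC_lam hL (h1 A hA1 M hM hMl (1, 0) h1c) (h1 A hA1 M hM hMl (1, 0) h1c)
    (h1 A hA1 M hM hMl (1, 0) h1c) (fun y z => 12 + y - z) (B := C * (OO A K M : ℝ))
    (by exact_mod_cast (h3 A hA3 M (1, 0) (1, 0) (1, 0)).1 q1)
  have E2 := av_triple (SF A K M (1, 0)) (SF A K M (1, 0)) (SF A K M (1, 0)) (secF A)
    (fun w => lam (Nm w)) OddC_lam hL (h1 A hA1 M hM hMl (1, 0) h1c) (h1 A hA1 M hM hMl (1, 0) h1c)
    (h1 A hA1 M hM hMl (1, 0) h1c) (fun y z => 11 - y - z) (B := C * (OO A K M : ℝ))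
    (by exact_mod_cast (h3 A hA3 M (1, 0) (1, 0) (1, 0)).2 q2)
  have E3 := av_triple (SF A K M κ) (SF A K M η) (SF A K M μ) (secF A)
    (fun w => lam (Nm w)) OddC_lam hL (h1 A hA1 M hM hMl κ hκc') (h1 A hA1 M hM hMl η hηc)
    (h1 A hA1 M hM hMl μ hμc) (fun y z => 11 - y - z) (B := C * (OO A K M : ℝ))
    (by exact_mod_cast (h3 A hA3 M κ η μ).2 q3)
  have E4 := av_triple (SF A K M (1, 0)) (SF A K M η) (SF A K M μ) (secF A)
    (fun w => lam (Nm w)) OddC_lam hL (h1 A hA1 M hM hMl (1, 0) h1c) (h1 A hA1 M hM hMl η hηc)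
    (h1 A hA1 M hM hMl μ hμc) (fun y z => 12 + y - z) (B := C * (OO A K M : ℝ))
    (by exact_mod_cast (h3 A hA3 M (1, 0) η μ).1 q4)
  have heta : 2 * (C * (OO A K M : ℝ)) / (c1 * (A : ℝ) ^ 3 / Real.log A ^ 4) ^ 3 =
      2 * (C * (OO A K M : ℝ)) / (c1 * (A : ℝ) ^ 3 / Real.log A ^ 4) ^ 3 /
        ((6 * (20 * A + 1) : ℕ) : ℝ) ^ 2 * ((6 * (20 * A + 1) : ℕ) : ℝ) ^ 2 := by
    rw [div_mul_cancel₀ _ (by positivity)]
  have hab : ∀ (κ' : ℤ × ℤ) (x : ZMod (6 * (20 * A + 1))),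
      |av (SF A K M κ') (secF A) (fun w => lam (Nm w)) x| ≤ 1 := fun κ' x =>
    av_abs _ _ _ OddC_lam x
  have hcomb := combE (av (SF A K M (1, 0)) (secF A) (fun w => lam (Nm w)))
    (av (SF A K M κ) (secF A) (fun w => lam (Nm w)))
    (av (SF A K M η) (secF A) (fun w => lam (Nm w)))
    (av (SF A K M μ) (secF A) (fun w => lam (Nm w)))
    (hab _) (hab _) (hab _) (hab _) (le_trans E1 heta.le) (le_trans E2 heta.le)
    (le_trans E3 heta.le) (le_trans E4 heta.le)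
  have hlow := av_low (SF A K M κ) (secF A) (fun w => lam (Nm w)) OddC_lam hU
    (fun j => by exact_mod_cast h2 A hA2 M κ j)
  exact OddC_arith ha hl hn hc1 hc2 hO hκc (le_trans hlow hcomb)

end Pool.Agent.H62.RV
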