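import Pool.Agent.H62.RV.StarC
import Pool.Agent.H62.RV.OddC

/-!
# Main3: the hypothesis `HypC` is false for all large `t`, all `m ≤ t` and all classes

Variant of `H17/RP/Main.lean` (`not_hyp`; copy the private `rk_rough`).

Proof. `g`, `t0` from `starC`, `K`, `c`, `A0` from `odd_manyC`.  Let `t ≥ t1` and `HypC g t m r ε`, `A = AA g t`,
`M = 3m ≤ 3t`: `M² ≤ 9 t² ≤ log A = t^(4g) log 2` for large `t`.  `RK A K m' → Rough (2^t) m'` for `K ≤ t`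
(`rk_rough`), so `OO A K M ≤` the count of `starC`, and
`c A^11/(log A)^16 ≤ OO ≤ 64 A^11/t^(72g)`, `log A ≤ t^(4g)`: `c ≤ 64 t^(64g - 72g)`, false for large `t`.
-/

set_option autoImplicit false

namespace Pool.Agent.H62.RV

open Finset Pool.Agent.H17.RP

/-- If no prime `p` with `p^K ≤ A` divides `m`, then `m` has no prime factor `≤ 2^t`. -/
private theorem Main3_rk_rough {g t K : ℕ} (hg : 1 ≤ g) (ht : 1 ≤ t) (hK : K ≤ t) {m : ℤ}
    (h : RK (AA g t) K m) : Rough (2 ^ t) m := by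
  intro p hp hd
  by_contra hc
  rw [not_lt] at hc
  have h1 := h p hp hd
  have h2 : p ^ K ≤ AA g t := by
    calc p ^ K ≤ (2 ^ t) ^ K := Nat.pow_le_pow_left hc K
      _ = 2 ^ (t * K) := by rw [pow_mul]
      _ ≤ 2 ^ (t ^ (4 * g)) := by
        refine Nat.pow_le_pow_right (by norm_num) ?_
        calc t * K ≤ t * t := Nat.mul_le_mul_left _ hK
          _ = t ^ 2 := by ring
          _ ≤ t ^ (4 * g) := Nat.pow_le_pow_right ht (by omega)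
      _ = AA g t := rfl
  omega

/-- `(3m)² ≤ t^(4g) log 2` for `m ≤ t`, `t ≥ 4`. -/
private theorem Main3_sq {g t m : ℕ} (hg : 1 ≤ g) (ht : 4 ≤ t) (hm : m ≤ t) :
    ((3 * m : ℕ) : ℝ) ^ 2 ≤ (t : ℝ) ^ (4 * g) * Real.log 2 := by
  have htR : (4 : ℝ) ≤ (t : ℝ) := by exact_mod_cast ht
  have hmR : (m : ℝ) ≤ (t : ℝ) := by exact_mod_cast hm
  have hm0 : (0 : ℝ) ≤ (m : ℝ) := Nat.cast_nonneg m
  have hl : (0.6931471803 : ℝ) < Real.log 2 := Real.log_two_gt_d9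
  have h1 : (t : ℝ) ^ 4 ≤ (t : ℝ) ^ (4 * g) :=
    pow_le_pow_right₀ (by linarith) (by omega)
  have h2 : (16 : ℝ) * (t : ℝ) ^ 2 ≤ (t : ℝ) ^ 4 := by
    have h3 : (16 : ℝ) ≤ (t : ℝ) ^ 2 := by nlinarith
    have h4 : (0 : ℝ) ≤ (t : ℝ) ^ 2 := by positivity
    calc (16 : ℝ) * (t : ℝ) ^ 2 ≤ (t : ℝ) ^ 2 * (t : ℝ) ^ 2 :=
          mul_le_mul_of_nonneg_right h3 h4
      _ = (t : ℝ) ^ 4 := by ring
  have h3 : ((3 * m : ℕ) : ℝ) ^ 2 ≤ 9 * (t : ℝ) ^ 2 := by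
    push_cast
    have := pow_le_pow_left₀ hm0 hmR 2
    nlinarith
  have h4 : (0 : ℝ) ≤ (t : ℝ) ^ 2 := by positivity
  calc ((3 * m : ℕ) : ℝ) ^ 2 ≤ 9 * (t : ℝ) ^ 2 := h3
    _ ≤ (16 * (t : ℝ) ^ 2) * Real.log 2 := by nlinarith
    _ ≤ (t : ℝ) ^ (4 * g) * Real.log 2 :=
      mul_le_mul_of_nonneg_right (h2.trans h1) (by linarith)

theorem not_hypC : ∃ g : ℕ, 1 ≤ g ∧ ∃ t1 : ℕ, ∀ t ≥ t1, ∀ (m : ℕ) (r ε : ℤ), 0 < m → m ≤ t →
    IsCoprime (fk r) (m : ℤ) → ¬ HypC g t m r ε := by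
  obtain ⟨g, hg, t0, hstar⟩ := starC
  obtain ⟨K, hK, c, hc, A0, hodd⟩ := odd_manyC
  obtain ⟨B, hB⟩ := exists_nat_gt (64 / c)
  refine ⟨g, hg, max (max t0 K) (max (max A0 B) 4), fun t ht m r ε hm hmt hr hyp => ?_⟩
  have ht0 : t0 ≤ t := ((le_max_left _ _).trans (le_max_left _ _)).trans ht
  have htK : K ≤ t := ((le_max_right _ _).trans (le_max_left _ _)).trans ht
  have htA : A0 ≤ t := (((le_max_left _ _).trans (le_max_left _ _)).trans (le_max_right _ _)).trans ht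
  have htB : B ≤ t := (((le_max_right _ _).trans (le_max_left _ _)).trans (le_max_right _ _)).trans ht
  have ht4 : 4 ≤ t := ((le_max_right _ _).trans (le_max_right _ _)).trans ht
  have ht1 : 1 ≤ t := by omega
  have hpow : t ≤ t ^ (4 * g) := by
    calc t = t ^ 1 := (pow_one t).symm
      _ ≤ t ^ (4 * g) := Nat.pow_le_pow_right ht1 (by omega)
  have hAt : t ≤ AA g t := by
    calc t ≤ t ^ (4 * g) := hpow
      _ ≤ 2 ^ (t ^ (4 * g)) := Nat.lt_two_pow_self.le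
      _ = AA g t := rfl
  have hlog : Real.log (AA g t : ℝ) = (t : ℝ) ^ (4 * g) * Real.log 2 := by
    unfold AA
    push_cast
    rw [Real.log_pow]
    push_cast
    ring
  have hstar' := hstar t ht0 m r ε hm hmt hr hyp
  have hM2 : ((3 * m : ℕ) : ℝ) ^ 2 ≤ Real.log (AA g t : ℝ) := by
    rw [hlog]
    exact Main3_sq hg ht4 hmt
  have hodd' := hodd (AA g t) (htA.trans hAt) (3 * m) (by omega) (Dvd.intro m rfl) hM2
  set A := AA g t with hA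
  set N1 := cs (cusp A (8 * A ^ 5))
    (fun w => Cl (3 * m) (1, 0) w ∧ Rough (2 ^ t) (Nm w) ∧ lam (Nm w) = -1) with hN1
  set N2 := OO A K (3 * m) with hN2
  have hN : N2 ≤ N1 :=
    cs_mono fun w _ hw => ⟨hw.1, Main3_rk_rough hg ht1 htK hw.2.1, hw.2.2⟩
  have hApos : (0 : ℝ) < (A : ℝ) := by
    have : 0 < A := by omega
    exact_mod_cast this
  have htR : (1 : ℝ) ≤ (t : ℝ) := by exact_mod_cast ht1
  have htR0 : (0 : ℝ) < (t : ℝ) := by linarith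
  have hlogpos : 0 < Real.log (A : ℝ) := by
    rw [hlog]
    exact mul_pos (by positivity) (Real.log_pos (by norm_num))
  have hlogle : Real.log (A : ℝ) ≤ (t : ℝ) ^ (4 * g) := by
    rw [hlog]
    have h1 : Real.log 2 ≤ 1 := by
      have := Real.log_le_sub_one_of_pos (show (0 : ℝ) < 2 by norm_num)
      linarith
    have h2 : (0 : ℝ) ≤ (t : ℝ) ^ (4 * g) := by positivity
    nlinarith
  -- the two bounds
  have h1 : c * (A : ℝ) ^ 11 ≤ (N2 : ℝ) * Real.log A ^ 16 := by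
    rwa [div_le_iff₀ (pow_pos hlogpos 16)] at hodd'
  have h2 : (N2 : ℝ) * Real.log A ^ 16 ≤ (N1 : ℝ) * ((t : ℝ) ^ (4 * g)) ^ 16 := by
    refine mul_le_mul (by exact_mod_cast hN) (pow_le_pow_left₀ hlogpos.le hlogle 16)
      (pow_nonneg hlogpos.le 16) (Nat.cast_nonneg _)
  have h3 : (N1 : ℝ) * (t : ℝ) ^ (72 * g) ≤ 64 * (A : ℝ) ^ 11 := by exact_mod_cast hstar'
  have h4 : c * (A : ℝ) ^ 11 * (t : ℝ) ^ (8 * g) ≤ 64 * (A : ℝ) ^ 11 := by
    calc c * (A : ℝ) ^ 11 * (t : ℝ) ^ (8 * g)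
        ≤ (N1 : ℝ) * ((t : ℝ) ^ (4 * g)) ^ 16 * (t : ℝ) ^ (8 * g) :=
          mul_le_mul_of_nonneg_right (h1.trans h2) (by positivity)
      _ = (N1 : ℝ) * (t : ℝ) ^ (72 * g) := by
          rw [mul_assoc, ← pow_mul, ← pow_add]
          congr 2
          ring
      _ ≤ 64 * (A : ℝ) ^ 11 := h3
  have h5 : c * (t : ℝ) ^ (8 * g) ≤ 64 := by
    have h6 : c * (t : ℝ) ^ (8 * g) * (A : ℝ) ^ 11 ≤ 64 * (A : ℝ) ^ 11 := by
      calc _ = c * (A : ℝ) ^ 11 * (t : ℝ) ^ (8 * g) := by ring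
        _ ≤ _ := h4
    exact le_of_mul_le_mul_right h6 (by positivity)
  have h6 : (t : ℝ) ≤ (t : ℝ) ^ (8 * g) := by
    calc (t : ℝ) = (t : ℝ) ^ 1 := (pow_one _).symm
      _ ≤ (t : ℝ) ^ (8 * g) := pow_le_pow_right₀ htR (by omega)
  have h7 : 64 / c < (t : ℝ) := lt_of_lt_of_le hB (by exact_mod_cast htB)
  rw [div_lt_iff₀ hc] at h7
  nlinarith

end Pool.Agent.H62.RV
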