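import Pool.Agent.H62.RV.Cert3
import Pool.Agent.H62.RV.LemG
import Pool.Agent.H17.RP.Pair

/-!
# PairC: one pair of vectors of the class `(1, 0)` modulo `3m` in a residue class of `n`

Variant of `H17/RP/Pair.lean` (`pairClass`; copy it, the auxiliary lemmas `pr_...` are private) with `σ = 1`,
`HypC`, `SdC`, `GoodC`, `lemG`, `cert3`.

`n = n0 + W' k`, `3m b W ∣ W'`, `b = dt w w'`, `a(n) = cc (sh n w) (sh n w')`.
`ρ = if 0 < b then r else -1 - r`; `fk ρ = fk r` (`fk_neg`), so `IsCoprime (fk ρ) m`.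
If no `k < N` has both `sh n w` and `sh n w'` rough and in the class `(1, 0)` modulo `3m` we are done.
Otherwise let `n1` be one such `n`.  By `cl_sh` (`3m ∣ W'`) the class condition holds for all `n` of the
progression, so for all of them `3m ∣ b` (`cl_dt`, `dt_sh`) and `3m ∣ a(n) - 1` (`cl_cc`), in particular
`a(n) % 3 = 1`, `m ∣ b`; `Nm (sh n w') = 1 mod 3m` (`cl_Nm`, `Nm (1, 0) = 1`) so it is prime to `m`.
`SdC D (a n) b ρ m W` is the same for all `n` of the progression: `a(n) - a(n')` is divisible by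
`3bmW` (`kill_mod`; `3bmW ∣ W'`), so `3bm ∣ a - 3bρ - d` does not change, and `(a - d)/(3b)` changes by a
multiple of `mW`, `fk_shift` (the proof of `Sd_congr`; here `a - d` need not be divisible by `3b`, but
`(x + 3b W m k)/(3b) = x/(3b) + W m k` always: `Int.add_mul_ediv_left`).
`GoodC t (a n1) b ρ m W D` for all `D ⊆ P` with `Unif`, `Anti` by `lemG 24 (2 c2 + 2) e` (`ab_coprime`,
`F_cc_dt`, as in `pairClass`).
`typeS`, `kill_per`, `kill_two`, `kill_four` as in `pairClass` with `σ = 1` (`one_mul`): they only need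
`3b ∣ a(n) - d`, which follows from `3bm ∣ a(n) - 3bρ - d`.
An `m` (here `k`) with the event and an unkilled `T ∈ SdC (D(k))`: `cert3` with `K1 = 2^t`, `K2 = A^100`, `Y = 2^t`,
unless the certificate is exceptional (`exc_count` with `σ = 1`, as `pr_exc`).
-/

set_option autoImplicit false

namespace Pool.Agent.H62.RV

open Finset Pool.Agent.H17.RP

private theorem pairC_congr {D : Finset ℕ} {a a' b ρ : ℤ} {m W : ℕ} (hb : b ≠ 0)
    (h : 3 * b * (m * W) ∣ a - a') : SdC D a b ρ m W = SdC D a' b ρ m W := by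
  obtain ⟨k, hk⟩ := h
  have hB : 3 * b ≠ 0 := mul_ne_zero (by norm_num) hb
  ext T
  unfold SdC
  rw [mem_sel, mem_sel]
  have e : a - (prd T : ℤ) = (a' - (prd T : ℤ)) + 3 * b * (m * W * k) := by linear_combination hk
  have e0 : a - 3 * b * ρ - (prd T : ℤ) = (a' - 3 * b * ρ - (prd T : ℤ)) + 3 * b * m * (W * k) := by
    linear_combination hk
  have h1 : 3 * b * m ∣ a - 3 * b * ρ - (prd T : ℤ) ↔ 3 * b * m ∣ a' - 3 * b * ρ - (prd T : ℤ) := by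
    rw [e0]
    exact dvd_add_left (Dvd.intro _ rfl)
  have h2 : (a - (prd T : ℤ)) / (3 * b) = (a' - (prd T : ℤ)) / (3 * b) + m * W * k := by
    rw [e, Int.add_mul_ediv_left _ _ hB]
  have h3 : ∀ q : ℕ, q ∣ W → ((q : ℤ) ∣ fk ((a - (prd T : ℤ)) / (3 * b)) ↔
      (q : ℤ) ∣ fk ((a' - (prd T : ℤ)) / (3 * b))) := by
    intro q hq
    obtain ⟨j, hj⟩ := hq
    rw [h2, hj]
    have e2 : (m : ℤ) * ((q * j : ℕ) : ℤ) * k = (q : ℤ) * (m * j * k) := by push_cast; ring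
    rw [e2]
    exact fk_shift _ _ _
  constructor
  · rintro ⟨hT, hd, hq⟩
    exact ⟨hT, h1.1 hd, fun q hqp hqW hc => hq q hqp hqW ((h3 q hqW).2 hc)⟩
  · rintro ⟨hT, hd, hq⟩
    exact ⟨hT, h1.2 hd, fun q hqp hqW hc => hq q hqp hqW ((h3 q hqW).1 hc)⟩

/-- the divisibility by `3b` -/
private theorem pairC_dvd {a b ρ d : ℤ} {m : ℕ} (h : 3 * b * m ∣ a - 3 * b * ρ - d) :
    3 * b ∣ a - d := by
  obtain ⟨k, hk⟩ := h
  exact ⟨ρ + m * k, by linear_combination hk⟩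

private theorem pairC_ev (c k : ℕ) : ∃ t0 : ℕ, ∀ t ≥ t0, c * t ^ k ≤ 2 ^ t := by
  have h := tendsto_pow_const_div_const_pow_of_one_lt k (r := (2 : ℝ)) (by norm_num)
  have hpos : (0 : ℝ) < 1 / ((c : ℝ) + 1) := by positivity
  have h2 : ∀ᶠ n : ℕ in Filter.atTop, (n : ℝ) ^ k / 2 ^ n < 1 / ((c : ℝ) + 1) :=
    h.eventually_lt_const hpos
  obtain ⟨t0, ht0⟩ := Filter.eventually_atTop.1 h2
  refine ⟨t0, fun t ht => ?_⟩
  have h3 := ht0 t ht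
  rw [div_lt_div_iff₀ (by positivity) (by positivity)] at h3
  have h4 : ((c * t ^ k : ℕ) : ℝ) ≤ ((2 ^ t : ℕ) : ℝ) := by
    push_cast
    have h5 : (0 : ℝ) ≤ (t : ℝ) ^ k := by positivity
    nlinarith
  exact_mod_cast h4

/-- sizes of the parameters -/
private theorem pairC_size {g t : ℕ} (hg : 1 ≤ g) (ht : 100 ≤ t) :
    3 * 2 ^ t * (2 ^ t + 1) + 2 * 2 ^ (t ^ (4 * g) / 8) ≤ AA g t := by
  have h1 : t ^ 2 ≤ t ^ (4 * g) := Nat.pow_le_pow_right (by omega) (by omega)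
  have h2 : 100 * t ≤ t ^ 2 := by nlinarith
  unfold AA
  generalize t ^ (4 * g) = M at h1 ⊢
  have h3 : 2 * t + 3 ≤ M - 1 := by omega
  have h4 : M / 8 + 1 ≤ M - 1 := by omega
  have h5 : 3 * 2 ^ t * (2 ^ t + 1) ≤ 2 ^ (2 * t + 3) := by
    have h6 : 1 ≤ 2 ^ t := Nat.one_le_two_pow
    have h7 : 2 ^ (2 * t + 3) = 8 * (2 ^ t * 2 ^ t) := by
      rw [pow_add, two_mul, pow_add]; ring
    rw [h7]
    nlinarith
  have h8 : 2 ^ (2 * t + 3) ≤ 2 ^ (M - 1) := Nat.pow_le_pow_right (by norm_num) h3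
  have h9 : 2 * 2 ^ (M / 8) ≤ 2 ^ (M - 1) := by
    calc 2 * 2 ^ (M / 8) = 2 ^ (M / 8 + 1) := by rw [pow_succ]; ring
      _ ≤ 2 ^ (M - 1) := Nat.pow_le_pow_right (by norm_num) h4
  have h10 : 2 ^ M = 2 ^ (M - 1) + 2 ^ (M - 1) := by
    have : M = (M - 1) + 1 := by omega
    conv_lhs => rw [this, pow_succ]
    ring
  omega

/-- bounds for `cc` -/
private theorem pairC_cc {A : ℤ} (hA : 21 ≤ A) {w w' : ℤ × ℤ} {n : ℤ}
    (hw : 0 ≤ w.1 ∧ 0 ≤ w.2 ∧ 1 ≤ w.1 + w.2 ∧ w.1 ≤ A ^ 7 ∧ w.2 ≤ A ^ 7)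
    (hw' : 0 ≤ w'.1 ∧ 1 ≤ w'.2 ∧ w'.1 ≤ A ^ 7 ∧ w'.2 ≤ A ^ 7) (h1 : A ≤ n) (h2 : n < 2 * A) :
    A ≤ cc (sh n w) (sh n w') ∧ cc (sh n w) (sh n w') ≤ A ^ 17 := by
  obtain ⟨a1, a2, a3, a4, a5⟩ := hw
  obtain ⟨b1, b2, b3, b4⟩ := hw'
  have e : cc (sh n w) (sh n w') = (w.1 + n * w.2) * (w'.1 + n * w'.2) +
      3 * (w.1 + n * w.2) * w'.2 + 3 * w.2 * w'.2 := by
    unfold cc sh; ring
  rw [e]
  generalize w.1 = u at *
  generalize w.2 = v at *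
  generalize w'.1 = u' at *
  generalize w'.2 = v' at *
  have hX1 : 1 ≤ u + n * v := by nlinarith
  have hY1 : A ≤ u' + n * v' := by nlinarith
  have hA7 : 0 ≤ A ^ 7 := by positivity
  have hX2 : u + n * v ≤ 3 * A ^ 8 := by
    have h3 : n * v ≤ 2 * A * A ^ 7 := mul_le_mul h2.le a5 a2 (by omega)
    have h4 : A ^ 7 ≤ A * A ^ 7 := by nlinarith
    have h5 : A ^ 8 = A * A ^ 7 := by ring
    rw [h5]; nlinarith
  have hY2 : u' + n * v' ≤ 3 * A ^ 8 := by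
    have h3 : n * v' ≤ 2 * A * A ^ 7 := mul_le_mul h2.le b4 (by omega) (by omega)
    have h4 : A ^ 7 ≤ A * A ^ 7 := by nlinarith
    have h5 : A ^ 8 = A * A ^ 7 := by ring
    rw [h5]; nlinarith
  generalize u + n * v = X at *
  generalize u' + n * v' = Y at *
  constructor
  · have h3 : A ≤ X * Y := by nlinarith
    have h4 : 0 ≤ 3 * X * v' := by positivity
    have h5 : 0 ≤ 3 * v * v' := by positivity
    omega
  · have hA8 : 0 ≤ A ^ 8 := by positivity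
    have h3 : X * Y ≤ (3 * A ^ 8) * (3 * A ^ 8) := mul_le_mul hX2 hY2 (by omega) (by positivity)
    have h4 : X * v' ≤ (3 * A ^ 8) * A ^ 7 := mul_le_mul hX2 b4 (by omega) (by positivity)
    have h5 : v * v' ≤ A ^ 7 * A ^ 7 := mul_le_mul a5 b4 (by omega) (by positivity)
    have h6 : A ^ 7 * A ^ 7 ≤ A ^ 16 := by
      calc A ^ 7 * A ^ 7 = A ^ 14 := by ring
        _ ≤ A ^ 16 := pow_le_pow_right₀ (by omega) (by norm_num)
    have h7 : A ^ 8 * A ^ 7 ≤ A ^ 16 := by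
      calc A ^ 8 * A ^ 7 = A ^ 15 := by ring
        _ ≤ A ^ 16 := pow_le_pow_right₀ (by omega) (by norm_num)
    have h8 : A ^ 8 * A ^ 8 = A ^ 16 := by ring
    have h9 : 21 * A ^ 16 ≤ A ^ 17 := by
      have h10 : A ^ 17 = A * A ^ 16 := by ring
      rw [h10]
      exact mul_le_mul_of_nonneg_right hA (by positivity)
    nlinarith

/-- the number of exceptional `k` -/
private theorem pairC_exc {g t : ℕ} (C : ℕ) {E : Finset ℤ} (hE : E.card ^ 2 ≤ AA g t)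
    (hg : 1 ≤ g) (ht1 : 1 ≤ t) (ht : 12 ^ 8 * t ^ (8 * (C + 1)) ≤ 2 ^ t)
    {w w' : ℤ × ℤ} (hb : dt w w' ≠ 0) {W : ℕ} (hW : 0 < W) (n0 : ℤ) (N : ℕ)
    (hN : AA g t ^ 3 ≤ N ^ 4) :
    cs (range N) (fun k => ∃ y ∈ (Icc 1 (2 ^ (t ^ (4 * g) / 8)) : Finset ℕ) ×ˢ E, ∃ R R2 : ℤ,
      3 * dt w w' * R =
        cc (sh (n0 + W * (k : ℤ)) w) (sh (n0 + W * (k : ℤ)) w') - (y.1 : ℤ) ∧
      cc (sh (n0 + W * (k : ℤ)) w) (sh (n0 + W * (k : ℤ)) w') * R + dt w w' +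
        3 * dt w w' * R = (y.1 : ℤ) * R2 ∧
      (R = y.2 ∨ -1 - R = y.2 ∨ R2 = y.2 ∨ -1 - R2 = y.2)) * t ^ (C + 1) ≤ N := by
  have h1 := cs_exists (range N) ((Icc 1 (2 ^ (t ^ (4 * g) / 8)) : Finset ℕ) ×ˢ E)
    (fun (y : ℕ × ℤ) (k : ℕ) => ∃ R R2 : ℤ,
      3 * dt w w' * R =
        cc (sh (n0 + W * (k : ℤ)) w) (sh (n0 + W * (k : ℤ)) w') - (y.1 : ℤ) ∧
      cc (sh (n0 + W * (k : ℤ)) w) (sh (n0 + W * (k : ℤ)) w') * R + dt w w' +
        3 * dt w w' * R = (y.1 : ℤ) * R2 ∧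
      (R = y.2 ∨ -1 - R = y.2 ∨ R2 = y.2 ∨ -1 - R2 = y.2))
  have h2 := sum_le_card_nsmul ((Icc 1 (2 ^ (t ^ (4 * g) / 8)) : Finset ℕ) ×ˢ E)
    (fun y : ℕ × ℤ => cs (range N) (fun k => ∃ R R2 : ℤ,
      3 * dt w w' * R =
        cc (sh (n0 + W * (k : ℤ)) w) (sh (n0 + W * (k : ℤ)) w') - (y.1 : ℤ) ∧
      cc (sh (n0 + W * (k : ℤ)) w) (sh (n0 + W * (k : ℤ)) w') * R + dt w w' +
        3 * dt w w' * R = (y.1 : ℤ) * R2 ∧
      (R = y.2 ∨ -1 - R = y.2 ∨ R2 = y.2 ∨ -1 - R2 = y.2))) 12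
    (fun y _ => by
      have h := exc_count hb hW n0 N (Or.inl rfl : (1 : ℤ) = 1 ∨ (1 : ℤ) = -1) (y.1 : ℤ) y.2
      simpa only [one_mul] using h)
  rw [card_product, Nat.card_Icc, Nat.add_sub_cancel, smul_eq_mul] at h2
  have h3 := h1.trans h2
  refine le_trans (Nat.mul_le_mul_right _ h3) ?_
  rw [← Nat.pow_le_pow_iff_left (n := 8) (by norm_num)]
  have hM : t ≤ t ^ (4 * g) := by
    calc t = t ^ 1 := (pow_one t).symm
      _ ≤ t ^ (4 * g) := Nat.pow_le_pow_right ht1 (by omega)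
  have hD : (2 ^ (t ^ (4 * g) / 8)) ^ 8 ≤ AA g t := by
    rw [← pow_mul]
    unfold AA
    exact Nat.pow_le_pow_right (by norm_num) (by omega)
  have hc : 12 ^ 8 * t ^ (8 * (C + 1)) ≤ AA g t := by
    refine ht.trans ?_
    unfold AA
    exact Nat.pow_le_pow_right (by norm_num) hM
  calc (2 ^ (t ^ (4 * g) / 8) * E.card * 12 * t ^ (C + 1)) ^ 8
      = (12 ^ 8 * t ^ (8 * (C + 1))) * (2 ^ (t ^ (4 * g) / 8)) ^ 8 * (E.card ^ 2) ^ 4 := by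
        ring
    _ ≤ AA g t * AA g t * (AA g t) ^ 4 :=
        Nat.mul_le_mul (Nat.mul_le_mul hc hD) (Nat.pow_le_pow_left hE 4)
    _ = (AA g t ^ 3) ^ 2 := by ring
    _ ≤ (N ^ 4) ^ 2 := Nat.pow_le_pow_left hN 2
    _ = N ^ 8 := by ring

/-- the product of the primes in `T` divides everything divisible by all of them -/
private theorem pairC_prd_dvd {T : Finset ℕ} (hT : ∀ p ∈ T, p.Prime) {x : ℤ}
    (h : ∀ p ∈ T, (p : ℤ) ∣ x) : (prd T : ℤ) ∣ x := by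
  rw [Int.natCast_dvd]
  unfold prd
  exact Finset.prod_primes_dvd _ (fun p hp => (hT p hp).prime)
    (fun p hp => Int.natCast_dvd.1 (h p hp))

/-- `prd T ≤ A^(1/8)` -/
private theorem pairC_prd_le {g t : ℕ} (hg : 1 ≤ g) {T : Finset ℕ}
    (hT : ∀ p ∈ T, p ≤ 2 ^ (t ^ (4 * g - 1))) (hc : 8 * T.card < t) :
    prd T ≤ 2 ^ (t ^ (4 * g) / 8) := by
  calc prd T ≤ (2 ^ (t ^ (4 * g - 1))) ^ T.card := prod_le_pow_card _ _ _ hT
    _ = 2 ^ (t ^ (4 * g - 1) * T.card) := by rw [← pow_mul]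
    _ ≤ 2 ^ (t ^ (4 * g) / 8) := by
      refine Nat.pow_le_pow_right (by norm_num) ?_
      rw [Nat.le_div_iff_mul_le (by norm_num)]
      have h1 : t ^ (4 * g) = t ^ (4 * g - 1) * t := by
        rw [← pow_succ]; congr 1; omega
      rw [h1, mul_assoc]
      exact Nat.mul_le_mul_left _ (by omega)

theorem pairC (c2 e : ℕ) (hc2 : 24 ≤ c2) : ∃ e1 e3 : ℕ, ∀ g ≥ 7, ∀ C : ℕ, ∃ t0 : ℕ,
    ∀ t ≥ t0, ∀ (m : ℕ) (r ε : ℤ), 0 < m → m ≤ t → IsCoprime (fk r) (m : ℤ) → HypC g t m r ε →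
    ∀ (w w' : ℤ × ℤ) (P : Finset ℕ) (W W' : ℕ) (n0 : ℤ) (N : ℕ),
    (0 ≤ w.1 ∧ 0 ≤ w.2 ∧ 1 ≤ w.1 + w.2 ∧ w.1 ≤ (AA g t : ℤ) ^ 7 ∧ w.2 ≤ (AA g t : ℤ) ^ 7) →
    (0 ≤ w'.1 ∧ 1 ≤ w'.2 ∧ w'.1 ≤ (AA g t : ℤ) ^ 7 ∧ w'.2 ≤ (AA g t : ℤ) ^ 7) →
    (dt w w' ≠ 0 ∧ |dt w w'| ≤ (t : ℤ) ^ (2 * c2 + 2)) →
    P ⊆ med g t → (∀ p ∈ P, ¬ (p : ℤ) ∣ w'.2) →
    W ≠ 0 → (∀ q : ℕ, q.Prime → q ≤ t ^ 24 → q ∣ W) →
    (∀ q : ℕ, q.Prime → (q : ℤ) ∣ dt w w' → q ∣ W) →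
    (∀ q : ℕ, q.Prime → q ∣ W → q ≤ t ^ (2 * c2 + 2)) →
    cs W.primeFactors (fun q => t ^ 24 < q) ≤ t →
    0 < W' → 3 * m * dt w w' * W ∣ (W' : ℤ) → (∀ q : ℕ, q.Prime → q ∣ W' → q ∣ W) →
    (AA g t : ℤ) ≤ n0 → (∀ k : ℕ, k < N → n0 + W' * k < 2 * (AA g t : ℤ)) →
    AA g t ^ 3 ≤ N ^ 4 →
    cs (range N) (fun k =>
      (Cl (3 * m) (1, 0) (sh (n0 + W' * k) w) ∧ Rough (2 ^ t) (Nm (sh (n0 + W' * k) w))) ∧
      (Cl (3 * m) (1, 0) (sh (n0 + W' * k) w') ∧ Rough (2 ^ t) (Nm (sh (n0 + W' * k) w'))) ∧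
      lam (Nm (sh (n0 + W' * k) w')) ≠ lam (Nm (sh (n0 + W' * k) w)) ∧
      8 * (sel P (fun p => (p : ℤ) ∣ Nm (sh (n0 + W' * k) w'))).card < t ∧
      Unif e1 e3 t (sel P (fun p => (p : ℤ) ∣ Nm (sh (n0 + W' * k) w'))) ∧
      Anti e (2 * c2 + 32) t (sel P (fun p => (p : ℤ) ∣ Nm (sh (n0 + W' * k) w')))) * t ^ C ≤ N := by
  obtain ⟨e1, e3, t1, hF⟩ := lemG 24 (2 * c2 + 2) e le_rfl (by omega)
  refine ⟨e1, e3, fun g hg C => ?_⟩
  obtain ⟨t2, hS⟩ := typeS g (C + 1) (by omega)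
  obtain ⟨t3, h3⟩ := pairC_ev 1 (2 * c2 + 2)
  obtain ⟨t4, h4⟩ := pairC_ev (12 ^ 8) (8 * (C + 1))
  refine ⟨t1 + t2 + t3 + t4 + 100, fun t ht m r ε hm0 hmt hrm hyp w w' P W W' n0 N hw hw' hb hP hPv
    hW hWs hWb hWB hWc hW'0 hW'd hW'W hn0 hnN hN => ?_⟩
  have hF := hF t (by omega)
  have hS := hS t (by omega) P hP
  have h3 := h3 t (by omega)
  have h4 := h4 t (by omega)
  rw [one_mul] at h3
  obtain ⟨E, hE, hyp⟩ := hyp
  obtain ⟨hb0, hbB⟩ := hb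
  -- basic facts
  have ht100 : 100 ≤ t := by omega
  have hsize := pairC_size (g := g) (t := t) (by omega) ht100
  have hY3 : 3 ≤ 2 ^ t := by
    calc 3 ≤ 2 ^ 2 := by norm_num
      _ ≤ 2 ^ t := Nat.pow_le_pow_right (by norm_num) (by omega)
  have hbY : |dt w w'| ≤ ((2 ^ t : ℕ) : ℤ) := hbB.trans (by exact_mod_cast h3)
  have hPp : ∀ p ∈ P, p.Prime ∧ p % 3 = 1 ∧ 2 ^ t < p ∧ p ≤ 2 ^ (t ^ (4 * g - 1)) := by
    intro p hp
    have h5 := hP hp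
    unfold med at h5
    rw [mem_sel, mem_Ioc] at h5
    refine ⟨h5.2.1, h5.2.2, lt_of_le_of_lt ?_ h5.1.1, h5.1.2⟩
    refine Nat.pow_le_pow_right (by norm_num) ?_
    calc t = t ^ 1 := (pow_one t).symm
      _ ≤ t ^ (2 * g) := Nat.pow_le_pow_right (by omega) (by omega)
  have hWY : ∀ q : ℕ, q.Prime → q ∣ W → q ≤ 2 ^ t := fun q hq hqW => (hWB q hq hqW).trans h3
  have hPW' : ∀ p ∈ P, ¬ p ∣ W' := by
    intro p hp hd
    have h5 := hWY p (hPp p hp).1 (hW'W p (hPp p hp).1 hd)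
    have h6 := (hPp p hp).2.2.1
    omega
  by_cases hex : ∃ k1 : ℕ, k1 < N ∧
      (Cl (3 * m) (1, 0) (sh (n0 + W' * (k1 : ℤ)) w) ∧
        Rough (2 ^ t) (Nm (sh (n0 + W' * (k1 : ℤ)) w))) ∧
      (Cl (3 * m) (1, 0) (sh (n0 + W' * (k1 : ℤ)) w') ∧
        Rough (2 ^ t) (Nm (sh (n0 + W' * (k1 : ℤ)) w')))
  swap
  · have h0 : cs (range N) (fun k =>
      (Cl (3 * m) (1, 0) (sh (n0 + W' * k) w) ∧ Rough (2 ^ t) (Nm (sh (n0 + W' * k) w))) ∧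
      (Cl (3 * m) (1, 0) (sh (n0 + W' * k) w') ∧ Rough (2 ^ t) (Nm (sh (n0 + W' * k) w'))) ∧
      lam (Nm (sh (n0 + W' * k) w')) ≠ lam (Nm (sh (n0 + W' * k) w)) ∧
      8 * (sel P (fun p => (p : ℤ) ∣ Nm (sh (n0 + W' * k) w'))).card < t ∧
      Unif e1 e3 t (sel P (fun p => (p : ℤ) ∣ Nm (sh (n0 + W' * k) w'))) ∧
      Anti e (2 * c2 + 32) t (sel P (fun p => (p : ℤ) ∣ Nm (sh (n0 + W' * k) w')))) = 0 := by
      unfold cs
      rw [card_eq_zero, eq_empty_iff_forall_notMem]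
      intro k hk
      rw [mem_sel, mem_range] at hk
      exact hex ⟨k, hk.1, hk.2.1, hk.2.2.1⟩
    rw [h0, zero_mul]
    exact Nat.zero_le _
  obtain ⟨k1, hk1, ⟨hC1, hR1⟩, hC1', hR1'⟩ := hex
  set n1 : ℤ := n0 + W' * (k1 : ℤ) with hn1
  set b : ℤ := dt w w' with hbd
  set a : ℤ → ℤ := fun n => cc (sh n w) (sh n w') with had
  -- the class does not depend on `k`
  have hMW' : ((3 * m : ℕ) : ℤ) ∣ (W' : ℤ) := by
    obtain ⟨c, hc⟩ := hW'd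
    exact ⟨b * W * c, by rw [hc]; push_cast; ring⟩
  have hCl : ∀ (k : ℕ) (x : ℤ × ℤ), Cl (3 * m) (1, 0) (sh n1 x) →
      Cl (3 * m) (1, 0) (sh (n0 + W' * (k : ℤ)) x) := by
    intro k x hx
    refine (cl_sh ?_ (1, 0) x).1 hx
    have h6 : n1 - (n0 + W' * (k : ℤ)) = W' * ((k1 : ℤ) - k) := by rw [hn1]; ring
    rw [h6]
    exact hMW'.mul_right _
  have hMb : ((3 * m : ℕ) : ℤ) ∣ b := by
    have h5 := cl_dt hC1 hC1'
    rw [dt_sh] at h5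
    exact h5
  have hmb : (m : ℤ) ∣ b := by
    refine Dvd.dvd.trans ?_ hMb
    exact ⟨3, by push_cast; ring⟩
  have hMa : ((3 * m : ℕ) : ℤ) ∣ a n1 - 1 := cl_cc hC1 hC1'
  have ha3 : a n1 % 3 = 1 := by
    obtain ⟨c, hc⟩ := hMa
    push_cast at hc
    have h5 : a n1 = 1 + 3 * (m * c) := by linarith
    omega
  obtain ⟨ρ, hρ⟩ : ∃ ρ : ℤ, ρ = if 0 < b then r else -1 - r := ⟨_, rfl⟩
  have hρm : IsCoprime (fk ρ) (m : ℤ) := by
    rw [hρ]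
    split_ifs
    · exact hrm
    · rw [fk_neg]; exact hrm
  -- congruences
  have hbW' : 3 * b * (m * W) ∣ (W' : ℤ) := by
    obtain ⟨k, hk⟩ := hW'd
    exact ⟨k, by rw [hk]; ring⟩
  have hb3W' : 3 * b ∣ (W' : ℤ) := (Dvd.intro _ rfl).trans hbW'
  have hdiff : ∀ k k' : ℕ, 3 * b * (m * W) ∣ a (n0 + W' * (k : ℤ)) - a (n0 + W' * (k' : ℤ)) := by
    intro k k'
    have h5 : 3 * b * (m * W) ∣ (n0 + W' * (k : ℤ)) - (n0 + W' * (k' : ℤ)) := by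
      have h6 : (n0 + W' * (k : ℤ)) - (n0 + W' * (k' : ℤ)) = W' * ((k : ℤ) - k') := by ring
      rw [h6]; exact hbW'.mul_right _
    exact kill_mod (w := w) (w' := w') h5
  -- the hypotheses of `lemG`
  have hcop : IsCoprime (a n1) (3 * b) := by
    have h5 := ab_coprime hY3 hR1 hR1' (by rw [dt_sh]; exact hb0) (by rw [dt_sh]; exact hbY)
    rw [dt_sh] at h5
    exact h5
  have hFW : ∀ q : ℕ, q.Prime → q ∣ W → ¬ (q : ℤ) ∣ F (a n1) b := by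
    intro q hq hqW hd
    have h5 : F (a n1) b = Nm (sh n1 w) * Nm (sh n1 w') := by
      rw [← F_cc_dt, dt_sh]
    rw [h5] at hd
    have h6 := hWY q hq hqW
    rcases (Nat.prime_iff_prime_int.1 hq).dvd_or_dvd hd with h7 | h7
    · have := hR1 q hq h7; omega
    · have := hR1' q hq h7; omega
  have hGood : ∀ D ⊆ P, (Unif e1 e3 t D ∧ Anti e (2 * c2 + 32) t D) →
      GoodC t (a n1) b ρ m W D := by
    intro D hD hUA
    refine hF D (fun p hp => ?_) hUA.1 hUA.2 (a n1) b ρ m W hm0 hmt hρm hmb ha3 hb0 hbB hcop hW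
      hWs hWb hWB hWc hFW
    have h5 := hPp p (hD hp)
    exact ⟨h5.1, h5.2.1, h5.2.2.1⟩
  -- `typeS`
  set kill : ℕ → ℕ → Finset ℕ → Prop := fun q k T =>
    (q : ℤ) ∣ fk ((a (n0 + W' * (k : ℤ)) - (prd T : ℤ)) / (3 * b)) with hkill
  have hSm : ∀ (k : ℕ) (D : Finset ℕ), SdC D (a (n0 + W' * (k : ℤ))) b ρ m W =
      SdC D (a n1) b ρ m W :=
    fun k D => pairC_congr hb0 (hdiff k k1)
  have key := hS (fun p k => (p : ℤ) ∣ Nm (sh (n0 + W' * (k : ℤ)) w'))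
    (fun p _ k => root_per p W' n0 w' k)
    (fun p hp => (root_two (hPp p hp).1 (hPp p hp).2.1 (hPv p hp) (hPW' p hp) n0).le)
    (sel (range (2 ^ t + 1)) (fun q => q.Prime ∧ ¬ q ∣ W))
    (fun D => SdC D (a n1) b ρ m W) kill
    (fun D => Unif e1 e3 t D ∧ Anti e (2 * c2 + 32) t D)
    (by
      intro q hq
      rw [mem_sel, mem_range] at hq
      refine ⟨hq.2.1, ?_, by omega⟩
      by_contra hcon
      push Not at hcon
      refine hq.2.2 (hWs q hq.2.1 (hcon.trans ?_))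
      calc t = t ^ 1 := (pow_one t).symm
        _ ≤ t ^ 24 := Nat.pow_le_pow_right (by omega) (by norm_num))
    (fun D hD hG => (hGood D hD hG).1)
    (by
      intro D _ _ q _ k T _
      have h5 := kill_per (q := q) (W := W') (w := w) (w' := w') (σ := 1)
        (by rw [one_mul]; exact hb3W') n0 (prd T : ℤ) (by rw [one_mul]; exact hb0) k
      simp only [one_mul] at h5
      exact h5)
    (by
      intro D hD hG q hq T hT
      rw [mem_sel] at hq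
      have hqW' : ¬ q ∣ W' := fun h5 => hq.2.2 (hW'W q hq.2.1 h5)
      have h5 : T ∈ SdC D (a (n0 + W' * ((0 : ℕ) : ℤ))) b ρ m W := by rw [hSm]; exact hT
      unfold SdC at h5
      rw [mem_sel] at h5
      have h6 := pairC_dvd h5.2.1
      simp only [Nat.cast_zero, mul_zero, add_zero] at h6
      have h7 := kill_four (w := w) (w' := w') (W := W') (σ := 1) hq.2.1 (Or.inl rfl) hb0 hb3W' hqW'
        n0 (prd T : ℤ) (by rw [one_mul, one_mul]; exact h6)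
      simp only [one_mul] at h7
      exact h7)
    (by
      intro D hD hG q hq k
      rw [mem_sel, mem_range] at hq
      have hqb : ¬ (q : ℤ) ∣ 3 * b := by
        intro h5
        have h6 : (q : ℤ) ∣ (W' : ℤ) := h5.trans hb3W'
        exact hq.2.2 (hW'W q hq.2.1 (by exact_mod_cast h6))
      obtain ⟨x1, x2, hx⟩ := kill_two hq.2.1 (a := a (n0 + W' * (k : ℤ))) hqb
      have h5 : cs (SdC D (a n1) b ρ m W) (kill q k) ≤
          cs (SdC D (a n1) b ρ m W) (fun T => (q : ℤ) ∣ (prd T : ℤ) - x1) +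
          cs (SdC D (a n1) b ρ m W) (fun T => (q : ℤ) ∣ (prd T : ℤ) - x2) := by
        refine (cs_mono fun T hT hk => ?_).trans (cs_or _ _ _)
        rw [← hSm k] at hT
        unfold SdC at hT
        rw [mem_sel] at hT
        exact hx _ (pairC_dvd hT.2.1) hk
      have h6 := (hGood D hD hG).2 q hq.2.1 (by omega) hq.2.2 x1
      have h7 := (hGood D hD hG).2 q hq.2.1 (by omega) hq.2.2 x2
      have h8 : cs (SdC D (a n1) b ρ m W) (kill q k) * t ^ 20 * t ≤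
          (SdC D (a n1) b ρ m W).card * t := by
        calc cs (SdC D (a n1) b ρ m W) (kill q k) * t ^ 20 * t
            = cs (SdC D (a n1) b ρ m W) (kill q k) * t ^ 21 := by ring
          _ ≤ (cs (SdC D (a n1) b ρ m W) (fun T => (q : ℤ) ∣ (prd T : ℤ) - x1) +
              cs (SdC D (a n1) b ρ m W) (fun T => (q : ℤ) ∣ (prd T : ℤ) - x2)) * t ^ 21 :=
              Nat.mul_le_mul_right _ h5
          _ ≤ (SdC D (a n1) b ρ m W).card * t := by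
              rw [add_mul]
              have h9 : (SdC D (a n1) b ρ m W).card * 2 ≤ (SdC D (a n1) b ρ m W).card * t :=
                Nat.mul_le_mul_left _ (by omega)
              omega
      exact Nat.le_of_mul_le_mul_right h8 (by omega))
    N hN
  have hexc := pairC_exc (g := g) (t := t) C hE (by omega) (by omega) h4 hb0 hW'0 n0 N hN
  -- the event is contained in the union of the two events
  have hsub : cs (range N) (fun k =>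
      (Cl (3 * m) (1, 0) (sh (n0 + W' * k) w) ∧ Rough (2 ^ t) (Nm (sh (n0 + W' * k) w))) ∧
      (Cl (3 * m) (1, 0) (sh (n0 + W' * k) w') ∧ Rough (2 ^ t) (Nm (sh (n0 + W' * k) w'))) ∧
      lam (Nm (sh (n0 + W' * k) w')) ≠ lam (Nm (sh (n0 + W' * k) w)) ∧
      8 * (sel P (fun p => (p : ℤ) ∣ Nm (sh (n0 + W' * k) w'))).card < t ∧
      Unif e1 e3 t (sel P (fun p => (p : ℤ) ∣ Nm (sh (n0 + W' * k) w'))) ∧
      Anti e (2 * c2 + 32) t (sel P (fun p => (p : ℤ) ∣ Nm (sh (n0 + W' * k) w')))) ≤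
      cs (range N) (fun k => (Unif e1 e3 t (sel P (fun p => (p : ℤ) ∣ Nm (sh (n0 + W' * (k : ℤ)) w'))) ∧
        Anti e (2 * c2 + 32) t (sel P (fun p => (p : ℤ) ∣ Nm (sh (n0 + W' * (k : ℤ)) w')))) ∧
        ∀ T ∈ SdC (sel P (fun p => (p : ℤ) ∣ Nm (sh (n0 + W' * (k : ℤ)) w'))) (a n1) b ρ m W,
          ∃ q ∈ sel (range (2 ^ t + 1)) (fun q => q.Prime ∧ ¬ q ∣ W), kill q k T) +
      cs (range N) (fun k => ∃ y ∈ (Icc 1 (2 ^ (t ^ (4 * g) / 8)) : Finset ℕ) ×ˢ E, ∃ R R2 : ℤ,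
        3 * dt w w' * R =
          cc (sh (n0 + W' * (k : ℤ)) w) (sh (n0 + W' * (k : ℤ)) w') - (y.1 : ℤ) ∧
        cc (sh (n0 + W' * (k : ℤ)) w) (sh (n0 + W' * (k : ℤ)) w') * R + dt w w' +
          3 * dt w w' * R = (y.1 : ℤ) * R2 ∧
        (R = y.2 ∨ -1 - R = y.2 ∨ R2 = y.2 ∨ -1 - R2 = y.2)) := by
    refine (cs_mono fun k hk hev => ?_).trans (cs_or (range N)
      (fun k => (Unif e1 e3 t (sel P (fun p => (p : ℤ) ∣ Nm (sh (n0 + W' * (k : ℤ)) w'))) ∧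
        Anti e (2 * c2 + 32) t (sel P (fun p => (p : ℤ) ∣ Nm (sh (n0 + W' * (k : ℤ)) w')))) ∧
        ∀ T ∈ SdC (sel P (fun p => (p : ℤ) ∣ Nm (sh (n0 + W' * (k : ℤ)) w'))) (a n1) b ρ m W,
          ∃ q ∈ sel (range (2 ^ t + 1)) (fun q => q.Prime ∧ ¬ q ∣ W), kill q k T)
      (fun k => ∃ y ∈ (Icc 1 (2 ^ (t ^ (4 * g) / 8)) : Finset ℕ) ×ˢ E, ∃ R R2 : ℤ,
        3 * dt w w' * R =
          cc (sh (n0 + W' * (k : ℤ)) w) (sh (n0 + W' * (k : ℤ)) w') - (y.1 : ℤ) ∧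
        cc (sh (n0 + W' * (k : ℤ)) w) (sh (n0 + W' * (k : ℤ)) w') * R + dt w w' +
          3 * dt w w' * R = (y.1 : ℤ) * R2 ∧
        (R = y.2 ∨ -1 - R = y.2 ∨ R2 = y.2 ∨ -1 - R2 = y.2)))
    obtain ⟨⟨u1, v1⟩, ⟨u2, v2⟩, v3, v4, v5, v6⟩ := hev
    rw [mem_range] at hk
    by_cases hx : ∃ y ∈ (Icc 1 (2 ^ (t ^ (4 * g) / 8)) : Finset ℕ) ×ˢ E, ∃ R R2 : ℤ,
        3 * dt w w' * R =
          cc (sh (n0 + W' * (k : ℤ)) w) (sh (n0 + W' * (k : ℤ)) w') - (y.1 : ℤ) ∧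
        cc (sh (n0 + W' * (k : ℤ)) w) (sh (n0 + W' * (k : ℤ)) w') * R + dt w w' +
          3 * dt w w' * R = (y.1 : ℤ) * R2 ∧
        (R = y.2 ∨ -1 - R = y.2 ∨ R2 = y.2 ∨ -1 - R2 = y.2)
    · exact Or.inr hx
    left
    refine ⟨⟨v5, v6⟩, fun T hT => ?_⟩
    by_contra hcon
    push Not at hcon
    rw [← hSm k] at hT
    unfold SdC at hT
    rw [mem_sel, mem_powerset] at hT
    obtain ⟨hTD, hTd, hTW⟩ := hT
    have hTP : ∀ p ∈ T, p ∈ P ∧ (p : ℤ) ∣ Nm (sh (n0 + W' * (k : ℤ)) w') := fun p hp =>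
      mem_sel.1 (hTD hp)
    have hTprime : ∀ p ∈ T, p.Prime := fun p hp => (hPp p (hTP p hp).1).1
    have hdpos : 0 < prd T := Finset.prod_pos fun p hp => (hTprime p hp).pos
    have hdle : prd T ≤ 2 ^ (t ^ (4 * g) / 8) := by
      refine pairC_prd_le (by omega) (fun p hp => (hPp p (hTP p hp).1).2.2.2) ?_
      have h5 := card_le_card hTD
      omega
    have hddvd : (prd T : ℤ) ∣ Nm (sh (n0 + W' * (k : ℤ)) w') :=
      pairC_prd_dvd hTprime fun p hp => (hTP p hp).2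
    have hRr : Rough (2 ^ t) (fk ((a (n0 + W' * (k : ℤ)) - (prd T : ℤ)) / (3 * b))) := by
      intro q hq hd
      by_contra h5
      push Not at h5
      by_cases hqW : q ∣ W
      · exact hTW q hq hqW hd
      · exact hcon q (by rw [mem_sel, mem_range]; exact ⟨by omega, hq, hqW⟩) hd
    have hA21 : (21 : ℤ) ≤ (AA g t : ℤ) := by
      have h5 : 21 ≤ AA g t := by
        have h6 : 100 ≤ 2 ^ t := ht100.trans Nat.lt_two_pow_self.le
        nlinarith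
      exact_mod_cast h5
    have hnm1 : (AA g t : ℤ) ≤ n0 + W' * (k : ℤ) := by
      have h5 : (0 : ℤ) ≤ W' * (k : ℤ) := by positivity
      omega
    have hcc := pairC_cc hA21 hw hw' hnm1 (hnN k hk)
    have hccpos : 0 ≤ cc (sh (n0 + W' * (k : ℤ)) w) (sh (n0 + W' * (k : ℤ)) w') := by omega
    have hNm : IsCoprime (Nm (sh (n0 + W' * (k : ℤ)) w')) (m : ℤ) := by
      obtain ⟨c, hc⟩ := cl_Nm u2
      have h5 : Nm ((1, 0) : ℤ × ℤ) = 1 := by unfold Nm F; norm_num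
      rw [h5] at hc
      push_cast at hc
      exact ⟨1, -(3 * c), by linarith⟩
    refine v3 (cert3 (Y := 2 ^ t) (K1 := 2 ^ t) (K2 := (AA g t : ℤ) ^ 100) (m := m) (r := r)
      (ε := ε) (E := E) hY3
      (one_le_pow₀ (by norm_num)) hyp v1 v2 (by rw [dt_sh]; exact hb0)
      (by rw [dt_sh]; exact hbY) (by rw [dt_sh]; exact hmb) hNm (d := (prd T : ℤ)) (ρ := ρ)
      (by exact_mod_cast hdpos) hddvd (by rw [dt_sh]; exact hρ)
      (by rw [dt_sh]; exact hTd) (by rw [dt_sh]; exact hRr) ?_ ?_ ?_).symm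
    · intro R R2 e1 e2
      rw [dt_sh] at e1 e2
      have hmem : ∀ x : ℤ, x ∈ E → ((prd T, x) : ℕ × ℤ) ∈
          (Icc 1 (2 ^ (t ^ (4 * g) / 8)) : Finset ℕ) ×ˢ E := fun x hx => by
        rw [mem_product, mem_Icc]; exact ⟨⟨hdpos, hdle⟩, hx⟩
      constructor
      · rintro (h5 | h5)
        · exact hx ⟨(prd T, R), hmem _ h5, R, R2, e1, e2, Or.inl rfl⟩
        · exact hx ⟨(prd T, -1 - R), hmem _ h5, R, R2, e1, e2, Or.inr (Or.inl rfl)⟩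
      · rintro (h5 | h5)
        · exact hx ⟨(prd T, R2), hmem _ h5, R, R2, e1, e2, Or.inr (Or.inr (Or.inl rfl))⟩
        · exact hx ⟨(prd T, -1 - R2), hmem _ h5, R, R2, e1, e2, Or.inr (Or.inr (Or.inr rfl))⟩
    · rw [dt_sh]
      refine le_trans ?_ hcc.1
      have h5 : (3 : ℤ) * 2 ^ t * (2 ^ t + 1) + 2 * 2 ^ (t ^ (4 * g) / 8) ≤ (AA g t : ℤ) := by
        exact_mod_cast hsize
      refine le_trans ?_ h5
      have h6 : (prd T : ℤ) ≤ 2 ^ (t ^ (4 * g) / 8) := by exact_mod_cast hdle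
      have h7 : |dt w w'| ≤ 2 ^ t := by exact_mod_cast hbY
      have h8 : 3 * |dt w w'| * (2 ^ t + 1) ≤ 3 * 2 ^ t * (2 ^ t + 1) :=
        mul_le_mul_of_nonneg_right (by omega) (by positivity)
      omega
    · have h5 : cc (sh (n0 + W' * (k : ℤ)) w) (sh (n0 + W' * (k : ℤ)) w') ^ 4 ≤
          ((AA g t : ℤ) ^ 17) ^ 4 := pow_le_pow_left₀ hccpos hcc.2 4
      have h6 : 8 * ((AA g t : ℤ) ^ 17) ^ 4 ≤ (AA g t : ℤ) ^ 69 := by
        have h7 : (AA g t : ℤ) ^ 69 = (AA g t : ℤ) * ((AA g t : ℤ) ^ 17) ^ 4 := by ring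
        rw [h7]
        exact mul_le_mul_of_nonneg_right (by omega) (by positivity)
      have h7 : (AA g t : ℤ) ^ 69 ≤ (AA g t : ℤ) ^ 100 :=
        pow_le_pow_right₀ (by omega) (by norm_num)
      omega
  -- conclusion
  have hfin := Nat.mul_le_mul_right (t ^ (C + 1)) hsub
  rw [add_mul] at hfin
  have hfin2 := hfin.trans (Nat.add_le_add key hexc)
  generalize cs (range N) (fun k =>
      (Cl (3 * m) (1, 0) (sh (n0 + W' * k) w) ∧ Rough (2 ^ t) (Nm (sh (n0 + W' * k) w))) ∧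
      (Cl (3 * m) (1, 0) (sh (n0 + W' * k) w') ∧ Rough (2 ^ t) (Nm (sh (n0 + W' * k) w'))) ∧
      lam (Nm (sh (n0 + W' * k) w')) ≠ lam (Nm (sh (n0 + W' * k) w)) ∧
      8 * (sel P (fun p => (p : ℤ) ∣ Nm (sh (n0 + W' * k) w'))).card < t ∧
      Unif e1 e3 t (sel P (fun p => (p : ℤ) ∣ Nm (sh (n0 + W' * k) w'))) ∧
      Anti e (2 * c2 + 32) t (sel P (fun p => (p : ℤ) ∣ Nm (sh (n0 + W' * k) w')))) = X at hfin2 ⊢
  have h5 : X * t ^ C * t ≤ N * t := by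
    have h6 : X * t ^ (C + 1) = X * t ^ C * t := by rw [pow_succ]; ring
    rw [← h6]
    have h7 : N * 2 ≤ N * t := Nat.mul_le_mul_left _ (by omega)
    omega
  exact Nat.le_of_mul_le_mul_right h5 (by omega)

end Pool.Agent.H62.RV
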