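import Pool.Agent.H62.RV.ClAlg
import Pool.Agent.H17.RP.Tree

/-!
# TreeC: along a Stern-Brocot path, for the class `(1, 0)` modulo `M`

Copy of `H17/RP/Tree.lean` (`tree`, the private `claim`, `mem_bwin`, `win_spec` must be copied) with `StepOK`
replaced by `StepC M`: the rough vectors `p'` chosen in the windows are in the class `(1, 0)` modulo `M` (first
part of `StepC`), the claim is for the `p ∈ bwin L` with `sh n (lin e f p)` rough and in the class, and the
vector `w` itself is in the class (`hcl`).  Root: `sh n (1, 0) = (1, 0)` is in the class (`cl_refl`), its norm is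
`1`.
-/

set_option autoImplicit false

namespace Pool.Agent.H62.RV

open Finset Pool.Agent.H17.RP

private theorem TreeC_mem {L : ℕ} {a b : ℤ} (ha : 0 ≤ a) (ha' : a ≤ 3 * (L : ℤ)) (hb : 0 ≤ b)
    (hb' : b ≤ 3 * (L : ℤ)) (hc : IsCoprime a b) : (a, b) ∈ bwin L := by
  unfold bwin
  rw [mem_sel]
  refine ⟨?_, hc⟩
  rw [Finset.mem_product]
  exact ⟨Finset.mem_Icc.2 ⟨ha, ha'⟩, Finset.mem_Icc.2 ⟨hb, hb'⟩⟩

private theorem TreeC_win {L : ℕ} {p : ℤ × ℤ} (h : p ∈ win L) :
    1 ≤ p.1 ∧ p.1 ≤ (L : ℤ) ∧ 1 ≤ p.2 ∧ p.2 ≤ (L : ℤ) ∧ IsCoprime p.1 p.2 := by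
  unfold win at h
  rw [mem_sel, Finset.mem_product] at h
  obtain ⟨⟨h1, h2⟩, h3⟩ := h
  have h1' := Finset.mem_Icc.1 h1
  have h2' := Finset.mem_Icc.1 h2
  exact ⟨h1'.1, h1'.2, h2'.1, h2'.2, h3⟩

private theorem TreeC_claim {M L t : ℕ} (hL : 1 ≤ L) {n : ℤ} {w : ℤ × ℤ}
    (hc : IsCoprime w.1 w.2)
    (h : ∀ e f p : ℤ × ℤ, Adm e f → 1 ≤ p.1 → 1 ≤ p.2 → lin e f p = w → StepC M L t n e f)
    (hcw : Cl M (1, 0) (sh n w)) (hr : Rough (2 ^ t) (Nm (sh n w))) (k : ℕ) : ∀ (e f : ℤ × ℤ) (α β : ℤ), Adm e f → 1 ≤ α →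
      1 ≤ β → lin e f (α, β) = w → α + β ≤ (k : ℤ) → ∀ p ∈ bwin L,
      Cl M (1, 0) (sh n (lin e f p)) → Rough (2 ^ t) (Nm (sh n (lin e f p))) →
        lam (Nm (sh n (lin e f p))) = lam (Nm (sh n w)) := by
  have hL' : (1 : ℤ) ≤ (L : ℤ) := by exact_mod_cast hL
  induction k with
  | zero =>
    intro e f α β _ ha hb _ hk
    exfalso
    push_cast at hk
    omega
  | succ k ih =>
    intro e f α β hadm ha hb hlin hk p hp hcp hrp
    have hstep : StepC M L t n e f := h e f (α, β) hadm ha hb hlin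
    obtain ⟨a1, a2, a3, a4, a5⟩ := hadm
    have hw1 : α * e.1 + β * f.1 = w.1 := by rw [← hlin]; rfl
    have hw2 : α * e.2 + β * f.2 = w.2 := by rw [← hlin]; rfl
    rcases lt_trichotomy α β with hlt | heq | hgt
    · -- `α < β`
      have hadm' : Adm (e.1 + f.1, e.2 + f.2) f := by
        refine ⟨?_, ?_, ?_, a4, a5⟩
        · show (e.1 + f.1) * f.2 - (e.2 + f.2) * f.1 = 1
          linarith
        · show 0 ≤ e.1 + f.1
          linarith
        · show e.1 + f.1 ≤ e.2 + f.2
          linarith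
      have hlin' : lin (e.1 + f.1, e.2 + f.2) f (α, β - α) = w := by
        apply Prod.ext
        · show α * (e.1 + f.1) + (β - α) * f.1 = w.1
          linarith
        · show α * (e.2 + f.2) + (β - α) * f.2 = w.2
          linarith
      have hs' := h _ _ (α, β - α) hadm' ha (by show 1 ≤ β - α; omega) hlin'
      obtain ⟨⟨p', hp', hcp', hrp'⟩, -⟩ := hs'
      obtain ⟨b1, b2, b3, b4, b5⟩ := TreeC_win hp'
      have hcl := ih _ _ α (β - α) hadm' ha (by omega) hlin' (by push_cast at hk; omega) p'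
        (by
          have : (p'.1, p'.2) ∈ bwin L := TreeC_mem (by omega) (by omega) (by omega) (by omega) b5
          exact this) hcp' hrp'
      have heq : lin (e.1 + f.1, e.2 + f.2) f p' = lin e f (p'.1, p'.1 + p'.2) := by
        apply Prod.ext
        · show p'.1 * (e.1 + f.1) + p'.2 * f.1 = p'.1 * e.1 + (p'.1 + p'.2) * f.1
          ring
        · show p'.1 * (e.2 + f.2) + p'.2 * f.2 = p'.1 * e.2 + (p'.1 + p'.2) * f.2
          ring
      have hcop : IsCoprime p'.1 (p'.1 + p'.2) := by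
        have := b5.add_mul_left_right 1
        rwa [mul_one, add_comm] at this
      rw [heq] at hcl hrp' hcp'
      rw [← hcl]
      exact hstep.2 p hp (p'.1, p'.1 + p'.2)
        (TreeC_mem (by omega) (by omega) (by omega) (by omega) hcop) hcp hcp' hrp hrp'
    · -- `α = β`
      subst heq
      have hu : IsUnit α := hc.isUnit_of_dvd' ⟨e.1 + f.1, by rw [← hw1]; ring⟩
        ⟨e.2 + f.2, by rw [← hw2]; ring⟩
      have h1 : α = 1 := by
        rcases Int.isUnit_iff.1 hu with h1 | h1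
        · exact h1
        · omega
      subst h1
      have hm : ((1 : ℤ), (1 : ℤ)) ∈ bwin L :=
        TreeC_mem (by omega) (by omega) (by omega) (by omega) isCoprime_one_left
      have := hstep.2 p hp (1, 1) hm hcp (by rw [hlin]; exact hcw) hrp (by rw [hlin]; exact hr)
      rw [this, hlin]
    · -- `β < α`
      have hadm' : Adm e (e.1 + f.1, e.2 + f.2) := by
        refine ⟨?_, a2, a3, ?_, ?_⟩
        · show e.1 * (e.2 + f.2) - e.2 * (e.1 + f.1) = 1
          linarith
        · show 0 ≤ e.1 + f.1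
          linarith
        · show e.1 + f.1 ≤ e.2 + f.2
          linarith
      have hlin' : lin e (e.1 + f.1, e.2 + f.2) (α - β, β) = w := by
        apply Prod.ext
        · show (α - β) * e.1 + β * (e.1 + f.1) = w.1
          linarith
        · show (α - β) * e.2 + β * (e.2 + f.2) = w.2
          linarith
      have hs' := h _ _ (α - β, β) hadm' (by show 1 ≤ α - β; omega) hb hlin'
      obtain ⟨⟨p', hp', hcp', hrp'⟩, -⟩ := hs'
      obtain ⟨b1, b2, b3, b4, b5⟩ := TreeC_win hp'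
      have hcl := ih _ _ (α - β) β hadm' (by omega) hb hlin' (by push_cast at hk; omega) p'
        (by
          have : (p'.1, p'.2) ∈ bwin L := TreeC_mem (by omega) (by omega) (by omega) (by omega) b5
          exact this) hcp' hrp'
      have heq : lin e (e.1 + f.1, e.2 + f.2) p' = lin e f (p'.1 + p'.2, p'.2) := by
        apply Prod.ext
        · show p'.1 * e.1 + p'.2 * (e.1 + f.1) = (p'.1 + p'.2) * e.1 + p'.2 * f.1
          ring
        · show p'.1 * e.2 + p'.2 * (e.2 + f.2) = (p'.1 + p'.2) * e.2 + p'.2 * f.2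
          ring
      have hcop : IsCoprime (p'.1 + p'.2) p'.2 := by
        have := b5.add_mul_left_left 1
        rwa [mul_one] at this
      rw [heq] at hcl hrp' hcp'
      rw [← hcl]
      exact hstep.2 p hp (p'.1 + p'.2, p'.2)
        (TreeC_mem (by omega) (by omega) (by omega) (by omega) hcop) hcp hcp' hrp hrp'

theorem treeC {M L t : ℕ} (hL : 1 ≤ L) {n : ℤ} {w : ℤ × ℤ} (hw0 : 0 ≤ w.1) (hw1 : w.1 < w.2)
    (hc : IsCoprime w.1 w.2) (hroot : StepC M L t n (1, 0) (0, 1))
    (h : ∀ e f p : ℤ × ℤ, Adm e f → 1 ≤ p.1 → 1 ≤ p.2 → lin e f p = w → StepC M L t n e f)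
    (hcl : Cl M (1, 0) (sh n w)) (hr : Rough (2 ^ t) (Nm (sh n w))) :
    lam (Nm (sh n w)) = 1 := by
  have hL' : (1 : ℤ) ≤ (L : ℤ) := by exact_mod_cast hL
  have h10 : ((1 : ℤ), (0 : ℤ)) ∈ bwin L :=
    TreeC_mem (by omega) (by omega) (by omega) (by omega) isCoprime_one_left
  have e10 : Nm (sh n (lin (1, 0) (0, 1) (1, 0))) = 1 := by
    unfold Nm sh lin F
    simp
  have r10 : Rough (2 ^ t) (Nm (sh n (lin (1, 0) (0, 1) (1, 0)))) := by
    rw [e10]
    intro p hp hd
    exfalso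
    have h1 : (p : ℤ) = 1 := Int.eq_one_of_dvd_one (Int.natCast_nonneg p) hd
    have h2 : p = 1 := by exact_mod_cast h1
    exact hp.one_lt.ne' h2
  have c10 : Cl M (1, 0) (sh n (lin (1, 0) (0, 1) (1, 0))) := by
    have e : sh n (lin (1, 0) (0, 1) (1, 0)) = (1, 0) := by
      unfold sh lin
      simp
    rw [e]
    exact cl_refl M (1, 0)
  have l10 : lam (Nm (sh n (lin (1, 0) (0, 1) (1, 0)))) = 1 := by rw [e10]; exact lam_one
  rcases hw0.eq_or_lt with h0 | h0
  · -- `w = (0, 1)`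
    have hu : IsUnit w.2 := by
      rw [← h0] at hc
      exact isCoprime_zero_left.1 hc
    have h2 : w.2 = 1 := by
      rcases Int.isUnit_iff.1 hu with h1 | h1
      · exact h1
      · omega
    have hw : lin (1, 0) (0, 1) (0, 1) = w := by
      apply Prod.ext
      · show (0 : ℤ) * 1 + 1 * 0 = w.1
        rw [← h0]; norm_num
      · show (0 : ℤ) * 0 + 1 * 1 = w.2
        rw [h2]; norm_num
    have h01 : ((0 : ℤ), (1 : ℤ)) ∈ bwin L :=
      TreeC_mem (by omega) (by omega) (by omega) (by omega) isCoprime_one_right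
    have := hroot.2 (0, 1) h01 (1, 0) h10 (by rw [hw]; exact hcl) c10 (by rw [hw]; exact hr) r10
    rw [hw, l10] at this
    exact this
  · -- `w.1 ≥ 1`
    have hadm : Adm (1, 1) (0, 1) := by
      refine ⟨?_, ?_, ?_, ?_, ?_⟩ <;> norm_num
    have hlin : lin (1, 1) (0, 1) (w.1, w.2 - w.1) = w := by
      apply Prod.ext
      · show w.1 * 1 + (w.2 - w.1) * 0 = w.1
        ring
      · show w.1 * 1 + (w.2 - w.1) * 1 = w.2
        ring
    have hs := h (1, 1) (0, 1) (w.1, w.2 - w.1) hadm (by show 1 ≤ w.1; omega)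
      (by show 1 ≤ w.2 - w.1; omega) hlin
    obtain ⟨⟨p', hp', hcp', hrp'⟩, -⟩ := hs
    obtain ⟨b1, b2, b3, b4, b5⟩ := TreeC_win hp'
    have hcc := TreeC_claim hL hc h hcl hr (w.1 + (w.2 - w.1)).toNat (1, 1) (0, 1) w.1 (w.2 - w.1) hadm
      (by omega) (by omega) hlin (by omega) p'
      (by
        have : (p'.1, p'.2) ∈ bwin L := TreeC_mem (by omega) (by omega) (by omega) (by omega) b5
        exact this) hcp' hrp'
    have heq : lin (1, 1) (0, 1) p' = lin (1, 0) (0, 1) (p'.1, p'.1 + p'.2) := by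
      apply Prod.ext
      · show p'.1 * 1 + p'.2 * 0 = p'.1 * 1 + (p'.1 + p'.2) * 0
        ring
      · show p'.1 * 1 + p'.2 * 1 = p'.1 * 0 + (p'.1 + p'.2) * 1
        ring
    have hcop : IsCoprime p'.1 (p'.1 + p'.2) := by
      have := b5.add_mul_left_right 1
      rwa [mul_one, add_comm] at this
    rw [heq] at hcc hrp' hcp'
    rw [← hcc]
    exact (hroot.2 (p'.1, p'.1 + p'.2)
      (TreeC_mem (by omega) (by omega) (by omega) (by omega) hcop) (1, 0) h10 hcp' c10 hrp' r10).trans l10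

end Pool.Agent.H62.RV
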