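import Pool.Agent.H62.RV.StepM
import Pool.Agent.H62.RV.TreeC
import Pool.Agent.H17.RP.CountTree
import Pool.Agent.H17.RP.StarA

/-!
# StarC: under `HypC` few rough vectors of the class `(1, 0)` in the cusp region have `lam = -1`

Copy of `H17/RP/Star.lean` (the auxiliary lemmas are private) with `StepOK` replaced by `StepC (3 * m)`, `tree` by
`treeC`, `step` by `stepC` with `κ = 80 g + 3`, and the exponent `32 g` by `72 g`: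
`A V² (t^(8g+2)/t^(80g+3) + 1/2^t) ≤ A V²/t^(72g)` (`pow_le_two (72 * g)`).  The count of the vectors which are
not primitive is `noncop` (drop the class condition: `cs_mono`).
-/

set_option autoImplicit false

namespace Pool.Agent.H62.RV

open Finset Pool.Agent.H17.RP

private theorem StarC_pow (k : ℕ) : ∃ T : ℕ, ∀ t ≥ T, 2 * t ^ k ≤ 2 ^ t := by
  have h := tendsto_pow_const_div_const_pow_of_one_lt k (r := (2 : ℝ)) (by norm_num)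
  have h2 := h.eventually (gt_mem_nhds (show (0 : ℝ) < 1 / 2 by norm_num))
  obtain ⟨T, hT⟩ := Filter.eventually_atTop.1 h2
  refine ⟨T, fun t ht => ?_⟩
  have h3 := hT t ht
  have h4 : (0 : ℝ) < 2 ^ t := by positivity
  rw [div_lt_iff₀ h4] at h3
  have h5 : (2 * (t : ℝ) ^ k) ≤ 2 ^ t := by linarith
  exact_mod_cast h5

private theorem StarC_adm {e f : ℤ × ℤ} (h : Adm e f) : 1 ≤ e.2 ∧ 1 ≤ f.2 := by
  obtain ⟨h1, h2, h3, h4, h5⟩ := h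
  constructor
  · by_contra hc
    have h6 : e.2 = 0 := by omega
    have h7 : e.1 = 0 := by omega
    rw [h6, h7] at h1
    simp at h1
  · by_contra hc
    have h6 : f.2 = 0 := by omega
    have h7 : f.1 = 0 := by omega
    rw [h6, h7] at h1
    simp at h1

private theorem StarC_memTT {V : ℕ} {e f p : ℤ × ℤ} (h : Adm e f) (hp1 : 1 ≤ p.1) (hp2 : 1 ≤ p.2)
    (hv : (lin e f p).2 ≤ V) : (e, f, p) ∈ TT V := by
  obtain ⟨he, hf⟩ := StarC_adm h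
  have hadm := h
  obtain ⟨h1, h2, h3, h4, h5⟩ := h
  have hv' : p.1 * e.2 + p.2 * f.2 ≤ (V : ℤ) := hv
  have i1 : e.2 ≤ p.1 * e.2 := by nlinarith
  have i2 : f.2 ≤ p.2 * f.2 := by nlinarith
  have i3 : p.1 ≤ p.1 * e.2 := by nlinarith
  have i4 : p.2 ≤ p.2 * f.2 := by nlinarith
  unfold TT
  rw [mem_sel]
  refine ⟨?_, hadm, hp1, hp2, hv⟩
  unfold bx
  simp only [mem_product, mem_Icc]
  refine ⟨⟨⟨h2, ?_⟩, ⟨?_, ?_⟩⟩, ⟨⟨h4, ?_⟩, ⟨?_, ?_⟩⟩, ⟨?_, ?_⟩, ⟨?_, ?_⟩⟩ <;> linarith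

private theorem StarC_TT {V : ℕ} {x : (ℤ × ℤ) × (ℤ × ℤ) × (ℤ × ℤ)} (hx : x ∈ TT V) :
    Adm x.1 x.2.1 ∧ x.1.2 ≤ V ∧ x.2.1.2 ≤ V := by
  unfold TT at hx
  rw [mem_sel] at hx
  unfold bx at hx
  simp only [mem_product, mem_Icc] at hx
  exact ⟨hx.2.1, hx.1.1.2.2, hx.1.2.1.2.2⟩

private theorem StarC_cop {M A V L t : ℕ} (hL : 1 ≤ L) :
    cs (cusp A V) (fun w => IsCoprime w.1 w.2 ∧ Cl M (1, 0) w ∧ Rough (2 ^ t) (Nm w) ∧ lam (Nm w) = -1) ≤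
      V * V * cs (Ico (A : ℤ) (2 * (A : ℤ))) (fun n => ¬ StepC M L t n (1, 0) (0, 1)) +
      ∑ x ∈ TT V, cs (Ico (A : ℤ) (2 * (A : ℤ))) (fun n => ¬ StepC M L t n x.1 x.2.1) := by
  classical
  have hsub : sel (cusp A V)
      (fun w => IsCoprime w.1 w.2 ∧ Cl M (1, 0) w ∧ Rough (2 ^ t) (Nm w) ∧ lam (Nm w) = -1) ⊆
      (((Ico (0 : ℤ) V ×ˢ Icc (1 : ℤ) V) ×ˢ
        sel (Ico (A : ℤ) (2 * (A : ℤ))) (fun n => ¬ StepC M L t n (1, 0) (0, 1))).image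
          (fun q => sh q.2 q.1)) ∪
      (TT V).biUnion (fun x => (sel (Ico (A : ℤ) (2 * (A : ℤ)))
        (fun n => ¬ StepC M L t n x.1 x.2.1)).image (fun n => sh n (lin x.1 x.2.1 x.2.2))) := by
    intro w hw
    rw [mem_sel] at hw
    obtain ⟨hw1, hc, hcl, hr, hl⟩ := hw
    unfold cusp at hw1
    rw [mem_sel, mem_product, mem_Icc, mem_Icc] at hw1
    obtain ⟨⟨-, h1, h2⟩, h3, h4⟩ := hw1
    have hv : 0 < w.2 := h1
    have hn1 : (A : ℤ) ≤ w.1 / w.2 := (Int.le_ediv_iff_mul_le hv).2 h3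
    have hn2 : w.1 / w.2 < 2 * (A : ℤ) := (Int.ediv_lt_iff_lt_mul hv).2 h4
    have hx0 : 0 ≤ w.1 % w.2 := Int.emod_nonneg _ (ne_of_gt hv)
    have hx1 : w.1 % w.2 < w.2 := Int.emod_lt_of_pos _ hv
    have hdm : w.1 % w.2 + w.2 * (w.1 / w.2) = w.1 := Int.emod_add_mul_ediv w.1 w.2
    have hsh : sh (w.1 / w.2) (w.1 % w.2, w.2) = w := by
      apply Prod.ext
      · show w.1 % w.2 + w.1 / w.2 * w.2 = w.1
        linarith
      · rfl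
    have hc' : IsCoprime (w.1 % w.2) w.2 := by
      have h5 : w.1 % w.2 = w.1 + w.2 * (-(w.1 / w.2)) := by linarith
      rw [h5]
      exact hc.add_mul_left_left _
    by_contra hnot
    rw [mem_union, not_or] at hnot
    obtain ⟨hA1, hA2⟩ := hnot
    have hroot : StepC M L t (w.1 / w.2) (1, 0) (0, 1) := by
      by_contra hne
      refine hA1 (mem_image.2 ⟨((w.1 % w.2, w.2), w.1 / w.2), ?_, hsh⟩)
      rw [mem_product, mem_product, mem_Ico, mem_Icc]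
      exact ⟨⟨⟨hx0, lt_of_lt_of_le hx1 h2⟩, h1, h2⟩, mem_sel.2 ⟨mem_Ico.2 ⟨hn1, hn2⟩, hne⟩⟩
    have hother : ∀ e f p : ℤ × ℤ, Adm e f → 1 ≤ p.1 → 1 ≤ p.2 →
        lin e f p = (w.1 % w.2, w.2) → StepC M L t (w.1 / w.2) e f := by
      intro e f p hadm hp1 hp2 hlin
      by_contra hne
      refine hA2 (mem_biUnion.2 ⟨(e, f, p), ?_, mem_image.2 ⟨w.1 / w.2,
        mem_sel.2 ⟨mem_Ico.2 ⟨hn1, hn2⟩, hne⟩, ?_⟩⟩)
      · refine StarC_memTT hadm hp1 hp2 ?_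
        rw [hlin]
        exact h2
      · show sh (w.1 / w.2) (lin e f p) = w
        rw [hlin]
        exact hsh
    have hfin := treeC hL (w := (w.1 % w.2, w.2)) hx0 hx1 hc' hroot hother (by rw [hsh]; exact hcl)
      (by rw [hsh]; exact hr)
    rw [hsh, hl] at hfin
    norm_num at hfin
  refine (card_le_card hsub).trans ((card_union_le _ _).trans (Nat.add_le_add ?_ ?_))
  · refine card_image_le.trans ?_
    rw [card_product, card_product, Int.card_Ico, Int.card_Icc]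
    refine Nat.mul_le_mul (Nat.mul_le_mul ?_ ?_) le_rfl
    · simp
    · simp
  · refine card_biUnion_le.trans (Finset.sum_le_sum fun x _ => ?_)
    exact card_image_le

theorem starC : ∃ g : ℕ, 1 ≤ g ∧ ∃ t0 : ℕ, ∀ t ≥ t0, ∀ (m : ℕ) (r ε : ℤ), 0 < m → m ≤ t →
    IsCoprime (fk r) (m : ℤ) → HypC g t m r ε →
    cs (cusp (AA g t) (8 * (AA g t) ^ 5))
      (fun w => Cl (3 * m) (1, 0) w ∧ Rough (2 ^ t) (Nm w) ∧ lam (Nm w) = -1) * t ^ (72 * g) ≤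
      64 * (AA g t) ^ 11 := by
  obtain ⟨c2, g, hg, hstep⟩ := stepC
  obtain ⟨t1, ht1⟩ := hstep g le_rfl (80 * g + 3)
  obtain ⟨T, hT⟩ := StarC_pow (72 * g)
  refine ⟨g, hg, max t1 (max T 6), fun t ht mm rr ε hm0 hmt hrm hyp => ?_⟩
  have htt1 : t ≥ t1 := le_trans (le_max_left _ _) ht
  have htT : t ≥ T := le_trans (le_trans (le_max_left _ _) (le_max_right _ _)) ht
  have ht6 : 6 ≤ t := le_trans (le_trans (le_max_right _ _) (le_max_right _ _)) ht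
  have hS := ht1 t htt1 mm rr ε hm0 hmt hrm hyp
  have h2t := hT t htT
  unfold NN at hS
  have hA8 : 8 ≤ AA g t := by
    unfold AA
    have h1 : 3 ≤ t ^ (4 * g) := by
      calc 3 ≤ t ^ 1 := by rw [pow_one]; omega
        _ ≤ t ^ (4 * g) := Nat.pow_le_pow_right (by omega) (by omega)
    calc 8 = 2 ^ 3 := by norm_num
      _ ≤ 2 ^ (t ^ (4 * g)) := Nat.pow_le_pow_right (by norm_num) h1
  have hlogA : Real.log (AA g t : ℝ) ≤ (t : ℝ) ^ (4 * g) := by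
    unfold AA
    push_cast
    rw [Real.log_pow]
    have h1 : Real.log 2 ≤ 1 := by linarith [Real.log_two_lt_d9]
    have h2 : (0 : ℝ) ≤ (t : ℝ) ^ (4 * g) := by positivity
    push_cast
    nlinarith
  generalize AA g t = A at hS hA8 hlogA ⊢
  -- the bad `n`
  have hL : 1 ≤ t ^ c2 := Nat.one_le_pow _ _ (by omega)
  have hV1 : 1 ≤ 8 * A ^ 5 := by
    have : 1 ≤ A ^ 5 := Nat.one_le_pow _ _ (by omega)
    omega
  have hVA : 8 * A ^ 5 ≤ A ^ 6 := by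
    calc 8 * A ^ 5 ≤ A * A ^ 5 := Nat.mul_le_mul_right _ hA8
      _ = A ^ 6 := by ring
  have hroot := hS (1, 0) (0, 1) (by unfold Basis2 dt; right; norm_num) (by
    have h6 : (1 : ℤ) ≤ (A : ℤ) ^ 6 := by
      have : 1 ≤ A ^ 6 := Nat.one_le_pow _ _ (by omega)
      exact_mod_cast this
    have h6' : (0 : ℤ) ≤ (A : ℤ) ^ 6 := le_trans (by norm_num) h6
    unfold Box
    exact ⟨⟨by norm_num, h6⟩, ⟨le_rfl, h6'⟩, ⟨le_rfl, h6'⟩, ⟨by norm_num, h6⟩⟩)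
  have hTT : ∀ x ∈ TT (8 * A ^ 5), cs (Ico (A : ℤ) (2 * (A : ℤ)))
      (fun n => ¬ StepC (3 * mm) (t ^ c2) t n x.1 x.2.1) * t ^ (80 * g + 3) ≤ A := by
    intro x hx
    obtain ⟨h1, h2, h3⟩ := StarC_TT hx
    have hVA' : ((8 * A ^ 5 : ℕ) : ℤ) ≤ (A : ℤ) ^ 6 := by exact_mod_cast hVA
    obtain ⟨a1, a2, a3, a4, a5⟩ := h1
    refine hS x.1 x.2.1 ?_ ?_
    · unfold Basis2 dt
      right
      linarith
    · unfold Box
      refine ⟨⟨?_, ?_⟩, ⟨?_, ?_⟩, ⟨?_, ?_⟩, ⟨?_, ?_⟩⟩ <;> linarith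
  have hcop := StarC_cop (M := 3 * mm) (A := A) (V := 8 * A ^ 5) (L := t ^ c2) (t := t) hL
  have hnon := noncop A (8 * A ^ 5) (2 ^ t) (Nat.one_le_two_pow)
  have hct := count_tree (8 * A ^ 5) hV1
  have hsplit : cs (cusp A (8 * A ^ 5)) (fun w => Cl (3 * mm) (1, 0) w ∧ Rough (2 ^ t) (Nm w) ∧ lam (Nm w) = -1) ≤
      cs (cusp A (8 * A ^ 5)) (fun w => ¬ IsCoprime w.1 w.2 ∧ Rough (2 ^ t) (Nm w)) +
      cs (cusp A (8 * A ^ 5))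
        (fun w => IsCoprime w.1 w.2 ∧ Cl (3 * mm) (1, 0) w ∧ Rough (2 ^ t) (Nm w) ∧ lam (Nm w) = -1) := by
    refine le_trans (cs_mono (fun w _ hw => ?_)) (cs_or _ _ _)
    by_cases hc : IsCoprime w.1 w.2
    · exact Or.inr ⟨hc, hw⟩
    · exact Or.inl ⟨hc, hw.2.1⟩
  -- numbers
  have hsum : (∑ x ∈ TT (8 * A ^ 5), cs (Ico (A : ℤ) (2 * (A : ℤ)))
      (fun n => ¬ StepC (3 * mm) (t ^ c2) t n x.1 x.2.1)) * t ^ (80 * g + 3) ≤ (TT (8 * A ^ 5)).card * A := by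
    rw [Finset.sum_mul]
    refine (Finset.sum_le_sum hTT).trans ?_
    rw [Finset.sum_const, smul_eq_mul]
  generalize hN : cs (cusp A (8 * A ^ 5)) (fun w => Cl (3 * mm) (1, 0) w ∧ Rough (2 ^ t) (Nm w) ∧ lam (Nm w) = -1) = N
    at hsplit ⊢
  generalize cs (cusp A (8 * A ^ 5)) (fun w => ¬ IsCoprime w.1 w.2 ∧ Rough (2 ^ t) (Nm w)) = N1
    at hsplit hnon
  generalize cs (cusp A (8 * A ^ 5))
    (fun w => IsCoprime w.1 w.2 ∧ Cl (3 * mm) (1, 0) w ∧ Rough (2 ^ t) (Nm w) ∧ lam (Nm w) = -1) = N2 at hsplit hcop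
  generalize cs (Ico (A : ℤ) (2 * (A : ℤ))) (fun n => ¬ StepC (3 * mm) (t ^ c2) t n (1, 0) (0, 1)) = B0
    at hroot hcop
  generalize (∑ x ∈ TT (8 * A ^ 5), cs (Ico (A : ℤ) (2 * (A : ℤ)))
      (fun n => ¬ StepC (3 * mm) (t ^ c2) t n x.1 x.2.1)) = B1 at hsum hcop
  -- everything real
  have htR : (6 : ℝ) ≤ (t : ℝ) := by exact_mod_cast ht6
  set P : ℝ := (t : ℝ) ^ (4 * g) with hP
  have hP1 : 1 ≤ P := one_le_pow₀ (by linarith)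
  have hlogV : 1 + Real.log ((8 * A ^ 5 : ℕ) : ℝ) ≤ 9 * P := by
    have hApos : (0 : ℝ) < (A : ℝ) := by
      have : 0 < A := by omega
      exact_mod_cast this
    push_cast
    rw [Real.log_mul (by norm_num) (by positivity), Real.log_pow]
    have h8 : Real.log 8 ≤ 3 := by
      have : (8 : ℝ) = 2 ^ 3 := by norm_num
      rw [this, Real.log_pow]
      have h1 : Real.log 2 ≤ 1 := by linarith [Real.log_two_lt_d9]
      push_cast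
      linarith
    push_cast
    linarith
  have hlog0 : 0 ≤ 1 + Real.log ((8 * A ^ 5 : ℕ) : ℝ) := by
    have : (0 : ℝ) ≤ Real.log ((8 * A ^ 5 : ℕ) : ℝ) := Real.log_natCast_nonneg _
    linarith
  have hct2 : ((TT (8 * A ^ 5)).card : ℝ) ≤ 64 * (A : ℝ) ^ 10 * (81 * P ^ 2) := by
    refine hct.trans ?_
    have h1 : (1 + Real.log ((8 * A ^ 5 : ℕ) : ℝ)) ^ 2 ≤ 81 * P ^ 2 := by
      calc (1 + Real.log ((8 * A ^ 5 : ℕ) : ℝ)) ^ 2 ≤ (9 * P) ^ 2 := pow_le_pow_left₀ hlog0 hlogV 2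
        _ = 81 * P ^ 2 := by ring
    have h2 : (((8 * A ^ 5 : ℕ) : ℝ)) ^ 2 = 64 * (A : ℝ) ^ 10 := by push_cast; ring
    rw [h2]
    exact mul_le_mul_of_nonneg_left h1 (by positivity)
  have hN2 : (N2 : ℝ) * (t : ℝ) ^ (80 * g + 3) ≤ 64 * (A : ℝ) ^ 11 * (82 * P ^ 2) := by
    have h1 : (N2 : ℝ) ≤ 64 * (A : ℝ) ^ 10 * B0 + B1 := by
      have : (N2 : ℝ) ≤ ((8 * A ^ 5 * (8 * A ^ 5) * B0 + B1 : ℕ) : ℝ) := by exact_mod_cast hcop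
      refine this.trans (le_of_eq ?_)
      push_cast
      ring
    have h2 : (B0 : ℝ) * (t : ℝ) ^ (80 * g + 3) ≤ A := by exact_mod_cast hroot
    have h3 : (B1 : ℝ) * (t : ℝ) ^ (80 * g + 3) ≤ (TT (8 * A ^ 5)).card * (A : ℝ) := by
      exact_mod_cast hsum
    have h4 : ((TT (8 * A ^ 5)).card : ℝ) * (A : ℝ) ≤ 64 * (A : ℝ) ^ 10 * (81 * P ^ 2) * A :=
      mul_le_mul_of_nonneg_right hct2 (Nat.cast_nonneg _)
    have h5 : 64 * (A : ℝ) ^ 10 * ((B0 : ℝ) * (t : ℝ) ^ (80 * g + 3)) ≤ 64 * (A : ℝ) ^ 10 * A :=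
      mul_le_mul_of_nonneg_left h2 (by positivity)
    have h6 : (0 : ℝ) ≤ (t : ℝ) ^ (80 * g + 3) := by positivity
    have h7 : (N2 : ℝ) * (t : ℝ) ^ (80 * g + 3) ≤
        (64 * (A : ℝ) ^ 10 * B0 + B1) * (t : ℝ) ^ (80 * g + 3) :=
      mul_le_mul_of_nonneg_right h1 h6
    have h8 : 64 * (A : ℝ) ^ 10 * A ≤ 64 * (A : ℝ) ^ 10 * A * P ^ 2 := by
      have : (1 : ℝ) ≤ P ^ 2 := one_le_pow₀ hP1
      have h9 : (0 : ℝ) ≤ 64 * (A : ℝ) ^ 10 * A := by positivity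
      nlinarith
    calc (N2 : ℝ) * (t : ℝ) ^ (80 * g + 3)
        ≤ 64 * (A : ℝ) ^ 10 * ((B0 : ℝ) * (t : ℝ) ^ (80 * g + 3)) +
          (B1 : ℝ) * (t : ℝ) ^ (80 * g + 3) := by rw [add_mul] at h7; linarith
      _ ≤ 64 * (A : ℝ) ^ 10 * A * P ^ 2 + 64 * (A : ℝ) ^ 10 * (81 * P ^ 2) * A := by linarith
      _ = 64 * (A : ℝ) ^ 11 * (82 * P ^ 2) := by ring
  have hP2 : P ^ 2 = (t : ℝ) ^ (8 * g) := by
    rw [hP, ← pow_mul]
    congr 1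
    ring
  have hN2' : (N2 : ℝ) * (t : ℝ) ^ (72 * g) * 2 ≤ 64 * (A : ℝ) ^ 11 := by
    have h1 : (t : ℝ) ^ (80 * g + 3) = (t : ℝ) ^ (72 * g) * (t : ℝ) ^ 3 * P ^ 2 := by
      rw [hP2, ← pow_add, ← pow_add]
      congr 1
      ring
    rw [h1] at hN2
    have hP20 : 0 < P ^ 2 := by positivity
    have h2 : (N2 : ℝ) * ((t : ℝ) ^ (72 * g) * (t : ℝ) ^ 3) ≤ 64 * (A : ℝ) ^ 11 * 82 := by
      have h3 : ((N2 : ℝ) * ((t : ℝ) ^ (72 * g) * (t : ℝ) ^ 3)) * P ^ 2 ≤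
          (64 * (A : ℝ) ^ 11 * 82) * P ^ 2 := by
        calc ((N2 : ℝ) * ((t : ℝ) ^ (72 * g) * (t : ℝ) ^ 3)) * P ^ 2
            = (N2 : ℝ) * ((t : ℝ) ^ (72 * g) * (t : ℝ) ^ 3 * P ^ 2) := by ring
          _ ≤ 64 * (A : ℝ) ^ 11 * (82 * P ^ 2) := hN2
          _ = (64 * (A : ℝ) ^ 11 * 82) * P ^ 2 := by ring
      exact le_of_mul_le_mul_right h3 hP20
    have h4 : (164 : ℝ) ≤ (t : ℝ) ^ 3 := by
      calc (164 : ℝ) ≤ 6 ^ 3 := by norm_num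
        _ ≤ (t : ℝ) ^ 3 := pow_le_pow_left₀ (by norm_num) htR 3
    have h5 : (0 : ℝ) ≤ (N2 : ℝ) * (t : ℝ) ^ (72 * g) := by positivity
    have h6 : (N2 : ℝ) * (t : ℝ) ^ (72 * g) * 164 ≤
        (N2 : ℝ) * (t : ℝ) ^ (72 * g) * (t : ℝ) ^ 3 := mul_le_mul_of_nonneg_left h4 h5
    have h7 : (N2 : ℝ) * (t : ℝ) ^ (72 * g) * (t : ℝ) ^ 3 =
        (N2 : ℝ) * ((t : ℝ) ^ (72 * g) * (t : ℝ) ^ 3) := by ring
    rw [h7] at h6
    linarith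
  have hN1' : (N1 : ℝ) * (t : ℝ) ^ (72 * g) * 2 ≤ 64 * (A : ℝ) ^ 11 := by
    have h1 : (N1 : ℝ) * 2 ^ t ≤ A * ((8 * A ^ 5 : ℕ) : ℝ) ^ 2 := by exact_mod_cast hnon
    have h2 : (2 : ℝ) * (t : ℝ) ^ (72 * g) ≤ 2 ^ t := by exact_mod_cast h2t
    have h3 : (N1 : ℝ) * (2 * (t : ℝ) ^ (72 * g)) ≤ (N1 : ℝ) * 2 ^ t :=
      mul_le_mul_of_nonneg_left h2 (Nat.cast_nonneg _)
    have h4 : (A : ℝ) * ((8 * A ^ 5 : ℕ) : ℝ) ^ 2 = 64 * (A : ℝ) ^ 11 := by push_cast; ring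
    rw [h4] at h1
    linarith
  have hfin : (N : ℝ) * (t : ℝ) ^ (72 * g) ≤ 64 * (A : ℝ) ^ 11 := by
    have h1 : (N : ℝ) ≤ N1 + N2 := by exact_mod_cast hsplit
    have h2 : (0 : ℝ) ≤ (t : ℝ) ^ (72 * g) := by positivity
    have h3 : (N : ℝ) * (t : ℝ) ^ (72 * g) ≤ (N1 + N2) * (t : ℝ) ^ (72 * g) :=
      mul_le_mul_of_nonneg_right h1 h2
    rw [add_mul] at h3
    linarith
  exact_mod_cast hfin

end Pool.Agent.H62.RV
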