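import Pool.Agent.H62.RV.TupleClassC
import Pool.Agent.H17.RP.Tuple

/-!
# TupleC: the tuple bound

Copy of the theorem `tuple` of `H17/RP/Tuple.lean` (its auxiliary lemmas `tp_...` are public and can be used)
with `Ev` replaced by `EvC (3 * m)`, `Hyp` by `HypC`, `tupleClass` by `tupleClassC` and the modulus
`W' = 3 B W` replaced by `W'' = m · (3 B W)` (`tp_mod` gives the properties of `3 B W`; a prime factor of
`m ≤ t` is `≤ t^24`, so it divides `W`; `W'' ≤ t · 2^(2 + (t c s) 2 + 2 t^24) ≤ 2^(t + 2 + (t c s) 2 + 2 t^24)`,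
and `4 (t + 2 + (t (c s)) 2 + 2 t^24) ≤ 24 t^24 ≤ t^25 ≤ t^(4g)`; `tp_len` with this exponent).
-/

set_option autoImplicit false

namespace Pool.Agent.H62.RV

open Finset Pool.Agent.H17.RP

private theorem TupleC_k {s t c g : ℕ} (ht : 58 ≤ t) (hsc : s * c ≤ t) (hg : 7 ≤ g) :
    4 * (t + (2 + (t * (c * s)) * 2 + 2 * t ^ 24)) ≤ t ^ (4 * g) := by
  have ht0 : 0 < t := by omega
  have h1 : c * s ≤ t := by rw [mul_comm]; exact hsc
  have h2 : t * (c * s) ≤ t ^ 24 := by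
    calc t * (c * s) ≤ t * t := Nat.mul_le_mul_left _ h1
      _ = t ^ 2 := by ring
      _ ≤ t ^ 24 := Nat.pow_le_pow_right ht0 (by norm_num)
  have h4 : t ≤ t ^ 24 := by
    calc t = t ^ 1 := (pow_one t).symm
      _ ≤ t ^ 24 := Nat.pow_le_pow_right ht0 (by norm_num)
  calc 4 * (t + (2 + (t * (c * s)) * 2 + 2 * t ^ 24)) ≤ 24 * t ^ 24 := by omega
    _ ≤ t * t ^ 24 := Nat.mul_le_mul_right _ (by omega)
    _ = t ^ 25 := by ring
    _ ≤ t ^ (4 * g) := Nat.pow_le_pow_right ht0 (by omega)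

theorem tupleC (c2 : ℕ) (hc2 : 24 ≤ c2) : ∃ g0 : ℕ, 7 ≤ g0 ∧ ∀ g ≥ g0, ∀ s : ℕ, ∃ t0 : ℕ,
    ∀ t ≥ t0, ∀ (m : ℕ) (r ε : ℤ), 0 < m → m ≤ t → IsCoprime (fk r) (m : ℤ) → HypC g t m r ε →
    ∀ e f : ℤ × ℤ, Basis2 e f → Box ((AA g t : ℤ) ^ 6) e f →
    ∀ p0 ∈ bwin (t ^ c2), ∀ p : Fin s → ℤ × ℤ, (∀ j, p j ∈ win (t ^ c2)) →
    Function.Injective p → (∀ j, p j ≠ p0) →
    cs (NN g t) (fun n => EvC (3 * m) t (lin e f p0) (fun j => lin e f (p j)) n) *
      t ^ ((2 * c2 + 1) * s) ≤ 3 * AA g t := by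
  obtain ⟨g0, hg0, hcl⟩ := tupleClassC c2 hc2
  refine ⟨g0, hg0, fun g hg s => ?_⟩
  obtain ⟨t1, ht1⟩ := hcl g hg s (4 * g + 1)
  refine ⟨t1 + (2 * c2 + 10) * (2 * s + 2) * 40 * (s + 1),
    fun t ht mm rr ε hm0 hmt hrm hyp e f hb hbox p0 hp0 p hp hinj hne => ?_⟩
  have hg7 : 7 ≤ g := hg0.trans hg
  obtain ⟨htt1, hts, htc, htsc⟩ := tp_par ht
  have ht58 : 58 ≤ t := by omega
  have ht0 : 0 < t := by omega
  have hA1 : 64 * t ^ (2 * c2 + 2) ≤ AA g t := tp_small g t (2 * c2 + 2) (by omega) (by omega)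
  have hLA : 6 * t ^ c2 ≤ AA g t := by
    have h1 : t ^ c2 ≤ t ^ (2 * c2 + 2) := Nat.pow_le_pow_right ht0 (by omega)
    omega
  have hA8 : (8 : ℤ) ≤ AA g t := by
    have h1 : 0 < t ^ (2 * c2 + 2) := Nat.pow_pos ht0
    have h2 : 8 ≤ AA g t := by omega
    exact_mod_cast h2
  have htA : (t : ℤ) ^ (2 * c2 + 2) ≤ AA g t := by
    have : t ^ (2 * c2 + 2) ≤ AA g t := by omega
    exact_mod_cast this
  have hc0 := tp_big hLA hb hbox hp0
  have hcj : ∀ j, 0 ≤ (lin e f (p j)).1 ∧ 1 ≤ (lin e f (p j)).2 ∧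
      (lin e f (p j)).1 ≤ (AA g t : ℤ) ^ 7 ∧ (lin e f (p j)).2 ≤ (AA g t : ℤ) ^ 7 := by
    intro j
    have h1 := tp_big hLA hb hbox (win_bwin (hp j))
    exact ⟨h1.1, tp_second hb hbox (hp j), h1.2.2.2.1, h1.2.2.2.2⟩
  have hdt0 : ∀ j, dt (lin e f p0) (lin e f (p j)) ≠ 0 ∧
      |dt (lin e f p0) (lin e f (p j))| ≤ (t : ℤ) ^ (2 * c2 + 2) := fun j =>
    tp_det (by omega) rfl hb hp0 (hp j) (hne j).symm
  have hdtij : ∀ i j, i ≠ j → dt (lin e f (p i)) (lin e f (p j)) ≠ 0 ∧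
      |dt (lin e f (p i)) (lin e f (p j))| ≤ (t : ℤ) ^ (2 * c2 + 2) := fun i j hij =>
    tp_det (by omega) rfl hb (win_bwin (hp i)) (hp j) (fun h => hij (hinj h))
  -- the set of primes
  have hPc := tp_card (g := g) (t := t) (k := 40) (fun j => (lin e f (p j)).2)
    (fun i j => dt (lin e f (p i)) (lin e f (p j)) * (dt (lin e f (p i)) (lin e f (p j)) ^ 2 +
      3 * (lin e f (p i)).2 ^ 2 * (lin e f (p j)).2 ^ 2))
    (fun j => by
      have h1 := (hcj j).2.1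
      have h2 : (lin e f (p j)).2 ≠ 0 := by omega
      exact h2)
    (fun j => by
      have h1 := hcj j
      have h2 : |(lin e f (p j)).2| ≤ (AA g t : ℤ) ^ 40 := by
        rw [abs_of_nonneg (zero_le_one.trans h1.2.1)]
        exact h1.2.2.2.trans (pow_le_pow_right₀ (by linarith) (by norm_num))
      exact h2)
    (fun i j hij => by
      have h5 := hdtij i j hij
      refine mul_ne_zero h5.1 ?_
      have h6 : 0 < dt (lin e f (p i)) (lin e f (p j)) ^ 2 := by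
        have := h5.1
        positivity
      have h8 : 0 ≤ 3 * (lin e f (p i)).2 ^ 2 * (lin e f (p j)).2 ^ 2 := by positivity
      exact (add_pos_of_pos_of_nonneg h6 h8).ne')
    (fun i j hij => by
      have h5 := hdtij i j hij
      have h6 := hcj i
      have h7 := hcj j
      exact tp_X hA8 (h5.2.trans htA) (zero_le_one.trans h6.2.1) h6.2.2.2
        (zero_le_one.trans h7.2.1) h7.2.2.2) _ rfl
  -- the moduli
  obtain ⟨hB0, hW0, hWa, hWb, hWe, hWf, hW'0, hbB, hWh, hW'le⟩ :=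
    tp_mod (t := t) (c := 2 * c2 + 2) (fun j => (dt (lin e f p0) (lin e f (p j))).natAbs)
      (fun j => Int.natAbs_ne_zero.2 (hdt0 j).1)
      (fun j => by
        have h1 := (hdt0 j).2
        rw [Int.abs_eq_natAbs] at h1
        exact_mod_cast h1) (by omega) (by omega) htsc _ _ _ rfl rfl rfl
  have hk4 := TupleC_k (s := s) (c := 2 * c2 + 2) ht58 htsc hg7
  generalize hBdef : ∏ j, (dt (lin e f p0) (lin e f (p j))).natAbs = B at *
  generalize hWdef : primorial (t ^ 24) * B = W at *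
  generalize hW1def : 3 * B * W = W1 at *
  have hWg1 : ∀ j, 3 * mm * dt (lin e f p0) (lin e f (p j)) * W ∣ ((mm * W1 : ℕ) : ℤ) := by
    intro j
    have h1 : dt (lin e f p0) (lin e f (p j)) ∣ (B : ℤ) := by
      rw [← Int.natAbs_dvd]
      exact Int.natCast_dvd_natCast.2 (hbB j)
    rw [← hW1def]
    push_cast
    have h2 : 3 * (mm : ℤ) * dt (lin e f p0) (lin e f (p j)) * W =
      mm * (3 * dt (lin e f p0) (lin e f (p j)) * W) := by ring
    rw [h2]
    exact mul_dvd_mul (dvd_refl _) (mul_dvd_mul (mul_dvd_mul (dvd_refl _) h1) (dvd_refl _))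
  have hWh1 : ∀ q : ℕ, q.Prime → q ∣ mm * W1 → q ∣ W := by
    intro q hq hd
    rcases hq.dvd_mul.1 hd with h | h
    · refine hWa q hq ((Nat.le_of_dvd hm0 h).trans (hmt.trans ?_))
      calc t = t ^ 1 := (pow_one t).symm
        _ ≤ t ^ 24 := Nat.pow_le_pow_right ht0 (by norm_num)
    · exact hWh q hq h
  have hW10 : 0 < mm * W1 := Nat.mul_pos hm0 hW'0
  have hW1le : mm * W1 ≤ 2 ^ (t + (2 + (t * ((2 * c2 + 2) * s)) * 2 + 2 * t ^ 24)) := by
    rw [pow_add 2 t]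
    exact Nat.mul_le_mul (hmt.trans (tp_two_pow t)) hW'le
  generalize hW'def : mm * W1 = W' at *
  have hclass : ∀ r ∈ range W',
      cs (range ((AA g t + W' - 1 - r) / W'))
        (fun m : ℕ => EvC (3 * mm) t (lin e f p0) (fun j => lin e f (p j))
          ((AA g t : ℤ) + r + W' * m)) *
        t ^ ((2 * c2 + 1) * s) ≤ 3 * ((AA g t + W' - 1 - r) / W') := by
    intro r hr
    rw [mem_range] at hr
    refine ht1 t htt1 mm rr ε hm0 hmt hrm hyp (lin e f p0) (fun j => lin e f (p j)) _ W W' ((AA g t : ℤ) + r)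
      ((AA g t + W' - 1 - r) / W') hc0 hcj hdt0
      (sel_subset _ _) (hPc.trans ?_) (fun q hq j => (mem_sel.1 hq).2.1 j)
      (fun q hq i j hij => (mem_sel.1 hq).2.2 i j hij) hW0 hWa
      (fun j q _ hqd => hWb j q (Int.natCast_dvd.1 hqd)) hWe hWf hW10 hWg1 hWh1 (by omega) ?_ ?_
    · calc 40 * (s + s * s) * t ^ (4 * g) ≤ t * t ^ (4 * g) := Nat.mul_le_mul_right _ hts
        _ = t ^ (4 * g + 1) := by ring
    · intro m hm
      have h1 := tp_in (AA g t) W' r m hW10 hm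
      have h2 : ((r + W' * m : ℕ) : ℤ) < AA g t := by exact_mod_cast h1
      push_cast at h2
      have h3 : (AA g t : ℤ) + r + W' * m < 2 * AA g t := by linarith
      exact h3
    · exact tp_len (t ^ (4 * g)) _ W' r hW10 hr hW1le hk4
  unfold NN
  rw [ap_split (AA g t) W' hW10, sum_mul]
  refine (sum_le_sum hclass).trans ?_
  rw [← mul_sum, sum_class (AA g t) W' hW10]

end Pool.Agent.H62.RV
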