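import Pool.Agent.H62.RV.BoxD
import Pool.Agent.H62.RV.ClAlg
import Pool.Agent.H17.RP.WinLow

/-!
# WinLowC: every window contains many vectors of the class `(1, 0)` without small prime factors

Variant of `winLow` in `H17/RP/WinLow.lean` (the auxiliary lemmas `wl_...` are public).

Proof. `C`, `LB` from `H17/RP/LB.lean`, `C1 = 2 C + 6`.  `z = t^c1`, `L = t^c2`, `L' = L / M`
(`L/(2M) ≤ L' `, `M L' ≤ L`; `M ≤ 3t`).
The basis property gives `(k1, k2)` with `lin e f (k1, k2) = (1, 0)` (Cramer: `dt e f = e.2 f.1 - e.1 f.2 = ±1`;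
`(k1, k2) = (-dt e f · f.2, dt e f · e.2)`: check `k1 e + k2 f`), and then `lin e f p = (1, 0) mod M` for every
`p = (k1, k2) mod M`.  Take `κ1, κ2 ∈ (-M, 0]` with `κi = ki mod M`; for `x, y ∈ [1, L']` the pair
`p = (M x + κ1, M y + κ2)` is in `[1, L]²` and `Cl M (1, 0) (lin e f p)`; different `(x, y)` give
different `p`.
`LB` with `As = [1, L']²`, `Ps` = the primes `≤ z` which do not divide `M`,
`bad q (x, y) : q ∣ Nm (lin e f (M x + κ1, M y + κ2))`, `δ = dw`, `X = L'²`, `E = 3 L' z^C` (`box_countD`):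
at least `L'²/(C (log z)²) - 3 L' z^(2C)` pairs are not bad for any `q ∈ Ps`.  A prime `q ∣ M` does not divide
`Nm (lin e f p)`, which is `1` modulo `M` (`cl_Nm`).  So the norm has no prime factor `≤ z`, and `p` has no
common prime factor `≤ z` (`wl_nm_dvd`).  Pairs in `[1, L]²` with a common factor `> z`: at most `L²/z`
(`wl_common`).  Total at least
`L²/(36 t² C c1² (log t)²) - 3 L z^(2C) - L²/z ≥ L²/t^4` for `t ≥ t0` (`z ≥ t^5`, `z^(2C+1) ≤ L`, `wl_log`).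
-/

set_option autoImplicit false

namespace Pool.Agent.H62.RV

open Finset Pool.Agent.H17.RP

/-- representative of a residue class in `(-M, 0]` -/
private theorem winLowC_rep (k : ℤ) {M : ℕ} (hM : 0 < M) :
    ∃ κ : ℤ, -(M : ℤ) < κ ∧ κ ≤ 0 ∧ (M : ℤ) ∣ κ - k := by
  have hM' : (0 : ℤ) < M := by exact_mod_cast hM
  refine ⟨-((-k) % M), ?_, ?_, ?_⟩
  · have := Int.emod_lt_of_pos (-k) hM'
    linarith
  · have := Int.emod_nonneg (-k) hM'.ne'
    linarith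
  · have h := Int.mul_ediv_add_emod (-k) M
    exact ⟨(-k) / M, by linarith⟩

/-- the class `(1, 0)` in the coordinates of a basis -/
private theorem winLowC_class {e f : ℤ × ℤ} (hb : Basis2 e f) (M : ℕ) (hM : 0 < M) :
    ∃ κ1 κ2 : ℤ, (-(M : ℤ) < κ1 ∧ κ1 ≤ 0) ∧ (-(M : ℤ) < κ2 ∧ κ2 ≤ 0) ∧
      ∀ x y : ℤ, Cl M (1, 0) (lin e f (M * x + κ1, M * y + κ2)) := by
  have hd : dt e f * dt e f = 1 := by
    rcases hb with h | h <;> rw [h] <;> norm_num
  obtain ⟨κ1, h1, h2, c, hc⟩ := winLowC_rep (-(dt e f * f.2)) hM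
  obtain ⟨κ2, h3, h4, d, hd'⟩ := winLowC_rep (dt e f * e.2) hM
  refine ⟨κ1, κ2, ⟨h1, h2⟩, ⟨h3, h4⟩, fun x y => ?_⟩
  have e1 : κ1 = -(dt e f * f.2) + M * c := by linarith
  have e2 : κ2 = dt e f * e.2 + M * d := by linarith
  have hdt : dt e f = e.2 * f.1 - e.1 * f.2 := rfl
  constructor
  · refine ⟨(x + c) * e.1 + (y + d) * f.1, ?_⟩
    unfold lin
    simp only
    rw [e1, e2]
    have : (-(dt e f * f.2)) * e.1 + (dt e f * e.2) * f.1 = 1 := by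
      rw [← hd, hdt]; ring
    linear_combination this
  · refine ⟨(x + c) * e.2 + (y + d) * f.2, ?_⟩
    unfold lin
    simp only
    rw [e1, e2]
    ring

theorem winLowC : ∃ C1 : ℕ, 1 ≤ C1 ∧ ∀ c1 c2 : ℕ, 5 ≤ c1 → C1 * c1 ≤ c2 → ∃ t0 : ℕ, ∀ t ≥ t0,
    ∀ M : ℕ, 0 < M → M ≤ 3 * t → ∀ e f : ℤ × ℤ, Basis2 e f →
    (t ^ c2) ^ 2 ≤ t ^ 4 * cs (win (t ^ c2))
      (fun p => Cl M (1, 0) (lin e f p) ∧
        ∀ q : ℕ, q.Prime → q ≤ t ^ c1 → ¬ (q : ℤ) ∣ Nm (lin e f p)) := by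
  classical
  obtain ⟨C, hC1, hLB⟩ := LB
  refine ⟨2 * C + 6, by omega, fun c1 c2 hc1 hc2 => ?_⟩
  obtain ⟨t0, ht0⟩ := wl_log (72 * C * (c1 : ℝ) ^ 2)
  refine ⟨max t0 6, fun t ht M hM0 hMt e f hb => ?_⟩
  have ht6 : 6 ≤ t := (le_max_right _ _).trans ht
  have htt0 : t0 ≤ t := (le_max_left _ _).trans ht
  obtain ⟨κ1, κ2, ⟨hκ1a, hκ1b⟩, ⟨hκ2a, hκ2b⟩, hcl⟩ := winLowC_class hb M hM0
  set z := t ^ c1 with hz
  set L := t ^ c2 with hL
  set L' := L / M with hL'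
  have ht6' : (6 : ℝ) ≤ t := by exact_mod_cast ht6
  have htp : (0 : ℝ) < t := by linarith
  have hz5 : t ^ 5 ≤ z := Nat.pow_le_pow_right (by omega) hc1
  have hz6t : 6 * t ≤ z := by
    refine le_trans ?_ hz5
    have h1 : t ^ 5 = t ^ 4 * t := by ring
    rw [h1]
    refine Nat.mul_le_mul_right t ?_
    calc 6 ≤ t := ht6
      _ = t ^ 1 := (pow_one t).symm
      _ ≤ t ^ 4 := Nat.pow_le_pow_right (by omega) (by omega)
  have hz2 : 2 ≤ z := by omega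
  have hz0 : 0 < z := by omega
  have hz' : (0 : ℝ) < z := by exact_mod_cast hz0
  have hzL : z ^ (2 * C + 6) ≤ L := by
    rw [hz, hL, ← pow_mul]
    exact Nat.pow_le_pow_right (by omega) (by rw [mul_comm]; exact hc2)
  have hL0 : 0 < L := by rw [hL]; positivity
  have hLpos : (0 : ℝ) < L := by exact_mod_cast hL0
  have hMz : M ≤ z := by omega
  have hMR : (0 : ℝ) < M := by exact_mod_cast hM0
  have hM3 : (M : ℝ) ≤ 3 * t := by exact_mod_cast hMt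
  have hML' : M * L' ≤ L := Nat.mul_div_le L M
  have hL'L : L' ≤ L := Nat.div_le_self L M
  -- `z^C ≤ L'`
  have hzCL' : z ^ C ≤ L' := by
    rw [hL', Nat.le_div_iff_mul_le hM0]
    calc z ^ C * M ≤ z ^ C * z := Nat.mul_le_mul_left _ hMz
      _ = z ^ (C + 1) := by ring
      _ ≤ z ^ (2 * C + 6) := Nat.pow_le_pow_right hz0 (by omega)
      _ ≤ L := hzL
  -- `L ≤ 6 t L'`
  have hL'low : (L : ℝ) ≤ 6 * t * L' := by
    have h1 : L < M * (L' + 1) := by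
      rw [hL']; exact Nat.lt_mul_div_succ L hM0
    have hL'1 : 1 ≤ L' := le_trans (Nat.one_le_pow _ _ hz0) hzCL'
    have h2 : L ≤ 6 * t * L' := by
      calc L ≤ M * (L' + 1) := h1.le
        _ ≤ (3 * t) * (L' + L') := Nat.mul_le_mul hMt (by omega)
        _ = 6 * t * L' := by ring
    exact_mod_cast h2
  have h1 := hLB z hz2 ((range (z + 1)).filter (fun q => q.Prime ∧ ¬ q ∣ M))
    (fun p hp => by
      rw [mem_filter, mem_range] at hp
      exact ⟨hp.2.1, by omega⟩) dw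
    (fun p hp => by
      rw [mem_filter] at hp
      exact dw_bounds hp.2.1) (ℤ × ℤ) (Icc (1 : ℤ) L' ×ˢ Icc (1 : ℤ) L')
    (fun p x => (p : ℤ) ∣ Nm (lin e f (M * x.1 + κ1, M * x.2 + κ2))) ((L' : ℝ) ^ 2)
    (3 * L' * (z : ℝ) ^ C) (by positivity)
    (by positivity) (fun I hI hI2 => by
      have h2 := box_countD hb I (fun p hp => by
        have := hI hp
        rw [mem_filter] at this
        exact this.2.1) (M := M) (fun p hp => by
        have := hI hp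
        rw [mem_filter] at this
        exact this.2.2) κ1 κ2 L' (hI2.trans hzCL')
      refine h2.trans ?_
      have h3 : ((∏ p ∈ I, p : ℕ) : ℝ) ≤ (z : ℝ) ^ C := by exact_mod_cast hI2
      exact mul_le_mul_of_nonneg_left h3 (by positivity))
  have h2 := wl_common L z (by omega)
  -- the good pairs give elements of the window or have a common divisor > z
  have h3 : cs (Icc (1 : ℤ) L' ×ˢ Icc (1 : ℤ) L')
      (fun a => ∀ p ∈ (range (z + 1)).filter (fun q => q.Prime ∧ ¬ q ∣ M),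
        ¬ (p : ℤ) ∣ Nm (lin e f (M * a.1 + κ1, M * a.2 + κ2))) ≤
      cs (win L) (fun p => Cl M (1, 0) (lin e f p) ∧
        ∀ q : ℕ, q.Prime → q ≤ z → ¬ (q : ℤ) ∣ Nm (lin e f p)) +
      cs (Icc (1 : ℤ) L ×ˢ Icc (1 : ℤ) L)
        (fun a => ∃ d ∈ Ioc z L, (d : ℤ) ∣ a.1 ∧ (d : ℤ) ∣ a.2) := by
    unfold cs
    have hinj : Set.InjOn (fun a : ℤ × ℤ => ((M : ℤ) * a.1 + κ1, (M : ℤ) * a.2 + κ2))
        (sel (Icc (1 : ℤ) L' ×ˢ Icc (1 : ℤ) L')
          (fun a => ∀ p ∈ (range (z + 1)).filter (fun q => q.Prime ∧ ¬ q ∣ M),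
            ¬ (p : ℤ) ∣ Nm (lin e f (M * a.1 + κ1, M * a.2 + κ2))) : Set (ℤ × ℤ)) := by
      rintro ⟨a, b⟩ - ⟨a', b'⟩ - hab
      have hMZ : (M : ℤ) ≠ 0 := by exact_mod_cast hM0.ne'
      simp only [Prod.mk.injEq] at hab
      have e1 : (M : ℤ) * a = M * a' := by linarith [hab.1]
      have e2 : (M : ℤ) * b = M * b' := by linarith [hab.2]
      rw [mul_left_cancel₀ hMZ e1, mul_left_cancel₀ hMZ e2]
    rw [← card_image_of_injOn hinj]
    refine (card_le_card ?_).trans (card_union_le _ _)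
    intro p hp
    rw [mem_image] at hp
    obtain ⟨⟨a, b⟩, hab, rfl⟩ := hp
    rw [mem_sel] at hab
    obtain ⟨hab1, hab2⟩ := hab
    simp only at hab2
    rw [mem_product, mem_Icc, mem_Icc] at hab1
    simp only at hab1
    obtain ⟨⟨ha1, ha2⟩, hb1, hb2⟩ := hab1
    have hMZ : (0 : ℤ) < M := by exact_mod_cast hM0
    have hMLZ : (M : ℤ) * L' ≤ L := by exact_mod_cast hML'
    have hbox : ((M : ℤ) * a + κ1, (M : ℤ) * b + κ2) ∈ Icc (1 : ℤ) L ×ˢ Icc (1 : ℤ) L := by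
      rw [mem_product, mem_Icc, mem_Icc]
      simp only
      refine ⟨⟨?_, ?_⟩, ?_, ?_⟩
      · nlinarith
      · have := mul_le_mul_of_nonneg_left ha2 hMZ.le
        linarith
      · nlinarith
      · have := mul_le_mul_of_nonneg_left hb2 hMZ.le
        linarith
    have hc := hcl a b
    have hgood : ∀ q : ℕ, q.Prime → q ≤ z →
        ¬ (q : ℤ) ∣ Nm (lin e f ((M : ℤ) * a + κ1, (M : ℤ) * b + κ2)) := by
      intro q hq hqz hdvd
      by_cases hqM : q ∣ M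
      · have h4 := cl_Nm hc
        have h5 : Nm ((1 : ℤ), (0 : ℤ)) = 1 := by
          unfold Nm F
          norm_num
        rw [h5] at h4
        have h6 : (q : ℤ) ∣ M := Int.natCast_dvd_natCast.2 hqM
        have h7 : (q : ℤ) ∣ 1 := by
          have := dvd_sub hdvd (h6.trans h4)
          simpa using this
        have h8 : q ∣ 1 := by exact_mod_cast h7
        exact hq.one_lt.ne' (Nat.dvd_one.1 h8)
      · exact hab2 q (by rw [mem_filter, mem_range]; exact ⟨by omega, hq, hqM⟩) hdvd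
    rw [mem_union, mem_sel, mem_sel]
    by_cases hcop : IsCoprime ((M : ℤ) * a + κ1) ((M : ℤ) * b + κ2)
    · left
      refine ⟨?_, hc, hgood⟩
      unfold win
      rw [mem_sel]
      exact ⟨hbox, hcop⟩
    · right
      refine ⟨hbox, ?_⟩
      rw [mem_product, mem_Icc, mem_Icc] at hbox
      simp only at hbox
      rw [Int.isCoprime_iff_gcd_eq_one] at hcop
      obtain ⟨q, hq, hqd⟩ := Nat.exists_prime_and_dvd hcop
      have hqa : (q : ℤ) ∣ (M : ℤ) * a + κ1 :=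
        (Int.natCast_dvd_natCast.2 hqd).trans (Int.gcd_dvd_left _ _)
      have hqb : (q : ℤ) ∣ (M : ℤ) * b + κ2 :=
        (Int.natCast_dvd_natCast.2 hqd).trans (Int.gcd_dvd_right _ _)
      refine ⟨q, ?_, hqa, hqb⟩
      rw [mem_Ioc]
      constructor
      · by_contra hc
        push Not at hc
        exact hgood q hq hc (wl_nm_dvd hqa hqb)
      · have := Int.le_of_dvd (by omega) hqa
        omega
  have h3' : (cs (Icc (1 : ℤ) L' ×ˢ Icc (1 : ℤ) L')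
      (fun a => ∀ p ∈ (range (z + 1)).filter (fun q => q.Prime ∧ ¬ q ∣ M),
        ¬ (p : ℤ) ∣ Nm (lin e f (M * a.1 + κ1, M * a.2 + κ2))) : ℝ) ≤
      cs (win L) (fun p => Cl M (1, 0) (lin e f p) ∧
        ∀ q : ℕ, q.Prime → q ≤ z → ¬ (q : ℤ) ∣ Nm (lin e f p)) +
      cs (Icc (1 : ℤ) L ×ˢ Icc (1 : ℤ) L)
        (fun a => ∃ d ∈ Ioc z L, (d : ℤ) ∣ a.1 ∧ (d : ℤ) ∣ a.2) := by exact_mod_cast h3
  set G := cs (win L) (fun p => Cl M (1, 0) (lin e f p) ∧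
        ∀ q : ℕ, q.Prime → q ≤ z → ¬ (q : ℤ) ∣ Nm (lin e f p)) with hG
  have h4 : (L' : ℝ) ^ 2 / (C * Real.log z ^ 2) - 3 * L' * (z : ℝ) ^ C * (z : ℝ) ^ C -
      (L : ℝ) ^ 2 / z ≤ G := by linarith
  -- the numbers
  have hlogt : 0 < Real.log t := Real.log_pos (by linarith)
  have hlogz : Real.log z = c1 * Real.log t := by
    rw [hz]; push_cast; rw [Real.log_pow]
  have hCpos : (0 : ℝ) < C := by exact_mod_cast hC1
  have hc1pos : (0 : ℝ) < c1 := by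
    have : 0 < c1 := by omega
    exact_mod_cast this
  have ht4 : (0 : ℝ) < (t : ℝ) ^ 4 := by positivity
  -- main term
  have h5 : (L : ℝ) ^ 2 * (2 / (t : ℝ) ^ 4) ≤ (L' : ℝ) ^ 2 / (C * Real.log z ^ 2) := by
    have hK : 72 * (C : ℝ) * (c1 : ℝ) ^ 2 * Real.log t ^ 2 ≤ t := ht0 t htt0
    have hlo : (L : ℝ) ^ 2 ≤ (6 * t * L') ^ 2 := pow_le_pow_left₀ hLpos.le hL'low 2
    rw [hlogz, le_div_iff₀ (by positivity)]
    have hK2 : 72 * (C : ℝ) * (c1 : ℝ) ^ 2 * Real.log t ^ 2 ≤ (t : ℝ) ^ 2 := by nlinarith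
    have e1 : (L : ℝ) ^ 2 * (2 / (t : ℝ) ^ 4) * (C * (c1 * Real.log t) ^ 2) =
        (L : ℝ) ^ 2 * (72 * (C : ℝ) * (c1 : ℝ) ^ 2 * Real.log t ^ 2) / (36 * (t : ℝ) ^ 4) := by
      field_simp
      ring
    rw [e1, div_le_iff₀ (by positivity)]
    calc (L : ℝ) ^ 2 * (72 * (C : ℝ) * (c1 : ℝ) ^ 2 * Real.log t ^ 2)
        ≤ (6 * t * L') ^ 2 * (t : ℝ) ^ 2 :=
          mul_le_mul hlo hK2 (by positivity) (by positivity)
      _ = (L' : ℝ) ^ 2 * (36 * (t : ℝ) ^ 4) := by ring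
  have hL'LR : (L' : ℝ) ≤ L := by exact_mod_cast hL'L
  have h6 : 3 * (L' : ℝ) * (z : ℝ) ^ C * (z : ℝ) ^ C ≤ (L : ℝ) ^ 2 * (3 / z) := by
    have h7 : (z : ℝ) ^ (2 * C + 6) ≤ L := by exact_mod_cast hzL
    have h8 : (z : ℝ) ^ C * (z : ℝ) ^ C * z ≤ L := by
      refine le_trans ?_ h7
      have : (z : ℝ) ^ C * (z : ℝ) ^ C * z = (z : ℝ) ^ (2 * C + 1) := by ring
      rw [this]
      have hz1 : (1 : ℝ) ≤ z := by exact_mod_cast hz0
      exact pow_le_pow_right₀ hz1 (by omega)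
    have h9 : (z : ℝ) ^ C * (z : ℝ) ^ C ≤ L / z := by
      rw [le_div_iff₀ hz']; exact h8
    calc 3 * (L' : ℝ) * (z : ℝ) ^ C * (z : ℝ) ^ C = 3 * L' * ((z : ℝ) ^ C * (z : ℝ) ^ C) := by ring
      _ ≤ 3 * L * (L / z) := mul_le_mul (by linarith) h9 (by positivity) (by positivity)
      _ = (L : ℝ) ^ 2 * (3 / z) := by ring
  have h7 : (4 : ℝ) / z ≤ 1 / (t : ℝ) ^ 4 := by
    rw [div_le_div_iff₀ hz' ht4]
    have h8 : (t : ℝ) ^ 5 ≤ z := by exact_mod_cast hz5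
    have h9 : 4 * (t : ℝ) ^ 4 ≤ (t : ℝ) ^ 5 := by
      have : (t : ℝ) ^ 5 = t * (t : ℝ) ^ 4 := by ring
      rw [this]
      exact mul_le_mul_of_nonneg_right (by linarith) ht4.le
    linarith
  have h8 : (L : ℝ) ^ 2 * (1 / (t : ℝ) ^ 4) ≤ G := by
    have e2 : (L : ℝ) ^ 2 / z = (L : ℝ) ^ 2 * (1 / z) := by ring
    rw [e2] at h4
    have e3 : (4 : ℝ) / z = 3 / z + 1 / z := by ring
    have e4 : (2 : ℝ) / (t : ℝ) ^ 4 = 1 / (t : ℝ) ^ 4 + 1 / (t : ℝ) ^ 4 := by ring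
    have h10 := mul_le_mul_of_nonneg_left h7 (by positivity : (0 : ℝ) ≤ (L : ℝ) ^ 2)
    rw [e3, mul_add] at h10
    rw [e4, mul_add] at h5
    linarith
  have h9 : (L : ℝ) ^ 2 ≤ (t : ℝ) ^ 4 * G := by
    rw [mul_one_div, div_le_iff₀ ht4] at h8
    linarith
  exact_mod_cast h9

end Pool.Agent.H62.RV
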