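import Pool.Agent.H62.RV.WinLowC
import Pool.Agent.H17.RP.WinSurv

/-!
# WinSurvC: for almost all `n` the window contains many rough vectors of the class `(1, 0)`

Variant of `winSurv` in `H17/RP/WinSurv.lean` (copy it).

Changes. `W = M · primorial (t^c1)` (`M ≤ 3t ≤ t^c1`, so the prime factors of `W` are exactly the primes
`≤ t^c1`; `W ≤ 3 t 2^(2z) ≤ 2^(4z)`, `z = t^c1`; `8 z ≤ t^(4g)` because `c1 + 2 ≤ 4g`, so `N² ≥ A` as there).
`S = {p ∈ win L : Cl M (1, 0) (sh n0 (lin e f p)) and Nm (sh n0 (lin e f p)) has no prime factor ≤ z}`; by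
`winLowC` for the basis `(sh n0 e, sh n0 f)` (`basis_sh`, `sh_lin`) `|S| ≥ L²/t^4`.  A class of a prime
`q > z ≥ t^28` kills at most `4 L²/t^28 ≤ |S|/t^20` elements (`t ≥ 4`).  `surv` gives for all but `N/t^C` of the
`k` at least `|S|/t^10 ≥ L²/t^14` survivors; survivors are rough, and they are in the class `(1, 0)` modulo
`M` also for `n = n0 + W k` (`cl_sh`).
-/

set_option autoImplicit false

namespace Pool.Agent.H62.RV

open Finset Pool.Agent.H17.RP

theorem winSurvC : ∃ C1 : ℕ, 1 ≤ C1 ∧ ∀ c1 c2 : ℕ, 28 ≤ c1 → C1 * c1 ≤ c2 →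
    ∀ g C : ℕ, c1 + 2 ≤ 4 * g → ∃ t0 : ℕ, ∀ t ≥ t0, ∀ M : ℕ, 0 < M → M ≤ 3 * t →
    ∀ e f : ℤ × ℤ, Basis2 e f →
    cs (NN g t) (fun n => cs (win (t ^ c2)) (fun p => Cl M (1, 0) (sh n (lin e f p)) ∧
      Rough (2 ^ t) (Nm (sh n (lin e f p)))) * t ^ 14 < (t ^ c2) ^ 2) * t ^ C ≤ AA g t := by
  classical
  obtain ⟨C1, hC1, hlow⟩ := winLowC
  refine ⟨C1, hC1, fun c1 c2 hc1 hc2 g C hg => ?_⟩
  obtain ⟨t1, ht1⟩ := hlow c1 c2 (by omega) hc2
  obtain ⟨t2, ht2⟩ := surv g C (by omega)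
  refine ⟨max (max t1 t2) 4, fun t ht M hM0 hM3 e f hb => ?_⟩
  have ht4 : 4 ≤ t := (le_max_right _ _).trans ht
  have htt1 : t1 ≤ t := ((le_max_left _ _).trans (le_max_left _ _)).trans ht
  have htt2 : t2 ≤ t := ((le_max_right _ _).trans (le_max_left _ _)).trans ht
  set L := t ^ c2 with hL
  set z := t ^ c1 with hz
  have hzpos : 0 < z := by rw [hz]; positivity
  have hLpos : 0 < L := by rw [hL]; positivity
  have hc12 : c1 ≤ c2 := le_trans (Nat.le_mul_of_pos_left c1 hC1) hc2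
  have hzL : z ≤ L := Nat.pow_le_pow_right (by omega) hc12
  have htz : t ^ 28 ≤ z := Nat.pow_le_pow_right (by omega) hc1
  have htz1 : t ≤ z := le_trans (by
    calc t = t ^ 1 := (pow_one t).symm
      _ ≤ t ^ 28 := Nat.pow_le_pow_right (by omega) (by omega)) htz
  have h3tz : 3 * t ≤ z := le_trans (by
    calc 3 * t ≤ t * t := Nat.mul_le_mul_right _ (by omega)
      _ = t ^ 2 := by ring
      _ ≤ t ^ 28 := Nat.pow_le_pow_right (by omega) (by omega)) htz
  set W := M * primorial z with hW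
  have hWpos : 0 < W := Nat.mul_pos hM0 (primorial_pos z)
  have hWle : W ≤ 2 ^ (4 * z) := by
    have h1 := primorial_le_four_pow z
    have h2 : M ≤ 4 ^ z := by
      have h3 : z < 4 ^ z := Nat.lt_pow_self (by norm_num)
      omega
    calc W ≤ 4 ^ z * 4 ^ z := Nat.mul_le_mul h2 h1
      _ = 2 ^ (4 * z) := by
        rw [← mul_pow, show 4 * 4 = 2 ^ 4 by norm_num, ← pow_mul]
  have hMW : M ∣ W := Dvd.intro _ rfl
  have hWdvd : ∀ q : ℕ, q.Prime → q ≤ z → q ∣ W := by
    intro q hq hqz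
    rw [hW, primorial]
    refine dvd_mul_of_dvd_right ?_ M
    exact dvd_prod_of_mem (fun p => p) (by rw [mem_filter, mem_range]; exact ⟨by omega, hq⟩)
  have hWnot : ∀ q : ℕ, q.Prime → z < q → ¬ q ∣ W := by
    intro q hq hqz hdiv
    rw [hW] at hdiv
    rcases hq.dvd_mul.1 hdiv with hdiv | hdiv
    · have := Nat.le_of_dvd hM0 hdiv
      omega
    rw [primorial, Prime.dvd_finsetProd_iff hq.prime] at hdiv
    obtain ⟨p, hp, hqp⟩ := hdiv
    rw [mem_filter, mem_range] at hp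
    have := (Nat.prime_dvd_prime_iff_eq hq hp.2).1 hqp
    omega
  have hlin : ∀ (n : ℤ) (p : ℤ × ℤ), lin (sh n e) (sh n f) p = sh n (lin e f p) :=
    fun n p => (sh_lin n e f p).symm
  have h8z : 8 * z ≤ t ^ (4 * g) := by
    calc 8 * z ≤ t * t * t ^ c1 := Nat.mul_le_mul_right _ (by nlinarith)
      _ = t ^ (c1 + 2) := by ring
      _ ≤ t ^ (4 * g) := Nat.pow_le_pow_right (by omega) hg
  have hclass : ∀ r ∈ range W,
      cs (range ((AA g t + W - 1 - r) / W)) (fun m : ℕ =>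
        cs (win L) (fun p => Cl M (1, 0) (sh ((AA g t : ℤ) + r + W * m) (lin e f p)) ∧
          Rough (2 ^ t) (Nm (sh ((AA g t : ℤ) + r + W * m) (lin e f p)))) * t ^ 14
          < L ^ 2) * t ^ C ≤ (AA g t + W - 1 - r) / W := by
    intro r hr
    rw [mem_range] at hr
    set N := (AA g t + W - 1 - r) / W with hN
    set n0 : ℤ := (AA g t : ℤ) + r with hn0
    set S := sel (win L) (fun p => Cl M (1, 0) (sh n0 (lin e f p)) ∧
      ∀ q : ℕ, q.Prime → q ≤ z → ¬ (q : ℤ) ∣ Nm (sh n0 (lin e f p))) with hS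
    have hSc : L ^ 2 ≤ t ^ 4 * S.card := by
      have := ht1 t htt1 M hM0 hM3 (sh n0 e) (sh n0 f) (basis_sh hb n0)
      simp only [hlin n0] at this
      exact this
    have hL2 : 0 < L ^ 2 := by positivity
    have hSpos : 0 < S.card := by
      by_contra hc
      have : S.card = 0 := by omega
      rw [this] at hSc
      omega
    have hNbig : AA g t ≤ N ^ 2 := by
      have h1 := ws_len (t ^ (4 * g)) (4 * z) W r hWpos hr hWle (by omega)
      have h2 : 2 ^ (t ^ (4 * g) - 4 * z) ≤ N := h1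
      calc AA g t = 2 ^ (t ^ (4 * g)) := rfl
        _ ≤ 2 ^ ((t ^ (4 * g) - 4 * z) * 2) := Nat.pow_le_pow_right (by norm_num) (by omega)
        _ = (2 ^ (t ^ (4 * g) - 4 * z)) ^ 2 := by rw [pow_mul]
        _ ≤ N ^ 2 := Nat.pow_le_pow_left h2 2
    set Q := (Ioc z (2 ^ t)).filter Nat.Prime with hQ
    have hQm : ∀ q : ℕ, q ∈ Q ↔ (z < q ∧ q ≤ 2 ^ t) ∧ q.Prime := by
      intro q
      rw [hQ, mem_filter, mem_Ioc]
    have h3 := ht2 t htt2 (ℤ × ℤ) S Q
      (fun q m p => (q : ℤ) ∣ Nm (sh (n0 + W * (m : ℤ)) (lin e f p))) (card_pos.1 hSpos)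
      (fun q hq => by
        rw [hQm] at hq
        exact ⟨hq.2, by omega, hq.1.2⟩)
      (fun q _ m p _ => root_per q W n0 (lin e f p) m)
      (fun q hq p hp => by
        rw [hQm] at hq
        have hp1 := (mem_sel.1 hp).1
        unfold win at hp1
        have hcop := coprime_lin hb (mem_sel.1 hp1).2
        exact (root_le hq.2 hcop (hWnot q hq.2 hq.1.1) n0).trans (by norm_num))
      (fun q hq m => by
        rw [hQm] at hq
        have h4 := win_lines hq.2 (basis_sh hb (n0 + W * (m : ℤ))) L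
        have h5 : cs S (fun p => (q : ℤ) ∣ Nm (sh (n0 + W * (m : ℤ)) (lin e f p))) ≤
            2 * (L * (L / q + 1)) := by
          refine le_trans (cs_subset (sel_subset _ _) _) ?_
          simp only [hlin] at h4
          exact h4
        set c := cs S (fun p => (q : ℤ) ∣ Nm (sh (n0 + W * (m : ℤ)) (lin e f p))) with hc
        have h6 : (L / q + 1) * z ≤ 2 * L := by
          have h7 : L / q * z ≤ L := by
            calc L / q * z ≤ L / q * q := Nat.mul_le_mul_left _ hq.1.1.le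
              _ ≤ L := Nat.div_mul_le_self L q
          calc (L / q + 1) * z = L / q * z + z := by ring
            _ ≤ L + L := Nat.add_le_add h7 hzL
            _ = 2 * L := by ring
        have h7 : c * t ^ 28 ≤ 4 * (t ^ 4 * S.card) := by
          calc c * t ^ 28 ≤ c * z := Nat.mul_le_mul_left _ htz
            _ ≤ 2 * (L * (L / q + 1)) * z := Nat.mul_le_mul_right _ h5
            _ = 2 * L * ((L / q + 1) * z) := by ring
            _ ≤ 2 * L * (2 * L) := Nat.mul_le_mul_left _ h6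
            _ = 4 * L ^ 2 := by ring
            _ ≤ 4 * (t ^ 4 * S.card) := Nat.mul_le_mul_left _ hSc
        have h8 : (c * t ^ 20) * (4 * t ^ 4) ≤ S.card * (4 * t ^ 4) := by
          have h9 : 4 * t ^ 4 ≤ t ^ 8 := by
            calc 4 * t ^ 4 ≤ t * t ^ 4 := Nat.mul_le_mul_right _ ht4
              _ = t ^ 5 := by ring
              _ ≤ t ^ 8 := Nat.pow_le_pow_right (by omega) (by omega)
          calc (c * t ^ 20) * (4 * t ^ 4) ≤ (c * t ^ 20) * t ^ 8 := Nat.mul_le_mul_left _ h9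
            _ = c * t ^ 28 := by ring
            _ ≤ 4 * (t ^ 4 * S.card) := h7
            _ = S.card * (4 * t ^ 4) := by ring
        exact Nat.le_of_mul_le_mul_right h8 (by positivity)) N hNbig
    refine le_trans (Nat.mul_le_mul_right _ (cs_mono ?_)) h3
    intro m _ hm
    by_contra hc
    push Not at hc
    have h4 : cs S (fun p => ∀ q ∈ Q, ¬ (q : ℤ) ∣ Nm (sh (n0 + W * (m : ℤ)) (lin e f p))) ≤
        cs (win L) (fun p => Cl M (1, 0) (sh ((AA g t : ℤ) + r + W * m) (lin e f p)) ∧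
          Rough (2 ^ t) (Nm (sh ((AA g t : ℤ) + r + W * m) (lin e f p)))) := by
      refine card_le_card ?_
      intro p hp
      rw [mem_sel] at hp ⊢
      obtain ⟨hpS, hp2⟩ := hp
      rw [hS, mem_sel] at hpS
      refine ⟨hpS.1, ?_, ?_⟩
      · have h6 : (M : ℤ) ∣ ((AA g t : ℤ) + r + W * m) - n0 := by
          have h7 : (M : ℤ) ∣ (W : ℤ) := Int.natCast_dvd_natCast.2 hMW
          have h8 : ((AA g t : ℤ) + r + W * m) - n0 = W * m := by rw [hn0]; ring
          rw [h8]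
          exact h7.mul_right _
        exact (cl_sh h6 _ _).2 hpS.2.1
      intro q hq hqd
      by_contra hq2
      push Not at hq2
      rcases Nat.lt_or_ge z q with h5 | h5
      · exact hp2 q ((hQm q).2 ⟨⟨h5, hq2⟩, hq⟩) hqd
      · refine hpS.2.2 q hq h5 ?_
        have h6 : (q : ℤ) ∣ (W : ℤ) := Int.natCast_dvd_natCast.2 (hWdvd q hq h5)
        have h7 : (q : ℤ) ∣ Nm (sh (n0 + W * (m : ℤ)) (lin e f p)) - Nm (sh n0 (lin e f p)) := by
          unfold Nm F sh
          simp only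
          set u := (lin e f p).1
          set v := (lin e f p).2
          obtain ⟨y, hy⟩ := h6
          rw [hy]
          exact ⟨y * m * v * (2 * (u + n0 * v) + q * y * m * v + 3 * v), by ring⟩
        exact (Int.dvd_iff_dvd_of_dvd_sub h7).1 hqd
    have h5 : L ^ 2 ≤ cs (win L)
        (fun p => Cl M (1, 0) (sh ((AA g t : ℤ) + r + W * m) (lin e f p)) ∧
          Rough (2 ^ t) (Nm (sh ((AA g t : ℤ) + r + W * m) (lin e f p)))) * t ^ 14 := by
      calc L ^ 2 ≤ t ^ 4 * S.card := hSc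
        _ ≤ t ^ 4 * (cs S (fun p => ∀ q ∈ Q, ¬ (q : ℤ) ∣ Nm (sh (n0 + W * (m : ℤ)) (lin e f p))) *
            t ^ 10) := Nat.mul_le_mul_left _ hc
        _ = cs S (fun p => ∀ q ∈ Q, ¬ (q : ℤ) ∣ Nm (sh (n0 + W * (m : ℤ)) (lin e f p))) * t ^ 14 := by
            ring
        _ ≤ _ := Nat.mul_le_mul_right _ h4
    exact absurd hm (not_lt.2 h5)
  unfold NN
  rw [ap_split (AA g t) W hWpos, sum_mul]
  refine (sum_le_sum hclass).trans ?_
  rw [sum_class (AA g t) W hWpos]

end Pool.Agent.H62.RV
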